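import Pool.Agent.Work.MP_ae1ff6_tz.InterfaceA

/-!
# MP_ae1ff6_gt, THEOREM TZ, block AC1: the action on the circle and on the disc (helper16)
-/

open Topology Filter Set
open scoped ComplexConjugate

set_option autoImplicit false

namespace Pool.TZ

open Pool.CG Pool.AR Pool.SH

/-- `1 - ‖act g k‖ ^ 2 = (1 - ‖k‖ ^ 2) / kD ^ 2` -/
theorem AC1_norm (h1 : Stmt_ACW) (h2 : Stmt_KPP) (g : H) (α β k : ℂ) (hp : Par g α β)
    (hk : ‖k‖ ≤ 1) : (1 - ‖act g k‖ ^ 2) * kD α β k ^ 2 = 1 - ‖k‖ ^ 2 := by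
  have hD := (h2 α β k hp.1).1 hk
  have h3 := (h2 α β k hp.1).2
  rw [h1 g α β hp k, norm_div, Complex.norm_real, Real.norm_eq_abs, div_pow, sq_abs, sub_mul,
    div_mul_cancel₀ _ (pow_ne_zero 2 hD.ne'), one_mul]
  exact h3

theorem p_AC1 (h1 : Stmt_ACW) (h2 : Stmt_KPP) (h3 : Stmt_KPA) : Stmt_AC1 := by
  constructor
  · intro g hg z
    obtain ⟨α, β, hp⟩ := (Pool.GC.mb1.1 g).1 hg
    have hz : ‖(z : ℂ)‖ = 1 := Circle.norm_coe z
    have hD := (h2 α β z hp.1).1 hz.le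
    have hd := (Pool.GC.mb1.2 g α β hp).1 z
    have hDc : ((kD α β z : ℝ) : ℂ) ≠ 0 := by
      exact_mod_cast hD.ne'
    rw [h1 g α β hp z, div_eq_iff hDc]
    apply mul_right_cancel₀ hd
    rw [h3.2 α β z hz, ← hp.2 z]
    ring
  · intro g hg k
    obtain ⟨α, β, hp⟩ := (Pool.GC.mb1.1 g).1 hg
    have key : ∀ h : ‖k‖ ≤ 1, (1 - ‖act g k‖ ^ 2) * kD α β k ^ 2 = 1 - ‖k‖ ^ 2 :=
      fun h => AC1_norm h1 h2 g α β k hp h
    constructor
    · intro hk
      have hD := (h2 α β k hp.1).1 hk.le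
      have e := key hk.le
      have hD2 : 0 < kD α β k ^ 2 := by positivity
      have h4 : 0 < 1 - ‖k‖ ^ 2 := by nlinarith [norm_nonneg k]
      have h5 : 0 < 1 - ‖act g k‖ ^ 2 := by
        rw [← e] at h4
        exact (pos_iff_pos_of_mul_pos h4).2 hD2
      nlinarith [norm_nonneg (act g k)]
    · intro hk
      have hD := (h2 α β k hp.1).1 hk
      have e := key hk
      have hD2 : 0 < kD α β k ^ 2 := by positivity
      have h4 : 0 ≤ 1 - ‖k‖ ^ 2 := by nlinarith [norm_nonneg k]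
      have h5 : 0 ≤ 1 - ‖act g k‖ ^ 2 := by
        rw [← e] at h4
        exact nonneg_of_mul_nonneg_left h4 hD2
      nlinarith [norm_nonneg (act g k)]

end Pool.TZ
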