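import Pool.Agent.Work.MP_ae1ff6_tz.InterfaceA

open Topology Filter Set
open scoped ComplexConjugate

set_option autoImplicit false

namespace Pool.TZ

open Pool.CG Pool.AR Pool.SH

theorem p_AC2 (h1 : Stmt_ACW) (h2 : Stmt_KPP) (h3 : Stmt_KPC) : Stmt_AC2 := by
  refine ⟨?_, ?_⟩
  · intro g g' hg hg' k hk
    obtain ⟨α, β, hp⟩ := (Pool.GC.mb1.1 g).1 hg
    obtain ⟨α', β', hp'⟩ := (Pool.GC.mb1.1 g').1 hg'
    have hpp := Pool.GC.mb2.1 g g' α β α' β' hp hp'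
    have hd : 0 < kD α' β' k := (h2 α' β' k hp'.1).1 hk
    have hd0 : kD α' β' k ≠ 0 := hd.ne'
    have hdc : (kD α' β' k : ℂ) ≠ 0 := by exact_mod_cast hd0
    obtain ⟨e1, e2⟩ := h3 α β α' β' k hd0
    rw [h1 _ _ _ hpp k, h1 _ _ _ hp' k, h1 _ _ _ hp, ← e1, ← e2]
    push_cast
    rw [mul_div_mul_left _ _ hdc]
  · intro k hk
    rw [h1 1 1 0 Pool.GC.mb2.2.2 k]
    simp [kN, kD]

end Pool.TZ
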