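import Pool.Agent.Work.MP_ae1ff6_tz.InterfaceA

/-!
# MP_ae1ff6_gt, THEOREM TZ, block AC3: continuity of the action on the closed disc (helper95)
-/

open Topology Filter Set
open scoped ComplexConjugate

set_option autoImplicit false

namespace Pool.TZ

open Pool.CG Pool.AR Pool.SH

theorem p_AC3 (h1 : Stmt_ACW) (h2 : Stmt_KPP) : Stmt_AC3 := by
  intro g hg
  obtain ⟨α, β, hp⟩ := (Pool.GC.mb1.1 g).1 hg
  have e : act g = fun k => kN α β k / (kD α β k : ℂ) := by
    funext k
    exact h1 g α β hp k
  rw [e]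
  apply ContinuousOn.div
  · unfold kN
    fun_prop
  · unfold kD
    fun_prop
  · intro k hk
    have hk' : ‖k‖ ≤ 1 := by simpa using hk
    have hD := (h2 α β k hp.1).1 hk'
    exact_mod_cast hD.ne'

end Pool.TZ
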