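import Pool.Agent.Work.MP_ae1ff6_tz.InterfaceA

/-!
# Block AC4: Möbius maps send segments to segments
-/

open Topology Filter Set
open scoped ComplexConjugate

set_option autoImplicit false

namespace Pool.TZ

open Pool.CG Pool.AR Pool.SH

theorem AC4_sub (h1 : Stmt_ACW) (h2 : Stmt_KPP) (h3 : Stmt_KPA) (g : H) (hg : IsMob g) (k l : ℂ)
    (hk : ‖k‖ ≤ 1) (hl : ‖l‖ ≤ 1) (u : ℂ) (hu : u ∈ segment ℝ k l) :
    act g u ∈ segment ℝ (act g k) (act g l) := by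
  obtain ⟨α, β, hP⟩ := (Pool.GC.mb1.1 g).1 hg
  obtain ⟨s, t, hs, ht, hst, rfl⟩ := hu
  have hdk : 0 < kD α β k := (h2 α β k hP.1).1 hk
  have hdl : 0 < kD α β l := (h2 α β l hP.1).1 hl
  obtain ⟨hn, hd⟩ := h3.1 α β k l s t hst
  have hD : 0 < s * kD α β k + t * kD α β l := by
    rcases hs.lt_or_eq with h | h
    · exact add_pos_of_pos_of_nonneg (mul_pos h hdk) (mul_nonneg ht hdl.le)
    · have ht1 : t = 1 := by linarith
      rw [← h, ht1]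
      linarith
  refine ⟨s * kD α β k / (s * kD α β k + t * kD α β l), t * kD α β l / (s * kD α β k + t * kD α β l),
    div_nonneg (mul_nonneg hs hdk.le) hD.le, div_nonneg (mul_nonneg ht hdl.le) hD.le, ?_, ?_⟩
  · rw [← add_div, div_self hD.ne']
  · rw [h1 g α β hP, h1 g α β hP, h1 g α β hP, hn, hd]
    have e1 : (kD α β k : ℂ) ≠ 0 := Complex.ofReal_ne_zero.2 hdk.ne'
    have e2 : (kD α β l : ℂ) ≠ 0 := Complex.ofReal_ne_zero.2 hdl.ne'
    have e3 : ((s * kD α β k + t * kD α β l : ℝ) : ℂ) ≠ 0 := Complex.ofReal_ne_zero.2 hD.ne'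
    simp only [Complex.real_smul]
    push_cast at e3 ⊢
    field_simp

theorem p_AC4 (h1 : Stmt_ACW) (h2 : Stmt_KPP) (h3 : Stmt_KPA) (h4 : Stmt_AC1) (h5 : Stmt_AC2) :
    Stmt_AC4 := by
  intro g hg k l hk hl
  have hg' : IsMob g⁻¹ := by
    obtain ⟨α, β, hP⟩ := (Pool.GC.mb1.1 g).1 hg
    exact (Pool.GC.mb1.1 g⁻¹).2 ⟨_, _, Pool.GC.mb2.2.1 g α β hP⟩
  have hinv : ∀ x : ℂ, ‖x‖ ≤ 1 → act g⁻¹ (act g x) = x := by
    intro x hx
    rw [← h5.1 g⁻¹ g hg' hg x hx, inv_mul_cancel]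
    exact h5.2 x hx
  have hinv' : ∀ x : ℂ, ‖x‖ ≤ 1 → act g (act g⁻¹ x) = x := by
    intro x hx
    rw [← h5.1 g g⁻¹ hg hg' x hx, mul_inv_cancel]
    exact h5.2 x hx
  have hk' : ‖act g k‖ ≤ 1 := (h4.2 g hg k).2 hk
  have hl' : ‖act g l‖ ≤ 1 := (h4.2 g hg l).2 hl
  ext v
  constructor
  · rintro ⟨u, hu, rfl⟩
    exact AC4_sub h1 h2 h3 g hg k l hk hl u hu
  · intro hv
    have hv1 : ‖v‖ ≤ 1 := by
      have h6 := (convex_closedBall (0 : ℂ) 1).segment_subset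
        (mem_closedBall_zero_iff.2 hk') (mem_closedBall_zero_iff.2 hl') hv
      exact mem_closedBall_zero_iff.1 h6
    refine ⟨act g⁻¹ v, ?_, hinv' v hv1⟩
    have h7 := AC4_sub h1 h2 h3 g⁻¹ hg' _ _ hk' hl' v hv
    rwa [hinv k hk, hinv l hl] at h7

end Pool.TZ
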