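import Pool.Agent.Work.MP_ae1ff6_tz.InterfaceA

/-!
# MP_ae1ff6_gt, THEOREM TZ, block AC5: `ch` is invariant (helper3)
-/

open Topology Filter Set
open scoped ComplexConjugate

set_option autoImplicit false

namespace Pool.TZ

open Pool.CG Pool.AR Pool.SH

/-- `1 - ‖act g k‖ ^ 2 = (1 - ‖k‖ ^ 2) / kD ^ 2` -/
theorem AC5_norm (h1 : Stmt_ACW) (h2 : Stmt_KPP) (g : H) (α β k : ℂ) (hp : Par g α β)
    (hk : ‖k‖ ≤ 1) : 1 - ‖act g k‖ ^ 2 = (1 - ‖k‖ ^ 2) / kD α β k ^ 2 := by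
  have hD := (h2 α β k hp.1).1 hk
  have h3 := (h2 α β k hp.1).2
  rw [eq_div_iff (pow_ne_zero 2 hD.ne'), h1 g α β hp k, norm_div, Complex.norm_real,
    Real.norm_eq_abs, div_pow, sq_abs, sub_mul, div_mul_cancel₀ _ (pow_ne_zero 2 hD.ne'), one_mul]
  exact h3

theorem AC5_inner (K L : ℂ) (dk dl : ℝ) (hk : 0 < dk) (hl : 0 < dl) :
    (K / (dk : ℂ) * conj (L / (dl : ℂ))).re = (K * conj L).re / (dk * dl) := by
  have hk' := hk.ne'
  have hl' := hl.ne'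
  simp only [Complex.mul_re, Complex.conj_re, Complex.conj_im, Complex.div_ofReal_re,
    Complex.div_ofReal_im]
  field_simp

theorem p_AC5 (h1 : Stmt_ACW) (h2 : Stmt_KPP) (h3 : Stmt_KPB) : Stmt_AC5 := by
  intro g hg k l hk hl
  obtain ⟨α, β, hp⟩ := (Pool.GC.mb1.1 g).1 hg
  have hdk : 0 < kD α β k := (h2 α β k hp.1).1 hk.le
  have hdl : 0 < kD α β l := (h2 α β l hp.1).1 hl.le
  have e := (h3 α β hp.1).1 k l
  have ek := AC5_norm h1 h2 g α β k hp hk.le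
  have el := AC5_norm h1 h2 g α β l hp hl.le
  have hm : 0 < kD α β k * kD α β l := mul_pos hdk hdl
  have h4 : 1 - (act g k * conj (act g l)).re = (1 - (k * conj l).re) / (kD α β k * kD α β l) := by
    rw [h1 g α β hp k, h1 g α β hp l, AC5_inner _ _ _ _ hdk hdl, ← e, eq_div_iff hm.ne', sub_mul,
      div_mul_cancel₀ _ hm.ne', one_mul]
  have h5 : √((1 - ‖act g k‖ ^ 2) * (1 - ‖act g l‖ ^ 2)) =
      √((1 - ‖k‖ ^ 2) * (1 - ‖l‖ ^ 2)) / (kD α β k * kD α β l) := by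
    rw [ek, el, div_mul_div_comm, ← mul_pow, Real.sqrt_div' _ (by positivity), Real.sqrt_sq hm.le]
  unfold ch
  rw [h4, h5, div_div_div_cancel_right₀ hm.ne']

end Pool.TZ
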