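import Pool.Agent.Work.MP_ae1ff6_tz.InterfaceA

open Topology Filter Set
open scoped ComplexConjugate

set_option autoImplicit false

namespace Pool.TZ

open Pool.CG Pool.AR Pool.SH

lemma AC6_aux (P Q K : ℂ) (dp dq dk : ℝ) (hp : 0 < dp) (hq : 0 < dq) (hk : 0 < dk) :
    (conj (Q / (dq : ℂ) - P / (dp : ℂ)) * (K / (dk : ℂ) - P / (dp : ℂ))).im =
      1 / (dp * dq * dk) * ((conj Q * K).im * dp + (conj K * P).im * dq + (conj P * Q).im * dk) := by
  have hp' := hp.ne'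
  have hq' := hq.ne'
  have hk' := hk.ne'
  simp only [Complex.mul_im, Complex.conj_re, Complex.conj_im, Complex.sub_re, Complex.sub_im,
    Complex.div_ofReal_re, Complex.div_ofReal_im]
  field_simp
  ring

theorem p_AC6 (h1 : Stmt_ACW) (h2 : Stmt_KPP) (h3 : Stmt_KPB) (h4 : Stmt_AC1) : Stmt_AC6 := by
  intro g hg p q k hk
  obtain ⟨α, β, hpar⟩ := (Pool.GC.mb1.1 g).1 hg
  have hn := hpar.1
  have hdk : 0 < kD α β k := (h2 α β k hn).1 hk
  have hdp : 0 < kD α β p := (h2 α β p hn).1 (le_of_eq (Circle.norm_coe p))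
  have hdq : 0 < kD α β q := (h2 α β q hn).1 (le_of_eq (Circle.norm_coe q))
  have e := (h3 α β hn).2 p q k
  have ep : ((g p : Circle) : ℂ) = kN α β p / (kD α β p : ℂ) := by
    rw [← h4.1 g hg p, h1 g α β hpar]
  have eq : ((g q : Circle) : ℂ) = kN α β q / (kD α β q : ℂ) := by
    rw [← h4.1 g hg q, h1 g α β hpar]
  refine ⟨1 / (kD α β p * kD α β q * kD α β k), by positivity, ?_⟩
  unfold sd
  rw [ep, eq, h1 g α β hpar k, AC6_aux _ _ _ _ _ _ hdp hdq hdk, e]

end Pool.TZ
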