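import Pool.Agent.Work.MP_ae1ff6_tz.InterfaceA

/-!
# MP_ae1ff6_gt, THEOREM TZ, block ACW: the action does not depend on the parameters (helper94)
-/

open Topology Filter Set
open scoped ComplexConjugate

set_option autoImplicit false

namespace Pool.TZ

open Pool.CG Pool.AR Pool.SH

/-- the parameters of the identity are `1, 0` or `-1, 0` -/
theorem ACW_one (a b : ℂ) (h : Par 1 a b) : b = 0 ∧ conj a = a ∧ (a = 1 ∨ a = -1) := by
  have e1 := h.2 1
  have e2 := h.2 (Circle.ofConjDivSelf Complex.I Complex.I_ne_zero)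
  have e2' : ((Circle.ofConjDivSelf Complex.I Complex.I_ne_zero : Circle) : ℂ) = -1 := by
    rw [Circle.ofConjDivSelf]
    simp
  have hI : ‖Complex.I‖ = 1 := Complex.norm_I
  have e3 := h.2 ⟨Complex.I, by simp [Submonoid.unitSphere]⟩
  change ((1 : Circle) : ℂ) * _ = _ at e1
  simp only [Circle.coe_one, one_mul, mul_one] at e1
  change (((Circle.ofConjDivSelf Complex.I Complex.I_ne_zero : Circle) : ℂ)) * _ = _ at e2
  rw [e2'] at e2
  change Complex.I * (conj b * Complex.I + conj a) = a * Complex.I + b at e3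
  have hb : conj b = b := by linear_combination (1 / 2) * e1 + (1 / 2) * e2
  have ha : conj a = a := by linear_combination (1 / 2) * e1 - (1 / 2) * e2
  have hI2 : Complex.I * Complex.I = -1 := Complex.I_mul_I
  have hb0 : b = 0 := by
    rw [hb, ha] at e3
    linear_combination (-1 / 2) * e3 + (b / 2) * hI2
  refine ⟨hb0, ha, ?_⟩
  have hn := h.1
  rw [hb0, norm_zero] at hn
  have h2 : a * a = 1 := by
    have h3 : conj a * a = ((‖a‖ ^ 2 : ℝ) : ℂ) := by
      rw [Complex.conj_mul']
      push_cast
      rfl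
    rw [ha] at h3
    rw [h3]
    have : ‖a‖ ^ 2 = 1 := by linarith
    rw [this]
    simp
  exact mul_self_eq_one_iff.1 h2

/-- two pairs of parameters of one map differ by a sign -/
theorem ACW_par (g : H) (α β α' β' : ℂ) (h : Par g α β) (h' : Par g α' β') :
    (α' = α ∧ β' = β) ∨ (α' = -α ∧ β' = -β) := by
  have hp := Pool.GC.mb2.1 _ _ _ _ _ _ (Pool.GC.mb2.2.1 g α β h) h'
  rw [inv_mul_cancel] at hp
  obtain ⟨hb, ha, hs⟩ := ACW_one _ _ hp
  have hd : conj α * α - conj β * β = 1 := by
    have h1 := h.1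
    have h3 : conj α * α = ((‖α‖ ^ 2 : ℝ) : ℂ) := by
      rw [Complex.conj_mul']
      push_cast
      rfl
    have h4 : conj β * β = ((‖β‖ ^ 2 : ℝ) : ℂ) := by
      rw [Complex.conj_mul']
      push_cast
      rfl
    rw [h3, h4, ← Complex.ofReal_sub, h1]
    simp
  have hbc : conj (conj α * β' + -β * conj α') = 0 := by
    rw [hb, map_zero]
  rw [map_add, map_mul, map_mul, map_neg, Complex.conj_conj, Complex.conj_conj] at hbc
  have hA : α' = α * (conj α * α' + -β * conj β') := by
    linear_combination (-α') * hd + β * hbc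
  have hB : β' = β * conj (conj α * α' + -β * conj β') := by
    rw [map_add, map_mul, map_mul, map_neg, Complex.conj_conj, Complex.conj_conj]
    linear_combination (-β') * hd + α * hb
  rcases hs with hs | hs
  · left
    constructor
    · rw [hs] at hA
      rw [hA]
      ring
    · rw [ha, hs] at hB
      rw [hB]
      ring
  · right
    constructor
    · rw [hs] at hA
      rw [hA]
      ring
    · rw [ha, hs] at hB
      rw [hB]
      ring

theorem p_ACW : Stmt_ACW := by
  intro g α β hp k
  have hex : ∃ x : ℂ × ℂ, Par g x.1 x.2 := ⟨(α, β), hp⟩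
  have e : act g k = kN hex.choose.1 hex.choose.2 k / (kD hex.choose.1 hex.choose.2 k : ℂ) := by
    unfold act
    rw [dif_pos hex]
  rw [e]
  rcases ACW_par g α β _ _ hp hex.choose_spec with ⟨h1, h2⟩ | ⟨h1, h2⟩
  · rw [h1, h2]
  · have hN : kN (-α) (-β) k = kN α β k := by
      unfold kN
      ring
    have hD : kD (-α) (-β) k = kD α β k := by
      unfold kD
      rw [norm_neg, norm_neg, map_neg, neg_mul_neg]
    rw [h1, h2, hN, hD]

end Pool.TZ
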