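import Pool.Agent.Work.MP_ae1ff6_tz.InterfaceE

/-! Block AXC (MP_ae1ff6_tz): each axis is crossed by a line of `EE A ξ`. -/

open Topology Filter Set
open scoped ComplexConjugate

set_option autoImplicit false

namespace Pool.TZ

open Pool.CG Pool.AR Pool.SH

/-- there are points on both sides of a line -/
theorem AXC_pts {p q : Circle} (hpq : p ≠ q) : (∃ z : Circle, Ccw p q z) ∧ ∃ z : Circle, Ccw q p z := by
  obtain ⟨hA1, _, hA3, _⟩ := q_ANG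
  obtain ⟨s, t, hst, hts, rfl, rfl⟩ := hA3 p q hpq
  refine ⟨⟨Circle.exp ((t + (s + 2 * Real.pi)) / 2), hA1 s t _ hst (by linarith) (by linarith)⟩,
    ⟨Circle.exp ((s + t) / 2), ?_⟩⟩
  have h := hA1 s ((s + t) / 2) t (by linarith) (by linarith) hts
  exact q_CYO.1 _ _ _ (q_CYO.1 _ _ _ h)

theorem p_AXC (h1 : Stmt_SDX) (h2 : Stmt_NFX) (h3 : Stmt_DXI) : Stmt_AXC := by
  intro Γ V A π ξ hSt hE γ hγ p q hax
  obtain ⟨hS1, hS2, _, hS4, hS5, hS6, _⟩ := h1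
  have hpq : p ≠ q := hax.1
  obtain ⟨⟨z, hz⟩, ⟨z', hz'⟩⟩ := AXC_pts hpq
  have hcont : Continuous fun w : Circle => sd p q (w : ℂ) := (hS4 p q).comp continuous_subtype_val
  have hU : IsOpen {w : Circle | 0 < sd p q (w : ℂ)} := isOpen_lt continuous_const hcont
  have hU' : IsOpen {w : Circle | sd p q (w : ℂ) < 0} := isOpen_lt hcont continuous_const
  have hzU : 0 < sd p q (z : ℂ) := (hS1 p q z).2 hz
  have hzU' : sd p q (z' : ℂ) < 0 := by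
    have h : 0 < sd q p (z' : ℂ) := (hS1 q p z').2 hz'
    have h' := hS2 p q (z' : ℂ)
    linarith
  obtain ⟨v, hv, hvU⟩ := h3 Γ V A π ξ hSt hE _ hU ⟨z, hzU⟩
  obtain ⟨v', hv', hvU'⟩ := h3 Γ V A π ξ hSt hE _ hU' ⟨z', hzU'⟩
  have hvU1 : 0 < sd p q ((ξ v : Circle) : ℂ) := hvU
  have hvU2 : sd p q ((ξ v' : Circle) : ℂ) < 0 := hvU'
  obtain ⟨x, y, hA, hx, hy⟩ := rtg_change (P := fun x => 0 < sd p q ((ξ x : Circle) : ℂ))
    (hSt.gr.conn v hv v' hv') hvU1 (not_lt.2 hvU2.le)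
  have hyV : y ∈ V := (hSt.gr.adj x y hA).2.1
  have hne := h2 Γ V A π ξ hSt hE γ hγ p q hax y hyV
  have hy0 : sd p q ((ξ y : Circle) : ℂ) ≠ 0 := by
    intro h
    rcases (hS6 p q (ξ y) hpq).1 h with h | h
    · exact hne.1 h
    · exact hne.2 h
  have hy1 : sd p q ((ξ y : Circle) : ℂ) < 0 := lt_of_le_of_ne (not_lt.1 hy) hy0
  refine ⟨ξ x, ξ y, ⟨?_, x, y, hA, rfl, rfl⟩, (hS5 p q (ξ x) (ξ y)).2 (mul_neg_of_pos_of_neg hx hy1)⟩
  intro h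
  have h' : ξ x = ξ y := h
  have hx' : 0 < sd p q ((ξ x : Circle) : ℂ) := hx
  rw [h'] at hx'
  exact absurd hx' (not_lt.2 hy1.le)

end Pool.TZ
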