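import Pool.Agent.Work.MP_ae1ff6_tz.InterfaceFF

/-! # Part F: block BIS (the subdivision of a closed set) -/

open Topology Filter Set
open scoped ComplexConjugate

set_option autoImplicit false

namespace Pool.TZ

open Pool.CG Pool.AR Pool.SH

lemma BIS_eq {C : Set ℝ} {p q U V : ℝ} (hp : p ∈ C) (hq : q ∈ C) (hpq : p < q)
    (hU : U ≤ p) (hV : q ≤ V) (hno : ¬ ∃ k ∈ C, U < k ∧ k < V) : p = U ∧ q = V := by
  constructor
  · rcases hU.eq_or_lt with h | h
    · exact h.symm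
    · exact absurd ⟨p, hp, h, hpq.trans_le hV⟩ hno
  · rcases hV.eq_or_lt with h | h
    · exact h
    · exact absurd ⟨q, hq, hU.trans_lt hpq, h⟩ hno

theorem p_BIS (hNRX : Stmt_NRX) (hIVL : Stmt_IVL) (hIVD : Stmt_IVD) : Stmt_BIS := by
  intro C a b hC ha hb hab hCab
  obtain ⟨hNx, hNs⟩ := hNRX
  obtain ⟨h1, h2, h3, h4⟩ := hIVL C a b ha hb hab
  obtain ⟨-, hD2⟩ := hIVD C a b hab
  refine ⟨{e | ∃ n, Iv C a b n e.1 e.2}, ?_⟩
  constructor
  · exact ⟨0, Iv.root⟩
  · rintro u v ⟨n, hn⟩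
    obtain ⟨e1, e2, e3, -, -⟩ := h1 n u v hn
    exact ⟨e1, e2, e3⟩
  · rintro u v u' v' ⟨n, hn⟩ ⟨m, hm⟩ ⟨hu, hv, hw⟩
    change Iv C a b n u v at hn
    change Iv C a b m u' v' at hm
    have hlt := (h1 n u v hn).1
    have hlt' := (h1 m u' v' hm).1
    rcases le_total n m with h | h
    · obtain ⟨k, rfl⟩ := Nat.exists_eq_add_of_le h
      obtain ⟨U, V, hUV, hU, hV⟩ := h3 n k u' v' hm
      rcases h2 n u v U V hn hUV with ⟨rfl, rfl⟩ | h5 | h5
      · linarith
      · linarith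
      · linarith
    · obtain ⟨k, rfl⟩ := Nat.exists_eq_add_of_le h
      obtain ⟨U, V, hUV, hU, hV⟩ := h3 m k u v hn
      rcases h2 m U V u' v' hUV hm with ⟨rfl, rfl⟩ | h5 | h5
      · linarith
      · linarith
      · linarith
  · rintro u v k ⟨n, hn⟩ hk huk hkv
    change Iv C a b n u v at hn
    have hNr := hNs C u v (hNx C u v k hC hk huk hkv)
    exact ⟨sp C u v, hNr.1, hNr.2.1, hNr.2.2.1, ⟨n + 1, Iv.left n u v hn hNr⟩,
      ⟨n + 1, Iv.right n u v hn hNr⟩⟩
  · rintro u v ⟨n, hn⟩ hne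
    change Iv C a b n u v at hn
    cases hn with
    | root => exact absurd rfl hne
    | left m _ v' hp hNr =>
      exact ⟨v', Or.inr ⟨hNr.2.2.1, ⟨m, hp⟩, ⟨m + 1, Iv.right m u v' hp hNr⟩⟩⟩
    | right m u' _ hp hNr =>
      exact ⟨u', Or.inl ⟨hNr.2.1, ⟨m + 1, Iv.left m u' v hp hNr⟩, ⟨m, hp⟩⟩⟩
  · intro p q hp hq hpq hno
    have key : ∀ n : ℕ, (∃ m, Iv C a b m p q) ∨
        ∃ u v, Iv C a b n u v ∧ u ≤ p ∧ q ≤ v ∧ ∃ k ∈ C, u < k ∧ k < v := by
      intro n
      induction n with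
      | zero =>
        by_cases h : ∃ k ∈ C, a < k ∧ k < b
        · exact Or.inr ⟨a, b, Iv.root, (hCab p hp).1, (hCab q hq).2, h⟩
        · obtain ⟨e1, e2⟩ := BIS_eq hp hq hpq (hCab p hp).1 (hCab q hq).2 h
          rw [e1, e2]
          exact Or.inl ⟨0, Iv.root⟩
      | succ n ih =>
        rcases ih with h | ⟨u, v, hn, hup, hqv, k, hk, huk, hkv⟩
        · exact Or.inl h
        · have hNr := hNs C u v (hNx C u v k hC hk huk hkv)
          have hcase : sp C u v ≤ p ∨ q ≤ sp C u v := by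
            by_contra hcon
            push Not at hcon
            exact hno _ hNr.1 hcon
          rcases hcase with hc | hc
          · by_cases h : ∃ k ∈ C, sp C u v < k ∧ k < v
            · exact Or.inr ⟨sp C u v, v, Iv.right n u v hn hNr, hc, hqv, h⟩
            · obtain ⟨e1, e2⟩ := BIS_eq hp hq hpq hc hqv h
              refine Or.inl ⟨n + 1, ?_⟩
              rw [e1, e2]
              exact Iv.right n u v hn hNr
          · by_cases h : ∃ k ∈ C, u < k ∧ k < sp C u v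
            · exact Or.inr ⟨u, sp C u v, Iv.left n u v hn hNr, hup, hc, h⟩
            · obtain ⟨e1, e2⟩ := BIS_eq hp hq hpq hup hc h
              refine Or.inl ⟨n + 1, ?_⟩
              rw [e1, e2]
              exact Iv.left n u v hn hNr
    obtain ⟨N, hN⟩ := hD2 (q - p) (by linarith)
    rcases key N with h | ⟨u, v, hn, hup, hqv, hk⟩
    · exact h
    · have := hN N u v le_rfl hn hk
      linarith
  · intro ε hε
    obtain ⟨N, hN⟩ := hD2 ε hε
    refine Set.Finite.subset (Set.Finite.biUnion (Set.finite_Iic N) (fun n _ => h4 n)) ?_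
    rintro ⟨u, v⟩ ⟨⟨n, hn⟩, hε'⟩
    change Iv C a b n u v at hn
    change ε ≤ v - u at hε'
    simp only [Set.mem_iUnion, Set.mem_Iic, Set.mem_ofPred_eq]
    refine ⟨n, ?_, hn⟩
    by_contra hcon
    push Not at hcon
    cases hn with
    | root => omega
    | left m _ v' hp hNr =>
      have := hN m u v' (by omega) hp ⟨_, hNr.1, hNr.2.1, hNr.2.2.1⟩
      have h6 := hNr.2.2.1
      linarith
    | right m u' _ hp hNr =>
      have := hN m u' v (by omega) hp ⟨_, hNr.1, hNr.2.1, hNr.2.2.1⟩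
      have h6 := hNr.2.1
      linarith

end Pool.TZ
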