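import Pool.Agent.Work.MP_ae1ff6_tz.InterfaceE

open Topology Filter Set
open scoped ComplexConjugate

set_option autoImplicit false

namespace Pool.TZ

open Pool.CG Pool.AR Pool.SH

theorem p_CED (h1 : Stmt_CUS) (h2 : Stmt_DXI) : Stmt_CED := by
  intro Γ V A π ξ hS hE γ hγ u hu
  obtain ⟨x, hx, hxu⟩ := h1 Γ V A π ξ hS.fk hS.gr hS.fo hE γ hγ u hu
  obtain ⟨w, hw⟩ : ∃ w : Circle, w ≠ u := by
    refine ⟨Circle.exp Real.pi * u, fun h => ?_⟩
    have h3 : Circle.exp Real.pi = 1 := mul_eq_right.1 h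
    have h4 := congrArg (fun z : Circle => (z : ℂ)) h3
    simp only [Circle.coe_exp, Complex.exp_pi_mul_I, Circle.coe_one] at h4
    norm_num at h4
  obtain ⟨v', hv', hv'u⟩ := h2 Γ V A π ξ hS hE ({u}ᶜ) isOpen_compl_singleton ⟨w, hw⟩
  have hne : ξ v' ≠ u := hv'u
  obtain ⟨x1, y1, hA, hx1, hy1⟩ := rtg_change (P := fun z => ξ z = u) (hS.gr.conn x hx v' hv') hxu hne
  exact ⟨ξ y1, fun h => hy1 h.symm, x1, y1, hA, hx1, rfl⟩

end Pool.TZ
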