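import Pool.Agent.Work.MP_ae1ff6_tz.InterfaceA

/-! Block CH1: elementary facts about the function `ch`. -/

open Topology Filter Set
open scoped ComplexConjugate

set_option autoImplicit false

namespace Pool.TZ

open Pool.CG Pool.AR Pool.SH

theorem CH1_re_le (k l : ℂ) : (k * conj l).re ≤ ‖k‖ * ‖l‖ := by
  have h3 : (k * conj l).re ≤ ‖k * conj l‖ := Complex.re_le_norm _
  have h4 : ‖k * conj l‖ = ‖k‖ * ‖l‖ := by rw [norm_mul, RCLike.norm_conj]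
  linarith

theorem CH1_pos {k : ℂ} (hk : ‖k‖ < 1) : 0 < 1 - ‖k‖ ^ 2 := by
  nlinarith [norm_nonneg k]

theorem CH1_sqrt_le {k l : ℂ} (hk : ‖k‖ < 1) (hl : ‖l‖ < 1) :
    √((1 - ‖k‖ ^ 2) * (1 - ‖l‖ ^ 2)) ≤ 1 - ‖k‖ * ‖l‖ := by
  have hab : ‖k‖ * ‖l‖ ≤ 1 := mul_le_one₀ hk.le (norm_nonneg l) hl.le
  rw [Real.sqrt_le_iff]
  constructor
  · linarith
  · nlinarith [sq_nonneg (‖k‖ - ‖l‖)]

theorem CH1_sqrt_pos {k l : ℂ} (hk : ‖k‖ < 1) (hl : ‖l‖ < 1) :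
    0 < √((1 - ‖k‖ ^ 2) * (1 - ‖l‖ ^ 2)) :=
  Real.sqrt_pos.2 (mul_pos (CH1_pos hk) (CH1_pos hl))

theorem CH1_symm (k l : ℂ) : (k * conj l).re = (l * conj k).re := by
  simp only [Complex.mul_re, Complex.conj_re, Complex.conj_im]
  ring

theorem CH1_dist (k l : ℂ) : ‖k - l‖ ^ 2 = ‖k‖ ^ 2 + ‖l‖ ^ 2 - 2 * (k * conj l).re := by
  simp only [Complex.sq_norm, Complex.normSq_apply, Complex.sub_re, Complex.sub_im, Complex.mul_re,
    Complex.conj_re, Complex.conj_im]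
  ring

theorem p_CH1 : Stmt_CH1 := by
  refine ⟨fun k l => ?_, fun k l hk hl => ?_, fun k hk => ?_, fun k l hk hl h => ?_⟩
  · unfold ch
    rw [CH1_symm k l, mul_comm (1 - ‖k‖ ^ 2)]
  · unfold ch
    rw [le_div_iff₀ (CH1_sqrt_pos hk hl), one_mul]
    exact (CH1_sqrt_le hk hl).trans (by linarith [CH1_re_le k l])
  · unfold ch
    have h1 : (k * conj k).re = ‖k‖ ^ 2 := by
      rw [Complex.sq_norm, Complex.normSq_apply]
      simp only [Complex.mul_re, Complex.conj_re, Complex.conj_im]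
      ring
    have h2 : √((1 - ‖k‖ ^ 2) * (1 - ‖k‖ ^ 2)) = 1 - ‖k‖ ^ 2 := Real.sqrt_mul_self (CH1_pos hk).le
    rw [h1, h2, div_self (CH1_pos hk).ne']
  · unfold ch at h
    rw [div_eq_one_iff_eq (CH1_sqrt_pos hk hl).ne'] at h
    have h1 := CH1_sqrt_le hk hl
    have h2 := CH1_re_le k l
    have h3 : √((1 - ‖k‖ ^ 2) * (1 - ‖l‖ ^ 2)) = 1 - ‖k‖ * ‖l‖ := by linarith
    have h4 : (k * conj l).re = ‖k‖ * ‖l‖ := by linarith
    have h5 : (1 - ‖k‖ ^ 2) * (1 - ‖l‖ ^ 2) = (1 - ‖k‖ * ‖l‖) ^ 2 := by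
      rw [← h3, Real.sq_sqrt (mul_pos (CH1_pos hk) (CH1_pos hl)).le]
    have h6 : (‖k‖ - ‖l‖) ^ 2 = 0 := by nlinarith
    have h7 : ‖k - l‖ ^ 2 = 0 := by
      rw [CH1_dist, h4]
      nlinarith
    have h8 : ‖k - l‖ = 0 := by
      exact pow_eq_zero_iff (two_ne_zero) |>.1 h7
    exact sub_eq_zero.1 (norm_eq_zero.1 h8)

end Pool.TZ
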