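import Pool.Agent.Work.MP_ae1ff6_tz.InterfaceA

open Topology Filter Set
open scoped ComplexConjugate

set_option autoImplicit false

namespace Pool.TZ

open Pool.CG Pool.AR Pool.SH

/-- the inequality for the numerators, with the norms `a`, `b` as real numbers -/
lemma CH2_real {K L M a b c : ℝ} (hK : 0 ≤ K) (hL : 0 ≤ L) (hM : 0 ≤ M) (hc : 0 ≤ c)
    (hab : c ≤ a + b) :
    M * (c ^ 2 + K + L) ≤ (a ^ 2 + M + K) * (b ^ 2 + M + L) := by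
  have h1 : c ^ 2 ≤ (a + b) ^ 2 := pow_le_pow_left₀ hc hab 2
  have h2 : M * c ^ 2 ≤ M * (a + b) ^ 2 := mul_le_mul_of_nonneg_left h1 hM
  have h3 : 0 ≤ (a * b - M) ^ 2 := sq_nonneg _
  have h4 : 0 ≤ K * b ^ 2 := mul_nonneg hK (sq_nonneg _)
  have h5 : 0 ≤ L * a ^ 2 := mul_nonneg hL (sq_nonneg _)
  have h6 : 0 ≤ K * L := mul_nonneg hK hL
  nlinarith

lemma CH2_two (k m : ℂ) :
    2 * (1 - (k * conj m).re) = ‖k - m‖ ^ 2 + (1 - ‖m‖ ^ 2) + (1 - ‖k‖ ^ 2) := by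
  simp only [Complex.sq_norm, Complex.normSq_apply, Complex.sub_re, Complex.sub_im, Complex.mul_re,
    Complex.conj_re, Complex.conj_im]
  ring

lemma CH2_num {k l m : ℂ} (hk : ‖k‖ < 1) (hl : ‖l‖ < 1) (hm : ‖m‖ < 1) :
    (1 - ‖m‖ ^ 2) * (1 - (k * conj l).re) ≤
      2 * (1 - (k * conj m).re) * (1 - (m * conj l).re) := by
  have hp : ∀ z : ℂ, ‖z‖ < 1 → 0 ≤ 1 - ‖z‖ ^ 2 := fun z hz => by
    have := pow_le_one₀ (norm_nonneg z) hz.le (n := 2)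
    linarith
  have h1 := CH2_two k m
  have h2 := CH2_two m l
  have h3 := CH2_two k l
  have htri : ‖k - l‖ ≤ ‖k - m‖ + ‖m - l‖ := by
    have : k - l = (k - m) + (m - l) := by ring
    rw [this]
    exact norm_add_le _ _
  have h4 := CH2_real (hp k hk) (hp l hl) (hp m hm) (norm_nonneg (k - l)) htri
  have h5 : (2 * (1 - (k * conj m).re)) * (2 * (1 - (m * conj l).re)) =
      (‖k - m‖ ^ 2 + (1 - ‖m‖ ^ 2) + (1 - ‖k‖ ^ 2)) *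
        (‖m - l‖ ^ 2 + (1 - ‖m‖ ^ 2) + (1 - ‖l‖ ^ 2)) := by
    rw [h1, h2]
    ring
  have h6 : (1 - ‖m‖ ^ 2) * (2 * (1 - (k * conj l).re)) =
      (1 - ‖m‖ ^ 2) * (‖k - l‖ ^ 2 + (1 - ‖k‖ ^ 2) + (1 - ‖l‖ ^ 2)) := by
    rw [h3]
    ring
  linarith

lemma CH2_div {s t u M Y Z : ℝ} (hs : 0 < s) (ht : 0 < t) (hu : 0 < u) (hM : t * t = M) :
    2 * (Y / (s * t)) * (Z / (t * u)) = 2 * Y * Z / (M * (s * u)) := by
  subst hM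
  field_simp

theorem p_CH2 : Stmt_CH2 := by
  intro k l m hk hl hm
  have hp : ∀ z : ℂ, ‖z‖ < 1 → 0 < 1 - ‖z‖ ^ 2 := fun z hz => by
    have := pow_lt_one₀ (norm_nonneg z) hz (n := 2) two_ne_zero
    linarith
  have hK := hp k hk
  have hL := hp l hl
  have hM := hp m hm
  have hnum := CH2_num hk hl hm
  have hsK : 0 < √(1 - ‖k‖ ^ 2) := Real.sqrt_pos.2 hK
  have hsL : 0 < √(1 - ‖l‖ ^ 2) := Real.sqrt_pos.2 hL
  have hsM : 0 < √(1 - ‖m‖ ^ 2) := Real.sqrt_pos.2 hM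
  unfold ch
  rw [Real.sqrt_mul hK.le, Real.sqrt_mul hK.le, Real.sqrt_mul hM.le]
  have hMM : √(1 - ‖m‖ ^ 2) * √(1 - ‖m‖ ^ 2) = 1 - ‖m‖ ^ 2 := Real.mul_self_sqrt hM.le
  have hR : 2 * ((1 - (k * conj m).re) / (√(1 - ‖k‖ ^ 2) * √(1 - ‖m‖ ^ 2))) *
      ((1 - (m * conj l).re) / (√(1 - ‖m‖ ^ 2) * √(1 - ‖l‖ ^ 2))) =
      2 * (1 - (k * conj m).re) * (1 - (m * conj l).re) /
        ((1 - ‖m‖ ^ 2) * (√(1 - ‖k‖ ^ 2) * √(1 - ‖l‖ ^ 2))) :=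
    CH2_div hsK hsM hsL hMM
  rw [hR, div_le_div_iff₀ (mul_pos hsK hsL) (mul_pos hM (mul_pos hsK hsL))]
  have h7 := mul_le_mul_of_nonneg_right hnum (mul_pos hsK hsL).le
  nlinarith

end Pool.TZ
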