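import Pool.Agent.Work.MP_ae1ff6_tz.InterfaceA

/-! Block CH3: the function `ch` is monotone along segments. -/

open Topology Filter Set
open scoped ComplexConjugate

set_option autoImplicit false

namespace Pool.TZ

open Pool.CG Pool.AR Pool.SH

theorem CH3_pos {k : ℂ} (hk : ‖k‖ < 1) : 0 < 1 - ‖k‖ ^ 2 := by
  nlinarith [norm_nonneg k]

theorem CH3_re_le (k l : ℂ) : (k * conj l).re ≤ ‖k‖ * ‖l‖ := by
  have h3 : (k * conj l).re ≤ ‖k * conj l‖ := Complex.re_le_norm _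
  have h4 : ‖k * conj l‖ = ‖k‖ * ‖l‖ := by rw [norm_mul, RCLike.norm_conj]
  linarith

theorem CH3_key {s t p q w : ℝ} (hs : 0 ≤ s) (ht : 0 ≤ t) (hp : 0 < p) (hq : 0 < q) (hw : 0 < w)
    (hpq : p * q ≤ w ^ 2) (hM : 0 < s ^ 2 * p + t ^ 2 * q + 2 * s * t * w) :
    (s * p + t * w) / √(p * (s ^ 2 * p + t ^ 2 * q + 2 * s * t * w)) ≤ w / √(p * q) := by
  have h1 : 0 < √(p * (s ^ 2 * p + t ^ 2 * q + 2 * s * t * w)) := Real.sqrt_pos.2 (mul_pos hp hM)
  have h2 : 0 < √(p * q) := Real.sqrt_pos.2 (mul_pos hp hq)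
  rw [div_le_div_iff₀ h1 h2]
  have ha : 0 ≤ s * p + t * w := by positivity
  apply abs_le_of_sq_le_sq' _ (by positivity) |>.2
  rw [mul_pow, mul_pow, Real.sq_sqrt (mul_pos hp hq).le, Real.sq_sqrt (mul_pos hp hM).le]
  have h3 : 0 ≤ w ^ 2 - p * q := by linarith
  have h4 : w ^ 2 * (p * (s ^ 2 * p + t ^ 2 * q + 2 * s * t * w)) - (s * p + t * w) ^ 2 * (p * q) =
      p * (s ^ 2 * p * (w ^ 2 - p * q) + 2 * s * t * w * (w ^ 2 - p * q)) := by ring
  have h5 : 0 ≤ p * (s ^ 2 * p * (w ^ 2 - p * q) + 2 * s * t * w * (w ^ 2 - p * q)) := by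
    positivity
  linarith

theorem p_CH3 : Stmt_CH3 := by
  rintro k l m hk hl ⟨s, t, hs, ht, hst, rfl⟩
  have hp := CH3_pos hk
  have hq := CH3_pos hl
  have hkl := CH3_re_le k l
  have hab : ‖k‖ * ‖l‖ < 1 := by
    have := norm_nonneg k
    have := norm_nonneg l
    nlinarith
  have hw : 0 < 1 - (k * conj l).re := by linarith
  have hpq : (1 - ‖k‖ ^ 2) * (1 - ‖l‖ ^ 2) ≤ (1 - (k * conj l).re) ^ 2 := by
    have h1 : (1 - ‖k‖ * ‖l‖) ^ 2 ≤ (1 - (k * conj l).re) ^ 2 := by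
      apply pow_le_pow_left₀ (by linarith)
      linarith
    nlinarith [sq_nonneg (‖k‖ - ‖l‖)]
  have e1 : 1 - (k * conj (s • k + t • l)).re = s * (1 - ‖k‖ ^ 2) + t * (1 - (k * conj l).re) := by
    have : (1 : ℝ) = s + t := hst.symm
    rw [Complex.sq_norm, Complex.normSq_apply]
    simp only [Complex.mul_re, Complex.conj_re, Complex.conj_im, Complex.add_re, Complex.add_im,
      Complex.smul_re, Complex.smul_im, smul_eq_mul]
    linear_combination this
  have e2 : 1 - ‖s • k + t • l‖ ^ 2 = s ^ 2 * (1 - ‖k‖ ^ 2) + t ^ 2 * (1 - ‖l‖ ^ 2) +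
      2 * s * t * (1 - (k * conj l).re) := by
    have : (1 : ℝ) = s + t := hst.symm
    simp only [Complex.sq_norm, Complex.normSq_apply]
    simp only [Complex.mul_re, Complex.conj_re, Complex.conj_im, Complex.add_re, Complex.add_im,
      Complex.smul_re, Complex.smul_im, smul_eq_mul]
    have h2 : (1 : ℝ) = (s + t) ^ 2 := by rw [← this]; norm_num
    linear_combination h2
  unfold ch
  rw [e1, e2]
  apply CH3_key hs ht hp hq hw hpq
  rw [← e2]
  apply CH3_pos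
  calc ‖s • k + t • l‖ ≤ ‖s • k‖ + ‖t • l‖ := norm_add_le _ _
    _ = s * ‖k‖ + t * ‖l‖ := by
        rw [norm_smul, norm_smul, Real.norm_of_nonneg hs, Real.norm_of_nonneg ht]
    _ < 1 := by
        rcases hs.eq_or_lt with h0 | h0
        · have : t = 1 := by linarith
          rw [← h0, this]; linarith
        · nlinarith

end Pool.TZ
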