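import Pool.Agent.Work.MP_ae1ff6_tz.InterfaceA

/-! Block CH4. -/

open Topology Filter Set
open scoped ComplexConjugate

set_option autoImplicit false

namespace Pool.TZ

open Pool.CG Pool.AR Pool.SH

theorem p_CH4 : Stmt_CH4 := by
  constructor
  · show ContinuousOn (fun x : ℂ × ℂ => (1 - (x.1 * conj x.2).re) /
      √((1 - ‖x.1‖ ^ 2) * (1 - ‖x.2‖ ^ 2))) (Metric.ball 0 1 ×ˢ Metric.ball 0 1)
    refine ContinuousOn.div ?_ ?_ ?_
    · exact Continuous.continuousOn (continuous_const.sub (Complex.continuous_re.comp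
        (continuous_fst.mul (Complex.continuous_conj.comp continuous_snd))))
    · exact Continuous.continuousOn (by fun_prop)
    · rintro ⟨k, l⟩ ⟨hk, hl⟩
      have hk' : ‖k‖ < 1 := by simpa using hk
      have hl' : ‖l‖ < 1 := by simpa using hl
      have h1 : 0 < 1 - ‖k‖ ^ 2 := by nlinarith [norm_nonneg k]
      have h2 : 0 < 1 - ‖l‖ ^ 2 := by nlinarith [norm_nonneg l]
      exact (Real.sqrt_pos.2 (mul_pos h1 h2)).ne'
  · intro r R hr
    have hR : 0 < max R 1 := lt_of_lt_of_le one_pos (le_max_right _ _)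
    have hc : 0 < (1 - r) / max R 1 := div_pos (by linarith) hR
    refine ⟨√(1 - ((1 - r) / max R 1) ^ 2), ?_, ?_⟩
    · rw [Real.sqrt_lt' one_pos]
      nlinarith [mul_pos hc hc]
    · intro k l hk hl hch
      have hk1 : ‖k‖ < 1 := lt_of_le_of_lt hk hr
      have h1 : 0 < 1 - ‖k‖ ^ 2 := by nlinarith [norm_nonneg k]
      have h2 : 0 < 1 - ‖l‖ ^ 2 := by nlinarith [norm_nonneg l]
      have hD : 0 < √((1 - ‖k‖ ^ 2) * (1 - ‖l‖ ^ 2)) := Real.sqrt_pos.2 (mul_pos h1 h2)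
      have hN : 1 - r ≤ 1 - (k * conj l).re := by
        have h3 : (k * conj l).re ≤ ‖k * conj l‖ := Complex.re_le_norm _
        have h4 : ‖k * conj l‖ = ‖k‖ * ‖l‖ := by rw [norm_mul, RCLike.norm_conj]
        have h5 : ‖k‖ * ‖l‖ ≤ ‖k‖ := mul_le_of_le_one_right (norm_nonneg k) hl.le
        linarith
      have hch' : (1 - (k * conj l).re) / √((1 - ‖k‖ ^ 2) * (1 - ‖l‖ ^ 2)) ≤ max R 1 :=
        le_trans hch (le_max_left _ _)
      rw [div_le_iff₀ hD] at hch'
      have h6 : √((1 - ‖k‖ ^ 2) * (1 - ‖l‖ ^ 2)) ≤ √(1 - ‖l‖ ^ 2) := by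
        apply Real.sqrt_le_sqrt
        nlinarith [sq_nonneg ‖k‖, mul_nonneg (sq_nonneg ‖k‖) h2.le]
      have h7 : 1 - r ≤ max R 1 * √(1 - ‖l‖ ^ 2) :=
        le_trans hN (le_trans hch' (mul_le_mul_of_nonneg_left h6 hR.le))
      have h8 : (1 - r) / max R 1 ≤ √(1 - ‖l‖ ^ 2) := by
        rw [div_le_iff₀ hR]
        linarith
      have h9 : ((1 - r) / max R 1) ^ 2 ≤ 1 - ‖l‖ ^ 2 := by
        have := pow_le_pow_left₀ hc.le h8 2
        rwa [Real.sq_sqrt h2.le] at this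
      exact (le_abs_self _).trans (Real.abs_le_sqrt (by linarith))

end Pool.TZ
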