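import Pool.Agent.Work.MP_ae1ff6_tz.InterfaceE2

/-!
# MP_ae1ff6_gt, THEOREM TZ, block CLS: elements of the group have one or two fixed points (helper26)
-/

open Topology Filter Set
open scoped ComplexConjugate

set_option autoImplicit false

namespace Pool.TZ

open Pool.CG Pool.AR Pool.SH

theorem p_CLS (h1 : Stmt_ELL) : Stmt_CLS := by
  intro Γ hΓ htf γ hγ hne
  have hmob := hΓ.mob γ hγ
  have hfix : ∃ p : Circle, γ p = p := by
    by_contra hno
    push Not at hno
    obtain ⟨R, hR⟩ := h1 γ hmob hno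
    obtain ⟨ε, hε, hdis⟩ := hΓ.discrete
    have key : ∀ m n : ℕ, m < n → γ ^ m ≠ γ ^ n := by
      intro m n hmn he
      have h2 : γ ^ n = γ ^ m * γ ^ (n - m) := by
        rw [← pow_add]
        congr 1
        omega
      rw [← he] at h2
      have h3 : γ ^ (n - m) = 1 := (left_eq_mul.1 h2)
      exact hne (htf γ hγ (n - m) (by omega) h3)
    have hinj : Function.Injective (fun n : ℕ => γ ^ n) := by
      intro m n hmn
      by_contra hmn'
      rcases Nat.lt_or_gt_of_ne hmn' with h | h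
      · exact key m n h hmn
      · exact key n m h hmn.symm
    have hinf : (Set.range (fun n : ℕ => γ ^ n)).Infinite := Set.infinite_range_of_injective hinj
    obtain ⟨g, ⟨m, rfl⟩, g', ⟨n, rfl⟩, hgg, hd⟩ := Pool.GC.pig _ R hinf
      (by rintro _ ⟨n, rfl⟩; exact hR n) ε hε
    have h2 : (γ ^ m)⁻¹ * γ ^ n = 1 :=
      hdis _ (Γ.mul_mem (Γ.inv_mem (Γ.pow_mem hγ m)) (Γ.pow_mem hγ n)) hd
    exact hgg (inv_mul_eq_one.1 h2)
  obtain ⟨p, hp⟩ := hfix
  by_cases hq : ∃ q, q ≠ p ∧ γ q = q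
  · obtain ⟨q, hqp, hq⟩ := hq
    right
    refine ⟨p, q, hqp.symm, fun z => ⟨fun hz => ?_, ?_⟩⟩
    · by_contra hcon
      push Not at hcon
      exact hne (Pool.GC.mb3 γ hmob p q z hqp.symm hcon.2.symm hcon.1.symm hp hq hz)
    · rintro (rfl | rfl) <;> assumption
  · push Not at hq
    left
    refine ⟨p, fun z => ⟨fun hz => ?_, fun h => by rw [h]; exact hp⟩⟩
    by_contra hzp
    exact hq z hzp hz

end Pool.TZ
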