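import Pool.Agent.Work.MP_ae1ff6_tz.InterfaceA

open Topology Filter Set
open scoped ComplexConjugate

set_option autoImplicit false

namespace Pool.TZ

open Pool.CG Pool.AR Pool.SH

theorem COL_one (x y u v : ℂ) (huv : u ≠ v) (hu : u ∈ segment ℝ x y) (hv : v ∈ segment ℝ x y) :
    ∀ z ∈ segment ℝ x y, ∃ c : ℝ, z = u + (c : ℂ) * (v - u) := by
  intro z hz
  rw [segment_eq_image'] at hu hv hz
  obtain ⟨s, -, rfl⟩ := hu
  obtain ⟨t, -, rfl⟩ := hv
  obtain ⟨r, -, rfl⟩ := hz
  have hst : t - s ≠ 0 := by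
    intro h
    apply huv
    have : s = t := by linarith
    rw [this]
  refine ⟨(r - s) / (t - s), ?_⟩
  have h2 : ((t : ℂ) - (s : ℂ)) ≠ 0 := by
    exact_mod_cast hst
  simp only [Complex.real_smul]
  push_cast
  field_simp
  ring

theorem p_COL : Stmt_COL := by
  intro x y x' y' u v huv hu hv hu' hv'
  exact ⟨COL_one x y u v huv hu hv, COL_one x' y' u v huv hu' hv'⟩

end Pool.TZ
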