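import Pool.Agent.Work.MP_ae1ff6_tz.InterfaceFF

open Topology Filter Set
open scoped ComplexConjugate

set_option autoImplicit false

namespace Pool.TZ

open Pool.CG Pool.AR Pool.SH

/-- a region has a point which is different from two given points -/
theorem CPL_third {E : Set (Circle × Circle)} {K : Set Circle} (hK : Reg E K) (p q : Circle) :
    ∃ k ∈ K, k ≠ p ∧ k ≠ q := by
  obtain ⟨a, ha, b, hb, c, hc, habc⟩ := hK.1
  obtain ⟨-, hab, hbc, hac⟩ := q_CYO.2.1 _ _ _ habc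
  by_contra hcon
  have h1 : ∀ k ∈ K, k = p ∨ k = q := fun k hk => by
    by_contra hn
    rw [not_or] at hn
    exact hcon ⟨k, hk, hn.1, hn.2⟩
  rcases h1 a ha with e1 | e1 <;> rcases h1 b hb with e2 | e2 <;> rcases h1 c hc with e3 | e3
  all_goals first
    | exact hab (e1.trans e2.symm)
    | exact hbc (e2.trans e3.symm)
    | exact hac (e1.trans e3.symm)

theorem p_CPL (_h1 : Stmt_ARX) (h2 : Stmt_RGA) (h3 : Stmt_RSD) (h4 : Stmt_RSP) (h5 : Stmt_REQ)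
    (h6 : Stmt_EQF) (h7 : Stmt_RFD) (h8 : Stmt_UNK) : Stmt_CPL := by
  intro Γ E hΓ hE
  have hL : Lmt E := ⟨hE.symm, hE.ne, hE.unlinked, hE.fin⟩
  obtain ⟨T, hT, hTe⟩ := h6 Γ E hΓ hE
  obtain ⟨rot, cy, -, -⟩ := q_CYO
  have hb : ∀ p q, (p, q) ∈ E → ∃ K, Reg E K ∧ (p, q) ∈ T K ∧ ∃ k ∈ K, Ccw p k q := by
    intro p q hpq
    obtain ⟨K, hK, hp, hq, hsub⟩ := h3 E hL p q hpq
    have hne := hE.ne p q hpq
    refine ⟨K, hK, ?_, ?_⟩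
    · apply (hT K hK).symm
      apply (hT K hK).gap
      refine ⟨hq, hp, hne.symm, ?_⟩
      intro k hk hc
      rcases hsub hk with h | h | h
      · exact (cy _ _ _ hc).2.2.1 h
      · exact (cy _ _ _ hc).2.1 h.symm
      · exact (cy _ _ _ h).1 (rot _ _ _ (rot _ _ _ hc))
    · obtain ⟨k, hk, hkp, hkq⟩ := CPL_third hK p q
      rcases hsub hk with h | h | h
      · exact absurd h hkp
      · exact absurd h hkq
      · exact ⟨k, hk, h⟩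
  refine ⟨{e | ∃ K, Reg E K ∧ e ∈ T K}, ⟨?_, ?_, ?_, ?_, ?_, ?_⟩, ?_⟩
  · rintro x y ⟨K, hK, h⟩
    exact ⟨K, hK, (hT K hK).symm x y h⟩
  · rintro x y ⟨K, hK, h⟩
    exact (hT K hK).ne x y h
  · rintro x y z w ⟨K, hK, h⟩ ⟨K', hK', h'⟩
    by_cases hKK : K = K'
    · subst hKK
      exact (hT K hK).unlinked x y z w h h'
    · obtain ⟨p, q, hpq, -, -, hs, hs'⟩ := h4 E K K' hL hK hK' hKK
      obtain ⟨hx, hy⟩ := (hT K hK).sub x y h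
      obtain ⟨hz, hw⟩ := (hT K' hK').sub z w h'
      exact h8 p q x y z w (hE.ne p q hpq) (hs hx) (hs hy) (hs' hz) (hs' hw)
  · rintro x y ⟨K, hK, h⟩
    by_cases hk : ∃ k ∈ K, Ccw x k y
    · obtain ⟨k, hk, hc⟩ := hk
      obtain ⟨z, hz, h1, h2⟩ := (hT K hK).third x y k h hk hc
      exact ⟨z, hz, ⟨K, hK, h1⟩, ⟨K, hK, h2⟩⟩
    · obtain ⟨hx, hy⟩ := (hT K hK).sub x y h
      have hxy : (x, y) ∈ E :=
        h2 E K hL hK x y ⟨hx, hy, (hT K hK).ne x y h, fun k hkK hc => hk ⟨k, hkK, hc⟩⟩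
      obtain ⟨K', hK', h', k, hk', hc⟩ := hb x y hxy
      obtain ⟨z, hz, h1, h2⟩ := (hT K' hK').third x y k h' hk' hc
      exact ⟨z, hz, ⟨K', hK', h1⟩, ⟨K', hK', h2⟩⟩
  · intro ε hε
    have hsub : {a : Circle × Circle | a ∈ {e | ∃ K, Reg E K ∧ e ∈ T K} ∧ ε ≤ dist a.1 a.2} ⊆
        ⋃ K ∈ {K : Set Circle | Reg E K ∧ ∃ x ∈ K, ∃ y ∈ K, ε ≤ dist x y},
          {a : Circle × Circle | a ∈ T K ∧ ε ≤ dist a.1 a.2} := by
      rintro ⟨x, y⟩ ⟨⟨K, hK, h⟩, hd⟩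
      obtain ⟨hx, hy⟩ := (hT K hK).sub x y h
      simp only [Set.mem_iUnion]
      exact ⟨K, ⟨hK, x, hx, y, hy, hd⟩, h, hd⟩
    refine Set.Finite.subset ((h7 E hL ε hε).biUnion fun K hK => ?_) hsub
    exact (hT K hK.1).fin ε hε
  · obtain ⟨⟨p, q⟩, hpq⟩ := hE.nonempty
    obtain ⟨K, hK, h, -⟩ := hb p q hpq
    exact ⟨(p, q), K, hK, h⟩
  · rintro g hg x y ⟨K, hK, h⟩
    exact ⟨(g : H) '' K, h5 Γ E K hE.keep hK g hg (q_MOR.1 g (hΓ.mob g hg)), hTe g hg K hK x y h⟩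

theorem p_CPLF (h1 : Stmt_ARX) (h2 : Stmt_RGA) (h3 : Stmt_RSD) (h4 : Stmt_RSP) (h5 : Stmt_REQ)
    (h6 : Stmt_EQF) (h7 : Stmt_RFD) (h8 : Stmt_UNK) : Stmt_CPLF :=
  p_CPL h1 h2 h3 h4 h5 h6 h7 h8

end Pool.TZ
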