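import Pool.Agent.Work.MP_ae1ff6_tz.InterfaceE2

/-!
# Block CU1: the parameters of a parabolic map
-/

open Topology Filter Set
open scoped ComplexConjugate

set_option autoImplicit false

namespace Pool.TZ

open Pool.CG Pool.AR Pool.SH

theorem CU1_fix {g : H} {α β : ℂ} (hP : Par g α β) (z : Circle) :
    g z = z ↔ conj β * (z : ℂ) ^ 2 + (conj α - α) * (z : ℂ) - β = 0 := by
  have hD := (Pool.GC.mb1.2 g α β hP).1 z
  have h := hP.2 z
  constructor
  · intro hz
    rw [hz] at h
    linear_combination h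
  · intro hz
    apply Circle.ext
    apply mul_right_cancel₀ hD
    rw [h]
    linear_combination -hz

theorem p_CU1 : Stmt_CU1 := by
  intro g c hg hfix
  obtain ⟨α, β, hP⟩ := (Pool.GC.mb1.1 g).1 hg
  have hF : ∀ z : Circle, conj β * (z : ℂ) ^ 2 + (conj α - α) * (z : ℂ) - β = 0 ↔ z = c :=
    fun z => (CU1_fix hP z).symm.trans (hfix z)
  have hc0 : (c : ℂ) ≠ 0 := Circle.coe_ne_zero c
  have hEc := (hF c).2 rfl
  have hβ : β ≠ 0 := by
    intro h0
    have h1 : (conj α - α) * (c : ℂ) = 0 := by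
      rw [h0] at hEc
      simpa using hEc
    have h2 : conj α - α = 0 := (mul_eq_zero.1 h1).resolve_right hc0
    have hn : ‖(-(c : ℂ))‖ = 1 := by rw [norm_neg, Circle.norm_coe]
    have h3 := (hF ⟨-(c : ℂ), mem_sphere_zero_iff_norm.2 hn⟩).1 (by
      rw [h0, h2]; simp)
    have h4 : -(c : ℂ) = (c : ℂ) := congrArg (fun z : Circle => (z : ℂ)) h3
    apply hc0
    linear_combination (-1 / 2 : ℂ) * h4
  have hcβ : conj β ≠ 0 := by simpa using hβ
  have hw : ‖-β / (conj β * (c : ℂ))‖ = 1 := by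
    rw [norm_div, norm_neg, norm_mul, Circle.norm_coe, mul_one, RCLike.norm_conj]
    exact div_self (norm_ne_zero_iff.2 hβ)
  have h5 := (hF ⟨-β / (conj β * (c : ℂ)), mem_sphere_zero_iff_norm.2 hw⟩).1 (by
    show conj β * (-β / (conj β * (c : ℂ))) ^ 2 + (conj α - α) * (-β / (conj β * (c : ℂ))) - β = 0
    field_simp
    linear_combination (-1 : ℂ) * β * hEc)
  have h6 : -β / (conj β * (c : ℂ)) = (c : ℂ) := congrArg (fun z : Circle => (z : ℂ)) h5
  have h7 : -β = conj β * (c : ℂ) ^ 2 := by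
    rw [div_eq_iff (mul_ne_zero hcβ hc0)] at h6
    rw [h6]; ring
  have h8 : α - conj α = 2 * (conj β * (c : ℂ)) := by
    apply mul_right_cancel₀ hc0
    linear_combination (-1 : ℂ) * hEc + h7
  have h9 : conj β * (c : ℂ) = (α.im : ℂ) * Complex.I := by
    have h10 : α - conj α = 2 * ((α.im : ℂ) * Complex.I) := by
      apply Complex.ext <;> simp <;> ring
    have h11 : (2 : ℂ) * (conj β * (c : ℂ)) = 2 * ((α.im : ℂ) * Complex.I) := by
      rw [← h8, h10]
    exact mul_left_cancel₀ two_ne_zero h11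
  have hcc : conj (c : ℂ) * (c : ℂ) = 1 := by
    rw [mul_comm, Complex.mul_conj, Complex.normSq_eq_norm_sq, Circle.norm_coe]
    norm_num
  have hβ2 : β = -((α.im : ℂ) * Complex.I * (c : ℂ)) := by
    have h12 := congrArg (starRingEnd ℂ) h9
    simp only [map_mul, Complex.conj_conj, Complex.conj_ofReal, Complex.conj_I] at h12
    calc β = (β * conj (c : ℂ)) * (c : ℂ) := by rw [mul_assoc, hcc, mul_one]
      _ = ((α.im : ℂ) * -Complex.I) * (c : ℂ) := by rw [h12]
      _ = _ := by ring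
  have hτ : α.im ≠ 0 := by
    intro h0
    apply hβ
    rw [hβ2, h0]; simp
  have hnβ : ‖β‖ ^ 2 = α.im ^ 2 := by
    have : ‖β‖ = |α.im| := by
      rw [hβ2, norm_neg, norm_mul, norm_mul, Circle.norm_coe, Complex.norm_I, Complex.norm_real,
        Real.norm_eq_abs]
      ring
    rw [this, sq_abs]
  have hnα : ‖α‖ ^ 2 = α.re ^ 2 + α.im ^ 2 := by
    rw [← Complex.normSq_eq_norm_sq, Complex.normSq_apply]; ring
  have hre : (α.re - 1) * (α.re + 1) = 0 := by
    have := hP.1
    rw [hnβ, hnα] at this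
    linarith
  rcases mul_eq_zero.1 hre with h13 | h13
  · refine ⟨α.im, hτ, ?_⟩
    have hα : (1 : ℂ) + (α.im : ℂ) * Complex.I = α := by
      apply Complex.ext
      · simp; linarith
      · simp
    rw [hα, ← hβ2]
    exact hP
  · refine ⟨-α.im, neg_ne_zero.2 hτ, ?_⟩
    have hα : (1 : ℂ) + ((-α.im : ℝ) : ℂ) * Complex.I = -α := by
      apply Complex.ext
      · simp; linarith
      · simp
    have hβ3 : -(((-α.im : ℝ) : ℂ) * Complex.I * (c : ℂ)) = -β := by
      rw [hβ2]; push_cast; ring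
    rw [hα, hβ3]
    refine ⟨by rw [norm_neg, norm_neg]; exact hP.1, fun z => ?_⟩
    rw [map_neg, map_neg]
    linear_combination (-1 : ℂ) * hP.2 z

end Pool.TZ
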