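import Pool.Agent.Work.MP_ae1ff6_tz.InterfaceE2

/-!
# Invariant ideal triangulations (MP_ae1ff6_gt): block CU2 (helper79)

The action of a parabolic map on the Klein disc.
-/

open Topology Filter Set
open scoped ComplexConjugate

set_option autoImplicit false

namespace Pool.TZ

open Pool.CG Pool.AR Pool.SH

theorem CU2_cc (c : Circle) : (c : ℂ) * conj (c : ℂ) = 1 := by
  rw [Complex.mul_conj, Circle.normSq_coe]
  simp

theorem CU2_mul (c : Circle) (s s' : ℝ) :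
    (1 + (s : ℂ) * Complex.I) * (1 + (s' : ℂ) * Complex.I) +
      -((s : ℂ) * Complex.I * (c : ℂ)) * conj (-((s' : ℂ) * Complex.I * (c : ℂ))) =
        1 + ((s + s' : ℝ) : ℂ) * Complex.I ∧
    (1 + (s : ℂ) * Complex.I) * -((s' : ℂ) * Complex.I * (c : ℂ)) +
      -((s : ℂ) * Complex.I * (c : ℂ)) * conj (1 + (s' : ℂ) * Complex.I) =
        -(((s + s' : ℝ) : ℂ) * Complex.I * (c : ℂ)) := by
  have hc := CU2_cc c
  constructor
  · simp only [map_neg, map_mul, Complex.conj_I, Complex.conj_ofReal]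
    push_cast
    linear_combination (-(s : ℂ) * (s' : ℂ) * Complex.I ^ 2) * hc
  · simp only [map_add, map_one, map_mul, Complex.conj_I, Complex.conj_ofReal]
    push_cast
    ring

/-- the parameters of the powers -/
theorem CU2_pow (g : H) (c : Circle) (τ : ℝ)
    (h : Par g (1 + (τ : ℂ) * Complex.I) (-((τ : ℂ) * Complex.I * (c : ℂ)))) (n : ℤ) :
    Par (g ^ n) (1 + ((n * τ : ℝ) : ℂ) * Complex.I)
      (-(((n * τ : ℝ) : ℂ) * Complex.I * (c : ℂ))) := by
  have hnat : ∀ n : ℕ, Par (g ^ n) (1 + ((n * τ : ℝ) : ℂ) * Complex.I)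
      (-(((n * τ : ℝ) : ℂ) * Complex.I * (c : ℂ))) := by
    intro n
    induction n with
    | zero =>
      have h1 := Pool.GC.mb2.2.2
      simpa using h1
    | succ n ih =>
      have h1 := Pool.GC.mb2.1 _ _ _ _ _ _ ih h
      obtain ⟨e1, e2⟩ := CU2_mul c (n * τ) τ
      rw [e1, e2] at h1
      rw [pow_succ]
      have e3 : ((n + 1 : ℕ) : ℝ) * τ = n * τ + τ := by
        push_cast
        ring
      rw [e3]
      exact h1
  obtain ⟨m, rfl | rfl⟩ := Int.eq_nat_or_neg n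
  · have h1 := hnat m
    rw [zpow_natCast]
    have e : ((m : ℤ) : ℝ) = (m : ℝ) := by simp
    rw [e]
    exact h1
  · have h1 := Pool.GC.mb2.2.1 _ _ _ (hnat m)
    rw [zpow_neg, zpow_natCast]
    have e1 : conj (1 + ((m * τ : ℝ) : ℂ) * Complex.I) =
        1 + (((-(m : ℤ) : ℤ) : ℝ) * τ : ℝ) * Complex.I := by
      simp only [map_add, map_one, map_mul, Complex.conj_I, Complex.conj_ofReal]
      push_cast
      ring
    have e2 : -(-(((m * τ : ℝ) : ℂ) * Complex.I * (c : ℂ))) =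
        -((((-(m : ℤ) : ℤ) : ℝ) * τ : ℝ) * Complex.I * (c : ℂ)) := by
      push_cast
      ring
    rw [e1, e2] at h1
    exact h1

theorem CU2_norms (c : Circle) (s : ℝ) :
    ‖(1 : ℂ) + (s : ℂ) * Complex.I‖ ^ 2 = 1 + s ^ 2 ∧
    ‖-((s : ℂ) * Complex.I * (c : ℂ))‖ ^ 2 = s ^ 2 := by
  constructor
  · rw [← Complex.normSq_eq_norm_sq, Complex.normSq_apply]
    simp
    ring
  · rw [norm_neg, norm_mul, norm_mul, Complex.norm_I, Circle.norm_coe, mul_one, mul_one,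
      Complex.norm_real, Real.norm_eq_abs, sq_abs]

theorem CU2_kD (c : Circle) (s : ℝ) (k : ℂ) :
    kD (1 + (s : ℂ) * Complex.I) (-((s : ℂ) * Complex.I * (c : ℂ))) k =
      1 - 2 * s * (k * conj (c : ℂ)).im + 2 * s ^ 2 * (1 - (k * conj (c : ℂ)).re) := by
  obtain ⟨h1, h2⟩ := CU2_norms c s
  have e : (1 + (s : ℂ) * Complex.I) * conj (-((s : ℂ) * Complex.I * (c : ℂ))) * k =
      ((-(s ^ 2) : ℝ) + ((s : ℝ) : ℂ) * Complex.I) * (k * conj (c : ℂ)) := by
    simp only [map_neg, map_mul, Complex.conj_I, Complex.conj_ofReal]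
    push_cast
    linear_combination ((s : ℂ) ^ 2 * conj (c : ℂ) * k) * Complex.I_sq
  have e2 : ∀ (a : ℝ) (z : ℂ), (((a : ℝ) : ℂ) + ((s : ℝ) : ℂ) * Complex.I) * z =
      ⟨a * z.re - s * z.im, a * z.im + s * z.re⟩ := by
    intro a z
    apply Complex.ext <;> simp
  unfold kD
  rw [h1, h2, e, e2]
  show 1 + s ^ 2 + s ^ 2 + 2 * (-(s ^ 2) * (k * conj (c : ℂ)).re - s * (k * conj (c : ℂ)).im) = _
  ring

theorem CU2_kN (c : Circle) (s : ℝ) :
    kN (1 + (s : ℂ) * Complex.I) (-((s : ℂ) * Complex.I * (c : ℂ))) (c : ℂ) = c := by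
  have hc := CU2_cc c
  unfold kN
  linear_combination ((s : ℂ) ^ 2 * Complex.I ^ 2 * (c : ℂ)) * hc

theorem p_CU2 (hACW : Stmt_ACW) (hKPP : Stmt_KPP) (hKPB : Stmt_KPB) (hCU1 : Stmt_CU1) :
    Stmt_CU2 := by
  intro g c hg hfix
  obtain ⟨τ, hτ, hpar⟩ := hCU1 g c hg hfix
  have hact : ∀ (n : ℤ) (k : ℂ), act (g ^ n) k =
      kN (1 + ((n * τ : ℝ) : ℂ) * Complex.I) (-(((n * τ : ℝ) : ℂ) * Complex.I * (c : ℂ))) k /
      (kD (1 + ((n * τ : ℝ) : ℂ) * Complex.I)
        (-(((n * τ : ℝ) : ℂ) * Complex.I * (c : ℂ))) k : ℂ) :=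
    fun n k => hACW _ _ _ (CU2_pow g c τ hpar n) k
  have hpar1 : ∀ n : ℤ, ‖(1 : ℂ) + ((n * τ : ℝ) : ℂ) * Complex.I‖ ^ 2 -
      ‖-(((n * τ : ℝ) : ℂ) * Complex.I * (c : ℂ))‖ ^ 2 = 1 :=
    fun n => (CU2_pow g c τ hpar n).1
  -- the norm of the image
  have hS : ∀ (n : ℤ) (k : ℂ), ‖k‖ < 1 → 1 - ‖act (g ^ n) k‖ ^ 2 = (1 - ‖k‖ ^ 2) /
      (kD (1 + ((n * τ : ℝ) : ℂ) * Complex.I)
        (-(((n * τ : ℝ) : ℂ) * Complex.I * (c : ℂ))) k) ^ 2 := by
    intro n k hk
    obtain ⟨h1, h2⟩ := hKPP _ _ k (hpar1 n)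
    have h3 := h1 hk.le
    rw [hact n k, norm_div, Complex.norm_real, Real.norm_eq_abs, abs_of_pos h3, div_pow,
      eq_div_iff (by positivity), sub_mul, div_mul_cancel₀ _ (by positivity)]
    linarith
  constructor
  · intro n k hk
    obtain ⟨h1, h2⟩ := hKPP _ _ k (hpar1 n)
    have h3 := h1 hk.le
    have h4 := (hKPB _ _ (hpar1 n)).1 k (c : ℂ)
    rw [CU2_kN c, CU2_kD c _ (c : ℂ), CU2_cc c] at h4
    simp only [Complex.one_im, Complex.one_re, sub_self, mul_zero, sub_zero, add_zero,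
      mul_one] at h4
    obtain ⟨D, hD⟩ : ∃ D, D = kD (1 + ((n * τ : ℝ) : ℂ) * Complex.I)
        (-(((n * τ : ℝ) : ℂ) * Complex.I * (c : ℂ))) k := ⟨_, rfl⟩
    have h5 := hS n k hk
    have h6 := hact n k
    rw [← hD] at h3 h4 h5 h6
    unfold bu
    rw [h5, Real.sqrt_div' _ (by positivity), Real.sqrt_sq h3.le]
    have h7 : (act (g ^ n) k * conj (c : ℂ)).re = (D - (1 - (k * conj (c : ℂ)).re)) / D := by
      rw [h6, div_mul_eq_mul_div, Complex.div_ofReal_re]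
      congr 1
      linarith
    rw [h7]
    have h8 : 1 - (D - (1 - (k * conj (c : ℂ)).re)) / D = (1 - (k * conj (c : ℂ)).re) / D := by
      field_simp
      ring
    rw [h8, div_div_div_cancel_right₀ h3.ne']
  · intro t ht
    obtain ⟨C, hC⟩ : ∃ C, C = (1 + t ^ 2) / (2 * t) + 2 * t * τ ^ 2 := ⟨_, rfl⟩
    have hC0 : 0 < C := by
      rw [hC]
      positivity
    refine ⟨√(1 - 1 / C ^ 2), ?_, ?_⟩
    · rw [Real.sqrt_lt' one_pos]
      have : 0 < 1 / C ^ 2 := by positivity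
      linarith
    · intro k hk hbu
      obtain ⟨x, hx⟩ : ∃ x, x = (k * conj (c : ℂ)).re := ⟨_, rfl⟩
      obtain ⟨y, hy⟩ : ∃ y, y = (k * conj (c : ℂ)).im := ⟨_, rfl⟩
      have hxy : ‖k‖ ^ 2 = x ^ 2 + y ^ 2 := by
        have h1 : ‖k * conj (c : ℂ)‖ = ‖k‖ := by
          rw [norm_mul, Complex.norm_conj, Circle.norm_coe, mul_one]
        rw [← h1, ← Complex.normSq_eq_norm_sq, Complex.normSq_apply, hx, hy]
        ring
      have hS0 : 0 < 1 - ‖k‖ ^ 2 := by
        have := norm_nonneg k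
        nlinarith
      obtain ⟨q, hq⟩ : ∃ q, q = √(1 - ‖k‖ ^ 2) := ⟨_, rfl⟩
      have hq0 : 0 < q := by
        rw [hq]
        exact Real.sqrt_pos.2 hS0
      have hq2 : q ^ 2 = 1 - ‖k‖ ^ 2 := by
        rw [hq]
        exact Real.sq_sqrt hS0.le
      have hP : 1 - x = t * q := by
        unfold bu at hbu
        rw [← hx, ← hq, div_eq_iff hq0.ne'] at hbu
        exact hbu
      have hPp : 0 < t * q := mul_pos ht hq0
      obtain ⟨n, hn⟩ : ∃ n : ℤ, n = round (y / (2 * (t * q) * τ)) := ⟨_, rfl⟩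
      refine ⟨n, ?_⟩
      obtain ⟨δ, hδ⟩ : ∃ δ, δ = n * τ - y / (2 * (t * q)) := ⟨_, rfl⟩
      have hδ2 : δ ^ 2 ≤ τ ^ 2 := by
        have h1 : |y / (2 * (t * q) * τ) - n| ≤ 1 / 2 := by
          rw [hn]
          exact abs_sub_round _
        have h2 : δ = -((y / (2 * (t * q) * τ) - n) * τ) := by
          rw [hδ]
          field_simp
          ring
        have h3 : (y / (2 * (t * q) * τ) - n) ^ 2 ≤ 1 := by
          rw [sq_le_one_iff_abs_le_one]
          linarith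
        rw [h2, neg_sq, mul_pow]
        nlinarith [sq_nonneg τ]
      have hkD := CU2_kD c (n * τ) k
      obtain ⟨D, hD⟩ : ∃ D, D = kD (1 + ((n * τ : ℝ) : ℂ) * Complex.I)
          (-(((n * τ : ℝ) : ℂ) * Complex.I * (c : ℂ))) k := ⟨_, rfl⟩
      have h5 := hS n k hk
      have hD0 : 0 < D := by
        rw [hD]
        exact (hKPP _ _ k (hpar1 n)).1 hk.le
      rw [← hD] at h5
      rw [← hD, ← hx, ← hy, hP] at hkD
      have hDC : D ≤ C * q := by
        have h6 : D = (1 + t ^ 2) / (2 * t) * q + 2 * (t * q) * δ ^ 2 := by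
          have h7 : y ^ 2 = 2 * (t * q) - (t * q) ^ 2 - q ^ 2 := by
            have h8 : x = 1 - t * q := by linarith
            rw [hq2, hxy, h8]
            ring
          have h9 : 2 * (t * q) * δ ^ 2 = 2 * (t * q) * (n * τ) ^ 2 - 2 * (n * τ) * y +
              y ^ 2 / (2 * (t * q)) := by
            rw [hδ]
            field_simp
            ring
          rw [h9, h7, hkD]
          field_simp
          ring
        rw [h6, hC]
        have h10 : 2 * (t * q) * δ ^ 2 ≤ 2 * (t * q) * τ ^ 2 :=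
          mul_le_mul_of_nonneg_left hδ2 (by positivity)
        nlinarith
      apply Real.le_sqrt_of_sq_le
      have h6 : 1 / C ^ 2 ≤ (1 - ‖k‖ ^ 2) / D ^ 2 := by
        rw [← hq2, div_le_div_iff₀ (by positivity) (by positivity), one_mul, ← mul_pow]
        apply pow_le_pow_left₀ hD0.le
        linarith
      linarith

end Pool.TZ
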