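import Pool.Agent.Work.MP_ae1ff6_tz.InterfaceE2

open Topology Filter Set
open scoped ComplexConjugate

set_option autoImplicit false

namespace Pool.TZ

open Pool.CG Pool.AR Pool.SH

theorem p_CU3 (h1 : Stmt_ACT) (h2 : Stmt_CU2) (h3 : Stmt_CU4) : Stmt_CU3 := by
  intro Γ V A hΓ hG γ hγ c hc t ht
  obtain ⟨r, hr, hr2⟩ := (h2 γ c (hΓ.mob γ hγ) hc).2 t ht
  refine ⟨Prod.fst '' {e : ℂ × ℂ | A e.1 e.2 ∧ ∃ u ∈ segment ℝ e.1 e.2, ‖u‖ ≤ r},
    (hG.finA r hr).image _, ?_, ?_⟩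
  · rintro _ ⟨e, he, rfl⟩
    exact (hG.adj _ _ he.1).1
  · intro x y hxy hx hy
    have hV := hG.adj x y hxy
    have hx1 : ‖x‖ < 1 := hG.sub x hV.1
    have hy1 : ‖y‖ < 1 := hG.sub y hV.2.1
    have hball : segment ℝ x y ⊆ Metric.ball (0 : ℂ) 1 :=
      (convex_ball (0 : ℂ) 1).segment_subset (by simpa using hx1) (by simpa using hy1)
    have hpc : IsPreconnected (segment ℝ x y) := (convex_segment x y).isPreconnected
    have hcont : ContinuousOn (bu c) (segment ℝ x y) := (h3 c).2.1.mono hball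
    obtain ⟨u, hu, hut⟩ := hpc.intermediate_value (left_mem_segment ℝ x y)
      (right_mem_segment ℝ x y) hcont ⟨hx.le, hy⟩
    have hu1 : ‖u‖ < 1 := by simpa using hball hu
    obtain ⟨n, hn⟩ := hr2 u hu1 hut
    have hγn : γ ^ n ∈ Γ := Γ.zpow_mem hγ n
    refine ⟨n, ⟨(act (γ ^ n) x, act (γ ^ n) y), ⟨hG.invA _ hγn _ _ hxy, act (γ ^ n) u, ?_, hn⟩,
      rfl⟩⟩
    have e := h1.2.2.2.2.2.1 (γ ^ n) (hΓ.mob _ hγn) x y hx1.le hy1.le
    show act (γ ^ n) u ∈ segment ℝ (act (γ ^ n) x) (act (γ ^ n) y)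
    rw [← e]
    exact mem_image_of_mem _ hu

end Pool.TZ
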