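import Pool.Agent.Work.MP_ae1ff6_tz.InterfaceE2

/-! Block CU4 (helper23): the horofunction. -/

open Topology Filter Set
open scoped ComplexConjugate

set_option autoImplicit false

namespace Pool.TZ

open Pool.CG Pool.AR Pool.SH

theorem CU4_sq (k : ℂ) : ‖k‖ ^ 2 = k.re ^ 2 + k.im ^ 2 := by
  rw [Complex.sq_norm, Complex.normSq_apply]
  ring

theorem CU4_c (c : Circle) : (c : ℂ).re ^ 2 + (c : ℂ).im ^ 2 = 1 := by
  rw [← CU4_sq, Circle.norm_coe, one_pow]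

theorem CU4_re (k m : ℂ) : (k * conj m).re = k.re * m.re + k.im * m.im := by
  simp [Complex.mul_re]

theorem CU4_lt (c : Circle) (k : ℂ) (hk : ‖k‖ < 1) : 0 < 1 - (k * conj (c : ℂ)).re := by
  have h1 : (k * conj (c : ℂ)).re ≤ ‖k * conj (c : ℂ)‖ := Complex.re_le_norm _
  rw [norm_mul, RCLike.norm_conj, Circle.norm_coe, mul_one] at h1
  linarith

theorem CU4_den (k : ℂ) (hk : ‖k‖ < 1) : 0 < 1 - ‖k‖ ^ 2 := by
  nlinarith [norm_nonneg k]

theorem CU4_ineq (c : Circle) (k m : ℂ) (hk : ‖k‖ < 1) (hm : ‖m‖ < 1) :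
    (1 - ‖m‖ ^ 2) * (1 - (k * conj (c : ℂ)).re) ≤
      2 * (1 - (k * conj m).re) * (1 - (m * conj (c : ℂ)).re) := by
  have hK := (CU4_den k hk).le
  have hM := (CU4_den m hm).le
  have h1 : ‖k - c‖ ≤ ‖k - m‖ + ‖(c : ℂ) - m‖ := by
    have h2 : k - c = (k - m) - ((c : ℂ) - m) := by ring
    rw [h2]
    exact norm_sub_le _ _
  have h3 : ‖k - c‖ ^ 2 ≤ (‖k - m‖ + ‖(c : ℂ) - m‖) ^ 2 := pow_le_pow_left₀ (norm_nonneg _) h1 2
  have e1 : 2 * (1 - (k * conj m).re) = ‖k - m‖ ^ 2 + (1 - ‖m‖ ^ 2) + (1 - ‖k‖ ^ 2) := by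
    rw [CU4_sq, CU4_sq, CU4_sq, CU4_re]
    simp only [Complex.sub_re, Complex.sub_im]
    ring
  have hc := CU4_c c
  have e2 : 2 * (1 - (m * conj (c : ℂ)).re) = ‖(c : ℂ) - m‖ ^ 2 + (1 - ‖m‖ ^ 2) := by
    rw [CU4_sq, CU4_sq, CU4_re]
    simp only [Complex.sub_re, Complex.sub_im]
    linear_combination -hc
  have e3 : 2 * (1 - (k * conj (c : ℂ)).re) = ‖k - c‖ ^ 2 + (1 - ‖k‖ ^ 2) := by
    rw [CU4_sq, CU4_sq, CU4_re]
    simp only [Complex.sub_re, Complex.sub_im]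
    linear_combination -hc
  have h4 : (1 - ‖m‖ ^ 2) * (2 * (1 - (k * conj (c : ℂ)).re)) ≤
      (2 * (1 - (k * conj m).re)) * (2 * (1 - (m * conj (c : ℂ)).re)) := by
    rw [e1, e2, e3]
    nlinarith [mul_le_mul_of_nonneg_left h3 hM, sq_nonneg (‖k - m‖ * ‖(c : ℂ) - m‖ - (1 - ‖m‖ ^ 2)),
      mul_nonneg hK (sq_nonneg ‖(c : ℂ) - m‖)]
  linarith

theorem p_CU4 : Stmt_CU4 := by
  intro c
  refine ⟨?_, ?_, ?_, ?_, ?_⟩
  · intro k hk
    exact div_pos (CU4_lt c k hk) (Real.sqrt_pos.2 (CU4_den k hk))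
  · have h1 : Continuous fun k : ℂ => 1 - (k * conj (c : ℂ)).re :=
      continuous_const.sub (Complex.continuous_re.comp (continuous_id.mul continuous_const))
    have h2 : Continuous fun k : ℂ => √(1 - ‖k‖ ^ 2) :=
      Real.continuous_sqrt.comp (continuous_const.sub (continuous_norm.pow 2))
    refine ContinuousOn.div h1.continuousOn h2.continuousOn fun k hk => ?_
    have hk' : ‖k‖ < 1 := by simpa using hk
    exact (Real.sqrt_pos.2 (CU4_den k hk')).ne'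
  · intro k m hk hm
    have hK := CU4_den k hk
    have hM := CU4_den m hm
    have sK := Real.sqrt_pos.2 hK
    have sM := Real.sqrt_pos.2 hM
    have h1 := CU4_ineq c k m hk hm
    unfold bu ch
    rw [Real.sqrt_mul hK.le, div_le_iff₀ sK]
    have h2 : 2 * ((1 - (k * conj m).re) / (√(1 - ‖k‖ ^ 2) * √(1 - ‖m‖ ^ 2))) *
        ((1 - (m * conj (c : ℂ)).re) / √(1 - ‖m‖ ^ 2)) * √(1 - ‖k‖ ^ 2) =
        (2 * (1 - (k * conj m).re) * (1 - (m * conj (c : ℂ)).re)) / (√(1 - ‖m‖ ^ 2) * √(1 - ‖m‖ ^ 2)) := by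
      field_simp
    rw [h2, Real.mul_self_sqrt hM.le, le_div_iff₀ hM]
    linarith
  · intro ε hε
    obtain ⟨δ, hδ⟩ : ∃ δ, δ = min (1 / 2) (ε ^ 2 / 2) := ⟨_, rfl⟩
    have d0 : 0 < δ := by
      rw [hδ]
      positivity
    have d1 : δ ≤ 1 / 2 := by
      rw [hδ]
      exact min_le_left _ _
    have d2 : δ < ε ^ 2 := by
      have h1 : δ ≤ ε ^ 2 / 2 := by
        rw [hδ]
        exact min_le_right _ _
      have h2 : 0 < ε ^ 2 := by positivity
      linarith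
    have hn : ‖((1 - δ : ℝ) : ℂ) * (c : ℂ)‖ = 1 - δ := by
      rw [norm_mul, Circle.norm_coe, mul_one, Complex.norm_real, Real.norm_eq_abs, abs_of_pos (by linarith)]
    refine ⟨((1 - δ : ℝ) : ℂ) * (c : ℂ), ?_, ?_⟩
    · rw [hn]
      linarith
    · unfold bu
      rw [hn]
      have h1 : 1 - (((1 - δ : ℝ) : ℂ) * (c : ℂ) * conj (c : ℂ)).re = δ := by
        rw [CU4_re]
        have hc := CU4_c c
        rw [Complex.re_ofReal_mul, Complex.im_ofReal_mul]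
        linear_combination -(1 - δ) * hc
      rw [h1]
      have h2 : √δ ≤ √(1 - (1 - δ) ^ 2) := Real.sqrt_le_sqrt (by nlinarith)
      have h3 : 0 < √δ := Real.sqrt_pos.2 d0
      have h4 : √δ < ε := by
        rw [Real.sqrt_lt' hε]
        exact d2
      rw [div_lt_iff₀ (lt_of_lt_of_le h3 h2)]
      calc δ = √δ * √δ := (Real.mul_self_sqrt d0.le).symm
        _ < ε * √δ := mul_lt_mul_of_pos_right h4 h3
        _ ≤ ε * √(1 - (1 - δ) ^ 2) := mul_le_mul_of_nonneg_left h2 hε.le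
  · intro k z t hk hz
    have h1 : ∀ j, 1 - (k j * conj (c : ℂ)).re ≤ t * √(1 - ‖k j‖ ^ 2) := by
      intro j
      obtain ⟨h2, h3⟩ := hk j
      unfold bu at h3
      rw [div_lt_iff₀ (Real.sqrt_pos.2 (CU4_den _ h2))] at h3
      exact h3.le
    have h2 : Tendsto (fun j => 1 - (k j * conj (c : ℂ)).re) atTop (𝓝 (1 - ((z : ℂ) * conj (c : ℂ)).re)) :=
      (continuous_const.sub (Complex.continuous_re.comp (continuous_id.mul continuous_const))).continuousAt.tendsto.comp hz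
    have h3 : Tendsto (fun j => t * √(1 - ‖k j‖ ^ 2)) atTop (𝓝 (t * √(1 - ‖(z : ℂ)‖ ^ 2))) :=
      (continuous_const.mul (Real.continuous_sqrt.comp (continuous_const.sub
        (continuous_norm.pow 2)))).continuousAt.tendsto.comp hz
    have h4 := le_of_tendsto_of_tendsto' h2 h3 h1
    rw [Circle.norm_coe] at h4
    norm_num at h4
    apply Circle.ext
    have h5 : ‖(z : ℂ) - c‖ ^ 2 ≤ 0 := by
      rw [CU4_sq]
      have e1 := CU4_c c
      have e2 := CU4_c z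
      simp only [Complex.sub_re, Complex.sub_im]
      nlinarith
    have h6 : ‖(z : ℂ) - c‖ = 0 := by
      have h7 : ‖(z : ℂ) - c‖ ^ 2 = 0 := le_antisymm h5 (sq_nonneg _)
      exact pow_eq_zero_iff (two_ne_zero) |>.1 h7
    exact sub_eq_zero.1 (norm_eq_zero.1 h6)

end Pool.TZ
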