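import Pool.Agent.Work.MP_ae1ff6_tz.InterfaceE2

open Topology Filter Set
open scoped ComplexConjugate

set_option autoImplicit false

namespace Pool.TZ

open Pool.CG Pool.AR Pool.SH

theorem CUS_iterV {Γ : Subgroup H} {V : Set ℂ} {A : ℂ → ℂ → Prop} {π : ℂ → ℂ}
    (hG : Gr Γ V A) (hF : Fo Γ V A π) (x : ℂ) (hx : x ∈ V) (j : ℕ) : π^[j] x ∈ V := by
  induction j with
  | zero => exact hx
  | succ j ih =>
    rw [Function.iterate_succ_apply']
    exact (hG.adj _ _ (hF.adj _ ih)).2.1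

theorem CUS_equiv {Γ : Subgroup H} {V : Set ℂ} {A : ℂ → ℂ → Prop} {π : ℂ → ℂ}
    (hG : Gr Γ V A) (hF : Fo Γ V A π) (g : H) (hg : g ∈ Γ) (x : ℂ) (hx : x ∈ V) (j : ℕ) :
    π^[j] (act g x) = act g (π^[j] x) := by
  induction j with
  | zero => rfl
  | succ j ih =>
    rw [Function.iterate_succ_apply', Function.iterate_succ_apply', ih]
    exact hF.equiv g hg _ (CUS_iterV hG hF x hx j)

theorem CUS_min (W : Set ℂ) (hW : W.Finite) (f : ℂ → ℝ) (hf : ∀ v ∈ W, 0 < f v) :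
    ∃ m : ℝ, 0 < m ∧ m < 1 ∧ ∀ v ∈ W, m < f v := by
  induction W, hW using Set.Finite.induction_on with
  | empty => exact ⟨1 / 2, by norm_num, by norm_num, fun v hv => absurd hv (Set.notMem_empty v)⟩
  | @insert a s ha hs ih =>
    obtain ⟨m, hm0, hm1, hm⟩ := ih (fun v hv => hf v (Set.mem_insert_of_mem a hv))
    have hfa := hf a (Set.mem_insert a s)
    refine ⟨min m (f a / 2), lt_min hm0 (by linarith), lt_of_le_of_lt (min_le_left _ _) hm1, ?_⟩
    intro v hv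
    rcases Set.mem_insert_iff.mp hv with h | h
    · subst h
      exact lt_of_le_of_lt (min_le_right _ _) (by linarith)
    · exact lt_of_le_of_lt (min_le_left _ _) (hm v h)

theorem p_CUS (h1 : Stmt_CHF) (h2 : Stmt_CU2) (h3 : Stmt_CU3) (h4 : Stmt_CU4) : Stmt_CUS := by
  intro Γ V A π ξ hΓ hG hFo hE γ hγ c hc
  obtain ⟨F, hFfin, hFV, hF⟩ := h3 Γ V A hΓ hG γ hγ c hc 1 one_pos
  have hCU2 := (h2 γ c (hΓ.mob γ hγ) hc).1
  obtain ⟨hpos, -, hcomp, hsmall, hlim⟩ := h4 c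
  -- the ancestors
  have hWfin : {v : ℂ | v ∈ V ∧ ∃ k : ℕ, π^[k] v ∈ F}.Finite := by
    have hu : (⋃ w ∈ F, {v : ℂ | v ∈ V ∧ ∃ k : ℕ, π^[k] v = w}).Finite :=
      hFfin.biUnion (fun w hw => hFo.anc w (hFV hw))
    refine hu.subset ?_
    rintro v ⟨hv, k, hk⟩
    exact Set.mem_biUnion hk ⟨hv, k, rfl⟩
  obtain ⟨m, hm0, hm1, hm⟩ := CUS_min _ hWfin (bu c) (fun v hv => hpos v (hG.sub v hv.1))
  obtain ⟨z, hz1, hz⟩ := hsmall (m / 3) (by linarith)
  obtain ⟨x, hxV, hx⟩ := hG.deep z hz1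
  have hx1 : ‖x‖ < 1 := hG.sub x hxV
  have hbx : bu c x < m := by
    have e1 := hcomp x z hx1 hz1
    rw [h1.1 x z] at e1
    have e2 := hpos z hz1
    have e3 : 2 * ch z x * bu c z < 2 * (3 / 2) * bu c z := by
      apply mul_lt_mul_of_pos_right _ e2
      linarith
    linarith
  have claim : ∀ j : ℕ, bu c (π^[j] x) < 1 := by
    intro j
    induction j with
    | zero => exact lt_trans hbx hm1
    | succ j ih =>
      by_contra hcon
      rw [not_lt, Function.iterate_succ_apply'] at hcon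
      have hwV := CUS_iterV hG hFo x hxV j
      obtain ⟨n, hn⟩ := hF _ _ (hFo.adj _ hwV) ih hcon
      have hγn : γ ^ n ∈ Γ := Γ.zpow_mem hγ n
      rw [← CUS_equiv hG hFo _ hγn x hxV j] at hn
      have hmem : act (γ ^ n) x ∈ {v : ℂ | v ∈ V ∧ ∃ k : ℕ, π^[k] v ∈ F} :=
        ⟨hG.invV _ hγn x hxV, j, hn⟩
      have e1 := hm _ hmem
      rw [hCU2 n x hx1] at e1
      exact lt_irrefl _ (lt_trans hbx e1)
  refine ⟨x, hxV, ?_⟩
  exact hlim (fun j => π^[j] x) (ξ x) 1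
    (fun j => ⟨hG.sub _ (CUS_iterV hG hFo x hxV j), claim j⟩) (hE x hxV)

end Pool.TZ
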