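import Pool.Agent.Work.MP_ae1ff6_tz.InterfaceE

/-!
# Block DXI: density of the ends (typed by helper84)
-/

open Topology Filter Set
open scoped ComplexConjugate

set_option autoImplicit false

namespace Pool.TZ

open Pool.CG Pool.AR Pool.SH

theorem p_DXI (h : Stmt_XIQ) : Stmt_DXI := by
  intro Γ V A π ξ hS hE U hU hne
  obtain ⟨v, hv, _⟩ := hS.gr.deep 0 (by simp)
  obtain ⟨w, ⟨γ, hγ, hw⟩, hwU⟩ := (hS.fk.dense (ξ v)).exists_mem_open hU hne
  refine ⟨act γ v, hS.gr.invV γ hγ v hv, ?_⟩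
  rw [(h Γ V A π ξ hS hE).2 γ hγ v hv, ← hw]
  exact hwU

end Pool.TZ
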