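import Pool.Agent.Work.MP_ae1ff6_tz.InterfaceE

/-! Block DYN: dynamics of a hyperbolic element. -/

open Topology Filter Set
open scoped ComplexConjugate

set_option autoImplicit false

namespace Pool.TZ

open Pool.CG Pool.AR Pool.SH

theorem DYN_tend {ι : Type*} {l : Filter ι} {f : ι → ℂ} {q : ℂ} {g : ι → ℝ}
    (h : ∀ i, ‖f i - q‖ ^ 2 ≤ 2 * fr (f i) q) (h2 : ∀ i, fr (f i) q ≤ g i)
    (hg : Tendsto g l (𝓝 0)) : Tendsto f l (𝓝 q) := by
  rw [tendsto_iff_norm_sub_tendsto_zero]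
  have h3 : Tendsto (fun i => 2 * g i) l (𝓝 0) := by simpa using hg.const_mul 2
  have h4 : Tendsto (fun i => ‖f i - q‖ ^ 2) l (𝓝 0) :=
    squeeze_zero (fun i => by positivity) (fun i => (h i).trans (by linarith [h2 i])) h3
  have h5 := h4.sqrt
  simpa [Real.sqrt_sq] using h5

theorem DYN_zpow {L : ℝ} (hL : 1 < L) : Tendsto (fun n : ℤ => L ^ n) atTop atTop := by
  have h1 : Tendsto (fun n : ℤ => n.toNat) atTop atTop :=
    tendsto_atTop_atTop.2 fun b => ⟨b, fun a ha => by omega⟩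
  have h2 := (tendsto_pow_atTop_atTop_of_one_lt hL).comp h1
  refine h2.congr' ?_
  filter_upwards [eventually_ge_atTop (0 : ℤ)] with n hn
  simp only [Function.comp]
  rw [← zpow_natCast, Int.toNat_of_nonneg hn]

theorem DYN_zpow_bot {L : ℝ} (hL : 1 < L) : Tendsto (fun n : ℤ => L ^ n) atBot (𝓝 0) := by
  have h1 : Tendsto (fun n : ℤ => (L ^ (-n))⁻¹) atBot (𝓝 0) :=
    tendsto_inv_atTop_zero.comp ((DYN_zpow hL).comp tendsto_neg_atBot_atTop)
  refine h1.congr fun n => ?_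
  rw [zpow_neg, inv_inv]

theorem DYN_main (hF : Stmt_FRF) {f : ℤ → ℂ → ℂ} {p q : Circle} {L : ℝ} (hL : 1 < L)
    (hf : ∀ n k, ‖k‖ ≤ 1 → ‖f n k‖ ≤ 1)
    (h : ∀ (n : ℤ) (k : ℂ), ‖k‖ ≤ 1 →
      fr (f n k) p * fr k q = L ^ n * (fr k p * fr (f n k) q))
    {k : ℂ} (hk : ‖k‖ ≤ 1) (hkp : k ≠ p) (hkq : k ≠ q) :
    Tendsto (fun n : ℤ => f n k) atTop (𝓝 (q : ℂ)) ∧
    Tendsto (fun n : ℤ => f n k) atBot (𝓝 (p : ℂ)) := by
  obtain ⟨F1, _, F3, _, _⟩ := hF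
  have hp : ‖(p : ℂ)‖ ≤ 1 := (Circle.norm_coe p).le
  have hq : ‖(q : ℂ)‖ ≤ 1 := (Circle.norm_coe q).le
  have ha : 0 < fr k p := F3 k p hk hp hkp
  have hb : 0 < fr k q := F3 k q hk hq hkq
  have hL0 : 0 < L := by linarith
  constructor
  · refine DYN_tend (g := fun n : ℤ => 2 * fr k q / fr k p * (L ^ n)⁻¹)
      (fun n => (F1 _ _ (hf n k hk) hq).2.2) (fun n => ?_) ?_
    · have h1 := h n k hk
      have hLn : 0 < L ^ n := zpow_pos hL0 n
      have h2 : fr (f n k) q = fr (f n k) p * fr k q / (L ^ n * fr k p) := by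
        rw [h1]; field_simp
      have h3 : fr (f n k) p ≤ 2 := (F1 _ _ (hf n k hk) hp).2.1
      have h4 : 2 * fr k q / fr k p * (L ^ n)⁻¹ = 2 * fr k q / (L ^ n * fr k p) := by
        field_simp
      rw [h2, h4]
      gcongr
    · have h5 : Tendsto (fun n : ℤ => (L ^ n)⁻¹) atTop (𝓝 0) :=
        tendsto_inv_atTop_zero.comp (DYN_zpow hL)
      simpa using h5.const_mul (2 * fr k q / fr k p)
  · refine DYN_tend (g := fun n : ℤ => 2 * fr k p / fr k q * L ^ n)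
      (fun n => (F1 _ _ (hf n k hk) hp).2.2) (fun n => ?_) ?_
    · have h1 := h n k hk
      have hLn : 0 < L ^ n := zpow_pos hL0 n
      have h2 : fr (f n k) p = L ^ n * (fr k p * fr (f n k) q) / fr k q := by
        rw [← h1]; field_simp
      have h3 : fr (f n k) q ≤ 2 := (F1 _ _ (hf n k hk) hq).2.1
      have h4 : 2 * fr k p / fr k q * L ^ n = L ^ n * (fr k p * 2) / fr k q := by
        field_simp
      rw [h2, h4]
      gcongr
    · simpa using (DYN_zpow_bot hL).const_mul (2 * fr k p / fr k q)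

theorem p_DYN (h1 : Stmt_ACT) (h2 : Stmt_FRF) (h3 : Stmt_LAM) : Stmt_DYN := by
  intro Γ hΓ ht γ hγ p q hA
  obtain ⟨L, hL0, hL1, hL⟩ := h3 Γ hΓ ht γ hγ p q hA
  have hf : ∀ (n : ℤ) (k : ℂ), ‖k‖ ≤ 1 → ‖act (γ ^ n) k‖ ≤ 1 := fun n k hk =>
    (h1.2.1 (γ ^ n) (hΓ.mob _ (Γ.zpow_mem hγ n)) k).2 hk
  rcases lt_or_gt_of_ne hL1 with hlt | hgt
  · right
    intro k hk hkq hkp
    refine DYN_main (f := fun n k => act (γ ^ n) k) h2 (L := L⁻¹) ((one_lt_inv₀ hL0).2 hlt) hf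
      (fun n k hk => ?_) hk hkq hkp
    have h4 := hL n k hk
    have hLn : L ^ n ≠ 0 := (zpow_pos hL0 n).ne'
    rw [inv_zpow]
    field_simp
    linarith
  · left
    intro k hk hkp hkq
    exact DYN_main (f := fun n k => act (γ ^ n) k) h2 hgt hf hL hk hkp hkq

end Pool.TZ
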