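import Pool.Agent.Work.MP_ae1ff6_tz.InterfaceFF

/-!
# EQF: an equivariant choice of the triangulations of the regions
-/

open Topology Filter Set
open scoped ComplexConjugate

set_option autoImplicit false

namespace Pool.TZ

open Pool.CG Pool.AR Pool.SH

theorem EQF_im_mul (g h : H) (K : Set Circle) : ((g * h : H) : Circle → Circle) '' K =
    (g : Circle → Circle) '' ((h : Circle → Circle) '' K) := by
  rw [Set.image_image]
  rfl

theorem EQF_im_one (K : Set Circle) : ((1 : H) : Circle → Circle) '' K = K := by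
  have h : ((1 : H) : Circle → Circle) = id := rfl
  rw [h, Set.image_id]

theorem EQF_im_inv (g : H) (K : Set Circle) : ((g⁻¹ : H) : Circle → Circle) ''
    ((g : Circle → Circle) '' K) = K := by
  rw [← EQF_im_mul, inv_mul_cancel, EQF_im_one]

/-- the relation of equivalence under `Γ` -/
def EQF_S (Γ : Subgroup H) : Setoid (Set Circle) where
  r K K' := ∃ γ ∈ Γ, ((γ : H) : Circle → Circle) '' K = K'
  iseqv :=
    { refl := fun K => ⟨1, Γ.one_mem, EQF_im_one K⟩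
      symm := by
        rintro K K' ⟨γ, hγ, rfl⟩
        exact ⟨γ⁻¹, Γ.inv_mem hγ, EQF_im_inv γ K⟩
      trans := by
        rintro K K' K'' ⟨γ, hγ, rfl⟩ ⟨δ, hδ, rfl⟩
        exact ⟨δ * γ, Γ.mul_mem hδ hγ, EQF_im_mul δ γ K⟩ }

theorem p_EQF (h1 : Stmt_RCL) (h2 : Stmt_REQ) (h3 : Stmt_TRK) (h4 : Stmt_TRI) : Stmt_EQF := by
  intro Γ E hΓ hE
  have hOri : ∀ γ ∈ Γ, Ori γ := fun γ hγ => q_MOR.1 γ (hΓ.mob γ hγ)
  have hrep : ∀ K : Set Circle, ∃ γ ∈ Γ, ((γ : H) : Circle → Circle) '' (Quotient.mk (EQF_S Γ) K).out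
      = K := fun K => Quotient.exact (Quotient.out_eq (Quotient.mk (EQF_S Γ) K))
  choose h hhΓ hhim using hrep
  have ht : ∀ K : Set Circle, ∃ t : Set (Circle × Circle), Reg E K → TrK K t := by
    intro K
    by_cases hK : Reg E K
    · obtain ⟨⟨a, ha, _⟩, _, _⟩ := id hK
      obtain ⟨t, ht⟩ := h3 K (h1 E K hK) ⟨a, ha⟩
      exact ⟨t, fun _ => ht⟩
    · exact ⟨∅, fun h => absurd h hK⟩
  choose t ht using ht
  have hregrep : ∀ K, Reg E K → Reg E (Quotient.mk (EQF_S Γ) K).out := by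
    intro K hK
    have h' := h2 Γ E K hE.keep hK (h K)⁻¹ (Γ.inv_mem (hhΓ K)) (hOri _ (Γ.inv_mem (hhΓ K)))
    have h'' : (((h K)⁻¹ : H) : Circle → Circle) '' K = (Quotient.mk (EQF_S Γ) K).out := by
      conv_lhs => rw [← hhim K]
      have h5 : (Quotient.mk (EQF_S Γ) (((h K : H) : Circle → Circle) ''
          (Quotient.mk (EQF_S Γ) K).out)) = Quotient.mk (EQF_S Γ) K := by rw [hhim K]
      rw [hhim K]
      conv_lhs => rw [← hhim K]
      rw [hhim K]
      have h6 := EQF_im_inv (h K) (Quotient.mk (EQF_S Γ) K).out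
      rw [hhim K] at h6
      exact h6
    rw [h''] at h'
    exact h'
  refine ⟨fun K => {e | ((h K)⁻¹ e.1, (h K)⁻¹ e.2) ∈ t (Quotient.mk (EQF_S Γ) K).out}, ?_, ?_⟩
  · intro K hK
    have h5 := h4 _ _ (h K) (hOri _ (hhΓ K)) (ht _ (hregrep K hK))
    rw [hhim K] at h5
    exact h5
  · intro γ hγ K hK x y hxy
    have hxy' : ((h K)⁻¹ x, (h K)⁻¹ y) ∈ t (Quotient.mk (EQF_S Γ) K).out := hxy
    show ((h ((γ : Circle → Circle) '' K))⁻¹ (γ x), (h ((γ : Circle → Circle) '' K))⁻¹ (γ y)) ∈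
      t (Quotient.mk (EQF_S Γ) ((γ : Circle → Circle) '' K)).out
    have hq : Quotient.mk (EQF_S Γ) ((γ : Circle → Circle) '' K) = Quotient.mk (EQF_S Γ) K :=
      (Quotient.sound (s := EQF_S Γ) ⟨γ, hγ, rfl⟩).symm
    have him := hhim ((γ : Circle → Circle) '' K)
    rw [hq] at him ⊢
    set k := h ((γ : Circle → Circle) '' K) with hk
    have hkΓ : k ∈ Γ := hhΓ _
    have h6 := EQF_im_inv (h K) (Quotient.mk (EQF_S Γ) K).out
    rw [hhim K] at h6
    have h7 : (((h K)⁻¹ * γ⁻¹ * k : H) : Circle → Circle) '' (Quotient.mk (EQF_S Γ) K).out =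
        (Quotient.mk (EQF_S Γ) K).out := by
      rw [EQF_im_mul, EQF_im_mul, him, EQF_im_inv, h6]
    have h8 := hE.triv _ (hregrep K hK) _
      (Γ.mul_mem (Γ.mul_mem (Γ.inv_mem (hhΓ K)) (Γ.inv_mem hγ)) hkΓ) h7
    have h9 : k = γ * h K := by
      calc k = γ * h K * ((h K)⁻¹ * γ⁻¹ * k) := by group
        _ = γ * h K := by rw [h8, mul_one]
    have h10 : ∀ x : Circle, k⁻¹ (γ x) = (h K)⁻¹ x := by
      intro x
      have h11 : k⁻¹ * γ = (h K)⁻¹ := by rw [h9]; group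
      have h12 : (k⁻¹ * γ) x = k⁻¹ (γ x) := rfl
      rw [← h12, h11]
    rw [h10, h10]
    exact hxy'

end Pool.TZ
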