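import Pool.Agent.Work.MP_ae1ff6_tz.InterfaceD

open Topology Filter Set
open scoped ComplexConjugate

set_option autoImplicit false

namespace Pool.TZ

open Pool.CG Pool.AR Pool.SH

section EXH

variable {Q : Type} (R : Q → Q → Prop)

/-- the vertices which can be reached from `q` outside of `S` -/
def EXH_C (S : Set Q) (q : Q) : Set Q := {r | Relation.ReflTransGen (Away R S) q r}

/-- the hull of `S` -/
def EXH_Hu (S : Set Q) : Set Q := S ∪ {q | q ∉ S ∧ (EXH_C R S q).Finite}

/-- the balls around `o` -/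
def EXH_S (o : Q) : ℕ → Set Q
  | 0 => ∅
  | m + 1 => {o} ∪ EXH_S o m ∪ {r | ∃ t ∈ EXH_S o m, R t r}

variable {R}

theorem EXH_mono {S S' : Set Q} (h : S ⊆ S') (q : Q) : EXH_C R S' q ⊆ EXH_C R S q := by
  intro r hr
  have h1 : Away R S' ≤ Away R S := fun x y hxy => ⟨hxy.1, fun hy => hxy.2 (h hy)⟩
  exact Relation.ReflTransGen.mono h1 _ _ hr

theorem EXH_Hu_mono {S S' : Set Q} (h : S ⊆ S') : EXH_Hu R S ⊆ EXH_Hu R S' := by
  rintro q (hq | ⟨hq, hf⟩)
  · exact Or.inl (h hq)
  · by_cases hq' : q ∈ S'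
    · exact Or.inl hq'
    · exact Or.inr ⟨hq', hf.subset (EXH_mono h q)⟩

theorem EXH_notMem {S : Set Q} {x y : Q} (hx : x ∉ S)
    (h : Relation.ReflTransGen (Away R S) x y) : y ∉ S := by
  induction h with
  | refl => exact hx
  | tail _ h2 _ => exact h2.2

theorem EXH_symm (hsym : ∀ x y, R x y → R y x) {S : Set Q} {x y : Q} (hx : x ∉ S)
    (h : Relation.ReflTransGen (Away R S) x y) : Relation.ReflTransGen (Away R S) y x := by
  induction h with
  | refl => exact Relation.ReflTransGen.refl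
  | tail h1 h2 ih =>
    exact Relation.ReflTransGen.head ⟨hsym _ _ h2.1, EXH_notMem hx h1⟩ ih

theorem EXH_exit {S : Set Q} {s : Q} (hs : s ∈ S) {q : Q} (h : Relation.ReflTransGen R q s) :
    q ∉ S → ∃ r t, r ∉ S ∧ t ∈ S ∧ Relation.ReflTransGen (Away R S) q r ∧ R r t := by
  induction h using Relation.ReflTransGen.head_induction_on with
  | refl => intro h; exact absurd hs h
  | @head a c h1 _ ih =>
    intro ha
    by_cases hc : c ∈ S
    · exact ⟨a, c, ha, hc, Relation.ReflTransGen.refl, h1⟩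
    · obtain ⟨r, t, hr, ht, h3, h4⟩ := ih hc
      exact ⟨r, t, hr, ht, Relation.ReflTransGen.head ⟨h1, hc⟩ h3, h4⟩

theorem EXH_Hu_empty (hconn : ∀ x y, Relation.ReflTransGen R x y) (hinf : Infinite Q) :
    EXH_Hu R (∅ : Set Q) = ∅ := by
  apply Set.eq_empty_of_forall_notMem
  rintro q (hq | ⟨-, hf⟩)
  · exact hq
  · have : EXH_C R (∅ : Set Q) q = Set.univ := by
      apply Set.eq_univ_of_forall
      intro r
      have h1 : R ≤ Away R (∅ : Set Q) := fun x y hxy => ⟨hxy, fun hy => hy⟩
      exact Relation.ReflTransGen.mono h1 _ _ (hconn q r)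
    rw [this] at hf
    exact Set.infinite_univ hf

theorem EXH_Hu_finite (hsym : ∀ x y, R x y → R y x) (hfin : ∀ x, {y | R x y}.Finite)
    (hconn : ∀ x y, Relation.ReflTransGen R x y) (hinf : Infinite Q) {S : Set Q}
    (hS : S.Finite) : (EXH_Hu R S).Finite := by
  rcases S.eq_empty_or_nonempty with rfl | ⟨s, hs⟩
  · rw [EXH_Hu_empty hconn hinf]
    exact Set.finite_empty
  · have hsub : EXH_Hu R S ⊆ S ∪ ⋃ t ∈ S, ⋃ r ∈ {r | R t r ∧ (EXH_C R S r).Finite}, EXH_C R S r := by
      rintro q (hq | ⟨hq, hf⟩)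
      · exact Or.inl hq
      · right
        obtain ⟨r, t, hr, ht, h3, h4⟩ := EXH_exit hs (hconn q s) hq
        simp only [Set.mem_iUnion]
        refine ⟨t, ht, r, ⟨hsym _ _ h4, hf.subset ?_⟩, EXH_symm hsym hq h3⟩
        intro z hz
        exact Relation.ReflTransGen.trans h3 hz
    refine Set.Finite.subset (hS.union (hS.biUnion fun t _ => ?_)) hsub
    refine Set.Finite.biUnion ((hfin t).subset fun r hr => hr.1) fun r hr => hr.2

theorem EXH_S_finite (hfin : ∀ x, {y | R x y}.Finite) (o : Q) (m : ℕ) :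
    (EXH_S R o m).Finite := by
  induction m with
  | zero => exact Set.finite_empty
  | succ m ih =>
    refine ((Set.finite_singleton o).union ih).union ?_
    have : {r | ∃ t ∈ EXH_S R o m, R t r} ⊆ ⋃ t ∈ EXH_S R o m, {r | R t r} := by
      rintro r ⟨t, ht, hr⟩
      simp only [Set.mem_iUnion]
      exact ⟨t, ht, hr⟩
    exact (ih.biUnion fun t _ => hfin t).subset this

theorem EXH_S_succ (o : Q) (m : ℕ) : EXH_S R o m ⊆ EXH_S R o (m + 1) := by
  intro x hx
  exact Or.inl (Or.inr hx)

end EXH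

theorem p_EXH : Stmt_EXH := by
  intro Q R hsym hfin hconn hinf
  obtain ⟨o⟩ : Nonempty Q := inferInstance
  have hmono : Monotone (EXH_S R o) := monotone_nat_of_le_succ (EXH_S_succ o)
  refine ⟨fun m => EXH_Hu R (EXH_S R o m), ?_, ?_, ?_, ?_, ?_⟩
  · exact EXH_Hu_empty hconn hinf
  · intro m m' h
    exact EXH_Hu_mono (hmono h)
  · intro m
    exact EXH_Hu_finite hsym hfin hconn hinf (EXH_S_finite hfin o m)
  · intro q
    have : ∃ m, q ∈ EXH_S R o m := by
      have h := hconn o q
      induction h with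
      | refl => exact ⟨1, Or.inl (Or.inl rfl)⟩
      | tail _ h2 ih =>
        obtain ⟨m, hm⟩ := ih
        exact ⟨m + 1, Or.inr ⟨_, hm, h2⟩⟩
    obtain ⟨m, hm⟩ := this
    exact ⟨m, Or.inl hm⟩
  · intro m q hq F hF
    have hq1 : q ∉ EXH_S R o m := fun h => hq (Or.inl h)
    have hq2 : ¬ (EXH_C R (EXH_S R o m) q).Finite := fun h => hq (Or.inr ⟨hq1, h⟩)
    have key : ∀ r, Relation.ReflTransGen (Away R (EXH_S R o m)) q r →
        Relation.ReflTransGen (Away R (EXH_Hu R (EXH_S R o m))) q r := by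
      intro r hr
      induction hr with
      | refl => exact Relation.ReflTransGen.refl
      | @tail y z h1 h2 ih =>
        refine Relation.ReflTransGen.tail ih ⟨h2.1, ?_⟩
        have h3 : Relation.ReflTransGen (Away R (EXH_S R o m)) q z :=
          Relation.ReflTransGen.tail h1 h2
        rintro (hz | ⟨-, hz⟩)
        · exact h2.2 hz
        · apply hq2
          refine hz.subset ?_
          intro w hw
          exact Relation.ReflTransGen.trans (EXH_symm hsym hq1 h3) hw
    by_contra hcon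
    push Not at hcon
    apply hq2
    refine hF.subset ?_
    intro r hr
    by_contra hrF
    exact hcon r hrF (key r hr)

end Pool.TZ
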