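import Pool.Agent.Work.MP_ae1ff6_tz.InterfaceD

open Topology Filter Set
open scoped ComplexConjugate

set_option autoImplicit false

namespace Pool.TZ

open Pool.CG Pool.AR Pool.SH

theorem p_FGN : Stmt_FGN := by
  classical
  intro G V _ _ A hne hsym hinv hfin hconn hfree hnfg
  by_contra hinf
  rw [not_infinite_iff_finite] at hinf
  have := hinf
  apply hnfg
  let x : MulAction.orbitRel.Quotient G V → V := fun a => Quotient.out a
  have hx : ∀ a, (Quotient.mk'' (x a) : MulAction.orbitRel.Quotient G V) = a :=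
    fun a => Quotient.out_eq' a
  have hsm : ∀ (g : G) (y : V), (Quotient.mk'' (g • y) : MulAction.orbitRel.Quotient G V) =
      Quotient.mk'' y := fun g y => Quotient.sound' (MulAction.orbitRel_apply.2 ⟨g, rfl⟩)
  have hrep : ∀ v : V, ∃ g : G, v = g • x (Quotient.mk'' v) := by
    intro v
    have h1 : (Quotient.mk'' v : MulAction.orbitRel.Quotient G V) =
        Quotient.mk'' (x (Quotient.mk'' v)) := (hx _).symm
    have h2 := MulAction.orbitRel_apply.1 (Quotient.exact' h1)
    obtain ⟨g, hg⟩ := h2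
    exact ⟨g, hg.symm⟩
  have hinj : ∀ (y : V) (g h : G), g • y = h • y → g = h := by
    intro y g h hgh
    have h1 : (h⁻¹ * g) • y = y := by rw [mul_smul, hgh, inv_smul_smul]
    have h2 := hfree _ _ h1
    rw [inv_mul_eq_one] at h2
    exact h2.symm
  set S : Set G := {g | ∃ a b, A (x a) (g • x b)} with hS
  have hSf : S.Finite := by
    have h1 : S = ⋃ a, ⋃ b, (fun g : G => g • x b) ⁻¹' {y | A (x a) y} := by
      ext g
      simp only [hS, Set.mem_iUnion, Set.mem_preimage, Set.mem_ofPred_eq]
    rw [h1]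
    refine Set.finite_iUnion fun a => Set.finite_iUnion fun b => ?_
    exact (hfin (x a)).preimage (fun g _ h _ hgh => hinj _ _ _ hgh)
  obtain ⟨v0⟩ := hne
  set a0 : MulAction.orbitRel.Quotient G V := Quotient.mk'' v0 with ha0
  have claim : ∀ v : V, ∃ g ∈ Subgroup.closure S, ∃ b, v = g • x b := by
    intro v
    have hc := hconn (x a0) v
    induction hc with
    | refl => exact ⟨1, Subgroup.one_mem _, a0, (one_smul _ _).symm⟩
    | @tail v w _ hvw ih =>
      obtain ⟨g, hg, a, rfl⟩ := ih
      obtain ⟨h, hh⟩ := hrep w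
      have h1 := hinv g⁻¹ _ _ hvw
      rw [inv_smul_smul, hh, ← mul_smul] at h1
      have h2 : g⁻¹ * h ∈ Subgroup.closure S := Subgroup.subset_closure ⟨a, _, h1⟩
      have h3 := Subgroup.mul_mem _ hg h2
      rw [mul_inv_cancel_left] at h3
      exact ⟨h, h3, _, hh⟩
  rw [Group.fg_iff]
  refine ⟨S, ?_, hSf⟩
  rw [eq_top_iff]
  intro g _
  obtain ⟨h, hh, b, hb⟩ := claim (g • x a0)
  have h1 : b = a0 := by
    have := congrArg (fun v : V => (Quotient.mk'' v : MulAction.orbitRel.Quotient G V)) hb
    simp only [hsm, hx] at this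
    exact this.symm
  subst h1
  rw [hinj _ _ _ hb]
  exact hh

end Pool.TZ
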