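import Pool.Agent.Work.MP_ae1ff6_tz.InterfaceD

/-!
# Invariant ideal triangulations (MP_ae1ff6_gt), part D: block FOR
-/

open Topology Filter Set
open scoped ComplexConjugate

set_option autoImplicit false

namespace Pool.TZ

open Pool.CG Pool.AR Pool.SH

/-- the action of `Γ` on the vertices -/
@[reducible] noncomputable def FOR_act (h1 : Stmt_ACT) {Γ : Subgroup H} {V : Set ℂ} {A : ℂ → ℂ → Prop} (hΓ : FirstKind Γ)
    (hG : Gr Γ V A) : MulAction Γ V where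
  smul g v := ⟨act (g : H) (v : ℂ), hG.invV g g.2 v v.2⟩
  one_smul v := by
    apply Subtype.ext
    exact h1.2.2.2.1 (v : ℂ) (hG.sub v v.2).le
  mul_smul g g' v := by
    apply Subtype.ext
    exact h1.2.2.1 (g : H) (g' : H) (hΓ.mob g g.2) (hΓ.mob g' g'.2) (v : ℂ) (hG.sub v v.2).le

theorem p_FOR (h1 : Stmt_ACT) (h2 : Stmt_FRE) (h3 : Stmt_ABS) : Stmt_FOR := by
  intro Γ V A hΓ ht hfg hG
  let _ : MulAction Γ V := FOR_act h1 hΓ hG
  have hsm : ∀ (g : Γ) (v : V), ((g • v : V) : ℂ) = act (g : H) (v : ℂ) := fun g v => rfl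
  have hne : Nonempty V := by
    obtain ⟨v, hv, -⟩ := hG.deep 0 (by simp)
    exact ⟨⟨v, hv⟩⟩
  have hlf : ∀ x : V, {y : V | A (x : ℂ) (y : ℂ)}.Finite := by
    intro x
    have hx := hG.finA ‖(x : ℂ)‖ (hG.sub x x.2)
    refine Set.Finite.of_injOn (f := fun y : V => ((x : ℂ), (y : ℂ))) ?_ ?_ hx
    · intro y hy
      exact ⟨hy, (x : ℂ), left_mem_segment ℝ _ _, le_rfl⟩
    · intro y _ y' _ hyy
      apply Subtype.ext
      exact (Prod.mk.inj hyy).2
  have hcn : ∀ x y : V, Relation.ReflTransGen (fun a b : V => A (a : ℂ) (b : ℂ)) x y := by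
    intro x y
    have key : ∀ z : ℂ, Relation.ReflTransGen A (x : ℂ) z → ∀ hz : z ∈ V,
        Relation.ReflTransGen (fun a b : V => A (a : ℂ) (b : ℂ)) x ⟨z, hz⟩ := by
      intro z hz
      induction hz with
      | refl => intro _; exact Relation.ReflTransGen.refl
      | tail h1 h2 ih =>
        intro hz
        exact (ih (hG.adj _ _ h2).1).tail h2
    exact key (y : ℂ) (hG.conn x x.2 y y.2) y.2
  have hfree : ∀ (g : Γ) (x : V), g • x = x → g = 1 := by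
    intro g x hgx
    apply Subtype.ext
    exact h2 Γ hΓ ht (g : H) g.2 (x : ℂ) (hG.sub x x.2) (by
      have := congrArg Subtype.val hgx
      exact this)
  obtain ⟨π₀, hadj, heq, hanc, hlv⟩ := h3 Γ V (fun a b : V => A (a : ℂ) (b : ℂ)) hne
    (fun x y h => hG.symm _ _ h) (fun g x y h => hG.invA g g.2 _ _ h) hlf hcn hfree hfg
  classical
  set π : ℂ → ℂ := fun v => if hv : v ∈ V then ((π₀ ⟨v, hv⟩ : V) : ℂ) else v with hπ
  have hπv : ∀ v : V, π (v : ℂ) = ((π₀ v : V) : ℂ) := by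
    intro v
    simp [hπ]
  have hit : ∀ (k : ℕ) (v : V), π^[k] (v : ℂ) = ((π₀^[k] v : V) : ℂ) := by
    intro k
    induction k with
    | zero => intro v; rfl
    | succ k ih =>
      intro v
      rw [Function.iterate_succ_apply', Function.iterate_succ_apply', ih, hπv]
  refine ⟨π, ?_, ?_, ?_, ?_⟩
  · intro v hv
    have := hadj ⟨v, hv⟩
    rw [show π v = ((π₀ ⟨v, hv⟩ : V) : ℂ) from hπv ⟨v, hv⟩]
    exact this
  · intro γ hγ v hv
    have := heq ⟨γ, hγ⟩ ⟨v, hv⟩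
    have h' := congrArg Subtype.val this
    rw [show π v = ((π₀ ⟨v, hv⟩ : V) : ℂ) from hπv ⟨v, hv⟩]
    rw [show π (act γ v) = ((π₀ ((⟨γ, hγ⟩ : Γ) • (⟨v, hv⟩ : V)) : V) : ℂ) from
      hπv ((⟨γ, hγ⟩ : Γ) • (⟨v, hv⟩ : V))]
    exact h'
  · intro w hw
    have := (hanc ⟨w, hw⟩).image (fun x : V => (x : ℂ))
    refine this.subset ?_
    rintro v ⟨hv, k, hk⟩
    refine ⟨⟨v, hv⟩, ⟨k, ?_⟩, rfl⟩
    apply Subtype.ext
    rw [← hit k ⟨v, hv⟩]
    exact hk
  · intro v hv w hw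
    refine (hlv ⟨v, hv⟩ ⟨w, hw⟩).subset ?_
    rintro k ⟨γ, hγ, hk⟩
    refine ⟨⟨γ, hγ⟩, ?_⟩
    apply Subtype.ext
    rw [← hit k ⟨v, hv⟩]
    exact hk

end Pool.TZ
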