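import Pool.Agent.Work.MP_ae1ff6_tz.InterfaceA

/-!
# Block FRE (MP_ae1ff6_gt): a torsion free Fuchsian group acts freely on the open disc
-/

open Topology Filter Set
open scoped ComplexConjugate

set_option autoImplicit false

namespace Pool.TZ

open Pool.CG Pool.AR Pool.SH

theorem p_FRE (h1 : Stmt_ACT) (h2 : Stmt_PRD) : Stmt_FRE := by
  intro Γ hΓ ht g hg k hk hgk
  obtain ⟨-, -, hmul, hone, -⟩ := h1
  have hpow : ∀ n : ℕ, act (g ^ n) k = k := by
    intro n
    induction n with
    | zero => rw [pow_zero]; exact hone k hk.le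
    | succ n ih =>
      rw [pow_succ, hmul (g ^ n) g (hΓ.mob _ (Γ.pow_mem hg n)) (hΓ.mob _ hg) k hk.le, hgk, ih]
  have hfin := h2 Γ hΓ ‖k‖ hk
  have hni : ¬ Function.Injective (fun n : ℕ => g ^ n) := by
    intro hinj
    refine Set.infinite_range_of_injective hinj (hfin.subset ?_)
    rintro _ ⟨n, rfl⟩
    refine ⟨Γ.pow_mem hg n, k, le_rfl, ?_⟩
    simp only [hpow n]
    exact le_rfl
  have key : ∀ m n : ℕ, m < n → g ^ m = g ^ n → g = 1 := by
    intro m n hmn he
    refine ht g hg (n - m) (Nat.sub_pos_of_lt hmn) ?_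
    have h3 : g ^ m * g ^ (n - m) = g ^ m * 1 := by
      rw [← pow_add, Nat.add_sub_cancel' hmn.le, mul_one, he]
    exact mul_left_cancel h3
  rw [Function.Injective] at hni
  push Not at hni
  obtain ⟨m, n, he, hne⟩ := hni
  rcases lt_or_gt_of_ne hne with h | h
  · exact key m n h he
  · exact key n m h he.symm

end Pool.TZ
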