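import Pool.Agent.Work.MP_ae1ff6_tz.InterfaceE

/-!
# Invariant ideal triangulations (MP_ae1ff6_gt): block FRF, the function `fr`
-/

open Topology Filter Set
open scoped ComplexConjugate

set_option autoImplicit false

namespace Pool.TZ

open Pool.CG Pool.AR Pool.SH

theorem FRF_eq (k z : ℂ) : fr k z = 1 - (k.re * z.re + k.im * z.im) := by
  simp only [fr, Complex.mul_re, Complex.conj_re, Complex.conj_im]
  ring

theorem FRF_nsq (k : ℂ) : ‖k‖ ^ 2 = k.re ^ 2 + k.im ^ 2 := by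
  rw [← Complex.normSq_eq_norm_sq, Complex.normSq_apply]
  ring

theorem FRF_le {k : ℂ} (h : ‖k‖ ≤ 1) : k.re ^ 2 + k.im ^ 2 ≤ 1 := by
  rw [← FRF_nsq]
  have := norm_nonneg k
  nlinarith

theorem FRF_lt {k : ℂ} (h : ‖k‖ < 1) : k.re ^ 2 + k.im ^ 2 < 1 := by
  rw [← FRF_nsq]
  have := norm_nonneg k
  nlinarith

theorem FRF_one {k z : ℂ} (hk : ‖k‖ ≤ 1) (hz : ‖z‖ ≤ 1) :
    0 ≤ fr k z ∧ fr k z ≤ 2 ∧ ‖k - z‖ ^ 2 ≤ 2 * fr k z := by
  have h1 := FRF_le hk
  have h2 := FRF_le hz
  rw [FRF_eq, FRF_nsq, Complex.sub_re, Complex.sub_im]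
  refine ⟨?_, ?_, ?_⟩
  · nlinarith [sq_nonneg (k.re - z.re), sq_nonneg (k.im - z.im)]
  · nlinarith [sq_nonneg (k.re + z.re), sq_nonneg (k.im + z.im)]
  · nlinarith

theorem FRF_circ (p : Circle) : (p : ℂ).re ^ 2 + (p : ℂ).im ^ 2 = 1 := by
  rw [← FRF_nsq, Circle.norm_coe]
  norm_num

theorem FRF_sd (p q : Circle) (k : ℂ) : sd p q k =
    ((q : ℂ).re - (p : ℂ).re) * (k.im - (p : ℂ).im) - ((q : ℂ).im - (p : ℂ).im) * (k.re - (p : ℂ).re) := by
  simp only [sd, Complex.mul_im, Complex.conj_re, Complex.conj_im, Complex.sub_re, Complex.sub_im]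
  ring

theorem p_FRF : Stmt_FRF := by
  refine ⟨fun k z hk hz => FRF_one hk hz, ?_, ?_, ?_, ?_⟩
  · intro k z hk hz
    have h1 := FRF_lt hk
    have h2 := FRF_le hz
    rw [FRF_eq]
    nlinarith [sq_nonneg (k.re - z.re), sq_nonneg (k.im - z.im)]
  · intro k z hk hz hne
    have h := FRF_one hk hz
    have h3 : 0 < ‖k - z‖ ^ 2 := by
      have : 0 < ‖k - z‖ := norm_pos_iff.2 (sub_ne_zero.2 hne)
      positivity
    linarith [h.2.2]
  · intro z
    unfold fr
    fun_prop
  · intro p q k hpq hs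
    have hp := FRF_circ p
    have hq := FRF_circ q
    rw [FRF_sd] at hs
    set a := (p : ℂ).re with ha
    set b := (p : ℂ).im with hb
    set c := (q : ℂ).re with hc
    set d := (q : ℂ).im with hd
    have hD : 0 < (c - a) ^ 2 + (d - b) ^ 2 := by
      by_contra hcon
      have h1 : c - a = 0 := by nlinarith [sq_nonneg (c - a), sq_nonneg (d - b)]
      have h2 : d - b = 0 := by nlinarith [sq_nonneg (c - a), sq_nonneg (d - b)]
      apply hpq
      apply Circle.ext
      apply Complex.ext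
      · rw [← ha, ← hc]; linarith
      · rw [← hb, ← hd]; linarith
    obtain ⟨t, ht⟩ : ∃ t : ℝ, t = ((c - a) * (k.re - a) + (d - b) * (k.im - b)) / ((c - a) ^ 2 + (d - b) ^ 2) :=
      ⟨_, rfl⟩
    have ht' : t * ((c - a) ^ 2 + (d - b) ^ 2) = (c - a) * (k.re - a) + (d - b) * (k.im - b) := by
      rw [ht]; field_simp
    have hx : k.re - a = t * (c - a) := by
      have : (k.re - a) * ((c - a) ^ 2 + (d - b) ^ 2) = t * (c - a) * ((c - a) ^ 2 + (d - b) ^ 2) := by
        have e1 : t * (c - a) * ((c - a) ^ 2 + (d - b) ^ 2) = (c - a) * (t * ((c - a) ^ 2 + (d - b) ^ 2)) := by ring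
        rw [e1, ht']
        linear_combination (b - d) * hs
      exact mul_right_cancel₀ hD.ne' this
    have hy : k.im - b = t * (d - b) := by
      have : (k.im - b) * ((c - a) ^ 2 + (d - b) ^ 2) = t * (d - b) * ((c - a) ^ 2 + (d - b) ^ 2) := by
        have e1 : t * (d - b) * ((c - a) ^ 2 + (d - b) ^ 2) = (d - b) * (t * ((c - a) ^ 2 + (d - b) ^ 2)) := by ring
        rw [e1, ht']
        linear_combination (c - a) * hs
      exact mul_right_cancel₀ hD.ne' this
    have hx' : k.re = (1 - t) * a + t * c := by linarith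
    have hy' : k.im = (1 - t) * b + t * d := by linarith
    refine ⟨t, ?_, ?_, ?_, ?_⟩
    · apply Complex.ext
      · rw [Complex.add_re, Complex.real_smul, Complex.real_smul, Complex.re_ofReal_mul,
          Complex.re_ofReal_mul, ← ha, ← hc, hx']
      · rw [Complex.add_im, Complex.real_smul, Complex.real_smul, Complex.im_ofReal_mul,
          Complex.im_ofReal_mul, ← hb, ← hd, hy']
    · rw [FRF_eq, FRF_eq, ← ha, ← hb, ← hc, ← hd, hx', hy']
      linear_combination (-(1 - t)) * hp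
    · rw [FRF_eq, FRF_eq, ← ha, ← hb, ← hc, ← hd, hx', hy']
      linear_combination (-t) * hq
    · rw [FRF_nsq, FRF_eq, ← ha, ← hb, ← hc, ← hd, hx', hy']
      linear_combination (-(1 - t) ^ 2) * hp + (-t ^ 2) * hq

end Pool.TZ
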