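import Pool.Agent.Work.MP_ae1ff6_tz.InterfaceE

/-!
# Invariant ideal triangulations (MP_ae1ff6_gt): block HYD, a hyperbolic element acts cocompactly on its axis
-/

open Topology Filter Set
open scoped ComplexConjugate

set_option autoImplicit false

namespace Pool.TZ

open Pool.CG Pool.AR Pool.SH

/-- the stabilizer of a point -/
def HYD_st (x : Circle) : Subgroup H where
  carrier := {g | g x = x}
  mul_mem' := fun {a b} (ha : a x = x) (hb : b x = x) => by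
    show a (b x) = x
    rw [hb, ha]
  one_mem' := rfl
  inv_mem' := fun {a} (ha : a x = x) => by
    show a.symm x = x
    have h := a.symm_apply_apply x
    rwa [ha] at h

theorem HYD_fix {g : H} {x : Circle} (h : g x = x) (n : ℤ) : (g ^ n) x = x :=
  (HYD_st x).zpow_mem (show g ∈ HYD_st x from h) n

theorem HYD_pow (L : ℝ) (hL : 0 < L) (h1 : L ≠ 1) : ∃ M : ℝ, 1 < M ∧ ∀ R : ℝ, 0 < R →
    ∃ n : ℤ, 1 ≤ L ^ n * R ∧ L ^ n * R ≤ M := by
  obtain ⟨M, hM, hn⟩ : ∃ M : ℝ, 1 < M ∧ ∀ m : ℤ, ∃ n : ℤ, L ^ n * M ^ m = 1 := by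
    rcases lt_or_gt_of_ne h1 with h | h
    · refine ⟨L⁻¹, (one_lt_inv₀ hL).2 h, fun m => ⟨m, ?_⟩⟩
      rw [← mul_zpow, mul_inv_cancel₀ hL.ne', one_zpow]
    · refine ⟨L, h, fun m => ⟨-m, ?_⟩⟩
      rw [← zpow_add₀ hL.ne', neg_add_cancel, zpow_zero]
  refine ⟨M, hM, fun R hR => ?_⟩
  obtain ⟨m, hm1, hm2⟩ := exists_mem_Ico_zpow hR hM
  obtain ⟨n, hn⟩ := hn m
  have hLn : (0 : ℝ) < L ^ n := zpow_pos hL n
  refine ⟨n, ?_, ?_⟩
  · rw [← hn]
    exact mul_le_mul_of_nonneg_left hm1 hLn.le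
  · have h2 : L ^ n * R ≤ L ^ n * M ^ (m + 1) := mul_le_mul_of_nonneg_left hm2.le hLn.le
    rw [zpow_add_one₀ (by positivity : M ≠ 0), ← mul_assoc, hn, one_mul] at h2
    exact h2

theorem HYD_pos {t c x : ℝ} (hc : 0 < c) (hx : 0 < x) (h : x = 2 * (t * (1 - t)) * c) :
    0 < t ∧ 0 < 1 - t := by
  have h1 : 0 < t * (1 - t) := by
    by_contra hn
    have h2 : t * (1 - t) ≤ 0 := not_lt.1 hn
    have h3 : t * (1 - t) * c ≤ 0 := mul_nonpos_of_nonpos_of_nonneg h2 hc.le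
    linarith
  rcases mul_pos_iff.1 h1 with h2 | h2
  · exact h2
  · linarith [h2.1, h2.2]

theorem p_HYD (h1 : Stmt_ACT) (h2 : Stmt_FRF) (h3 : Stmt_LAM) : Stmt_HYD := by
  intro Γ hΓ ht γ hγ p q hax
  obtain ⟨a1, a2, a3, a4, a5, a6, a7, a8⟩ := h1
  obtain ⟨f1, f2, f3, f4, f5⟩ := h2
  obtain ⟨L, hL, hL1, hLn⟩ := h3 Γ hΓ ht γ hγ p q hax
  obtain ⟨M, hM, hMn⟩ := HYD_pow L hL hL1
  obtain ⟨hpq, hfix⟩ := hax
  have hpn : ‖(p : ℂ)‖ ≤ 1 := (Circle.norm_coe p).le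
  have hqn : ‖(q : ℂ)‖ ≤ 1 := (Circle.norm_coe q).le
  have hpq' : (p : ℂ) ≠ (q : ℂ) := fun h => hpq (Circle.ext h)
  have hc : 0 < fr p q := f3 p q hpn hqn hpq'
  have hp : γ p = p := (hfix p).2 (Or.inl rfl)
  have hq : γ q = q := (hfix q).2 (Or.inr rfl)
  have hM1 : 0 < M + 1 := by linarith
  have hcM : 0 < fr p q / (M + 1) := div_pos hc hM1
  refine ⟨√(1 - fr p q / (M + 1)), ?_, ?_⟩
  · rw [Real.sqrt_lt' one_pos]
    linarith
  · intro u hu hs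
    obtain ⟨t, -, ht1, ht2, ht3⟩ := f5 p q u hpq hs
    have hu2 : 0 < 1 - ‖u‖ ^ 2 := by
      have : ‖u‖ ^ 2 < 1 := by
        rw [sq_lt_one_iff₀ (norm_nonneg u)]
        exact hu
      linarith
    obtain ⟨htp, htp'⟩ := HYD_pos hc hu2 ht3
    obtain ⟨n, hn1, hn2⟩ := hMn (t / (1 - t)) (div_pos htp htp')
    refine ⟨n, ?_⟩
    have hmob : IsMob (γ ^ n) := hΓ.mob _ (Γ.zpow_mem hγ n)
    have hv : ‖act (γ ^ n) u‖ < 1 := (a2 _ hmob u).1 hu
    have hs' : sd p q (act (γ ^ n) u) = 0 := by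
      obtain ⟨c, -, hcs⟩ := a8 _ hmob p q u hu.le
      rw [HYD_fix hp n, HYD_fix hq n, hs, mul_zero] at hcs
      exact hcs
    obtain ⟨t', -, ht1', ht2', ht3'⟩ := f5 p q _ hpq hs'
    have hv2 : 0 < 1 - ‖act (γ ^ n) u‖ ^ 2 := by
      have : ‖act (γ ^ n) u‖ ^ 2 < 1 := by
        rw [sq_lt_one_iff₀ (norm_nonneg _)]
        exact hv
      linarith
    obtain ⟨htq, htq'⟩ := HYD_pos hc hv2 ht3'
    have hlam := hLn n u hu.le
    rw [ht1, ht2, ht1', ht2'] at hlam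
    -- `t' (1 - t) = L ^ n t (1 - t')`
    have e1 : t' * (1 - t) = L ^ n * (t * (1 - t')) := by
      have hc2 : fr p q * fr p q ≠ 0 := (mul_pos hc hc).ne'
      apply mul_right_cancel₀ hc2
      linear_combination hlam
    obtain ⟨ρ, hρ⟩ : ∃ ρ, ρ = L ^ n * (t / (1 - t)) := ⟨_, rfl⟩
    rw [← hρ] at hn1 hn2
    have e2 : t' = ρ * (1 - t') := by
      have h5 : ρ * (1 - t) = L ^ n * t := by
        rw [hρ, mul_assoc, div_mul_cancel₀ _ htp'.ne']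
      apply mul_right_cancel₀ htp'.ne'
      linear_combination e1 - (1 - t') * h5
    have e3 : 1 = (1 + ρ) * (1 - t') := by linear_combination e2
    have e4 : 1 ≤ (M + 1) * (1 - t') := by
      have h5 : ρ * (1 - t') ≤ M * (1 - t') := mul_le_mul_of_nonneg_right hn2 htq'.le
      linarith
    have e5 : 1 - t' ≤ t' := by
      have h5 : 1 * (1 - t') ≤ ρ * (1 - t') := mul_le_mul_of_nonneg_right hn1 htq'.le
      linarith
    have e6 : 1 ≤ 2 * (t' * (1 - t')) * (M + 1) := by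
      have h5 : 1 ≤ 2 * t' := by linarith
      have h6 : 1 * ((M + 1) * (1 - t')) ≤ 2 * t' * ((M + 1) * (1 - t')) :=
        mul_le_mul_of_nonneg_right h5 (by positivity)
      linarith
    have e7 : fr p q / (M + 1) ≤ 2 * (t' * (1 - t')) * fr p q := by
      rw [div_le_iff₀ hM1]
      have h5 : 1 * fr p q ≤ 2 * (t' * (1 - t')) * (M + 1) * fr p q :=
        mul_le_mul_of_nonneg_right e6 hc.le
      linarith
    have e8 : ‖act (γ ^ n) u‖ ^ 2 ≤ 1 - fr p q / (M + 1) := by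
      rw [← ht3'] at e7
      linarith
    exact le_trans (le_abs_self _) (Real.abs_le_sqrt e8)

end Pool.TZ
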