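import Pool.Agent.Work.MP_ae1ff6_tz.InterfaceE

/-! # Block ITR: iterates -/

open Topology Filter Set
open scoped ComplexConjugate

set_option autoImplicit false

namespace Pool.TZ

open Pool.CG Pool.AR Pool.SH

theorem p_ITR (hACT : Stmt_ACT) : Stmt_ITR := by
  intro Γ V A π hSt
  have h1 : ∀ v ∈ V, ∀ k : ℕ, π^[k] v ∈ V := by
    intro v hv k
    induction k with
    | zero => simpa using hv
    | succ k ih =>
      rw [Function.iterate_succ_apply']
      exact (hSt.gr.adj _ _ (hSt.fo.adj _ ih)).2.1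
  refine ⟨?_, ?_, ?_⟩
  · intro v hv k
    refine ⟨h1 v hv k, ?_⟩
    rw [Function.iterate_succ_apply']
    exact hSt.fo.adj _ (h1 v hv k)
  · intro γ hγ v hv k
    induction k with
    | zero => simp
    | succ k ih =>
      rw [Function.iterate_succ_apply', Function.iterate_succ_apply', ih]
      exact hSt.fo.equiv γ hγ _ (h1 v hv k)
  · intro v hv r hr
    have hfin : {k : ℕ | ‖π^[k] v‖ ≤ r}.Finite := by
      have hB : (⋃ w ∈ {w : ℂ | w ∈ V ∧ ‖w‖ ≤ r}, {k : ℕ | ∃ γ ∈ Γ, π^[k] v = act γ w}).Finite :=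
        (hSt.gr.finV r hr).biUnion fun w hw => hSt.fo.leave v hv w hw.1
      refine hB.subset ?_
      intro k hk
      simp only [Set.mem_iUnion]
      exact ⟨π^[k] v, ⟨h1 v hv k, hk⟩, 1, Γ.one_mem, 
        (hACT.2.2.2.1 _ (hSt.gr.sub _ (h1 v hv k)).le).symm⟩
    rw [← Nat.cofinite_eq_atTop]
    filter_upwards [hfin.compl_mem_cofinite] with k hk
    exact not_le.1 hk

end Pool.TZ
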