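import Pool.Agent.Work.MP_ae1ff6_tz.InterfaceFF

/-!
# Block IVD: the intervals of the subdivision with points of `C` become short
-/

open Topology Filter Set
open scoped ComplexConjugate

set_option autoImplicit false

namespace Pool.TZ

open Pool.CG Pool.AR Pool.SH

/-- The parent of an interval. -/
theorem IVD_inv {C : Set ℝ} {a b : ℝ} {n : ℕ} {u v : ℝ} (h : Iv C a b (n + 1) u v) :
    ∃ U V c : ℝ, Iv C a b n U V ∧ Nr C U V c ∧ ((u = U ∧ v = c) ∨ (u = c ∧ v = V)) := by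
  cases h with
  | left _ _ v' h1 h2 => exact ⟨_, _, _, h1, h2, Or.inl ⟨rfl, rfl⟩⟩
  | right _ u' _ h1 h2 => exact ⟨_, _, _, h1, h2, Or.inr ⟨rfl, rfl⟩⟩

/-- The intervals are contained in the whole interval. -/
theorem IVD_bd {C : Set ℝ} {a b : ℝ} (hab : a < b) (n : ℕ) :
    ∀ u v : ℝ, Iv C a b n u v → a ≤ u ∧ u < v ∧ v ≤ b := by
  induction n with
  | zero =>
    intro u v h
    cases h
    exact ⟨le_rfl, hab, le_rfl⟩
  | succ n ih =>
    intro u v h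
    obtain ⟨U, V, c, h1, h2, h3⟩ := IVD_inv h
    obtain ⟨h4, h5, h6⟩ := ih U V h1
    obtain ⟨_, h7, h8, _⟩ := h2
    rcases h3 with ⟨rfl, rfl⟩ | ⟨rfl, rfl⟩
    · exact ⟨h4, h7, h8.le.trans h6⟩
    · exact ⟨h4.trans h7.le, h8, h6⟩

theorem IVD_one {C : Set ℝ} {U V c u₁ v₁ c₁ u v : ℝ} (h1 : Nr C U V c)
    (h2 : (u₁ = U ∧ v₁ = c) ∨ (u₁ = c ∧ v₁ = V)) (h3 : Nr C u₁ v₁ c₁)
    (h4 : (u = u₁ ∧ v = c₁) ∨ (u = c₁ ∧ v = v₁)) (hk : ∃ k ∈ C, u < k ∧ k < v) :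
    v - u ≤ 3 / 4 * (V - U) := by
  obtain ⟨hcC, hUc, hcV, hmin⟩ := h1
  obtain ⟨hc1C, hc1, hc2, hmin1⟩ := h3
  obtain ⟨k, hkC, hku, hkv⟩ := hk
  rcases h2 with ⟨rfl, rfl⟩ | ⟨rfl, rfl⟩
  · by_cases h5 : v₁ ≤ u₁ + 3 / 4 * (V - u₁)
    · rcases h4 with ⟨rfl, rfl⟩ | ⟨rfl, rfl⟩ <;> linarith
    · push Not at h5
      have key : ∀ x ∈ C, u₁ < x → x < v₁ → x ≤ u₁ + V - v₁ := by
        intro x hx hx1 hx2
        have h6 := hmin x hx hx1 (hx2.trans hcV)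
        rw [abs_of_pos (by linarith : 0 < 2 * v₁ - u₁ - V)] at h6
        rcases abs_cases (2 * x - u₁ - V) with ⟨h7, _⟩ | ⟨h7, _⟩ <;> rw [h7] at h6 <;> linarith
      have h8 := key c₁ hc1C hc1 hc2
      rcases h4 with ⟨rfl, rfl⟩ | ⟨rfl, rfl⟩
      · linarith
      · exfalso
        have h9 := key k hkC (hc1.trans hku) hkv
        have h10 := hmin1 k hkC (hc1.trans hku) hkv
        rw [abs_of_neg (by linarith : 2 * u - u₁ - v < 0),
          abs_of_neg (by linarith : 2 * k - u₁ - v < 0)] at h10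
        linarith
  · by_cases h5 : U + 1 / 4 * (v₁ - U) ≤ u₁
    · rcases h4 with ⟨rfl, rfl⟩ | ⟨rfl, rfl⟩ <;> linarith
    · push Not at h5
      have key : ∀ x ∈ C, u₁ < x → x < v₁ → U + v₁ - u₁ ≤ x := by
        intro x hx hx1 hx2
        have h6 := hmin x hx (hUc.trans hx1) hx2
        rw [abs_of_neg (by linarith : 2 * u₁ - U - v₁ < 0)] at h6
        rcases abs_cases (2 * x - U - v₁) with ⟨h7, _⟩ | ⟨h7, _⟩ <;> rw [h7] at h6 <;> linarith
      have h8 := key c₁ hc1C hc1 hc2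
      rcases h4 with ⟨rfl, rfl⟩ | ⟨rfl, rfl⟩
      · exfalso
        have h9 := key k hkC hku (hkv.trans hc2)
        have h10 := hmin1 k hkC hku (hkv.trans hc2)
        rw [abs_of_pos (by linarith : 0 < 2 * v - u - v₁),
          abs_of_pos (by linarith : 0 < 2 * k - u - v₁)] at h10
        linarith
      · linarith

theorem p_IVD : Stmt_IVD := by
  intro C a b hab
  have one : ∀ n u v, Iv C a b (n + 2) u v → (∃ k ∈ C, u < k ∧ k < v) →
      ∃ U V, Iv C a b n U V ∧ (∃ k ∈ C, U < k ∧ k < V) ∧ v - u ≤ 3 / 4 * (V - U) := by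
    intro n u v h hk
    obtain ⟨u₁, v₁, c₁, h1, h2, h3⟩ := IVD_inv h
    obtain ⟨U, V, c, h4, h5, h6⟩ := IVD_inv h1
    exact ⟨U, V, h4, ⟨c, h5.1, h5.2.1, h5.2.2.1⟩, IVD_one h5 h6 h2 h3 hk⟩
  refine ⟨one, ?_⟩
  have two : ∀ k n u v, 2 * k ≤ n → Iv C a b n u v → (∃ x ∈ C, u < x ∧ x < v) →
      v - u ≤ (3 / 4) ^ k * (b - a) := by
    intro k
    induction k with
    | zero =>
      intro n u v _ h _
      obtain ⟨h1, _, h3⟩ := IVD_bd hab n u v h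
      rw [pow_zero, one_mul]
      linarith
    | succ k ih =>
      intro n u v hn h hx
      obtain ⟨m, rfl⟩ : ∃ m, n = m + 2 := ⟨n - 2, by omega⟩
      obtain ⟨U, V, h1, h2, h3⟩ := one m u v h hx
      have h4 := ih m U V (by omega) h1 h2
      rw [pow_succ]
      linarith
  intro ε hε
  have hba : 0 < b - a := by linarith
  obtain ⟨k, hk⟩ := exists_pow_lt_of_lt_one (div_pos hε hba) (by norm_num : (3 / 4 : ℝ) < 1)
  refine ⟨2 * k, ?_⟩
  intro n u v hn h hx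
  have h1 := two k n u v hn h hx
  have h2 : (3 / 4 : ℝ) ^ k * (b - a) < ε := by
    rw [lt_div_iff₀ hba] at hk
    exact hk
  linarith

end Pool.TZ
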