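import Pool.Agent.Work.MP_ae1ff6_tz.InterfaceFF

/-!
# Block IVL: the intervals are nested or disjoint (MP_ae1ff6_gt)
-/

open Topology Filter Set
open scoped ComplexConjugate

set_option autoImplicit false

namespace Pool.TZ

open Pool.CG Pool.AR Pool.SH

theorem IVL_zero (C : Set ℝ) (a b u v : ℝ) (h : Iv C a b 0 u v) : u = a ∧ v = b := by
  cases h
  exact ⟨rfl, rfl⟩

theorem IVL_succ (C : Set ℝ) (a b : ℝ) (n : ℕ) (u v : ℝ) (h : Iv C a b (n + 1) u v) :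
    ∃ U V, Iv C a b n U V ∧ Nr C U V (sp C U V) ∧
      ((u = U ∧ v = sp C U V) ∨ (u = sp C U V ∧ v = V)) := by
  cases h with
  | left _ _ V h1 h2 => exact ⟨u, V, h1, h2, Or.inl ⟨rfl, rfl⟩⟩
  | right _ U _ h1 h2 => exact ⟨U, v, h1, h2, Or.inr ⟨rfl, rfl⟩⟩

theorem IVL_one (C : Set ℝ) (a b : ℝ) (ha : a ∈ C) (hb : b ∈ C) (hab : a < b) (n : ℕ) (u v : ℝ)
    (h : Iv C a b n u v) : u < v ∧ u ∈ C ∧ v ∈ C ∧ a ≤ u ∧ v ≤ b := by
  induction h with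
  | root => exact ⟨hab, ha, hb, le_refl a, le_refl b⟩
  | left n u v h1 h2 ih =>
    obtain ⟨i1, i2, i3, i4, i5⟩ := ih
    obtain ⟨c1, c2, c3, _⟩ := h2
    exact ⟨c2, i2, c1, i4, le_trans c3.le i5⟩
  | right n u v h1 h2 ih =>
    obtain ⟨i1, i2, i3, i4, i5⟩ := ih
    obtain ⟨c1, c2, c3, _⟩ := h2
    exact ⟨c3, c1, i3, le_trans i4 c2.le, i5⟩

theorem IVL_two (C : Set ℝ) (a b : ℝ) (n : ℕ) : ∀ u v u' v' : ℝ,
    Iv C a b n u v → Iv C a b n u' v' → (u = u' ∧ v = v') ∨ v ≤ u' ∨ v' ≤ u := by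
  induction n with
  | zero =>
    intro u v u' v' h h'
    obtain ⟨h1, h2⟩ := IVL_zero C a b u v h
    obtain ⟨h3, h4⟩ := IVL_zero C a b u' v' h'
    exact Or.inl ⟨by rw [h1, h3], by rw [h2, h4]⟩
  | succ n ih =>
    intro u v u' v' h h'
    obtain ⟨U, V, h1, h2, h3⟩ := IVL_succ C a b n u v h
    obtain ⟨U', V', h1', h2', h3'⟩ := IVL_succ C a b n u' v' h'
    obtain ⟨_, c2, c3, _⟩ := h2
    obtain ⟨_, c2', c3', _⟩ := h2'
    have hu : U ≤ u ∧ v ≤ V := by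
      rcases h3 with ⟨e1, e2⟩ | ⟨e1, e2⟩
      · exact ⟨e1.ge, e2 ▸ c3.le⟩
      · exact ⟨e1 ▸ c2.le, e2.le⟩
    have hu' : U' ≤ u' ∧ v' ≤ V' := by
      rcases h3' with ⟨e1, e2⟩ | ⟨e1, e2⟩
      · exact ⟨e1.ge, e2 ▸ c3'.le⟩
      · exact ⟨e1 ▸ c2'.le, e2.le⟩
    rcases ih U V U' V' h1 h1' with ⟨e1, e2⟩ | h4 | h4
    · subst e1
      subst e2
      rcases h3 with ⟨e1, e2⟩ | ⟨e1, e2⟩ <;> rcases h3' with ⟨e3, e4⟩ | ⟨e3, e4⟩
      · exact Or.inl ⟨by rw [e1, e3], by rw [e2, e4]⟩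
      · exact Or.inr (Or.inl (by rw [e2, e3]))
      · exact Or.inr (Or.inr (by rw [e4, e1]))
      · exact Or.inl ⟨by rw [e1, e3], by rw [e2, e4]⟩
    · exact Or.inr (Or.inl (le_trans hu.2 (le_trans h4 hu'.1)))
    · exact Or.inr (Or.inr (le_trans hu'.2 (le_trans h4 hu.1)))

theorem IVL_three (C : Set ℝ) (a b : ℝ) (n k : ℕ) : ∀ u v : ℝ,
    Iv C a b (n + k) u v → ∃ U V, Iv C a b n U V ∧ U ≤ u ∧ v ≤ V := by
  induction k with
  | zero =>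
    intro u v h
    exact ⟨u, v, h, le_refl u, le_refl v⟩
  | succ k ih =>
    intro u v h
    obtain ⟨U, V, h1, h2, h3⟩ := IVL_succ C a b (n + k) u v h
    obtain ⟨_, c2, c3, _⟩ := h2
    obtain ⟨W, Z, i1, i2, i3⟩ := ih U V h1
    rcases h3 with ⟨e1, e2⟩ | ⟨e1, e2⟩
    · exact ⟨W, Z, i1, by rw [e1]; exact i2, by rw [e2]; exact le_trans c3.le i3⟩
    · exact ⟨W, Z, i1, by rw [e1]; exact le_trans i2 c2.le, by rw [e2]; exact i3⟩

theorem IVL_four (C : Set ℝ) (a b : ℝ) (n : ℕ) : {e : ℝ × ℝ | Iv C a b n e.1 e.2}.Finite := by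
  induction n with
  | zero =>
    refine (Set.finite_singleton ((a, b) : ℝ × ℝ)).subset ?_
    intro e he
    obtain ⟨h1, h2⟩ := IVL_zero C a b e.1 e.2 he
    exact Prod.ext h1 h2
  | succ n ih =>
    refine ((ih.image (fun e : ℝ × ℝ => (e.1, sp C e.1 e.2))).union
      (ih.image (fun e : ℝ × ℝ => (sp C e.1 e.2, e.2)))).subset ?_
    intro e he
    obtain ⟨U, V, h1, _, h3⟩ := IVL_succ C a b n e.1 e.2 he
    rcases h3 with ⟨e1, e2⟩ | ⟨e1, e2⟩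
    · exact Or.inl ⟨(U, V), h1, Prod.ext e1.symm e2.symm⟩
    · exact Or.inr ⟨(U, V), h1, Prod.ext e1.symm e2.symm⟩

theorem p_IVL : Stmt_IVL := by
  intro C a b ha hb hab
  exact ⟨IVL_one C a b ha hb hab, IVL_two C a b, IVL_three C a b, IVL_four C a b⟩

end Pool.TZ
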