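import Pool.Agent.Work.MP_ae1ff6_tz.InterfaceA

/-! # Block KPA -/

open Topology Filter Set
open scoped ComplexConjugate

set_option autoImplicit false

namespace Pool.TZ

open Pool.CG Pool.AR Pool.SH

theorem KPA_kD (α β k : ℂ) : (kD α β k : ℂ) =
    α * conj α + β * conj β + (α * conj β * k + conj α * β * conj k) := by
  unfold kD
  push_cast
  have h1 : (2 : ℂ) * ((α * conj β * k).re : ℂ) = α * conj β * k + conj (α * conj β * k) := by
    rw [Complex.add_conj]
    push_cast
    ring
  rw [h1, ← Complex.mul_conj', ← Complex.mul_conj']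
  simp only [map_mul, Complex.conj_conj]

theorem p_KPA : Stmt_KPA := by
  refine ⟨?_, ?_⟩
  · intro α β k l s t hst
    have hst' : (s : ℂ) + (t : ℂ) = 1 := by exact_mod_cast congrArg (fun x : ℝ => (x : ℂ)) hst
    refine ⟨?_, ?_⟩
    · unfold kN
      simp only [Complex.real_smul, map_add, map_mul, Complex.conj_ofReal]
      linear_combination (-2 * α * β) * hst'
    · unfold kD
      simp only [Complex.real_smul]
      have h : (α * conj β * ((s : ℂ) * k + (t : ℂ) * l)).re =
          s * (α * conj β * k).re + t * (α * conj β * l).re := by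
        have e : α * conj β * ((s : ℂ) * k + (t : ℂ) * l) =
          (s : ℂ) * (α * conj β * k) + (t : ℂ) * (α * conj β * l) := by ring
        rw [e, Complex.add_re, Complex.re_ofReal_mul, Complex.re_ofReal_mul]
      rw [h]
      linear_combination (-(‖α‖ ^ 2 + ‖β‖ ^ 2)) * hst
  · intro α β k hk
    rw [KPA_kD]
    have h1 : k * conj k = 1 := by
      rw [Complex.mul_conj', hk]
      norm_num
    unfold kN
    linear_combination (α ^ 2 * conj β * k - β ^ 2 * conj α * conj k) * 0 +
      (β ^ 2 * conj β - α * β * conj α) * h1 * 1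
end Pool.TZ
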