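import Pool.Agent.Work.MP_ae1ff6_tz.InterfaceA

/-!
# Block KPC: composition of the action on the Klein disc
-/

open Topology Filter Set
open scoped ComplexConjugate

set_option autoImplicit false

namespace Pool.TZ

open Pool.CG Pool.AR Pool.SH

/-- `kD` as a complex polynomial -/
theorem KPC_d (α β k : ℂ) : (kD α β k : ℂ) =
    α * conj α + β * conj β + (α * conj β * k + conj α * β * conj k) := by
  have h1 : ((‖α‖ ^ 2 : ℝ) : ℂ) = α * conj α := by
    rw [Complex.mul_conj, Complex.normSq_eq_norm_sq]
  have h2 : ((‖β‖ ^ 2 : ℝ) : ℂ) = β * conj β := by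
    rw [Complex.mul_conj, Complex.normSq_eq_norm_sq]
  have h3 : ((2 * (α * conj β * k).re : ℝ) : ℂ) =
      α * conj β * k + conj (α * conj β * k) := (Complex.add_conj _).symm
  unfold kD
  rw [Complex.ofReal_add, Complex.ofReal_add, h1, h2, h3]
  simp only [map_mul, Complex.conj_conj]

theorem p_KPC : Stmt_KPC := by
  intro α β α' β' k hd
  have hd' : (kD α' β' k : ℂ) ≠ 0 := Complex.ofReal_ne_zero.2 hd
  have hc : conj (kN α' β' k / (kD α' β' k : ℂ)) = conj (kN α' β' k) / (kD α' β' k : ℂ) := by
    rw [map_div₀, Complex.conj_ofReal]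
  have hn : conj (kN α' β' k) = conj α' ^ 2 * conj k + conj β' ^ 2 * k + 2 * conj α' * conj β' := by
    unfold kN
    simp only [map_add, map_mul, map_pow, Complex.conj_conj, map_ofNat]
  constructor
  · have e1 : (kD α' β' k : ℂ) * kN α β (kN α' β' k / (kD α' β' k : ℂ)) =
        α ^ 2 * kN α' β' k + β ^ 2 * conj (kN α' β' k) + 2 * α * β * (kD α' β' k : ℂ) := by
      rw [kN, hc]
      field_simp
    rw [e1, hn, KPC_d]
    simp only [kN]
    ring
  · apply Complex.ofReal_injective
    rw [Complex.ofReal_mul, KPC_d α β, KPC_d (α * α' + β * conj β'), hc]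
    have e1 : (kD α' β' k : ℂ) * (α * conj α + β * conj β + (α * conj β * (kN α' β' k / (kD α' β' k : ℂ)) +
        conj α * β * (conj (kN α' β' k) / (kD α' β' k : ℂ)))) =
        (kD α' β' k : ℂ) * (α * conj α + β * conj β) + (α * conj β * kN α' β' k +
        conj α * β * conj (kN α' β' k)) := by
      field_simp
    rw [e1, hn, KPC_d]
    simp only [kN, map_add, map_mul, Complex.conj_conj]
    ring

end Pool.TZ
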