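import Pool.Agent.Work.MP_ae1ff6_tz.InterfaceA

/-!
# Block KPP: positivity of the denominator and the norm formula for the action on the Klein disc
-/

open Topology Filter Set
open scoped ComplexConjugate

set_option autoImplicit false

namespace Pool.TZ

open Pool.CG Pool.AR Pool.SH

theorem KPP_pos (α β k : ℂ) (h : ‖α‖ ^ 2 - ‖β‖ ^ 2 = 1) (hk : ‖k‖ ≤ 1) : 0 < kD α β k := by
  have h1 : |(α * conj β * k).re| ≤ ‖α‖ * ‖β‖ * ‖k‖ := by
    refine (Complex.abs_re_le_norm _).trans ?_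
    rw [norm_mul, norm_mul, Complex.norm_conj]
  have h2 : ‖α‖ * ‖β‖ * ‖k‖ ≤ ‖α‖ * ‖β‖ :=
    mul_le_of_le_one_right (by positivity) hk
  have h3 := (abs_le.1 (h1.trans h2)).1
  have hb : 0 ≤ ‖β‖ := norm_nonneg β
  have ha : 0 ≤ ‖α‖ := norm_nonneg α
  have hne : ‖α‖ - ‖β‖ ≠ 0 := by
    intro h0
    have : ‖α‖ = ‖β‖ := by linarith
    rw [this] at h
    norm_num at h
  have h4 : 0 < (‖α‖ - ‖β‖) ^ 2 := by positivity
  unfold kD
  nlinarith

theorem KPP_id (α β k : ℂ) :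
    kD α β k ^ 2 - ‖kN α β k‖ ^ 2 = (‖α‖ ^ 2 - ‖β‖ ^ 2) ^ 2 * (1 - ‖k‖ ^ 2) := by
  unfold kD kN
  rw [← Complex.normSq_eq_norm_sq, ← Complex.normSq_eq_norm_sq, ← Complex.normSq_eq_norm_sq,
    ← Complex.normSq_eq_norm_sq]
  obtain ⟨a, b⟩ := α
  obtain ⟨c, d⟩ := β
  obtain ⟨x, y⟩ := k
  simp only [Complex.normSq_apply, pow_two, Complex.add_re, Complex.add_im, Complex.mul_re, Complex.mul_im,
    Complex.conj_re, Complex.conj_im, Complex.re_ofNat, Complex.im_ofNat]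
  ring

/-- the block KPP -/
theorem p_KPP : Stmt_KPP := by
  intro α β k h
  refine ⟨KPP_pos α β k h, ?_⟩
  rw [KPP_id, h]
  ring

end Pool.TZ
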