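import Pool.Agent.Work.MP_ae1ff6_tz.InterfaceE

/-!
# MP_ae1ff6_gt, block LAM: the multiplier of a hyperbolic element
-/

open Topology Filter Set
open scoped ComplexConjugate

set_option autoImplicit false

namespace Pool.TZ

open Pool.CG Pool.AR Pool.SH

theorem LAM_fr (h2 : Stmt_ACW) (h3 : Stmt_KPP) (h4 : Stmt_KPB) {g : H} {α β : ℂ}
    (hP : Par g α β) (k l : ℂ) (hk : ‖k‖ ≤ 1) (hl : ‖l‖ ≤ 1) :
    fr (act g k) (act g l) * (kD α β k * kD α β l) = fr k l := by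
  have dk := (h3 α β k hP.1).1 hk
  have dl := (h3 α β l hP.1).1 hl
  have e := (h4 α β hP.1).1 k l
  rw [h2 g α β hP k, h2 g α β hP l]
  unfold fr
  have e2 : (kN α β k / (kD α β k : ℂ) * conj (kN α β l / (kD α β l : ℂ))).re =
      (kN α β k * conj (kN α β l)).re / (kD α β k * kD α β l) := by
    have : kN α β k / (kD α β k : ℂ) * conj (kN α β l / (kD α β l : ℂ)) =
        (kN α β k * conj (kN α β l)) / ((kD α β k * kD α β l : ℝ) : ℂ) := by
      rw [map_div₀, Complex.conj_ofReal, Complex.ofReal_mul]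
      rw [div_mul_div_comm]
    rw [this, Complex.div_ofReal_re]
  rw [e2]
  have hne : kD α β k * kD α β l ≠ 0 := (mul_pos dk dl).ne'
  rw [sub_mul, one_mul, div_mul_cancel₀ _ hne]
  exact e

/-- the multiplier property -/
def LAM_M (p q : Circle) (g : H) (L : ℝ) : Prop :=
  ∀ k : ℂ, ‖k‖ ≤ 1 → fr (act g k) p * fr k q = L * (fr k p * fr (act g k) q)

theorem LAM_ex (h2 : Stmt_ACW) (h3 : Stmt_KPP) (h4 : Stmt_KPB) {g : H} (hg : IsMob g)
    {p q : Circle} (hp : act g (p : ℂ) = p) (hq : act g (q : ℂ) = q) :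
    ∃ L : ℝ, 0 < L ∧ LAM_M p q g L := by
  obtain ⟨α, β, hP⟩ := (Pool.GC.mb1.1 g).1 hg
  have np : ‖(p : ℂ)‖ ≤ 1 := le_of_eq (Circle.norm_coe p)
  have nq : ‖(q : ℂ)‖ ≤ 1 := le_of_eq (Circle.norm_coe q)
  have dp := (h3 α β p hP.1).1 np
  have dq := (h3 α β q hP.1).1 nq
  refine ⟨kD α β q / kD α β p, div_pos dq dp, ?_⟩
  intro k hk
  have e1 := LAM_fr h2 h3 h4 hP k p hk np
  have e2 := LAM_fr h2 h3 h4 hP k q hk nq
  rw [hp] at e1
  rw [hq] at e2
  rw [← e1, ← e2]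
  field_simp

theorem LAM_mul (h1 : Stmt_ACT) (h2 : Stmt_ACW) (h3 : Stmt_KPP) (h4 : Stmt_KPB) (h6 : Stmt_FRF)
    {g g' : H} (hg : IsMob g) (hg' : IsMob g') (hgg : IsMob (g * g'))
    {p q : Circle} (hp : act g (p : ℂ) = p) (hq : act g (q : ℂ) = q)
    (hp' : act g' (p : ℂ) = p) (hq' : act g' (q : ℂ) = q) {L L' : ℝ} (hL : LAM_M p q g L)
    (hL' : LAM_M p q g' L') : LAM_M p q (g * g') (L * L') := by
  have np : ‖(p : ℂ)‖ ≤ 1 := le_of_eq (Circle.norm_coe p)
  have nq : ‖(q : ℂ)‖ ≤ 1 := le_of_eq (Circle.norm_coe q)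
  have act3 := h1.2.2.1 g g' hg hg'
  have hpp : act (g * g') (p : ℂ) = p := by rw [act3 _ np, hp', hp]
  have hqq : act (g * g') (q : ℂ) = q := by rw [act3 _ nq, hq', hq]
  obtain ⟨L2, hL2, hM⟩ := LAM_ex h2 h3 h4 hgg hpp hqq
  have n0 : ‖(0 : ℂ)‖ < 1 := by simp
  have n1 : ‖act g' 0‖ < 1 := (h1.2.1 g' hg' 0).1 n0
  have n2 : ‖act g (act g' 0)‖ < 1 := (h1.2.1 g hg _).1 n1
  have a1 := hL' 0 n0.le
  have a2 := hL (act g' 0) n1.le
  have a3 := hM 0 n0.le
  rw [act3 0 n0.le] at a3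
  have p0 := h6.2.1 0 p n0 np
  have q0 := h6.2.1 0 q n0 nq
  have p1 := h6.2.1 _ p n1 np
  have q1 := h6.2.1 _ q n1 nq
  have p2 := h6.2.1 _ p n2 np
  have q2 := h6.2.1 _ q n2 nq
  have key : L2 = L * L' := by
    set P0 := fr 0 (p : ℂ)
    set Q0 := fr 0 (q : ℂ)
    set P1 := fr (act g' 0) (p : ℂ)
    set Q1 := fr (act g' 0) (q : ℂ)
    set P2 := fr (act g (act g' 0)) (p : ℂ)
    set Q2 := fr (act g (act g' 0)) (q : ℂ)
    have hne : P0 * Q2 * (P1 * Q1) ≠ 0 := by positivity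
    apply mul_right_cancel₀ hne
    calc L2 * (P0 * Q2 * (P1 * Q1)) = (L2 * (P0 * Q2)) * (P1 * Q1) := by ring
      _ = (P2 * Q0) * (P1 * Q1) := by rw [← a3]
      _ = (P2 * Q1) * (P1 * Q0) := by ring
      _ = (L * (P1 * Q2)) * (L' * (P0 * Q1)) := by rw [a2, a1]
      _ = L * L' * (P0 * Q2 * (P1 * Q1)) := by ring
  rw [← key]
  exact hM

theorem LAM_fr_eq (k z : ℂ) : fr k z = 1 - (k.re * z.re + k.im * z.im) := by
  unfold fr
  simp [Complex.mul_re]

theorem LAM_third (p q : Circle) : ∃ z : Circle, z ≠ p ∧ z ≠ q := by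
  by_contra hcon
  push Not at hcon
  have hz1 : ((Circle.exp Real.pi * p : Circle) : ℂ) = -(p : ℂ) := by
    rw [Circle.coe_mul, Circle.coe_exp, Complex.exp_pi_mul_I]; ring
  have hz2 : ((Circle.exp (Real.pi / 2) * p : Circle) : ℂ) = Complex.I * (p : ℂ) := by
    rw [Circle.coe_mul, Circle.coe_exp]
    have : ((Real.pi / 2 : ℝ) : ℂ) * Complex.I = (Real.pi : ℂ) / 2 * Complex.I := by push_cast; ring
    rw [this, Complex.exp_pi_div_two_mul_I]
  have pne : (p : ℂ) ≠ 0 := Circle.coe_ne_zero p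
  have n1 : Circle.exp Real.pi * p ≠ p := by
    intro h
    have h' : -(p : ℂ) = p := by rw [← hz1, h]
    apply pne
    linear_combination (-1 / 2 : ℂ) * h'
  have n2 : Circle.exp (Real.pi / 2) * p ≠ p := by
    intro h
    have h' : Complex.I * (p : ℂ) = p := by rw [← hz2, h]
    have h'' : Complex.I = 1 := by
      apply mul_right_cancel₀ pne
      rw [h', one_mul]
    have := congrArg Complex.re h''
    simp at this
  have e1 := hcon _ n1
  have e2 := hcon _ n2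
  have e3 : -(p : ℂ) = Complex.I * (p : ℂ) := by rw [← hz1, ← hz2, e1, e2]
  have e4 : (-1 : ℂ) = Complex.I := by
    apply mul_right_cancel₀ pne
    rw [← e3]; ring
  have := congrArg Complex.re e4
  simp at this

theorem p_LAM (h1 : Stmt_ACT) (h2 : Stmt_ACW) (h3 : Stmt_KPP) (h4 : Stmt_KPB) (h5 : Stmt_FRE)
    (h6 : Stmt_FRF) : Stmt_LAM := by
  intro Γ hΓ ht γ hγ p q hA
  have np : ‖(p : ℂ)‖ ≤ 1 := le_of_eq (Circle.norm_coe p)
  have nq : ‖(q : ℂ)‖ ≤ 1 := le_of_eq (Circle.norm_coe q)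
  have hmob : ∀ n : ℤ, IsMob (γ ^ n) := fun n => hΓ.mob _ (Γ.zpow_mem hγ n)
  have hm : IsMob γ := hΓ.mob _ hγ
  have gp : γ p = p := (hA.2 p).2 (Or.inl rfl)
  have gq : γ q = q := (hA.2 q).2 (Or.inr rfl)
  have fixact : ∀ (g : H) (z : Circle), IsMob g → g z = z → act g (z : ℂ) = z := by
    intro g z hg hz
    rw [h1.1 g hg z, hz]
  have hp1 := fixact γ p hm gp
  have hq1 := fixact γ q hm gq
  have gi : ∀ z : Circle, γ z = z → (γ⁻¹ : H) z = z := by
    intro z hz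
    have : (γ⁻¹ : H) (γ z) = z := by
      have e : (γ⁻¹ * γ : H) z = z := by rw [inv_mul_cancel]; rfl
      exact e
    rw [hz] at this
    exact this
  have hmi : IsMob γ⁻¹ := hΓ.mob _ (Γ.inv_mem hγ)
  have hpi := fixact γ⁻¹ p hmi (gi p gp)
  have hqi := fixact γ⁻¹ q hmi (gi q gq)
  have gz : ∀ (n : ℤ) (z : Circle), γ z = z → (γ ^ n : H) z = z := by
    intro n z hz
    induction n using Int.induction_on with
    | zero => rfl
    | succ i ih =>
      rw [zpow_add_one]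
      change (γ ^ (i : ℤ) : H) (γ z) = z
      rw [hz, ih]
    | pred i ih =>
      rw [zpow_sub_one]
      change (γ ^ (-(i : ℤ)) : H) ((γ⁻¹ : H) z) = z
      rw [gi z hz, ih]
  obtain ⟨L, hL, hM⟩ := LAM_ex h2 h3 h4 hm hp1 hq1
  have hMi : LAM_M p q γ⁻¹ L⁻¹ := by
    intro k hk
    have nk : ‖act γ⁻¹ k‖ ≤ 1 := (h1.2.1 γ⁻¹ hmi k).2 hk
    have e := hM (act γ⁻¹ k) nk
    have e2 : act γ (act γ⁻¹ k) = k := by
      rw [← h1.2.2.1 γ γ⁻¹ hm hmi k hk, mul_inv_cancel, h1.2.2.2.1 k hk]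
    rw [e2] at e
    have hne := hL.ne'
    field_simp
    linear_combination -e
  have hpow : ∀ n : ℤ, LAM_M p q (γ ^ n) (L ^ n) := by
    intro n
    induction n using Int.induction_on with
    | zero =>
      intro k hk
      rw [zpow_zero, zpow_zero, h1.2.2.2.1 k hk, one_mul]
    | succ i ih =>
      rw [zpow_add_one, zpow_add_one₀ hL.ne']
      refine LAM_mul h1 h2 h3 h4 h6 (hmob _) hm ?_ (fixact _ p (hmob _) (gz _ p gp))
        (fixact _ q (hmob _) (gz _ q gq)) hp1 hq1 ih hM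
      rw [← zpow_add_one]
      exact hmob _
    | pred i ih =>
      rw [zpow_sub_one, zpow_sub_one₀ hL.ne']
      refine LAM_mul h1 h2 h3 h4 h6 (hmob _) hmi ?_ (fixact _ p (hmob _) (gz _ p gp))
        (fixact _ q (hmob _) (gz _ q gq)) hpi hqi ih hMi
      rw [← zpow_sub_one]
      exact hmob _
  refine ⟨L, hL, ?_, fun n k hk => hpow n k hk⟩
  intro hL1
  -- the midpoint
  have hpq : (p : ℂ) ≠ (q : ℂ) := fun h => hA.1 (Circle.coe_injective h)
  have hc : 0 < fr p q := h6.2.2.1 p q np nq hpq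
  have sp : (p : ℂ).re ^ 2 + (p : ℂ).im ^ 2 = 1 := by
    have := Circle.normSq_coe p
    rw [Complex.normSq_apply] at this
    linarith
  have sq : (q : ℂ).re ^ 2 + (q : ℂ).im ^ 2 = 1 := by
    have := Circle.normSq_coe q
    rw [Complex.normSq_apply] at this
    linarith
  set u : ℂ := (1 / 2 : ℝ) • (p : ℂ) + (1 / 2 : ℝ) • (q : ℂ) with hu
  have ure : u.re = (1 / 2) * (p : ℂ).re + (1 / 2) * (q : ℂ).re := by
    simp [hu, Complex.add_re, Complex.real_smul]
  have uim : u.im = (1 / 2) * (p : ℂ).im + (1 / 2) * (q : ℂ).im := by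
    simp [hu, Complex.add_im, Complex.real_smul]
  rw [LAM_fr_eq] at hc
  have nu : ‖u‖ < 1 := by
    have h : ‖u‖ ^ 2 < 1 := by
      rw [Complex.sq_norm, Complex.normSq_apply, ure, uim]
      nlinarith
    nlinarith [norm_nonneg u]
  have hseg : act γ u ∈ segment ℝ (p : ℂ) (q : ℂ) := by
    have h := h1.2.2.2.2.2.1 γ hm p q np nq
    rw [hp1, hq1] at h
    rw [← h]
    refine ⟨u, ⟨1 / 2, 1 / 2, by norm_num, by norm_num, by norm_num, rfl⟩, rfl⟩
  obtain ⟨a, b, ha, hb, hab, hw⟩ := hseg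
  set w := act γ u with hwd
  have wre : w.re = a * (p : ℂ).re + b * (q : ℂ).re := by
    rw [← hw]; simp [Complex.add_re, Complex.real_smul]
  have wim : w.im = a * (p : ℂ).im + b * (q : ℂ).im := by
    rw [← hw]; simp [Complex.add_im, Complex.real_smul]
  have e := hM u nu.le
  rw [← hwd, hL1, one_mul, LAM_fr_eq, LAM_fr_eq, LAM_fr_eq, LAM_fr_eq, ure, uim, wre, wim] at e
  set P := (p : ℂ).re
  set P' := (p : ℂ).im
  set Q := (q : ℂ).re
  set Q' := (q : ℂ).im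
  have c0 : (1 - (P * Q + P' * Q')) ≠ 0 := hc.ne'
  have hba : b = a := by
    have hb' : b = 1 - a := by linarith
    subst hb'
    have e' : (1 - (P * Q + P' * Q')) ^ 2 * ((1 - a) - a) = 0 := by
      have s1 : 1 - ((a * P + (1 - a) * Q) * P + (a * P' + (1 - a) * Q') * P') =
          (1 - a) * (1 - (P * Q + P' * Q')) := by linear_combination (-a) * sp
      have s2 : 1 - ((1 / 2 * P + 1 / 2 * Q) * Q + (1 / 2 * P' + 1 / 2 * Q') * Q') =
          (1 / 2) * (1 - (P * Q + P' * Q')) := by linear_combination (-1 / 2) * sq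
      have s3 : 1 - ((1 / 2 * P + 1 / 2 * Q) * P + (1 / 2 * P' + 1 / 2 * Q') * P') =
          (1 / 2) * (1 - (P * Q + P' * Q')) := by linear_combination (-1 / 2) * sp
      have s4 : 1 - ((a * P + (1 - a) * Q) * Q + (a * P' + (1 - a) * Q') * Q') =
          a * (1 - (P * Q + P' * Q')) := by linear_combination (-(1 - a)) * sq
      rw [s1, s2, s3, s4] at e
      linear_combination 2 * e
    have := (mul_eq_zero.1 e').resolve_left (pow_ne_zero 2 c0)
    linarith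
  have ha2 : a = 1 / 2 := by linarith
  have hb2 : b = 1 / 2 := by linarith
  have hwu : act γ u = u := by
    rw [← hwd, ← hw, ha2, hb2]
  have hone := h5 Γ hΓ ht γ hγ u nu hwu
  obtain ⟨z, hz1, hz2⟩ := LAM_third p q
  have := (hA.2 z).1 (by rw [hone]; rfl)
  rcases this with h | h
  · exact hz1 h
  · exact hz2 h

end Pool.TZ
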