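import Pool.Agent.Work.MP_ae1ff6_tz.InterfaceE

/-! # Part E3: block LF1 (vertices near a point of the circle whose ends converge) -/

open Topology Filter Set
open scoped ComplexConjugate

set_option autoImplicit false

namespace Pool.TZ

open Pool.CG Pool.AR Pool.SH

lemma LF1_change {V : Set ℂ} {π : ℂ → ℂ} {ξ : ℂ → Circle} (hE : Ends V π ξ) {r s : Circle}
    (hc : Continuous (sd r s)) {σ : ℝ} {v : ℂ} (hv : v ∈ V) (h0 : 0 < sd r s v * σ)
    (h1 : sd r s (ξ v) * σ < 0) :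
    ∃ k : ℕ, 0 < sd r s (π^[k] v) * σ ∧ sd r s (π^[k + 1] v) * σ ≤ 0 := by
  by_contra hcon
  push Not at hcon
  have hall : ∀ k : ℕ, 0 < sd r s (π^[k] v) * σ := by
    intro k
    induction k with
    | zero => exact h0
    | succ k ih => exact hcon k ih
  have ht : Tendsto (fun k : ℕ => sd r s (π^[k] v) * σ) atTop (𝓝 (sd r s (ξ v) * σ)) :=
    ((hc.tendsto _).comp (hE v hv)).mul_const σ
  have := ge_of_tendsto' ht fun k => (hall k).le
  linarith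

lemma LF1_circ (r : Circle) {k : ℂ} (hk : ‖k‖ < 1) : k ≠ (r : ℂ) := by
  rintro rfl
  rw [Circle.norm_coe] at hk
  exact lt_irrefl _ hk

theorem p_LF1 (hACT : Stmt_ACT) (hSDX : Stmt_SDX) (hAXS : Stmt_AXS) (hDYN : Stmt_DYN)
    (hFCR : Stmt_FCR) (hITR : Stmt_ITR) : Stmt_LF1 := by
  classical
  intro Γ V A π ξ hSt hE ι l w ζ p' hwV hwζ hξp
  obtain ⟨-, a2, a3, a4, -⟩ := hACT
  obtain ⟨-, -, -, s4, s5, -, s7⟩ := hSDX
  obtain ⟨i1, i2, -⟩ := hITR Γ V A π hSt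
  by_contra hne
  obtain ⟨δ, hδ, r, s, hax, hlink⟩ := hAXS Γ hSt.fk ζ p' (Ne.symm hne)
  have hs : sd r s (ζ : ℂ) * sd r s (p' : ℂ) < 0 := (s5 r s ζ p').1 hlink
  obtain ⟨F, hF, hFV, hFC⟩ := hFCR Γ V A π hSt δ hδ r s hax
  have hmob : ∀ n : ℤ, IsMob (δ ^ n) := fun n => hSt.fk.mob _ (Γ.zpow_mem hδ n)
  set σ := sd r s (ζ : ℂ) with hσ
  have hσ0 : σ ≠ 0 := by
    intro h
    rw [h, zero_mul] at hs
    exact lt_irrefl _ hs
  have hσσ : 0 < σ * σ := mul_self_pos.2 hσ0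
  have hnorm : ∀ v ∈ V, ‖v‖ < 1 := hSt.gr.sub
  -- the finite set of the ancestors
  have hW : {v : ℂ | v ∈ V ∧ ∃ k : ℕ, π^[k] v ∈ F}.Finite := by
    refine Set.Finite.subset (Set.Finite.biUnion hF (fun u hu => hSt.fo.anc u (hFV hu))) ?_
    rintro v ⟨hv, k, hk⟩
    simp only [Set.mem_iUnion]
    exact ⟨π^[k] v, hk, hv, k, rfl⟩
  have hev1 : ∀ᶠ i in (l : Filter ι), 0 < sd r s (w i) * σ := by
    have ht : Tendsto (fun i => sd r s (w i) * σ) l (𝓝 (σ * σ)) :=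
      (((s4 r s).tendsto _).comp hwζ).mul_const σ
    exact ht.eventually (lt_mem_nhds hσσ)
  have hev2 : ∀ᶠ i in (l : Filter ι), sd r s (ξ (w i)) * σ < 0 := by
    have h1 : Tendsto (fun i => ((ξ (w i) : Circle) : ℂ)) l (𝓝 (p' : ℂ)) :=
      ((by fun_prop : Continuous fun z : Circle => (z : ℂ)).tendsto p').comp hξp
    have ht : Tendsto (fun i => sd r s (ξ (w i)) * σ) l (𝓝 (sd r s (p' : ℂ) * σ)) :=
      (((s4 r s).tendsto _).comp h1).mul_const σ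
    refine ht.eventually (gt_mem_nhds ?_)
    rw [mul_comm]
    exact hs
  have hev : ∀ᶠ i in (l : Filter ι), ∃ w' ∈ {v : ℂ | v ∈ V ∧ ∃ k : ℕ, π^[k] v ∈ F},
      ∃ n : ℤ, w i = act (δ ^ n) w' := by
    filter_upwards [hwV, hev1, hev2] with i hv h1 h2
    obtain ⟨k, hk1, hk2⟩ := LF1_change hE (s4 r s) hv h1 h2
    have hxy : sd r s (π^[k] (w i)) * sd r s (π^[k + 1] (w i)) ≤ 0 := by
      have h3 : (sd r s (π^[k] (w i)) * sd r s (π^[k + 1] (w i))) * (σ * σ) ≤ 0 := by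
        have h4 := mul_nonpos_of_nonneg_of_nonpos hk1.le hk2
        calc (sd r s (π^[k] (w i)) * sd r s (π^[k + 1] (w i))) * (σ * σ)
            = (sd r s (π^[k] (w i)) * σ) * (sd r s (π^[k + 1] (w i)) * σ) := by ring
          _ ≤ 0 := h4
      by_contra hcon
      push Not at hcon
      have := mul_pos hcon hσσ
      linarith
    obtain ⟨u, hu, hu0⟩ := s7 r s _ _ hxy
    obtain ⟨n, u₁, hu₁, u₂, hu₂, -, hx, -⟩ := hFC _ _ u (i1 (w i) hv k).2 hu hu0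
    have hm : δ ^ (-n) ∈ Γ := Γ.zpow_mem hδ _
    have hw1 : ‖w i‖ ≤ 1 := (hnorm _ hv).le
    have hu1 : ‖u₁‖ ≤ 1 := (hnorm _ (hFV hu₁)).le
    refine ⟨act (δ ^ (-n)) (w i), ⟨hSt.gr.invV _ hm _ hv, k, ?_⟩, n, ?_⟩
    · rw [i2 _ hm _ hv k, hx, ← a3 _ _ (hmob _) (hmob _) u₁ hu1, ← zpow_add, neg_add_cancel,
        zpow_zero, a4 u₁ hu1]
      exact hu₁
    · rw [← a3 _ _ (hmob _) (hmob _) (w i) hw1, ← zpow_add, add_neg_cancel, zpow_zero,
        a4 (w i) hw1]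
  obtain ⟨w', hw', hw⟩ := (Ultrafilter.eventually_exists_mem_iff hW).1 hev
  obtain ⟨n, hn⟩ := hw.choice
  have hw'1 : ‖w'‖ < 1 := hnorm _ hw'.1
  have hlim : ∀ z : ℂ, Tendsto (fun i => act (δ ^ n i) w') l (𝓝 z) → (ζ : ℂ) = z := by
    intro z hz
    refine tendsto_nhds_unique hwζ (hz.congr' ?_)
    filter_upwards [hn] with i hi
    exact hi.symm
  have hrs : ∀ z : Circle, (z = r ∨ z = s) → (ζ : ℂ) ≠ (z : ℂ) := by
    rintro z (rfl | rfl) h
    · exact hlink.1.1 (Circle.ext h)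
    · exact hlink.1.2 (Circle.ext h)
  rcases Ultrafilter.le_cofinite_or_eq_pure (l.map n) with h | ⟨m, hm⟩
  · rw [Int.cofinite_eq] at h
    have hT : Tendsto n l atBot ∨ Tendsto n l atTop := Ultrafilter.le_sup_iff.1 h
    have hwr := LF1_circ r hw'1
    have hws := LF1_circ s hw'1
    rcases hDYN Γ hSt.fk hSt.tf δ hδ r s hax with hNS | hNS
    · obtain ⟨e1, e2⟩ := hNS w' hw'1.le hwr hws
      rcases hT with hT | hT
      · exact hrs r (Or.inl rfl) (hlim _ (e2.comp hT))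
      · exact hrs s (Or.inr rfl) (hlim _ (e1.comp hT))
    · obtain ⟨e1, e2⟩ := hNS w' hw'1.le hws hwr
      rcases hT with hT | hT
      · exact hrs s (Or.inr rfl) (hlim _ (e2.comp hT))
      · exact hrs r (Or.inl rfl) (hlim _ (e1.comp hT))
  · have hnm : ∀ᶠ i in (l : Filter ι), n i = m := by
      have h1 : ({m} : Set ℤ) ∈ l.map n := by
        rw [hm]
        exact Set.mem_singleton m
      exact Ultrafilter.mem_map.1 h1
    have h2 : (ζ : ℂ) = act (δ ^ m) w' := by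
      refine hlim _ (tendsto_const_nhds.congr' ?_)
      filter_upwards [hnm] with i hi
      rw [hi]
    have h3 : ‖act (δ ^ m) w'‖ < 1 := (a2 _ (hmob m) w').1 hw'1
    exact LF1_circ ζ h3 h2.symm

end Pool.TZ
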