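import Pool.Agent.Work.MP_ae1ff6_tz.InterfaceE

open Topology Filter Set
open scoped ComplexConjugate

set_option autoImplicit false

namespace Pool.TZ

open Pool.CG Pool.AR Pool.SH

theorem LFE_lim {ι : Type} (l : Ultrafilter ι) {f : ι → ℂ} {X : ℂ} (h : Tendsto f l (𝓝 X))
    (hr : ∀ r : ℝ, r < 1 → ∀ᶠ i in (l : Filter ι), r < ‖f i‖) : 1 ≤ ‖X‖ := by
  by_contra hX
  push Not at hX
  have h1 := hr ((‖X‖ + 1) / 2) (by linarith)
  have h2 : (‖X‖ + 1) / 2 ≤ ‖X‖ := ge_of_tendsto h.norm (h1.mono fun i hi => hi.le)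
  linarith

theorem LFE_mem {ι : Type} (l : Ultrafilter ι) {f : ι → ℂ} (h : ∀ i, ‖f i‖ < 1) :
    ∃ X : ℂ, ‖X‖ ≤ 1 ∧ Tendsto f l (𝓝 X) := by
  have h1 : Metric.closedBall (0 : ℂ) 1 ∈ l.map f := by
    rw [Ultrafilter.mem_map]
    exact Filter.mem_of_superset Filter.univ_mem
      (fun i _ => mem_closedBall_zero_iff.2 (h i).le)
  obtain ⟨X, hX, h2⟩ := (isCompact_closedBall (0 : ℂ) 1).ultrafilter_le_nhds' (l.map f) h1
  exact ⟨X, mem_closedBall_zero_iff.1 hX, h2⟩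

theorem LFE_circ {ι : Type} (l : Ultrafilter ι) (f : ι → Circle) :
    ∃ X : Circle, Tendsto f l (𝓝 X) := by
  obtain ⟨X, -, h2⟩ := (isCompact_univ (X := Circle)).ultrafilter_le_nhds' (l.map f)
    Filter.univ_mem
  exact ⟨X, h2⟩

theorem LFE_eq {X Y : ℂ} (hX : ‖X‖ ≤ 1) (hY : ‖Y‖ ≤ 1)
    (h : 1 ≤ ‖(1 / 2 : ℝ) • X + (1 / 2 : ℝ) • Y‖) : X = Y := by
  have h1 := parallelogram_law_with_norm ℝ X Y
  have h2 : ‖(1 / 2 : ℝ) • X + (1 / 2 : ℝ) • Y‖ = 1 / 2 * ‖X + Y‖ := by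
    rw [← smul_add, norm_smul]
    norm_num
  rw [h2] at h
  have h3 : 2 ≤ ‖X + Y‖ := by linarith
  have h4 : ‖X - Y‖ * ‖X - Y‖ ≤ 0 := by nlinarith [norm_nonneg X, norm_nonneg Y]
  have h5 : ‖X - Y‖ = 0 := by nlinarith [norm_nonneg (X - Y)]
  exact sub_eq_zero.1 (norm_eq_zero.1 h5)

theorem p_LFE (h1 : Stmt_LF1) : Stmt_LFE := by
  intro Γ V A π ξ hSt hE ε hε
  by_contra hinf
  have hG := hSt.gr
  set S : Set (Circle × Circle) := {a | a ∈ EE A ξ ∧ ε ≤ dist a.1 a.2} with hS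
  have : Infinite S := Set.Infinite.to_subtype hinf
  choose x y hA hx hy using fun e : S => e.2.1.2
  have hxV : ∀ e, x e ∈ V := fun e => (hG.adj _ _ (hA e)).1
  have hyV : ∀ e, y e ∈ V := fun e => (hG.adj _ _ (hA e)).2.1
  have hinj : Function.Injective fun e : S => (x e, y e) := by
    intro e e' h
    have h2 : x e = x e' := congrArg Prod.fst h
    have h3 : y e = y e' := congrArg Prod.snd h
    apply Subtype.ext
    apply Prod.ext
    · rw [← hx e, ← hx e', h2]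
    · rw [← hy e, ← hy e', h3]
  let l : Ultrafilter S := hyperfilter S
  have hl : (l : Filter S) ≤ cofinite := hyperfilter_le_cofinite
  have hlarge : ∀ r : ℝ, r < 1 → ∀ᶠ e in (l : Filter S), ∀ u ∈ segment ℝ (x e) (y e), r < ‖u‖ := by
    intro r hr
    have h2 : {e : S | ∃ u ∈ segment ℝ (x e) (y e), ‖u‖ ≤ r}.Finite := by
      refine Set.Finite.subset ((hG.finA r hr).preimage hinj.injOn) ?_
      rintro e ⟨u, hu, hur⟩
      exact ⟨hA e, u, hu, hur⟩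
    have h3 : {e : S | ∃ u ∈ segment ℝ (x e) (y e), ‖u‖ ≤ r}ᶜ ∈ (l : Filter S) :=
      hl h2.compl_mem_cofinite
    filter_upwards [h3] with e he u hu
    by_contra hcon
    exact he ⟨u, hu, not_lt.1 hcon⟩
  obtain ⟨X, hX, htX⟩ := LFE_mem l (fun e => hG.sub _ (hxV e))
  obtain ⟨Y, hY, htY⟩ := LFE_mem l (fun e => hG.sub _ (hyV e))
  have hX1 : 1 ≤ ‖X‖ := LFE_lim l htX fun r hr => (hlarge r hr).mono fun e he =>
    he _ (left_mem_segment ℝ _ _)
  have htM : Tendsto (fun e => (1 / 2 : ℝ) • x e + (1 / 2 : ℝ) • y e) l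
      (𝓝 ((1 / 2 : ℝ) • X + (1 / 2 : ℝ) • Y)) := (htX.const_smul _).add (htY.const_smul _)
  have hM1 : 1 ≤ ‖(1 / 2 : ℝ) • X + (1 / 2 : ℝ) • Y‖ := LFE_lim l htM fun r hr =>
    (hlarge r hr).mono fun e he =>
      he _ ⟨1 / 2, 1 / 2, by norm_num, by norm_num, by norm_num, rfl⟩
  have hXY : X = Y := LFE_eq hX hY hM1
  let ζ : Circle := ⟨X, mem_sphere_zero_iff_norm.2 (le_antisymm hX hX1)⟩
  have hζ : (ζ : ℂ) = X := rfl
  obtain ⟨p', hp'⟩ := LFE_circ l (fun e : S => e.1.1)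
  obtain ⟨q', hq'⟩ := LFE_circ l (fun e : S => e.1.2)
  have hp : p' = ζ := by
    refine h1 Γ V A π ξ hSt hE S l x ζ p' (Filter.Eventually.of_forall hxV) htX ?_
    have : (fun e => ξ (x e)) = fun e : S => e.1.1 := funext hx
    rw [this]
    exact hp'
  have hq : q' = ζ := by
    refine h1 Γ V A π ξ hSt hE S l y ζ q' (Filter.Eventually.of_forall hyV) ?_ ?_
    · rw [hζ, hXY]
      exact htY
    · have : (fun e => ξ (y e)) = fun e : S => e.1.2 := funext hy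
      rw [this]
      exact hq'
  have hd : Tendsto (fun e : S => dist e.1.1 e.1.2) l (𝓝 (dist p' q')) := hp'.dist hq'
  have hd1 : ε ≤ dist p' q' := ge_of_tendsto hd (Filter.Eventually.of_forall fun e => e.2.2)
  rw [hp, hq, dist_self] at hd1
  linarith

end Pool.TZ
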