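import Pool.Agent.Work.MP_ae1ff6_tz.InterfaceE

/-! Block NFX (helper23): the end of a ray is not an end of an axis. -/

open Topology Filter Set
open scoped ComplexConjugate

set_option autoImplicit false

namespace Pool.TZ

open Pool.CG Pool.AR Pool.SH

theorem NFX_fix (g : H) (p : Circle) (h : g p = p) (n : ℤ) : (g ^ n) p = p := by
  let S : Subgroup H :=
    { carrier := {f | f p = p}
      mul_mem' := by
        intro a b ha hb
        show a (b p) = p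
        have ha' : a p = p := ha
        have hb' : b p = p := hb
        rw [hb', ha']
      one_mem' := rfl
      inv_mem' := by
        intro a ha
        have ha' : a p = p := ha
        show a.symm p = p
        rw [Homeomorph.symm_apply_eq]
        exact ha'.symm }
  have h1 : g ∈ S := h
  exact S.zpow_mem h1 n

theorem NFX_core (hACT : Stmt_ACT) (hSDX : Stmt_SDX) (hAXS : Stmt_AXS) (hFCR : Stmt_FCR) (hITR : Stmt_ITR)
    (Γ : Subgroup H) (V : Set ℂ) (A : ℂ → ℂ → Prop) (π : ℂ → ℂ) (ξ : ℂ → Circle) (hSt : St Γ V A π)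
    (hEnds : Ends V π ξ) (p q : Circle) (hpq : p ≠ q) (g : ℕ → H) (hg : ∀ j, g j ∈ Γ)
    (hgp : ∀ j, (g j)⁻¹ p = p)
    (hlim : ∀ k : ℂ, ‖k‖ < 1 → Tendsto (fun j => act (g j)⁻¹ k) atTop (𝓝 (q : ℂ))) (v : ℂ) (hv : v ∈ V) :
    ξ v ≠ p := by
  intro hxi
  obtain ⟨A1, A2, A3, A4, -, A6, -, A8⟩ := hACT
  obtain ⟨-, -, -, S4, S5, -, S7⟩ := hSDX
  obtain ⟨I1, -, -⟩ := hITR Γ V A π hSt
  obtain ⟨δ, hδ, r, s, hax, hlk⟩ := hAXS Γ hSt.fk p q hpq
  obtain ⟨F, hFf, hFV, hF⟩ := hFCR Γ V A π hSt δ hδ r s hax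
  have hm : ∀ j, IsMob (g j) := fun j => hSt.fk.mob _ (hg j)
  have hm' : ∀ j, IsMob (g j)⁻¹ := fun j => hSt.fk.mob _ (Γ.inv_mem (hg j))
  have hs : sd r s (p : ℂ) * sd r s (q : ℂ) < 0 := (S5 r s p q).1 hlk
  obtain ⟨σ, hσ⟩ : ∃ σ, σ = sd r s (q : ℂ) := ⟨_, rfl⟩
  rw [← hσ] at hs
  have hσ0 : σ ≠ 0 := by
    intro h0
    rw [h0, mul_zero] at hs
    exact lt_irrefl _ hs
  -- (a)
  have key : ∀ j (k : ℂ), ‖k‖ ≤ 1 → ∃ c : ℝ, 0 < c ∧ sd (g j r) (g j s) k = c * sd r s (act (g j)⁻¹ k) := by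
    intro j k hk
    obtain ⟨c, hc, h1⟩ := A8 (g j) (hm j) r s (act (g j)⁻¹ k) ((A2 _ (hm' j) k).2 hk)
    refine ⟨c, hc, ?_⟩
    rw [← h1, ← A3 (g j) (g j)⁻¹ (hm j) (hm' j) k hk, mul_inv_cancel, A4 k hk]
  have ha1 : ∀ k : ℂ, ‖k‖ < 1 → ∀ᶠ j in atTop, 0 < sd (g j r) (g j s) k * σ := by
    intro k hk
    have h1 : Tendsto (fun j => sd r s (act (g j)⁻¹ k) * σ) atTop (𝓝 (σ * σ)) := by
      have h2 : Tendsto (fun j => sd r s (act (g j)⁻¹ k)) atTop (𝓝 σ) := by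
        rw [hσ]
        exact (S4 r s).continuousAt.tendsto.comp (hlim k hk)
      exact h2.mul_const σ
    have h3 : 0 < σ * σ := mul_self_pos.2 hσ0
    filter_upwards [h1.eventually (lt_mem_nhds h3)] with j hj
    obtain ⟨c, hc, h4⟩ := key j k hk.le
    rw [h4, mul_assoc]
    exact mul_pos hc hj
  have ha2 : ∀ j, sd (g j r) (g j s) (p : ℂ) * σ < 0 := by
    intro j
    have hp1 : ‖(p : ℂ)‖ ≤ 1 := (Circle.norm_coe p).le
    obtain ⟨c, hc, h4⟩ := key j p hp1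
    rw [h4, A1 _ (hm' j), hgp j, mul_assoc]
    exact mul_neg_of_pos_of_neg hc hs
  -- (b)
  have hnV : ∀ k, ‖π^[k] v‖ < 1 := fun k => hSt.gr.sub _ (I1 v hv k).1
  have hKf : {k : ℕ | ∃ w ∈ F, ∃ γ ∈ Γ, π^[k] v = act γ w}.Finite := by
    have h1 : {k : ℕ | ∃ w ∈ F, ∃ γ ∈ Γ, π^[k] v = act γ w} = ⋃ w ∈ F, {k : ℕ | ∃ γ ∈ Γ, π^[k] v = act γ w} := by
      ext k
      simp only [mem_setOf_eq, mem_iUnion, exists_prop]
    rw [h1]
    exact hFf.biUnion fun w hw => hSt.fo.leave v hv w (hFV hw)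
  obtain ⟨j, hj0, hjK⟩ : ∃ j, 0 < sd (g j r) (g j s) v * σ ∧
      ∀ k ∈ {k : ℕ | ∃ w ∈ F, ∃ γ ∈ Γ, π^[k] v = act γ w}, 0 < sd (g j r) (g j s) (π^[k + 1] v) * σ := by
    have h1 := ha1 v (hnV 0)
    have h2 : ∀ᶠ j in atTop, ∀ k ∈ {k : ℕ | ∃ w ∈ F, ∃ γ ∈ Γ, π^[k] v = act γ w},
        0 < sd (g j r) (g j s) (π^[k + 1] v) * σ :=
      (Filter.eventually_all_finite hKf).2 fun k _ => ha1 _ (hnV (k + 1))
    exact (h1.and h2).exists
  -- (c)
  have hc : ∀ k, 0 < sd (g j r) (g j s) (π^[k] v) * σ := by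
    intro k
    induction k with
    | zero => exact hj0
    | succ k ih =>
      by_cases hk : k ∈ {k : ℕ | ∃ w ∈ F, ∃ γ ∈ Γ, π^[k] v = act γ w}
      · exact hjK k hk
      by_contra hcon
      have hcon' := not_lt.1 hcon
      have h1 : sd (g j r) (g j s) (π^[k] v) * sd (g j r) (g j s) (π^[k + 1] v) ≤ 0 := by
        have h2 := mul_nonpos_of_nonneg_of_nonpos ih.le hcon'
        have h3 : sd (g j r) (g j s) (π^[k] v) * σ * (sd (g j r) (g j s) (π^[k + 1] v) * σ) =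
            sd (g j r) (g j s) (π^[k] v) * sd (g j r) (g j s) (π^[k + 1] v) * (σ * σ) := by ring
        rw [h3] at h2
        have h4 : 0 < σ * σ := mul_self_pos.2 hσ0
        by_contra h5
        have h6 := mul_pos (not_le.1 h5) h4
        linarith
      obtain ⟨u, hu, hu0⟩ := S7 _ _ _ _ h1
      have hA : A (π^[k] v) (π^[k + 1] v) := (I1 v hv k).2
      have hu1 : ‖u‖ ≤ 1 := by
        have h2 : segment ℝ (π^[k] v) (π^[k + 1] v) ⊆ Metric.closedBall (0 : ℂ) 1 :=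
          (convex_closedBall (0 : ℂ) 1).segment_subset (by simpa using (hnV k).le) (by simpa using (hnV (k + 1)).le)
        simpa using h2 hu
      obtain ⟨c, hcp, h4⟩ := key j u hu1
      rw [hu0] at h4
      have h5 : sd r s (act (g j)⁻¹ u) = 0 := by
        rcases mul_eq_zero.1 h4.symm with h6 | h6
        · exact absurd h6 hcp.ne'
        · exact h6
      have h6 : act (g j)⁻¹ u ∈ segment ℝ (act (g j)⁻¹ (π^[k] v)) (act (g j)⁻¹ (π^[k + 1] v)) := by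
        rw [← A6 _ (hm' j) _ _ (hnV k).le (hnV (k + 1)).le]
        exact mem_image_of_mem _ hu
      obtain ⟨n, w, hw, w', -, -, hx, -⟩ := hF _ _ _ (hSt.gr.invA _ (Γ.inv_mem (hg j)) _ _ hA) h6 h5
      apply hk
      have hw1 : ‖w‖ ≤ 1 := (hSt.gr.sub _ (hFV hw)).le
      refine ⟨w, hw, g j * δ ^ n, Γ.mul_mem (hg j) (Γ.zpow_mem hδ n), ?_⟩
      rw [A3 _ _ (hm j) (hSt.fk.mob _ (Γ.zpow_mem hδ n)) w hw1, ← hx,
        ← A3 (g j) (g j)⁻¹ (hm j) (hm' j) _ (hnV k).le, mul_inv_cancel, A4 _ (hnV k).le]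
  -- (d)
  have hlim2 : Tendsto (fun k => sd (g j r) (g j s) (π^[k] v) * σ) atTop
      (𝓝 (sd (g j r) (g j s) ((ξ v : Circle) : ℂ) * σ)) :=
    (((S4 (g j r) (g j s)).continuousAt.tendsto.comp (hEnds v hv))).mul_const σ
  have h1 : 0 ≤ sd (g j r) (g j s) ((ξ v : Circle) : ℂ) * σ :=
    ge_of_tendsto' hlim2 fun k => (hc k).le
  rw [hxi] at h1
  exact absurd (ha2 j) (not_lt.2 h1)

theorem p_NFX (hACT : Stmt_ACT) (hSDX : Stmt_SDX) (hAXS : Stmt_AXS) (hDYN : Stmt_DYN) (hFCR : Stmt_FCR)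
    (hITR : Stmt_ITR) : Stmt_NFX := by
  intro Γ V A π ξ hSt hEnds γ hγ p q hax v hv
  have gen : ∀ p q : Circle, Axis γ p q → ξ v ≠ p := by
    intro p q hax
    have hne : ∀ (k : ℂ) (z : Circle), ‖k‖ < 1 → k ≠ z := by
      intro k z hk h0
      rw [h0, Circle.norm_coe] at hk
      exact lt_irrefl _ hk
    have hp : γ p = p := (hax.2 p).2 (Or.inl rfl)
    have hcast : Tendsto (fun j : ℕ => (j : ℤ)) atTop atTop := tendsto_natCast_atTop_atTop
    rcases hDYN Γ hSt.fk hSt.tf γ hγ p q hax with h | h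
    · refine NFX_core hACT hSDX hAXS hFCR hITR Γ V A π ξ hSt hEnds p q hax.1 (fun j => γ ^ (-(j : ℤ)))
        (fun j => Γ.zpow_mem hγ _) ?_ ?_ v hv
      · intro j
        show ((γ ^ (-(j : ℤ)))⁻¹) p = p
        rw [← zpow_neg, neg_neg]
        exact NFX_fix γ p hp _
      · intro k hk
        have h1 := ((h k hk.le (hne k p hk) (hne k q hk)).1).comp hcast
        refine h1.congr fun j => ?_
        show act (γ ^ (j : ℤ)) k = act (γ ^ (-(j : ℤ)))⁻¹ k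
        rw [← zpow_neg, neg_neg]
    · refine NFX_core hACT hSDX hAXS hFCR hITR Γ V A π ξ hSt hEnds p q hax.1 (fun j => γ ^ (j : ℤ))
        (fun j => Γ.zpow_mem hγ _) ?_ ?_ v hv
      · intro j
        show ((γ ^ (j : ℤ))⁻¹) p = p
        rw [← zpow_neg]
        exact NFX_fix γ p hp _
      · intro k hk
        have hcast2 : Tendsto (fun j : ℕ => (-(j : ℤ))) atTop atBot := tendsto_neg_atTop_atBot.comp hcast
        have h1 := ((h k hk.le (hne k q hk) (hne k p hk)).2).comp hcast2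
        refine h1.congr fun j => ?_
        show act (γ ^ (-(j : ℤ))) k = act (γ ^ (j : ℤ))⁻¹ k
        rw [← zpow_neg]
  refine ⟨gen p q hax, gen q p ⟨hax.1.symm, fun z => ?_⟩⟩
  rw [hax.2 z]
  exact or_comm

end Pool.TZ
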