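import Pool.Agent.Work.MP_ae1ff6_tz.InterfaceFF

open Topology Filter Set
open scoped ComplexConjugate

set_option autoImplicit false

namespace Pool.TZ

open Pool.CG Pool.AR Pool.SH

/-- NRX. -/
theorem p_NRX : Stmt_NRX := by
  refine ⟨?_, ?_⟩
  · intro C u v k hC hk huk hkv
    obtain ⟨d, hd⟩ : ∃ d, d = |2 * k - u - v| := ⟨_, rfl⟩
    have hd1 : d < v - u := by
      rw [hd, abs_lt]
      constructor <;> linarith
    have hK : IsCompact (C ∩ Icc ((u + v - d) / 2) ((u + v + d) / 2)) :=
      isCompact_Icc.inter_left hC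
    have hkK : k ∈ C ∩ Icc ((u + v - d) / 2) ((u + v + d) / 2) := by
      refine ⟨hk, ?_, ?_⟩
      · have := neg_abs_le (2 * k - u - v)
        rw [← hd] at this
        linarith
      · have := le_abs_self (2 * k - u - v)
        rw [← hd] at this
        linarith
    have hf : Continuous fun x : ℝ => |2 * x - u - v| := by fun_prop
    obtain ⟨c, hc, hmin⟩ := hK.exists_isMinOn ⟨k, hkK⟩ hf.continuousOn
    obtain ⟨hcC, hc1, hc2⟩ := hc
    have hcd : |2 * c - u - v| ≤ d := by
      rw [abs_le]
      constructor <;> linarith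
    refine ⟨c, hcC, by linarith, by linarith, ?_⟩
    intro k' hk' h1 h2
    by_cases hin : k' ∈ Icc ((u + v - d) / 2) ((u + v + d) / 2)
    · exact hmin ⟨hk', hin⟩
    · refine hcd.trans ?_
      by_contra hlt
      rw [not_le, abs_lt] at hlt
      exact hin ⟨by linarith [hlt.1], by linarith [hlt.2]⟩
  · intro C u v h
    unfold sp
    rw [dif_pos h]
    exact h.choose_spec

end Pool.TZ
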