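import Pool.Agent.Work.MP_ae1ff6_tz.InterfaceA

/-!
# Invariant ideal triangulations (MP_ae1ff6_gt): block NTF
-/

open Topology Filter Set
open scoped ComplexConjugate

set_option autoImplicit false

namespace Pool.TZ

open Pool.CG Pool.AR Pool.SH

/-- each point of the open disc has a neighbourhood of small diameter for `ch` -/
theorem NTF_nhd (hC : Stmt_CHF) (z : ℂ) (hz : ‖z‖ < 1) :
    ∃ U ∈ 𝓝 z, ∀ x ∈ U, ∀ y ∈ U, ‖x‖ < 1 → ‖y‖ < 1 → ch x y < 3 / 2 := by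
  have hb : (z, z) ∈ Metric.ball (0 : ℂ) 1 ×ˢ Metric.ball (0 : ℂ) 1 := by
    simp [hz]
  have hopen : IsOpen (Metric.ball (0 : ℂ) 1 ×ˢ Metric.ball (0 : ℂ) 1) :=
    Metric.isOpen_ball.prod Metric.isOpen_ball
  have hcont : ContinuousAt (fun x : ℂ × ℂ => ch x.1 x.2) (z, z) :=
    (hC.2.2.2.2.2.1).continuousAt (hopen.mem_nhds hb)
  have h1 : ∀ᶠ x : ℂ × ℂ in 𝓝 (z, z), ch x.1 x.2 < 3 / 2 := by
    refine hcont.eventually_lt_const ?_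
    show ch z z < 3 / 2
    rw [hC.2.2.1 z hz]
    norm_num
  rw [nhds_prod_eq] at h1
  obtain ⟨t, ht, s, hs, hts⟩ := Filter.mem_prod_iff.1 h1
  refine ⟨t ∩ s, Filter.inter_mem ht hs, ?_⟩
  intro x hx y hy _ _
  exact hts (Set.mk_mem_prod hx.1 hy.2)

theorem p_NTF (h1 : Stmt_CHF) (h2 : Stmt_PRD) : Stmt_NTF := by
  intro Γ X hΓ hX hXP r hr
  have hfin := h2 Γ hΓ r hr
  have hK : IsCompact (Metric.closedBall (0 : ℂ) r) := isCompact_closedBall 0 r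
  have hloc : ∀ z ∈ Metric.closedBall (0 : ℂ) r,
      ∃ U ∈ 𝓝 z, (U ∩ {x : ℂ | x ∈ X ∧ ‖x‖ ≤ r}).Finite := by
    intro z hz
    have hz1 : ‖z‖ < 1 := by
      have : ‖z‖ ≤ r := by simpa using hz
      linarith
    obtain ⟨U, hU, hUc⟩ := NTF_nhd h1 z hz1
    refine ⟨U, hU, ?_⟩
    rcases (U ∩ {x : ℂ | x ∈ X ∧ ‖x‖ ≤ r}).eq_empty_or_nonempty with he | ⟨x₀, hx₀U, hx₀X, hx₀r⟩
    · rw [he]
      exact Set.finite_empty
    · refine (hfin.image fun g => act g x₀).subset ?_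
      rintro y ⟨hyU, hyX, hyr⟩
      obtain ⟨γ, hγ, hy⟩ := hXP x₀ hx₀X y hyX (hUc x₀ hx₀U y hyU (hX _ hx₀X) (hX _ hyX))
      refine ⟨γ, ⟨hγ, x₀, hx₀r, ?_⟩, hy.symm⟩
      rw [← hy]
      exact hyr
  choose! U hU hUf using hloc
  obtain ⟨t, ht, htc⟩ := hK.elim_nhds_subcover U hU
  have h3 : (⋃ z ∈ t, (U z ∩ {x : ℂ | x ∈ X ∧ ‖x‖ ≤ r})).Finite :=
    Set.Finite.biUnion t.finite_toSet fun z hz => hUf z (ht z hz)
  refine h3.subset ?_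
  rintro x ⟨hxX, hxr⟩
  have hxK : x ∈ Metric.closedBall (0 : ℂ) r := by simpa using hxr
  obtain ⟨z, hz, hxz⟩ := Set.mem_iUnion₂.1 (htc hxK)
  exact Set.mem_iUnion₂.2 ⟨z, hz, hxz, hxX, hxr⟩

end Pool.TZ
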