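import Pool.Agent.Work.MP_ae1ff6_tz.InterfaceA

/-!
# Invariant ideal triangulations (MP_ae1ff6_gt): block NTZ
-/

open Topology Filter Set
open scoped ComplexConjugate

set_option autoImplicit false

namespace Pool.TZ

open Pool.CG Pool.AR Pool.SH

/-- the property of the sets for Zorn's lemma -/
def NTZ_P (Γ : Subgroup H) (X : Set ℂ) : Prop :=
  (∀ x ∈ X, ‖x‖ < 1) ∧ (∀ γ ∈ Γ, ∀ x ∈ X, act γ x ∈ X) ∧
    ∀ x ∈ X, ∀ y ∈ X, ch x y < 3 / 2 → ∃ γ ∈ Γ, y = act γ x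

theorem NTZ_chain (Γ : Subgroup H) (c : Set (Set ℂ)) (hc : c ⊆ {X | NTZ_P Γ X})
    (hch : IsChain (· ⊆ ·) c) : ∃ ub ∈ {X | NTZ_P Γ X}, ∀ s ∈ c, s ⊆ ub := by
  refine ⟨⋃₀ c, ⟨?_, ?_, ?_⟩, fun s hs => subset_sUnion_of_mem hs⟩
  · rintro x ⟨X, hX, hx⟩
    exact (hc hX).1 x hx
  · rintro γ hγ x ⟨X, hX, hx⟩
    exact ⟨X, hX, (hc hX).2.1 γ hγ x hx⟩
  · rintro x ⟨X, hX, hx⟩ y ⟨Y, hY, hy⟩ hxy
    rcases hch.total hX hY with h | h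
    · exact (hc hY).2.2 x (h hx) y hy hxy
    · exact (hc hX).2.2 x hx y (h hy) hxy

theorem NTZ_add (hA : Stmt_ACT) (hC : Stmt_CHF) (Γ : Subgroup H) (hΓ : FirstKind Γ) (X : Set ℂ)
    (hX : NTZ_P Γ X) (z : ℂ) (hz : ‖z‖ < 1) (hfar : ∀ x ∈ X, 3 / 2 ≤ ch z x) :
    NTZ_P Γ (X ∪ {y | ∃ γ ∈ Γ, y = act γ z}) := by
  obtain ⟨-, hA2, hA3, hA4, -, -, hA7, -⟩ := hA
  have hmob : ∀ γ ∈ Γ, IsMob γ := fun γ hγ => hΓ.mob γ hγ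
  have hnorm : ∀ γ ∈ Γ, ‖act γ z‖ < 1 := fun γ hγ => (hA2 γ (hmob γ hγ) z).1 hz
  -- the distance of a point of the orbit and a point of X
  have key : ∀ γ ∈ Γ, ∀ x ∈ X, 3 / 2 ≤ ch (act γ z) x := by
    intro γ hγ x hx
    have hγ' : γ⁻¹ ∈ Γ := Γ.inv_mem hγ
    have h1 : act γ (act γ⁻¹ x) = x := by
      rw [← hA3 γ γ⁻¹ (hmob γ hγ) (hmob _ hγ') x (hX.1 x hx).le, mul_inv_cancel,
        hA4 x (hX.1 x hx).le]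
    have h2 : act γ⁻¹ x ∈ X := hX.2.1 _ hγ' x hx
    have h3 := hA7 γ (hmob γ hγ) z (act γ⁻¹ x) hz (hX.1 _ h2)
    rw [h1] at h3
    rw [h3]
    exact hfar _ h2
  refine ⟨?_, ?_, ?_⟩
  · rintro x (hx | ⟨γ, hγ, rfl⟩)
    · exact hX.1 x hx
    · exact hnorm γ hγ
  · rintro g hg x (hx | ⟨γ, hγ, rfl⟩)
    · exact Or.inl (hX.2.1 g hg x hx)
    · right
      exact ⟨g * γ, Γ.mul_mem hg hγ, (hA3 g γ (hmob g hg) (hmob γ hγ) z hz.le).symm⟩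
  · rintro x (hx | ⟨γ, hγ, rfl⟩) y (hy | ⟨δ, hδ, rfl⟩) hxy
    · exact hX.2.2 x hx y hy hxy
    · exfalso
      have := key δ hδ x hx
      rw [hC.1] at hxy
      linarith
    · exfalso
      have := key γ hγ y hy
      linarith
    · have hγ' : γ⁻¹ ∈ Γ := Γ.inv_mem hγ
      refine ⟨δ * γ⁻¹, Γ.mul_mem hδ hγ', ?_⟩
      rw [← hA3 (δ * γ⁻¹) γ (hmob _ (Γ.mul_mem hδ hγ')) (hmob γ hγ) z hz.le,
        inv_mul_cancel_right]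

theorem p_NTZ (h1 : Stmt_ACT) (h2 : Stmt_CHF) : Stmt_NTZ := by
  intro Γ hΓ
  obtain ⟨X, hX⟩ := zorn_subset {X | NTZ_P Γ X} (NTZ_chain Γ)
  have hXP : NTZ_P Γ X := hX.prop
  refine ⟨X, hXP.1, hXP.2.1, hXP.2.2, ?_⟩
  intro z hz
  by_contra hcon
  push Not at hcon
  have h3 := NTZ_add h1 h2 Γ hΓ X hXP z hz hcon
  have h4 : X ∪ {y | ∃ γ ∈ Γ, y = act γ z} ⊆ X := hX.le_of_ge h3 subset_union_left
  have h5 : z ∈ X := h4 (Or.inr ⟨1, Γ.one_mem, (h1.2.2.2.1 z hz.le).symm⟩)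
  have h6 := hcon z h5
  rw [h2.2.2.1 z hz] at h6
  norm_num at h6

end Pool.TZ
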