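import Pool.Agent.Work.MP_ae1ff6_tz.InterfaceA

/-!
# MP_ae1ff6_gt, THEOREM TZ, block PRD: proper discontinuity (helper16)
-/

open Topology Filter Set
open scoped ComplexConjugate

set_option autoImplicit false

namespace Pool.TZ

open Pool.CG Pool.AR Pool.SH

/-- lower bound of the denominator -/
theorem PRD_low (α β k : ℂ) (r : ℝ) (h0 : 0 ≤ r) (hr : r < 1) (hk : ‖k‖ ≤ r) :
    (1 - r) * ‖β‖ ^ 2 ≤ kD α β k := by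
  have e1 : |(α * conj β * k).re| ≤ ‖α‖ * ‖β‖ * ‖k‖ := by
    refine (Complex.abs_re_le_norm _).trans ?_
    rw [norm_mul, norm_mul, RCLike.norm_conj]
  have e2 : -(‖α‖ * ‖β‖ * ‖k‖) ≤ (α * conj β * k).re := (abs_le.1 e1).1
  have e3 : ‖α‖ * ‖β‖ * ‖k‖ ≤ ‖α‖ * ‖β‖ * r :=
    mul_le_mul_of_nonneg_left hk (by positivity)
  have e4 : 2 * (‖α‖ * ‖β‖) ≤ ‖α‖ ^ 2 + ‖β‖ ^ 2 := by nlinarith [sq_nonneg (‖α‖ - ‖β‖)]
  have e5 : r * (2 * (‖α‖ * ‖β‖)) ≤ r * (‖α‖ ^ 2 + ‖β‖ ^ 2) := mul_le_mul_of_nonneg_left e4 h0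
  have e6 : 0 ≤ (1 - r) * ‖α‖ ^ 2 := mul_nonneg (by linarith) (by positivity)
  unfold kD
  nlinarith

theorem p_PRD (h1 : Stmt_ACW) (h2 : Stmt_KPP) : Stmt_PRD := by
  intro Γ hΓ r hr
  by_cases h0 : 0 ≤ r
  swap
  · refine Set.Finite.subset Set.finite_empty ?_
    rintro g ⟨-, k, hk, -⟩
    exact absurd ((norm_nonneg k).trans hk) h0
  have hfin : ∀ R : ℝ, {g : H | g ∈ Γ ∧ ∃ α β, Par g α β ∧ ‖β‖ ≤ R}.Finite := by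
    intro R
    by_contra hc
    obtain ⟨ε, hε, hd⟩ := hΓ.discrete
    obtain ⟨g, hg, g', hg', hne', hnear⟩ :=
      Pool.GC.pig _ R hc (fun g hg => hg.2) ε hε
    have := hd (g⁻¹ * g') (Γ.mul_mem (Γ.inv_mem hg.1) hg'.1) hnear
    exact hne' (inv_mul_eq_one.1 this)
  have hc : 0 < 1 - r := by linarith
  have hc2 : 0 < 1 - r ^ 2 := by nlinarith
  refine (hfin (1 + 1 / ((1 - r) ^ 2 * (1 - r ^ 2)))).subset ?_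
  rintro g ⟨hg, k, hk, hgk⟩
  obtain ⟨α, β, hp⟩ := (Pool.GC.mb1.1 g).1 (hΓ.mob g hg)
  refine ⟨hg, α, β, hp, ?_⟩
  have hk1 : ‖k‖ ≤ 1 := hk.trans hr.le
  have hD := (h2 α β k hp.1).1 hk1
  have h3 := (h2 α β k hp.1).2
  have e : (1 - ‖act g k‖ ^ 2) * kD α β k ^ 2 = 1 - ‖k‖ ^ 2 := by
    rw [h1 g α β hp k, norm_div, Complex.norm_real, Real.norm_eq_abs, div_pow, sq_abs, sub_mul,
      div_mul_cancel₀ _ (pow_ne_zero 2 hD.ne'), one_mul]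
    exact h3
  have f1 : 1 - r ^ 2 ≤ 1 - ‖act g k‖ ^ 2 := by nlinarith [norm_nonneg (act g k)]
  have f2 : (1 - r ^ 2) * kD α β k ^ 2 ≤ 1 := by
    have : (1 - r ^ 2) * kD α β k ^ 2 ≤ (1 - ‖act g k‖ ^ 2) * kD α β k ^ 2 :=
      mul_le_mul_of_nonneg_right f1 (by positivity)
    nlinarith [sq_nonneg ‖k‖]
  have f3 := PRD_low α β k r h0 hr hk
  have f4 : ((1 - r) * ‖β‖ ^ 2) ^ 2 ≤ kD α β k ^ 2 :=
    pow_le_pow_left₀ (by positivity) f3 2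
  have f5 : (1 - r ^ 2) * ((1 - r) * ‖β‖ ^ 2) ^ 2 ≤ 1 :=
    (mul_le_mul_of_nonneg_left f4 hc2.le).trans f2
  have f6 : ((1 - r) ^ 2 * (1 - r ^ 2)) * ‖β‖ ^ 4 ≤ 1 := by
    calc ((1 - r) ^ 2 * (1 - r ^ 2)) * ‖β‖ ^ 4 = (1 - r ^ 2) * ((1 - r) * ‖β‖ ^ 2) ^ 2 := by ring
      _ ≤ 1 := f5
  have hC : 0 < (1 - r) ^ 2 * (1 - r ^ 2) := by positivity
  have f7 : ‖β‖ ^ 4 ≤ 1 / ((1 - r) ^ 2 * (1 - r ^ 2)) := by
    rw [le_div_iff₀ hC]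
    linarith
  by_cases hb : ‖β‖ ≤ 1
  · have : 0 ≤ 1 / ((1 - r) ^ 2 * (1 - r ^ 2)) := by positivity
    linarith
  · have : ‖β‖ ≤ ‖β‖ ^ 4 := le_self_pow₀ (not_le.1 hb).le (by norm_num)
    linarith

end Pool.TZ
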