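import Pool.Agent.Work.MP_ae1ff6_tz.InterfaceD

open Topology Filter Set
open scoped ComplexConjugate

set_option autoImplicit false

namespace Pool.TZ

open Pool.CG Pool.AR Pool.SH

theorem QUO_lift {G V : Type} [Group G] [MulAction G V] (A : V → V → Prop)
    (hA : ∀ (g : G) x y, A x y → A (g • x) (g • y)) (x : V) (b : MulAction.orbitRel.Quotient G V)
    (h : QA A (Quotient.mk'' x) b) :
    ∃ y, A x y ∧ (Quotient.mk'' y : MulAction.orbitRel.Quotient G V) = b := by
  obtain ⟨x', y', hxy, hx, hy⟩ := h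
  have h1 : ∃ g : G, g • x = x' := by
    have h2 := Quotient.eq''.1 hx
    rw [MulAction.orbitRel_apply, MulAction.mem_orbit_iff] at h2
    exact h2
  obtain ⟨g, rfl⟩ := h1
  refine ⟨g⁻¹ • y', ?_, ?_⟩
  · have h3 := hA g⁻¹ _ _ hxy
    rwa [inv_smul_smul] at h3
  · rw [← hy]
    apply Quotient.eq''.2
    rw [MulAction.orbitRel_apply]
    exact ⟨g⁻¹, rfl⟩

theorem p_QUO : Stmt_QUO := by
  intro G V _ _ A hsym hA hfin hconn
  refine ⟨?_, ?_, ?_, ?_⟩
  · rintro a b ⟨x, y, hxy, hx, hy⟩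
    exact ⟨y, x, hsym _ _ hxy, hy, hx⟩
  · intro a
    obtain ⟨x, rfl⟩ := Quotient.mk''_surjective a
    apply ((hfin x).image
      (fun y => (Quotient.mk'' y : MulAction.orbitRel.Quotient G V))).subset
    intro b hb
    obtain ⟨y, hy, hyb⟩ := QUO_lift A hA x b hb
    exact ⟨y, hy, hyb⟩
  · intro a b
    obtain ⟨x, rfl⟩ := Quotient.mk''_surjective a
    obtain ⟨y, rfl⟩ := Quotient.mk''_surjective b
    exact Relation.ReflTransGen.lift
      (fun z => (Quotient.mk'' z : MulAction.orbitRel.Quotient G V))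
      (fun z w h => ⟨z, w, h, rfl, rfl⟩) _ _ (hconn x y)
  · intro x b h
    exact QUO_lift A hA x b h

end Pool.TZ
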