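import Pool.Agent.Work.MP_ae1ff6_tz.InterfaceE

open Topology Filter Set
open scoped ComplexConjugate

set_option autoImplicit false

namespace Pool.TZ

open Pool.CG Pool.AR Pool.SH

theorem RAY_conv (h1 : Stmt_SDX) (h2 : Stmt_AXS) (h3 : Stmt_ITR) (h4 : Stmt_XFI)
    (Γ : Subgroup H) (V : Set ℂ) (A : ℂ → ℂ → Prop) (π : ℂ → ℂ) (hs : St Γ V A π) (v : ℂ) (hv : v ∈ V) :
    ∃ z : Circle, Tendsto (fun k : ℕ => π^[k] v) atTop (𝓝 (z : ℂ)) := by
  obtain ⟨hs1, hs2, hs3⟩ := h3 Γ V A π hs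
  have hball : ∀ k : ℕ, π^[k] v ∈ Metric.closedBall (0 : ℂ) 1 := fun k => by
    rw [mem_closedBall_zero_iff]
    exact (hs.gr.sub _ (hs1 v hv k).1).le
  have hcomp : IsCompact (Metric.closedBall (0 : ℂ) 1) := isCompact_closedBall 0 1
  have hmc : ∀ x : ℂ, MapClusterPt x atTop (fun k : ℕ => π^[k] v) → ‖x‖ = 1 := by
    intro x hx
    have hx1 : x ∈ Metric.closedBall (0 : ℂ) 1 := by
      refine Metric.isClosed_closedBall.mem_of_mapClusterPt hx (Eventually.of_forall hball)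
    have hle : ‖x‖ ≤ 1 := mem_closedBall_zero_iff.1 hx1
    refine le_antisymm hle ?_
    by_contra hlt
    push Not at hlt
    obtain ⟨r, hr1, hr2⟩ := exists_between hlt
    have hev := hs3 v hv r hr2
    have hfr : ∃ᶠ k in atTop, π^[k] v ∈ Metric.ball (0 : ℂ) r :=
      hx.frequently (Metric.isOpen_ball.mem_nhds (mem_ball_zero_iff.2 hr1))
    obtain ⟨k, hk1, hk2⟩ := (hfr.and_eventually hev).exists
    rw [mem_ball_zero_iff] at hk1
    exact lt_asymm hk1 hk2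
  obtain ⟨x, hx, hxm⟩ := hcomp.exists_mapClusterPt
    (show atTop.map (fun k : ℕ => π^[k] v) ≤ 𝓟 (Metric.closedBall (0 : ℂ) 1) by
      rw [le_principal_iff, mem_map]
      exact univ_mem' hball)
  have hxn : ‖x‖ = 1 := hmc x hxm
  refine ⟨⟨x, mem_sphere_zero_iff_norm.2 hxn⟩, ?_⟩
  refine hcomp.tendsto_nhds_of_unique_mapClusterPt (Eventually.of_forall hball) ?_
  intro y hy hym
  have hyn : ‖y‖ = 1 := hmc y hym
  by_contra hne
  set a : Circle := ⟨x, mem_sphere_zero_iff_norm.2 hxn⟩ with ha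
  set b : Circle := ⟨y, mem_sphere_zero_iff_norm.2 hyn⟩ with hb
  have hax : (a : ℂ) = x := rfl
  have hbx : (b : ℂ) = y := rfl
  have hab : a ≠ b := fun h => hne (by rw [← hbx, ← h, hax])
  obtain ⟨γ, hγ, p, q, hpq, hlk⟩ := h2 Γ hs.fk a b hab
  have hneg := (h1.2.2.2.2.1 p q a b).1 hlk
  have hcont := h1.2.2.2.1 p q
  rw [hax, hbx] at hneg
  have key : ∀ w : ℂ, MapClusterPt w atTop (fun k : ℕ => π^[k] v) →
      ((∀ᶠ k in atTop, 0 < sd p q (π^[k] v)) → 0 ≤ sd p q w) ∧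
      ((∀ᶠ k in atTop, sd p q (π^[k] v) < 0) → sd p q w ≤ 0) := by
    intro w hw
    have hw' : MapClusterPt (sd p q w) atTop (fun k : ℕ => sd p q (π^[k] v)) :=
      hw.continuousAt_comp hcont.continuousAt
    exact ⟨fun h => isClosed_Ici.mem_of_mapClusterPt hw' (h.mono fun k hk => hk.le),
      fun h => isClosed_Iic.mem_of_mapClusterPt hw' (h.mono fun k hk => hk.le)⟩
  rcases h4 Γ V A π hs γ hγ p q hpq v hv with h | h
  · have e1 := (key x hxm).1 h
    have e2 := (key y hym).1 h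
    nlinarith [mul_nonneg e1 e2]
  · have e1 := (key x hxm).2 h
    have e2 := (key y hym).2 h
    nlinarith [mul_nonneg (neg_nonneg.2 e1) (neg_nonneg.2 e2)]

theorem p_RAY (h1 : Stmt_SDX) (h2 : Stmt_AXS) (h3 : Stmt_ITR) (h4 : Stmt_XFI) : Stmt_RAY := by
  intro Γ V A π hs
  classical
  refine ⟨fun v => if hv : v ∈ V then (RAY_conv h1 h2 h3 h4 Γ V A π hs v hv).choose else 1, ?_⟩
  intro v hv
  simp only [hv, dite_true]
  exact (RAY_conv h1 h2 h3 h4 Γ V A π hs v hv).choose_spec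

end Pool.TZ
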