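import Pool.Agent.Work.MP_ae1ff6_tz.InterfaceFF

open Topology Filter Set
open scoped ComplexConjugate

set_option autoImplicit false

namespace Pool.TZ

open Pool.CG Pool.AR Pool.SH

theorem p_RFD (h1 : Stmt_ARX) (h2 : Stmt_RSP) (h3 : Stmt_RCH) : Stmt_RFD := by
  classical
  intro E hE ε hε
  set F : Set (Circle × Circle) := {a | a ∈ E ∧ ε ≤ dist a.1 a.2} with hF
  have hFf : F.Finite := hE.fin ε hε
  refine Set.Finite.of_finite_image (f := fun K : Set Circle => {e | e ∈ F ∧ K ⊆ Arc e.1 e.2}) ?_ ?_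
  · refine hFf.finite_subsets.subset ?_
    rintro _ ⟨K, -, rfl⟩ e he
    exact he.1
  · rintro K ⟨hK, x, hx, y, hy, hxy⟩ K' ⟨hK', x', hx', y', hy', hxy'⟩ heq
    by_contra hne
    obtain ⟨p, q, hpq, hp, hq, hKa, hKa'⟩ := h2 E K K' hE hK hK' hne
    have hmin := h3 p q x y x' y' (hKa hx) (hKa hy) (hKa' hx') (hKa' hy')
    have hd : ε ≤ dist p q := le_trans (le_min hxy hxy') hmin
    have hmem : (p, q) ∈ ({e | e ∈ F ∧ K ⊆ Arc e.1 e.2} : Set (Circle × Circle)) :=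
      ⟨⟨hpq, hd⟩, hKa⟩
    have heq' : ({e | e ∈ F ∧ K ⊆ Arc e.1 e.2} : Set (Circle × Circle)) =
        {e | e ∈ F ∧ K' ⊆ Arc e.1 e.2} := heq
    rw [heq'] at hmem
    have hKb : K' ⊆ Arc p q := hmem.2
    obtain ⟨⟨a, ha, b, hb, c, hc, habc⟩, -, -⟩ := hK'
    obtain ⟨-, hab, hbc, hac⟩ := q_CYO.2.1 a b c habc
    rcases h1.2.1 p q a (hKb ha) (hKa' ha) with ea | ea <;>
      rcases h1.2.1 p q b (hKb hb) (hKa' hb) with eb | eb <;>
      rcases h1.2.1 p q c (hKb hc) (hKa' hc) with ec | ec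
    · exact hab (ea.trans eb.symm)
    · exact hab (ea.trans eb.symm)
    · exact hac (ea.trans ec.symm)
    · exact hbc (eb.trans ec.symm)
    · exact hbc (eb.trans ec.symm)
    · exact hac (ea.trans ec.symm)
    · exact hab (ea.trans eb.symm)
    · exact hab (ea.trans eb.symm)

end Pool.TZ
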