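import Pool.Agent.Work.MP_ae1ff6_tz.InterfaceE

open Topology Filter Set
open scoped ComplexConjugate

set_option autoImplicit false

namespace Pool.TZ

open Pool.CG Pool.AR Pool.SH

theorem SDX_exp (p q : Circle) (k : ℂ) : sd p q k =
    ((q : ℂ).re - (p : ℂ).re) * (k.im - (p : ℂ).im) - ((q : ℂ).im - (p : ℂ).im) * (k.re - (p : ℂ).re) := by
  unfold sd
  simp only [map_sub, Complex.mul_im, Complex.sub_re, Complex.sub_im, Complex.conj_re, Complex.conj_im]
  ring

theorem SDX_anti (p q : Circle) (k : ℂ) : sd q p k = - sd p q k := by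
  rw [SDX_exp, SDX_exp]; ring

theorem SDX_pos (p q z : Circle) : 0 < sd p q (z : ℂ) ↔ Ccw p q z := Iff.rfl

theorem SDX_neg (p q z : Circle) : sd p q (z : ℂ) < 0 ↔ Ccw q p z := by
  rw [← SDX_pos, SDX_anti p q]
  constructor <;> intro h <;> linarith

theorem SDX_aff (p q : Circle) (k l : ℂ) (s t : ℝ) (h : s + t = 1) :
    sd p q (s • k + t • l) = s * sd p q k + t * sd p q l := by
  have hs : s = 1 - t := by linarith
  rw [SDX_exp, SDX_exp, SDX_exp]
  simp only [Complex.real_smul, Complex.add_re, Complex.add_im, Complex.mul_re, Complex.mul_im,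
    Complex.ofReal_re, Complex.ofReal_im]
  rw [hs]; ring

theorem SDX_zero (p q z : Circle) (hpq : p ≠ q) : sd p q (z : ℂ) = 0 ↔ z = p ∨ z = q := by
  constructor
  · intro h
    by_contra hn
    push Not at hn
    rcases q_CYO.2.2.1 p q z hpq (Ne.symm hn.2) (Ne.symm hn.1) with h' | h'
    · have := (SDX_pos p q z).2 h'
      linarith
    · have h2 : Ccw q p z := q_CYO.1 _ _ _ (q_CYO.1 _ _ _ h')
      have := (SDX_neg p q z).2 h2
      linarith
  · rintro (rfl | rfl)
    · rw [SDX_exp]; ring
    · rw [SDX_exp]; ring

theorem p_SDX : Stmt_SDX := by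
  refine ⟨SDX_pos, fun p q k => SDX_anti p q k, SDX_aff, ?_, ?_, SDX_zero, ?_⟩
  · intro p q
    have : sd p q = fun k : ℂ => ((q : ℂ).re - (p : ℂ).re) * (k.im - (p : ℂ).im) -
        ((q : ℂ).im - (p : ℂ).im) * (k.re - (p : ℂ).re) := by
      funext k; exact SDX_exp p q k
    rw [this]
    fun_prop
  · intro p q c d
    rw [q_LKC p q c d]
    have rot := q_CYO.1
    constructor
    · rintro (⟨h, h'⟩ | ⟨h, h'⟩)
      · have e1 := (SDX_neg p q c).2 (rot _ _ _ (rot _ _ _ h))
        have e2 := (SDX_pos p q d).2 (rot _ _ _ (rot _ _ _ h'))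
        exact mul_neg_of_neg_of_pos e1 e2
      · have e1 := (SDX_neg p q d).2 (rot _ _ _ (rot _ _ _ h))
        have e2 := (SDX_pos p q c).2 (rot _ _ _ (rot _ _ _ h'))
        exact mul_neg_of_pos_of_neg e2 e1
    · intro h
      rcases mul_neg_iff.1 h with ⟨h1, h2⟩ | ⟨h1, h2⟩
      · right
        exact ⟨rot _ _ _ ((SDX_neg p q d).1 h2), rot _ _ _ ((SDX_pos p q c).1 h1)⟩
      · left
        exact ⟨rot _ _ _ ((SDX_neg p q c).1 h1), rot _ _ _ ((SDX_pos p q d).1 h2)⟩
  · intro p q k l h
    by_cases hk : sd p q k = 0
    · exact ⟨k, left_mem_segment ℝ k l, hk⟩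
    · set a := sd p q k with ha
      set b := sd p q l with hb
      have hab : a - b ≠ 0 := by
        intro e
        have : b = a := by linarith
        rw [this] at h
        have : 0 < a * a := mul_self_pos.2 hk
        linarith
      have h0 : 0 ≤ a / (a - b) := by
        rcases lt_or_gt_of_ne hk with h' | h'
        · have hb' : 0 ≤ b := by
            by_contra hn
            push Not at hn
            have := mul_pos_of_neg_of_neg h' hn
            linarith
          exact div_nonneg_of_nonpos h'.le (by linarith)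
        · have hb' : b ≤ 0 := by
            by_contra hn
            push Not at hn
            have := mul_pos h' hn
            linarith
          exact div_nonneg h'.le (by linarith)
      have h1' : 0 ≤ - b / (a - b) := by
        rcases lt_or_gt_of_ne hk with h' | h'
        · have hb' : 0 ≤ b := by
            by_contra hn
            push Not at hn
            have := mul_pos_of_neg_of_neg h' hn
            linarith
          exact div_nonneg_of_nonpos (by linarith) (by linarith)
        · have hb' : b ≤ 0 := by
            by_contra hn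
            push Not at hn
            have := mul_pos h' hn
            linarith
          exact div_nonneg (by linarith) (by linarith)
      have hsum : - b / (a - b) + a / (a - b) = 1 := by
        rw [← add_div, div_eq_one_iff_eq hab]; ring
      refine ⟨(- b / (a - b)) • k + (a / (a - b)) • l, ⟨_, _, h1', h0, hsum, rfl⟩, ?_⟩
      rw [SDX_aff p q k l _ _ hsum, ← ha, ← hb]
      field_simp
      ring

end Pool.TZ
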