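import Pool.Agent.Work.MP_ae1ff6_tz.InterfaceE

/-!
# Block STH: hyperbolic elements do not stabilize regions
-/

open Topology Filter Set
open scoped ComplexConjugate

set_option autoImplicit false

namespace Pool.TZ

open Pool.CG Pool.AR Pool.SH

theorem STH_ne (x y z : Circle) (h : Ccw x y z) : x ≠ y ∧ y ≠ z ∧ x ≠ z := by
  have h' : 0 < sd x y (z : ℂ) := h
  unfold sd at h'
  refine ⟨?_, ?_, ?_⟩
  · rintro rfl
    simp at h'
  · rintro rfl
    have e : (conj ((y : ℂ) - (x : ℂ)) * ((y : ℂ) - (x : ℂ))).im = 0 := by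
      rw [mul_comm, Complex.mul_conj]
      exact Complex.ofReal_im _
    rw [e] at h'
    exact lt_irrefl _ h'
  · rintro rfl
    simp at h'

theorem STH_pick (K : Set Circle) (p q : Circle) (h : ∃ a ∈ K, ∃ b ∈ K, ∃ c ∈ K, Ccw a b c) :
    ∃ k ∈ K, k ≠ p ∧ k ≠ q := by
  obtain ⟨a, ha, b, hb, c, hc, hcc⟩ := h
  obtain ⟨h1, h2, h3⟩ := STH_ne a b c hcc
  by_contra hn
  have key : ∀ k ∈ K, k = p ∨ k = q := by
    intro k hk
    by_contra hk'
    rw [not_or] at hk'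
    exact hn ⟨k, hk, hk'.1, hk'.2⟩
  rcases key a ha with ea | ea <;> rcases key b hb with eb | eb <;> rcases key c hc with ec | ec <;>
    first
      | exact h1 (ea.trans eb.symm)
      | exact h2 (eb.trans ec.symm)
      | exact h3 (ea.trans ec.symm)

theorem STH_zpow (K : Set Circle) (γ : H) (hK : (γ : H) '' K = K) (n : ℤ) :
    ∀ k ∈ K, (γ ^ n) k ∈ K := by
  have s1 : ∀ k ∈ K, γ k ∈ K := by
    intro k hk
    rw [← hK]
    exact ⟨k, hk, rfl⟩
  have s2 : ∀ k ∈ K, γ⁻¹ k ∈ K := by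
    intro k hk
    rw [← hK] at hk
    obtain ⟨k', hk', rfl⟩ := hk
    have e : γ⁻¹ (γ k') = k' := γ.symm_apply_apply k'
    rw [e]
    exact hk'
  induction n using Int.induction_on with
  | zero => intro k hk; simpa using hk
  | succ n ih =>
    intro k hk
    rw [zpow_add_one]
    exact ih _ (s1 k hk)
  | pred n ih =>
    intro k hk
    rw [zpow_sub_one]
    exact ih _ (s2 k hk)

theorem STH_core (h1 : Stmt_ACT) (h2 : Stmt_SDX) (Γ : Subgroup H) (E : Set (Circle × Circle))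
    (K : Set Circle) (hΓ : FirstKind Γ) (hR : Reg E K) (γ : H) (hγ : γ ∈ Γ)
    (hK : (γ : H) '' K = K) (p q a b : Circle) (hE : (a, b) ∈ E) (hL : Link a b p q)
    (hN : NS γ p q) : False := by
  obtain ⟨k, hk, hkp, hkq⟩ := STH_pick K p q hR.1
  have hPQ := (h2.2.2.2.2.1 a b p q).1 hL
  have hc : Continuous (sd a b) := h2.2.2.2.1 a b
  have hact : ∀ n : ℤ, act (γ ^ n) (k : ℂ) = (((γ ^ n) k : Circle) : ℂ) := fun n =>
    h1.1 _ (hΓ.mob _ (Γ.zpow_mem hγ n)) k
  obtain ⟨t1, t2⟩ := hN (k : ℂ) (by rw [Circle.norm_coe])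
    (fun e => hkp (Circle.coe_injective e)) (fun e => hkq (Circle.coe_injective e))
  have t1' : Tendsto (fun n : ℤ => sd a b (((γ ^ n) k : Circle) : ℂ) * sd a b (q : ℂ)) atTop
      (𝓝 (sd a b (q : ℂ) * sd a b (q : ℂ))) := by
    have := ((hc.tendsto (q : ℂ)).comp t1).mul_const (sd a b (q : ℂ))
    refine this.congr (fun n => ?_)
    rw [Function.comp_apply, hact]
  have t2' : Tendsto (fun n : ℤ => sd a b (((γ ^ n) k : Circle) : ℂ) * sd a b (p : ℂ)) atBot
      (𝓝 (sd a b (p : ℂ) * sd a b (p : ℂ))) := by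
    have := ((hc.tendsto (p : ℂ)).comp t2).mul_const (sd a b (p : ℂ))
    refine this.congr (fun n => ?_)
    rw [Function.comp_apply, hact]
  have hq0 : sd a b (q : ℂ) ≠ 0 := by
    intro e
    rw [e, mul_zero] at hPQ
    exact lt_irrefl _ hPQ
  have hp0 : sd a b (p : ℂ) ≠ 0 := by
    intro e
    rw [e, zero_mul] at hPQ
    exact lt_irrefl _ hPQ
  obtain ⟨n, hn⟩ := (t1'.eventually_const_lt (mul_self_pos.2 hq0)).exists
  obtain ⟨m, hm⟩ := (t2'.eventually_const_lt (mul_self_pos.2 hp0)).exists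
  have hneg : sd a b (((γ ^ n) k : Circle) : ℂ) * sd a b (((γ ^ m) k : Circle) : ℂ) < 0 := by
    by_contra hcon
    have hcon' := not_lt.1 hcon
    have h3 := mul_pos hn hm
    have h4 := mul_nonpos_of_nonneg_of_nonpos hcon' hPQ.le
    nlinarith
  exact hR.2.1 _ (STH_zpow K γ hK n k hk) _ (STH_zpow K γ hK m k hk) (a, b) hE
    ((h2.2.2.2.2.1 a b _ _).2 hneg)

theorem p_STH (h1 : Stmt_ACT) (h2 : Stmt_SDX) (h3 : Stmt_DYN) : Stmt_STH := by
  intro Γ E K hΓ htf hR γ hγ hK p q a b hAx hE hL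
  have hL' : Link a b p q := (Pool.GC.q_SYM p q a b hL).1
  rcases h3 Γ hΓ htf γ hγ p q hAx with hN | hN
  · exact STH_core h1 h2 Γ E K hΓ hR γ hγ hK p q a b hE hL' hN
  · exact STH_core h1 h2 Γ E K hΓ hR γ hγ hK q p a b hE (Pool.GC.q_SYM a b p q hL').2.2 hN

end Pool.TZ
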