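import Pool.Agent.Work.MP_ae1ff6_tz.InterfaceE

/-!
# Invariant ideal triangulations (MP_ae1ff6_gt): block STP

A parabolic element does not preserve a region if a line of the cut system ends in its fixed point.
-/

open Topology Filter Set
open scoped ComplexConjugate

set_option autoImplicit false

namespace Pool.TZ

open Pool.CG Pool.AR Pool.SH

/-- the coordinate of the point `z` of the circle in the half plane with `u` at infinity -/
noncomputable def STP_W (u z : Circle) : ℂ := (1 - (z : ℂ) * conj (u : ℂ))⁻¹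

theorem STP_uu (u : Circle) : (u : ℂ) * conj (u : ℂ) = 1 := by
  rw [Complex.mul_conj, Complex.normSq_eq_norm_sq, Circle.norm_coe]
  simp

theorem STP_ne {u z : Circle} (h : z ≠ u) : 1 - (z : ℂ) * conj (u : ℂ) ≠ 0 := by
  intro h0
  apply h
  apply Circle.ext
  linear_combination (-(u : ℂ)) * h0 - (z : ℂ) * STP_uu u

theorem STP_re {u z : Circle} (h : z ≠ u) : (STP_W u z).re = 1 / 2 := by
  have h0 := STP_ne h
  have hs : STP_W u z + conj (STP_W u z) = 1 := by
    have h1 : 1 - conj (z : ℂ) * (u : ℂ) ≠ 0 := by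
      intro h2
      apply h0
      have := congrArg conj h2
      simpa [map_sub, map_mul] using this
    unfold STP_W
    rw [map_inv₀, map_sub, map_one, map_mul, Complex.conj_conj]
    field_simp
    linear_combination (-((z : ℂ) * conj (z : ℂ))) * STP_uu u - STP_uu z
  have := congrArg Complex.re hs
  rw [Complex.add_re, Complex.conj_re, Complex.one_re] at this
  linarith

theorem STP_step {u : Circle} {γ : H} {τ : ℝ}
    (hp : Par γ (1 + (τ : ℂ) * Complex.I) (-((τ : ℂ) * Complex.I * (u : ℂ)))) {z : Circle}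
    (hz : z ≠ u) (hz' : γ z ≠ u) : STP_W u (γ z) = STP_W u z - Complex.I * τ := by
  have hpz := hp.2 z
  simp only [map_neg, map_add, map_mul, map_one, Complex.conj_ofReal, Complex.conj_I] at hpz
  have h1 := STP_ne hz
  have h2 := STP_ne hz'
  have key : 1 - (z : ℂ) * conj (u : ℂ) = (1 - (γ z : ℂ) * conj (u : ℂ)) *
      (1 - Complex.I * τ * (1 - (z : ℂ) * conj (u : ℂ))) := by
    linear_combination conj (u : ℂ) * hpz - (τ : ℂ) * Complex.I * STP_uu u
  have e : (1 - (z : ℂ) * conj (u : ℂ))⁻¹ * (1 - (z : ℂ) * conj (u : ℂ)) = 1 :=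
    inv_mul_cancel₀ h1
  have h3 : (1 - (γ z : ℂ) * conj (u : ℂ)) *
      ((1 - (z : ℂ) * conj (u : ℂ))⁻¹ - Complex.I * τ) = 1 := by
    linear_combination (-(1 - (z : ℂ) * conj (u : ℂ))⁻¹) * key +
      (1 + (1 - (γ z : ℂ) * conj (u : ℂ)) * Complex.I * τ) * e
  unfold STP_W
  exact inv_eq_of_mul_eq_one_right h3

theorem STP_sd {u a b : Circle} (ha : a ≠ u) (hb : b ≠ u) :
    sd u a (b : ℂ) * (2 * (Complex.normSq (STP_W u a) * Complex.normSq (STP_W u b))) =
      (STP_W u a).im - (STP_W u b).im := by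
  have hA := STP_ne ha
  have hB := STP_ne hb
  have hWA : STP_W u a * (1 - (a : ℂ) * conj (u : ℂ)) = 1 := inv_mul_cancel₀ hA
  have hWB : STP_W u b * (1 - (b : ℂ) * conj (u : ℂ)) = 1 := inv_mul_cancel₀ hB
  have hWA' : conj (STP_W u a) * (1 - conj (a : ℂ) * (u : ℂ)) = 1 := by
    have := congrArg conj hWA
    simpa [map_sub, map_mul] using this
  have e2 : conj ((a : ℂ) - (u : ℂ)) * ((b : ℂ) - (u : ℂ)) =
      (1 - conj (a : ℂ) * (u : ℂ)) * (1 - (b : ℂ) * conj (u : ℂ)) := by
    rw [map_sub]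
    linear_combination (1 - conj (a : ℂ) * (b : ℂ)) * STP_uu u
  have e1 : conj ((a : ℂ) - (u : ℂ)) * ((b : ℂ) - (u : ℂ)) *
      ((Complex.normSq (STP_W u a) * Complex.normSq (STP_W u b) : ℝ) : ℂ) =
      STP_W u a * conj (STP_W u b) := by
    rw [e2]
    push_cast
    rw [Complex.normSq_eq_conj_mul_self, Complex.normSq_eq_conj_mul_self]
    linear_combination (STP_W u a * conj (STP_W u b) * STP_W u b *
      (1 - (b : ℂ) * conj (u : ℂ))) * hWA' + (STP_W u a * conj (STP_W u b)) * hWB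
  have e4 : (STP_W u a * conj (STP_W u b)).im = ((STP_W u a).im - (STP_W u b).im) / 2 := by
    rw [Complex.mul_im, Complex.conj_im, Complex.conj_re, STP_re ha, STP_re hb]
    ring
  have e3 := congrArg Complex.im e1
  rw [Complex.im_mul_ofReal, e4] at e3
  unfold sd
  linarith

/-- STP -/
theorem p_STP (h1 : Stmt_SDX) (h2 : Stmt_CU1) : Stmt_STP := by
  obtain ⟨-, -, -, -, hlink, -, -⟩ := h1
  intro E K γ hmob hK hγ u c hfix hcu hE
  obtain ⟨τ, hτ, hp⟩ := h2 γ u hmob hfix
  have hγu : γ u = u := (hfix u).2 rfl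
  have hne : ∀ z : Circle, z ≠ u → γ z ≠ u := by
    intro z hz h
    exact hz (γ.injective (h.trans hγu.symm))
  have hmem : ∀ z ∈ K, γ z ∈ K := by
    intro z hz
    rw [← hγ]
    exact ⟨z, hz, rfl⟩
  have hmem' : ∀ z, γ z ∈ K → z ∈ K := by
    intro z hz
    rw [← hγ] at hz
    obtain ⟨x, hx, hxz⟩ := hz
    rwa [← γ.injective hxz]
  obtain ⟨k, hk, hku⟩ : ∃ k ∈ K, k ≠ u := by
    obtain ⟨⟨a, ha, b, hb, c', -, hcc⟩, -⟩ := hK
    by_cases hau : a = u
    · refine ⟨b, hb, ?_⟩
      rintro rfl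
      subst hau
      unfold Ccw area at hcc
      simp at hcc
    · exact ⟨a, ha, hau⟩
  have hn : ∀ n : ℤ, (γ ^ n) k ∈ K ∧ (γ ^ n) k ≠ u ∧
      (STP_W u ((γ ^ n) k)).im = (STP_W u k).im - n * τ := by
    intro n
    induction n using Int.induction_on with
    | zero =>
      refine ⟨?_, ?_, ?_⟩
      · simpa using hk
      · simpa using hku
      · simp
    | succ n ih =>
      obtain ⟨i1, i2, i3⟩ := ih
      have e : (γ ^ ((n : ℤ) + 1)) k = γ ((γ ^ (n : ℤ)) k) := by
        rw [add_comm, zpow_add, zpow_one]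
        rfl
      rw [e]
      refine ⟨hmem _ i1, hne _ i2, ?_⟩
      rw [STP_step hp i2 (hne _ i2), Complex.sub_im, i3]
      simp
      ring
    | pred n ih =>
      obtain ⟨i1, i2, i3⟩ := ih
      have e : γ ((γ ^ (-(n : ℤ) - 1)) k) = (γ ^ (-(n : ℤ))) k := by
        have : γ ^ (-(n : ℤ)) = γ * γ ^ (-(n : ℤ) - 1) := by
          rw [← zpow_one_add]
          congr 1
          ring
        rw [this]
        rfl
      have i4 : (γ ^ (-(n : ℤ) - 1)) k ≠ u := by
        intro h
        rw [h, hγu] at e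
        exact i2 e.symm
      refine ⟨hmem' _ (by rw [e]; exact i1), i4, ?_⟩
      have h5 := congrArg Complex.im (STP_step hp i4 (hne _ i4))
      rw [e, Complex.sub_im, i3] at h5
      simp at h5
      push_cast
      linarith
  have hpos : ∀ z : Circle, z ≠ u → 0 < Complex.normSq (STP_W u z) := by
    intro z hz
    exact Complex.normSq_pos.2 (inv_ne_zero (STP_ne hz))
  have hsd : ∀ n : ℤ, sd u c ((γ ^ n) k : Circle) *
      (2 * (Complex.normSq (STP_W u c) * Complex.normSq (STP_W u ((γ ^ n) k)))) =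
      (STP_W u c).im - (STP_W u k).im + n * τ := by
    intro n
    obtain ⟨-, i2, i3⟩ := hn n
    rw [STP_sd hcu i2, i3]
    ring
  have hP : ∀ n : ℤ, 0 < 2 * (Complex.normSq (STP_W u c) *
      Complex.normSq (STP_W u ((γ ^ n) k))) := by
    intro n
    obtain ⟨-, i2, -⟩ := hn n
    have := hpos _ hcu
    have := hpos _ i2
    positivity
  -- choose the exponents
  obtain ⟨n, hn1⟩ : ∃ n : ℤ, 0 < (STP_W u c).im - (STP_W u k).im + n * τ := by
    set D := (STP_W u c).im - (STP_W u k).im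
    obtain ⟨n, hn⟩ := exists_nat_gt (-D / |τ|)
    have hτ' : 0 < |τ| := abs_pos.2 hτ
    rw [div_lt_iff₀ hτ'] at hn
    rcases lt_or_gt_of_ne hτ with h | h
    · refine ⟨-n, ?_⟩
      rw [abs_of_neg h] at hn
      push_cast
      linarith
    · refine ⟨n, ?_⟩
      rw [abs_of_pos h] at hn
      push_cast
      linarith
  obtain ⟨m, hm1⟩ : ∃ m : ℤ, (STP_W u c).im - (STP_W u k).im + m * τ < 0 := by
    set D := (STP_W u c).im - (STP_W u k).im
    obtain ⟨n, hn⟩ := exists_nat_gt (D / |τ|)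
    have hτ' : 0 < |τ| := abs_pos.2 hτ
    rw [div_lt_iff₀ hτ'] at hn
    rcases lt_or_gt_of_ne hτ with h | h
    · refine ⟨n, ?_⟩
      rw [abs_of_neg h] at hn
      push_cast
      linarith
    · refine ⟨-n, ?_⟩
      rw [abs_of_pos h] at hn
      push_cast
      linarith
  have s1 : 0 < sd u c ((γ ^ n) k : Circle) := by
    have := hsd n
    have h3 := hP n
    by_contra hcon
    rw [not_lt] at hcon
    nlinarith
  have s2 : sd u c ((γ ^ m) k : Circle) < 0 := by
    have := hsd m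
    have h3 := hP m
    by_contra hcon
    rw [not_lt] at hcon
    nlinarith
  exact hK.2.1 _ (hn n).1 _ (hn m).1 (u, c) hE
    ((hlink u c _ _).2 (mul_neg_of_pos_of_neg s1 s2))

end Pool.TZ
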