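import Pool.Agent.Work.MP_ae1ff6_tz.InterfaceFF

/-! # Block TRA: real coordinates of points between the ends of an interval -/

open Topology Filter Set
open scoped ComplexConjugate

set_option autoImplicit false

namespace Pool.TZ

open Pool.CG Pool.AR Pool.SH

theorem TRA_eq {x y : ℝ} (h : Circle.exp x = Circle.exp y) (h1 : x < y + 2 * Real.pi) (h2 : y < x + 2 * Real.pi) :
    x = y := by
  have hpi := Real.pi_pos
  obtain ⟨m, hm⟩ := Circle.exp_eq_exp.1 h
  have h3 : ((m : ℤ) : ℝ) < 1 := by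
    by_contra h4
    push Not at h4
    nlinarith
  have h5 : (-1 : ℝ) < ((m : ℤ) : ℝ) := by
    by_contra h4
    push Not at h4
    nlinarith
  have h6 : m < 1 := by exact_mod_cast h3
  have h7 : -1 < m := by exact_mod_cast h5
  have h8 : m = 0 := by omega
  rw [h8] at hm
  simpa using hm

theorem TRA_per (t : ℝ) : Circle.exp (t + 2 * Real.pi) = Circle.exp t := Circle.exp_eq_exp.2 ⟨1, by simp⟩

theorem TRA_one {s u v t : ℝ} (h1 : s ≤ u) (h2 : u < v) (h3 : v ≤ s + 2 * Real.pi) (h4 : v < u + 2 * Real.pi)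
    (h5 : s ≤ t) (h6 : t ≤ s + 2 * Real.pi) :
    Ccw (Circle.exp u) (Circle.exp t) (Circle.exp v) ↔ u < t ∧ t < v := by
  constructor
  · intro h
    obtain ⟨r, hr1, hr2, hr3⟩ := q_ANG.2.1 u v (Circle.exp t) h2 h4 h
    have e := TRA_eq hr3 (by linarith) (by linarith)
    exact ⟨by linarith, by linarith⟩
  · rintro ⟨ha, hb⟩
    exact q_ANG.1 u t v ha hb h4

theorem p_TRA : Stmt_TRA := by
  refine ⟨?_, ?_, ?_, ?_, ?_⟩
  · intro s u v t h1 h2 h3 h4 h5 h6
    exact TRA_one h1 h2 h3 h4 h5 h6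
  · intro s u v t h1 h2 h3 h4 h5 h6 h
    by_contra hcon
    push Not at hcon
    obtain ⟨ha, hb⟩ := hcon
    have hne := q_CYO.2.1 _ _ _ h
    have htu : u < t := lt_of_le_of_ne ha fun e => hne.2.2.1 (by rw [e])
    have htv : t < v := lt_of_le_of_ne hb fun e => hne.2.1 (by rw [e])
    have hc := q_ANG.1 u t v htu htv h4
    exact (q_CYO.2.1 _ _ _ hc).1 (q_CYO.1 _ _ _ (q_CYO.1 _ _ _ h))
  · intro s u v t h1 h2 h3 h4 h5 h6 h
    rcases h with ⟨ha, hb⟩ | ⟨ha, hb⟩
    · rw [← TRA_per t, ← TRA_per u]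
      exact q_ANG.1 v (t + 2 * Real.pi) (u + 2 * Real.pi) hb (by linarith) (by linarith)
    · rw [← TRA_per u]
      exact q_ANG.1 v t (u + 2 * Real.pi) ha hb (by linarith)
  · intro u v huv
    have e4 : dist (Circle.exp u) (Circle.exp v) =
        ‖((Circle.exp v : Circle) : ℂ) - (Circle.exp u : Circle)‖ := by
      rw [dist_comm, ← Complex.dist_eq]
      rfl
    have e5 : ((Circle.exp v : Circle) : ℂ) - (Circle.exp u : Circle) =
        ((Circle.exp u : Circle) : ℂ) * (Complex.exp (Complex.I * ((v - u : ℝ) : ℂ)) - 1) := by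
      rw [Circle.coe_exp, Circle.coe_exp, mul_sub, mul_one, ← Complex.exp_add]
      congr 2
      push_cast
      ring
    rw [e4, e5, norm_mul, Circle.norm_coe, one_mul]
    refine (Real.norm_exp_I_mul_ofReal_sub_one_le).trans ?_
    rw [Real.norm_eq_abs, abs_of_nonneg (by linarith)]
  · intro u v h1 h2 h
    have e := TRA_eq h (by linarith [Real.pi_pos]) h2
    linarith

end Pool.TZ
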