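import Pool.Agent.Work.MP_ae1ff6_tz.InterfaceFF

open Topology Filter Set
open scoped ComplexConjugate

set_option autoImplicit false

namespace Pool.TZ

open Pool.CG Pool.AR Pool.SH

theorem TRI_inv1 (g : H) (x : Circle) : (g⁻¹ : H) (g x) = x := by
  have : (g⁻¹ : H) (g x) = ((g⁻¹ : H) * g) x := rfl
  rw [this, inv_mul_cancel]
  rfl

theorem TRI_inv2 (g : H) (x : Circle) : g ((g⁻¹ : H) x) = x := by
  have : g ((g⁻¹ : H) x) = (g * (g⁻¹ : H)) x := rfl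
  rw [this, mul_inv_cancel]
  rfl

/-- local finiteness of the image -/
theorem TRI_fin (g : H) (A : Set (Circle × Circle))
    (hA : ∀ ε : ℝ, 0 < ε → {a : Circle × Circle | a ∈ A ∧ ε ≤ dist a.1 a.2}.Finite) :
    ∀ ε : ℝ, 0 < ε → {a : Circle × Circle | a ∈ {e : Circle × Circle | (g⁻¹ e.1, g⁻¹ e.2) ∈ A} ∧
      ε ≤ dist a.1 a.2}.Finite := by
  intro ε hε
  have hu : UniformContinuous (fun x : Circle => g x) :=
    CompactSpace.uniformContinuous_of_continuous g.continuous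
  obtain ⟨δ, hδ, h⟩ := Metric.uniformContinuous_iff.1 hu ε hε
  refine Set.Finite.of_finite_image (f := fun a : Circle × Circle => ((g⁻¹ : H) a.1, (g⁻¹ : H) a.2))
    ((hA δ hδ).subset ?_) ?_
  · rintro _ ⟨a, ⟨ha, hd⟩, rfl⟩
    refine ⟨ha, ?_⟩
    by_contra hlt
    push Not at hlt
    have := h hlt
    simp only [TRI_inv2] at this
    exact absurd hd (not_le.2 this)
  · rintro a - b - hab
    simp only [Prod.mk.injEq] at hab
    exact Prod.ext ((g⁻¹ : H).injective hab.1) ((g⁻¹ : H).injective hab.2)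

theorem p_TRI : Stmt_TRI := by
  intro K T g hg hT
  have hgi : Ori (g⁻¹ : H) := q_MOR.2.1.2.2 g hg
  have key : ∀ x y k : Circle, k ∈ (g : H) '' K → (g⁻¹ : H) k ∈ K := by
    rintro x y k ⟨k', hk', rfl⟩
    rw [TRI_inv1]; exact hk'
  refine ⟨?_, ?_, ?_, ?_, ?_, ?_, ?_⟩
  · intro x y hxy
    exact hT.symm _ _ hxy
  · intro x y hxy he
    exact hT.ne _ _ hxy (by rw [he])
  · intro x y hxy
    obtain ⟨h1, h2⟩ := hT.sub _ _ hxy
    exact ⟨⟨_, h1, TRI_inv2 g x⟩, ⟨_, h2, TRI_inv2 g y⟩⟩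
  · intro x y z w hxy hzw hl
    exact hT.unlinked _ _ _ _ hxy hzw (Pool.GC.lhi (g⁻¹ : H) x y z w hl)
  · intro x y k hxy hk hc
    obtain ⟨z, h1, h2, h3⟩ := hT.third _ _ _ hxy (key x y k hk) (hgi _ _ _ hc)
    refine ⟨g z, ?_, ?_, ?_⟩
    · have := hg _ _ _ h1
      simpa only [TRI_inv2] using this
    · show ((g⁻¹ : H) x, (g⁻¹ : H) (g z)) ∈ T
      rw [TRI_inv1]; exact h2
    · show ((g⁻¹ : H) (g z), (g⁻¹ : H) y) ∈ T
      rw [TRI_inv1]; exact h3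
  · rintro p q ⟨hp, hq, hne, hgap⟩
    show ((g⁻¹ : H) p, (g⁻¹ : H) q) ∈ T
    refine hT.gap _ _ ⟨key p q p hp, key p q q hq, fun h => hne ((g⁻¹ : H).injective h), ?_⟩
    intro k hk hc
    have := hg _ _ _ hc
    rw [TRI_inv2, TRI_inv2] at this
    exact hgap (g k) ⟨k, hk, rfl⟩ this
  · exact TRI_fin g T hT.fin

end Pool.TZ
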