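import Pool.Agent.Work.MP_ae1ff6_tz.InterfaceFF

/-! Block UNK. -/

open Topology Filter Set
open scoped ComplexConjugate

set_option autoImplicit false

namespace Pool.TZ

open Pool.CG Pool.AR Pool.SH

theorem UNK_aux {X Y Z W P Q : ℝ} (h1 : P ≤ X ∧ X ≤ Q) (h2 : P ≤ Y ∧ Y ≤ Q)
    (h3 : Z ≤ P ∨ Q ≤ Z) (h4 : W ≤ P ∨ Q ≤ W)
    (h5 : (X < Z ∧ Z < Y) ∨ (Z < Y ∧ Y < X) ∨ (Y < X ∧ X < Z))
    (h6 : (Y < W ∧ W < X) ∨ (W < X ∧ X < Y) ∨ (X < Y ∧ Y < W)) : False := by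
  obtain ⟨a1, a2⟩ := h1
  obtain ⟨b1, b2⟩ := h2
  rcases h5 with ⟨c1, c2⟩ | ⟨c1, c2⟩ | ⟨c1, c2⟩ <;> rcases h6 with ⟨d1, d2⟩ | ⟨d1, d2⟩ | ⟨d1, d2⟩ <;>
    rcases h3 with e | e <;> rcases h4 with g | g <;> linarith

theorem p_UNK (hARL : Stmt_ARL) : Stmt_UNK := by
  intro p q x y z w hpq hx hy hz hw hL
  obtain ⟨θ, hinj, hmin, hccw, -, harc⟩ := hARL p
  have hlt : θ p < θ q := lt_of_le_of_ne (hmin q) (fun h => hpq (hinj h))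
  have hx' := (harc p q x hlt).1.1 hx
  have hy' := (harc p q y hlt).1.1 hy
  have hz' := (harc p q z hlt).2.1 hz
  have hw' := (harc p q w hlt).2.1 hw
  rcases (q_LKC x y z w).1 hL with ⟨h1, h2⟩ | ⟨h1, h2⟩
  · exact UNK_aux hx' hy' hz' hw' ((hccw _ _ _).1 h1) ((hccw _ _ _).1 h2)
  · exact UNK_aux hx' hy' hw' hz' ((hccw _ _ _).1 h1) ((hccw _ _ _).1 h2)

end Pool.TZ
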