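import Pool.Agent.Work.MP_ae1ff6_tz.InterfaceA

open Topology Filter Set
open scoped ComplexConjugate

set_option autoImplicit false

namespace Pool.TZ

open Pool.CG Pool.AR Pool.SH

theorem VBA_norm_lt {x y v : ℂ} (hx : ‖x‖ < 1) (hy : ‖y‖ < 1) (hv : v ∈ segment ℝ x y) : ‖v‖ < 1 := by
  have hc : Convex ℝ (Metric.ball (0 : ℂ) 1) := convex_ball 0 1
  have := hc.segment_subset (by simpa using hx) (by simpa using hy) hv
  simpa using this

theorem p_VBA (h1 : Stmt_CHF) : Stmt_VBA := by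
  intro Γ X hX
  obtain ⟨c1, c2, c3, c4, c5, c6, c7⟩ := h1
  have hsub : X ⊆ VX X := by
    intro x hx
    have hS : Sg X x x := ⟨hx, hx, by rw [c3 x (hX.sub x hx)]; norm_num⟩
    refine ⟨x, x, x, x, hS, hS, ?_⟩
    rw [segment_same, Set.inter_self]
  refine ⟨hsub, ?_, ?_, ?_⟩
  · rintro v ⟨x, y, x', y', hS, hS', he⟩
    have hv : v ∈ segment ℝ x y ∩ segment ℝ x' y' := by rw [he]; exact Set.mem_singleton v
    exact VBA_norm_lt (hX.sub x hS.1) (hX.sub y hS.2.1) hv.1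
  · rintro z w ⟨hz, hw, hne, ⟨x, y, hS, hzs, hws⟩, hno⟩
    refine ⟨hw, hz, hne.symm, ⟨x, y, hS, hws, hzs⟩, ?_⟩
    intro v hv hvs
    rw [segment_symm] at hvs
    exact (hno v hv hvs).symm
  · intro z hz
    obtain ⟨x, hx, hxz⟩ := hX.dense z hz
    exact ⟨x, hsub hx, hxz⟩

end Pool.TZ
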