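import Pool.Agent.Work.MP_ae1ff6_tz.InterfaceA

/-!
# Block VCH: chains in the net (MP_ae1ff6_gt)
-/

open Topology Filter Set
open scoped ComplexConjugate

set_option autoImplicit false

namespace Pool.TZ

open Pool.CG Pool.AR Pool.SH

theorem VCH_open (h : Stmt_CHF) (S : Set ℂ) (hS : ∀ y ∈ S, ‖y‖ < 1) :
    IsOpen {z : ℂ | z ∈ Metric.ball (0 : ℂ) 1 ∧ ∃ y ∈ S, ch z y < 3 / 2} := by
  have hc := h.2.2.2.2.2.1
  have e : {z : ℂ | z ∈ Metric.ball (0 : ℂ) 1 ∧ ∃ y ∈ S, ch z y < 3 / 2} =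
      ⋃ y ∈ S, (Metric.ball (0 : ℂ) 1 ∩ (fun z => ch z y) ⁻¹' (Set.Iio (3 / 2))) := by
    ext z
    simp only [Set.mem_ofPred_eq, Set.mem_iUnion, Set.mem_inter_iff, Set.mem_preimage, Set.mem_Iio]
    constructor
    · rintro ⟨hz, y, hy, hl⟩
      exact ⟨y, hy, hz, hl⟩
    · rintro ⟨y, hy, hz, hl⟩
      exact ⟨hz, y, hy, hl⟩
  rw [e]
  refine isOpen_biUnion fun y hy => ?_
  have hcy : ContinuousOn (fun z : ℂ => ch z y) (Metric.ball (0 : ℂ) 1) := by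
    have hm : Set.MapsTo (fun z : ℂ => (z, y)) (Metric.ball (0 : ℂ) 1)
        (Metric.ball (0 : ℂ) 1 ×ˢ Metric.ball (0 : ℂ) 1) := by
      intro z hz
      refine ⟨hz, ?_⟩
      simpa using hS y hy
    have h2 : ContinuousOn (fun z : ℂ => (z, y)) (Metric.ball (0 : ℂ) 1) :=
      continuousOn_id.prodMk continuousOn_const
    exact hc.comp h2 hm
  exact hcy.isOpen_inter_preimage Metric.isOpen_ball isOpen_Iio

theorem p_VCH (h1 : Stmt_CHF) : Stmt_VCH := by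
  intro Γ X hN x hx y hy
  by_contra hxy
  have hsym := h1.1
  have hge := h1.2.1
  have hself := h1.2.2.1
  have htri := h1.2.2.2.1
  set R : Set ℂ := {z | z ∈ X ∧ Relation.ReflTransGen (Sg X) x z} with hR
  set Q : Set ℂ := {z | z ∈ X ∧ ¬ Relation.ReflTransGen (Sg X) x z} with hQ
  have hRs : ∀ z ∈ R, ‖z‖ < 1 := fun z hz => hN.sub z hz.1
  have hQs : ∀ z ∈ Q, ‖z‖ < 1 := fun z hz => hN.sub z hz.1
  have hUo := VCH_open h1 R hRs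
  have hWo := VCH_open h1 Q hQs
  have hpre : IsPreconnected (Metric.ball (0 : ℂ) 1) := (convex_ball (0 : ℂ) 1).isPreconnected
  have hcov : Metric.ball (0 : ℂ) 1 ⊆
      {z : ℂ | z ∈ Metric.ball (0 : ℂ) 1 ∧ ∃ y ∈ R, ch z y < 3 / 2} ∪
      {z : ℂ | z ∈ Metric.ball (0 : ℂ) 1 ∧ ∃ y ∈ Q, ch z y < 3 / 2} := by
    intro z hz
    have hz1 : ‖z‖ < 1 := by simpa using hz
    obtain ⟨v, hv, hvl⟩ := hN.dense z hz1
    by_cases hr : Relation.ReflTransGen (Sg X) x v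
    · exact Or.inl ⟨hz, v, ⟨hv, hr⟩, hvl⟩
    · exact Or.inr ⟨hz, v, ⟨hv, hr⟩, hvl⟩
  have hxb : x ∈ Metric.ball (0 : ℂ) 1 := by simpa using hN.sub x hx
  have hyb : y ∈ Metric.ball (0 : ℂ) 1 := by simpa using hN.sub y hy
  have hxU : (Metric.ball (0 : ℂ) 1 ∩
      {z : ℂ | z ∈ Metric.ball (0 : ℂ) 1 ∧ ∃ y ∈ R, ch z y < 3 / 2}).Nonempty := by
    refine ⟨x, hxb, hxb, x, ⟨hx, Relation.ReflTransGen.refl⟩, ?_⟩
    rw [hself x (hN.sub x hx)]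
    norm_num
  have hyW : (Metric.ball (0 : ℂ) 1 ∩
      {z : ℂ | z ∈ Metric.ball (0 : ℂ) 1 ∧ ∃ y ∈ Q, ch z y < 3 / 2}).Nonempty := by
    refine ⟨y, hyb, hyb, y, ⟨hy, hxy⟩, ?_⟩
    rw [hself y (hN.sub y hy)]
    norm_num
  obtain ⟨z, hz, ⟨_, a, ha, hal⟩, ⟨_, b, hb, hbl⟩⟩ := hpre _ _ hUo hWo hcov hxU hyW
  have hz1 : ‖z‖ < 1 := by simpa using hz
  have ha1 : ‖a‖ < 1 := hRs a ha
  have hb1 : ‖b‖ < 1 := hQs b hb
  have h2 := htri a b z ha1 hb1 hz1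
  have h3 := hge z a hz1 ha1
  have h4 := hge z b hz1 hb1
  rw [hsym a z] at h2
  have h5 : ch z a * ch z b ≤ 3 / 2 * (3 / 2) :=
    mul_le_mul hal.le hbl.le (by linarith) (by norm_num)
  have hs : Sg X a b := ⟨ha.1, hb.1, by nlinarith⟩
  exact hb.2 (ha.2.tail hs)

end Pool.TZ
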