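import Pool.Agent.Work.MP_ae1ff6_tz.InterfaceA

/-! # Block VCN (MP_ae1ff6_gt, THEOREM TZ): connectedness of the graph -/

open Topology Filter Set
open scoped ComplexConjugate

set_option autoImplicit false

namespace Pool.TZ

open Pool.CG Pool.AR Pool.SH

theorem p_VCN (h1 : Stmt_VBA) (h2 : Stmt_VSC) (h3 : Stmt_VCH) : Stmt_VCN := by
  intro Γ X hX
  obtain ⟨b1, b2, b3, b4⟩ := h1 Γ X hX
  have e1 : ∀ x y : ℂ, Sg X x y → Relation.ReflTransGen (AX X) x y := by
    intro x y h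
    exact h2 Γ X hX x y h x (b1 h.1) y (b1 h.2.1) (left_mem_segment ℝ x y) (right_mem_segment ℝ x y)
  have e2 : ∀ x ∈ X, ∀ y ∈ X, Relation.ReflTransGen (AX X) x y := by
    intro x hx y hy
    have hc := h3 Γ X hX x hx y hy
    clear hx hy
    induction hc with
    | refl => exact Relation.ReflTransGen.refl
    | tail _ hs ih => exact ih.trans (e1 _ _ hs)
  have e3 : ∀ z ∈ VX X, ∃ x ∈ X, Relation.ReflTransGen (AX X) z x ∧
      Relation.ReflTransGen (AX X) x z := by
    intro z hz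
    obtain ⟨x, y, x', y', hs, _, he⟩ := id hz
    have hzs : z ∈ segment ℝ x y := by
      have : z ∈ segment ℝ x y ∩ segment ℝ x' y' := by rw [he]; exact rfl
      exact this.1
    exact ⟨x, hs.1, h2 Γ X hX x y hs z hz x (b1 hs.1) hzs (left_mem_segment ℝ x y),
      h2 Γ X hX x y hs x (b1 hs.1) z hz (left_mem_segment ℝ x y) hzs⟩
  intro z hz w hw
  obtain ⟨x, hx, hzx, _⟩ := e3 z hz
  obtain ⟨y, hy, _, hyw⟩ := e3 w hw
  exact (hzx.trans (e2 x hx y hy)).trans hyw

end Pool.TZ
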