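import Pool.Agent.Work.MP_ae1ff6_tz.InterfaceA

open Topology Filter Set
open scoped ComplexConjugate

set_option autoImplicit false

namespace Pool.TZ

open Pool.CG Pool.AR Pool.SH

theorem VFI_norm_lt {x y v : ℂ} (hx : ‖x‖ < 1) (hy : ‖y‖ < 1) (hv : v ∈ segment ℝ x y) : ‖v‖ < 1 := by
  have hc : Convex ℝ (Metric.ball (0 : ℂ) 1) := convex_ball 0 1
  have := hc.segment_subset (by simpa using hx) (by simpa using hy) hv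
  simpa using this

theorem VFI_A (h1 : Stmt_CHF) {Γ : Subgroup H} {X : Set ℂ} (hX : Net0 Γ X) (s : ℝ) (hs : s < 1) :
    ∃ s' : ℝ, s' < 1 ∧ ∀ x y v : ℂ, Sg X x y → v ∈ segment ℝ x y → ‖v‖ ≤ s → ‖x‖ ≤ s' ∧ ‖y‖ ≤ s' := by
  obtain ⟨c1, c2, c3, c4, c5, c6, c7⟩ := h1
  obtain ⟨r', hr', hp⟩ := c7 s (9 / 2) hs
  refine ⟨r', hr', fun x y v hS hv hvs => ?_⟩
  obtain ⟨hx, hy, hxy⟩ := hS
  have hx1 := hX.sub x hx
  have hy1 := hX.sub y hy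
  constructor
  · refine hp v x hvs hx1 ?_
    rw [c1]
    exact (c5 x y v hx1 hy1 hv).trans hxy
  · refine hp v y hvs hy1 ?_
    rw [c1]
    refine (c5 y x v hy1 hx1 (by rw [segment_symm]; exact hv)).trans ?_
    rw [c1]
    exact hxy

theorem VFI_B (h1 : Stmt_CHF) {Γ : Subgroup H} {X : Set ℂ} (hX : Net0 Γ X) (s : ℝ) (hs : s < 1) :
    ∃ s' : ℝ, s' < 1 ∧ ∀ x y v : ℂ, Sg X x y → v ∈ segment ℝ x y → ‖x‖ ≤ s → ‖v‖ ≤ s' := by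
  obtain ⟨c1, c2, c3, c4, c5, c6, c7⟩ := h1
  obtain ⟨r', hr', hp⟩ := c7 s (9 / 2) hs
  refine ⟨r', hr', fun x y v hS hv hvs => ?_⟩
  obtain ⟨hx, hy, hxy⟩ := hS
  have hx1 := hX.sub x hx
  have hy1 := hX.sub y hy
  exact hp x v hvs (VFI_norm_lt hx1 hy1 hv) ((c5 x y v hx1 hy1 hv).trans hxy)

theorem VFI_fin (h1 : Stmt_CHF) {Γ : Subgroup H} {X : Set ℂ} (hX : Net0 Γ X) (r : ℝ) (hr : r < 1) :
    {v : ℂ | v ∈ VX X ∧ ‖v‖ ≤ r}.Finite := by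
  obtain ⟨r', hr', hA⟩ := VFI_A h1 hX r hr
  have hF := hX.fin r' hr'
  set F : Set ℂ := {x : ℂ | x ∈ X ∧ ‖x‖ ≤ r'} with hFdef
  have hQ : ((F ×ˢ F) ×ˢ (F ×ˢ F)).Finite := (hF.prod hF).prod (hF.prod hF)
  refine (hQ.biUnion (t := fun q : (ℂ × ℂ) × (ℂ × ℂ) =>
    {v : ℂ | segment ℝ q.1.1 q.1.2 ∩ segment ℝ q.2.1 q.2.2 = {v}}) ?_).subset ?_
  · intro q _
    refine Set.Subsingleton.finite ?_
    intro v hv w hw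
    have hv' : segment ℝ q.1.1 q.1.2 ∩ segment ℝ q.2.1 q.2.2 = {v} := hv
    have hw' : segment ℝ q.1.1 q.1.2 ∩ segment ℝ q.2.1 q.2.2 = {w} := hw
    rw [hv'] at hw'
    exact Set.singleton_injective hw'
  · rintro v ⟨⟨x, y, x', y', hS, hS', he⟩, hvr⟩
    have hv : v ∈ segment ℝ x y ∩ segment ℝ x' y' := by rw [he]; exact Set.mem_singleton v
    have a1 := hA x y v hS hv.1 hvr
    have a2 := hA x' y' v hS' hv.2 hvr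
    refine Set.mem_iUnion₂.mpr ⟨((x, y), (x', y')), ?_, he⟩
    exact ⟨⟨⟨hS.1, a1.1⟩, ⟨hS.2.1, a1.2⟩⟩, ⟨⟨hS'.1, a2.1⟩, ⟨hS'.2.1, a2.2⟩⟩⟩

theorem p_VFI (h1 : Stmt_CHF) (_h2 : Stmt_VBA) : Stmt_VFI := by
  intro Γ X hX r hr
  refine ⟨VFI_fin h1 hX r hr, ?_⟩
  obtain ⟨r', hr', hA⟩ := VFI_A h1 hX r hr
  obtain ⟨r'', hr'', hB⟩ := VFI_B h1 hX r' hr'
  have hF := VFI_fin h1 hX r'' hr''
  refine (hF.prod hF).subset ?_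
  rintro ⟨z, w⟩ ⟨⟨hz, hw, -, ⟨x, y, hS, hzs, hws⟩, -⟩, u, hu, hur⟩
  have hu' : u ∈ segment ℝ x y := (convex_segment x y).segment_subset hzs hws hu
  have a1 := hA x y u hS hu' hur
  exact ⟨⟨hz, hB x y z hS hzs a1.1⟩, ⟨hw, hB x y w hS hws a1.1⟩⟩

end Pool.TZ
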