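import Pool.Agent.Work.MP_ae1ff6_tz.InterfaceA

open Topology Filter Set
open scoped ComplexConjugate

set_option autoImplicit false

namespace Pool.TZ

open Pool.CG Pool.AR Pool.SH

theorem VIN_inv (h1 : Stmt_ACT) {g : H} (hg : IsMob g) (hg' : IsMob g⁻¹) {k : ℂ} (hk : ‖k‖ ≤ 1) :
    act g⁻¹ (act g k) = k := by
  rw [← h1.2.2.1 g⁻¹ g hg' hg k hk, inv_mul_cancel]
  exact h1.2.2.2.1 k hk

theorem VIN_V (h1 : Stmt_ACT) {Γ : Subgroup H} {X : Set ℂ} (hΓ : FirstKind Γ) (hX : Net0 Γ X) {γ : H}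
    (hγ : γ ∈ Γ) : ∀ v ∈ VX X, act γ v ∈ VX X := by
  have hm := hΓ.mob γ hγ
  have hm' := hΓ.mob γ⁻¹ (Γ.inv_mem hγ)
  rintro v ⟨x, y, x', y', ⟨a1, a2, a3⟩, ⟨b1, b2, b3⟩, hS⟩
  have nx := hX.sub x a1
  have ny := hX.sub y a2
  have nx' := hX.sub x' b1
  have ny' := hX.sub y' b2
  refine ⟨act γ x, act γ y, act γ x', act γ y', ⟨hX.inv γ hγ x a1, hX.inv γ hγ y a2, ?_⟩,
    ⟨hX.inv γ hγ x' b1, hX.inv γ hγ y' b2, ?_⟩, ?_⟩
  · rw [h1.2.2.2.2.2.2.1 γ hm x y nx ny]; exact a3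
  · rw [h1.2.2.2.2.2.2.1 γ hm x' y' nx' ny']; exact b3
  · have e1 := h1.2.2.2.2.2.1 γ hm x y nx.le ny.le
    have e2 := h1.2.2.2.2.2.1 γ hm x' y' nx'.le ny'.le
    rw [← e1, ← e2]
    have hcl : ∀ a b u : ℂ, ‖a‖ < 1 → ‖b‖ < 1 → u ∈ segment ℝ a b → ‖u‖ ≤ 1 := by
      intro a b u ha hb hu
      have := (convex_closedBall (0 : ℂ) 1).segment_subset (by simpa using ha.le) (by simpa using hb.le) hu
      simpa using this
    have hv : v ∈ segment ℝ x y ∩ segment ℝ x' y' := by rw [hS]; rfl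
    ext u
    constructor
    · rintro ⟨⟨a, ha, rfl⟩, ⟨b, hb, hab⟩⟩
      have na := hcl x y a nx ny ha
      have nb := hcl x' y' b nx' ny' hb
      have : b = a := by
        rw [← VIN_inv h1 hm hm' na, ← hab, VIN_inv h1 hm hm' nb]
      rw [this] at hb
      have : a ∈ segment ℝ x y ∩ segment ℝ x' y' := ⟨ha, hb⟩
      rw [hS] at this
      rw [Set.mem_singleton_iff] at this ⊢
      rw [this]
    · intro hu
      rw [Set.mem_singleton_iff] at hu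
      rw [hu]
      exact ⟨⟨v, hv.1, rfl⟩, ⟨v, hv.2, rfl⟩⟩

theorem p_VIN (h1 : Stmt_ACT) (h2 : Stmt_VBA) : Stmt_VIN := by
  intro Γ X hΓ hX γ hγ
  refine ⟨VIN_V h1 hΓ hX hγ, ?_⟩
  have hm := hΓ.mob γ hγ
  have hγ' := Γ.inv_mem hγ
  have hm' := hΓ.mob γ⁻¹ hγ'
  have hm'' : IsMob (γ⁻¹)⁻¹ := by rw [inv_inv]; exact hm
  have hVn := (h2 Γ X hX).2.1
  rintro z w ⟨hz, hw, hne, ⟨x, y, ⟨a1, a2, a3⟩, hzs, hws⟩, hbet⟩
  have nx := hX.sub x a1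
  have ny := hX.sub y a2
  have nz := hVn z hz
  have nw := hVn w hw
  refine ⟨VIN_V h1 hΓ hX hγ z hz, VIN_V h1 hΓ hX hγ w hw, ?_, ⟨act γ x, act γ y,
    ⟨hX.inv γ hγ x a1, hX.inv γ hγ y a2, ?_⟩, ?_, ?_⟩, ?_⟩
  · intro e
    apply hne
    rw [← VIN_inv h1 hm hm' nz.le, e, VIN_inv h1 hm hm' nw.le]
  · rw [h1.2.2.2.2.2.2.1 γ hm x y nx ny]; exact a3
  · rw [← h1.2.2.2.2.2.1 γ hm x y nx.le ny.le]; exact ⟨z, hzs, rfl⟩
  · rw [← h1.2.2.2.2.2.1 γ hm x y nx.le ny.le]; exact ⟨w, hws, rfl⟩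
  · intro v hv hvs
    rw [← h1.2.2.2.2.2.1 γ hm z w nz.le nw.le] at hvs
    obtain ⟨u, hu, rfl⟩ := hvs
    have nu : ‖u‖ ≤ 1 := by
      have := (convex_closedBall (0 : ℂ) 1).segment_subset (by simpa using nz.le) (by simpa using nw.le) hu
      simpa using this
    have hu' : u ∈ VX X := by
      have := VIN_V h1 hΓ hX hγ' _ hv
      rwa [VIN_inv h1 hm hm' nu] at this
    rcases hbet u hu' hu with e | e
    · left; rw [e]
    · right; rw [e]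

end Pool.TZ
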