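import Pool.Agent.Work.MP_ae1ff6_tz.InterfaceA

/-!
# Block VPL: planarity of the graph
-/

open Topology Filter Set
open scoped ComplexConjugate

set_option autoImplicit false

namespace Pool.TZ

open Pool.CG Pool.AR Pool.SH

theorem VPL_real (a b a' b' : ℝ) (h : (0 : ℝ) ∈ segment ℝ a b) (h' : (0 : ℝ) ∈ segment ℝ a' b')
    (h1 : a' ∈ segment ℝ a b → a' = a ∨ a' = b) (h2 : b' ∈ segment ℝ a b → b' = a ∨ b' = b)
    (h3 : a ∈ segment ℝ a' b' → a = a' ∨ a = b') (h4 : b ∈ segment ℝ a' b' → b = a' ∨ b = b') :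
    a = a' ∨ a = b' ∨ b = a' ∨ b = b' := by
  rw [segment_eq_uIcc, mem_uIcc] at h h' h1 h2 h3 h4
  rcases h with ⟨p, q⟩ | ⟨p, q⟩ <;> rcases h' with ⟨p', q'⟩ | ⟨p', q'⟩
  · rcases le_total a a' with e | e
    · rcases h1 (Or.inl ⟨e, by linarith⟩) with f | f <;> simp [f]
    · rcases h3 (Or.inl ⟨e, by linarith⟩) with f | f <;> simp [f]
  · rcases le_total a b' with e | e
    · rcases h2 (Or.inl ⟨e, by linarith⟩) with f | f <;> simp [f]
    · rcases h3 (Or.inr ⟨e, by linarith⟩) with f | f <;> simp [f]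
  · rcases le_total b a' with e | e
    · rcases h1 (Or.inr ⟨e, by linarith⟩) with f | f <;> simp [f]
    · rcases h4 (Or.inl ⟨e, by linarith⟩) with f | f <;> simp [f]
  · rcases le_total b b' with e | e
    · rcases h2 (Or.inr ⟨e, by linarith⟩) with f | f <;> simp [f]
    · rcases h4 (Or.inr ⟨e, by linarith⟩) with f | f <;> simp [f]

theorem p_VPL (h1 : Stmt_COL) : Stmt_VPL := by
  intro X z w z' w' u hA hA' hu hu'
  obtain ⟨hz, hw, hzw, ⟨x, y, hS, hzx, hwx⟩, hm⟩ := hA
  obtain ⟨hz', hw', hzw', ⟨x', y', hS', hzx', hwx'⟩, hm'⟩ := hA'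
  have hux : u ∈ segment ℝ x y := (convex_segment x y).segment_subset hzx hwx hu
  have hux' : u ∈ segment ℝ x' y' := (convex_segment x' y').segment_subset hzx' hwx' hu'
  by_cases hc : ∃ v : ℂ, u ≠ v ∧ v ∈ segment ℝ x y ∧ v ∈ segment ℝ x' y'
  · obtain ⟨v, huv, hv, hv'⟩ := hc
    obtain ⟨c1, c2⟩ := h1 x y x' y' u v huv hux hv hux' hv'
    obtain ⟨a, ha⟩ := c1 z hzx
    obtain ⟨b, hb⟩ := c1 w hwx
    obtain ⟨a', ha'⟩ := c2 z' hzx'
    obtain ⟨b', hb'⟩ := c2 w' hwx'
    have hL : ∀ c : ℝ, (AffineMap.lineMap u v : ℝ →ᵃ[ℝ] ℂ) c = u + (c : ℂ) * (v - u) := by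
      intro c
      rw [AffineMap.lineMap_apply_module']
      simp [add_comm]
    have hinj : Function.Injective (AffineMap.lineMap u v : ℝ →ᵃ[ℝ] ℂ) :=
      AffineMap.lineMap_injective ℝ huv
    have hseg : ∀ p q r : ℝ, u + (r : ℂ) * (v - u) ∈
        segment ℝ (u + (p : ℂ) * (v - u)) (u + (q : ℂ) * (v - u)) ↔ r ∈ segment ℝ p q := by
      intro p q r
      rw [← hL, ← hL, ← hL, ← image_segment]
      exact hinj.mem_set_image
    have heq : ∀ p q : ℝ, u + (p : ℂ) * (v - u) = u + (q : ℂ) * (v - u) ↔ p = q := by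
      intro p q
      rw [← hL, ← hL]
      exact hinj.eq_iff
    have hu0 : u = u + ((0 : ℝ) : ℂ) * (v - u) := by simp
    subst ha hb ha' hb'
    have k0 : (0 : ℝ) ∈ segment ℝ a b := by
      rw [← hseg, ← hu0]; exact hu
    have k0' : (0 : ℝ) ∈ segment ℝ a' b' := by
      rw [← hseg, ← hu0]; exact hu'
    have r := VPL_real a b a' b' k0 k0'
      (fun h => by
        have := hm _ hz' ((hseg a b a').2 h)
        rwa [heq, heq] at this)
      (fun h => by
        have := hm _ hw' ((hseg a b b').2 h)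
        rwa [heq, heq] at this)
      (fun h => by
        have := hm' _ hz ((hseg a' b' a).2 h)
        rwa [heq, heq] at this)
      (fun h => by
        have := hm' _ hw ((hseg a' b' b).2 h)
        rwa [heq, heq] at this)
    rw [heq, heq, heq, heq]
    exact r
  · have hU : u ∈ VX X := by
      refine ⟨x, y, x', y', hS, hS', ?_⟩
      ext v
      simp only [mem_inter_iff, mem_singleton_iff]
      constructor
      · rintro ⟨hv, hv'⟩
        by_contra hne
        exact hc ⟨v, fun e => hne e.symm, hv, hv'⟩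
      · rintro rfl
        exact ⟨hux, hux'⟩
    rcases hm u hU hu with e | e <;> rcases hm' u hU hu' with e' | e'
    · exact Or.inl (e.symm.trans e')
    · exact Or.inr (Or.inl (e.symm.trans e'))
    · exact Or.inr (Or.inr (Or.inl (e.symm.trans e')))
    · exact Or.inr (Or.inr (Or.inr (e.symm.trans e')))

end Pool.TZ
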