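import Pool.Agent.Work.MP_ae1ff6_tz.InterfaceA

/-!
# Block VSC: vertices on one segment are connected (typed by helper84)
-/

open Topology Filter Set
open scoped ComplexConjugate

set_option autoImplicit false

namespace Pool.TZ

open Pool.CG Pool.AR Pool.SH

theorem VSC_right {z v w : ℂ} (h : v ∈ segment ℝ z w) (h' : w ∈ segment ℝ z v) : v = w :=
  (wbtw_swap_right_iff ℝ z).1 ⟨mem_segment_iff_wbtw.1 h, mem_segment_iff_wbtw.1 h'⟩

theorem VSC_left {z v w : ℂ} (h : v ∈ segment ℝ z w) (h' : z ∈ segment ℝ v w) : z = v :=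
  (wbtw_swap_left_iff ℝ w).1 ⟨mem_segment_iff_wbtw.1 h, mem_segment_iff_wbtw.1 h'⟩

theorem p_VSC (h : Stmt_VFI) : Stmt_VSC := by
  intro Γ X hX x y hxy z hz w hw hzs hws
  have hF : (VX X ∩ segment ℝ x y).Finite := by
    have hx1 := hX.sub x hxy.1
    have hy1 := hX.sub y hxy.2.1
    have hr : max ‖x‖ ‖y‖ < 1 := max_lt hx1 hy1
    refine (h Γ X hX _ hr).1.subset ?_
    rintro v ⟨hv, hvs⟩
    refine ⟨hv, ?_⟩
    have hxb : x ∈ Metric.closedBall (0 : ℂ) (max ‖x‖ ‖y‖) := by simp
    have hyb : y ∈ Metric.closedBall (0 : ℂ) (max ‖x‖ ‖y‖) := by simp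
    have := (convex_closedBall (0 : ℂ) (max ‖x‖ ‖y‖)).segment_subset hxb hyb hvs
    rwa [mem_closedBall_zero_iff] at this
  have key : ∀ n : ℕ, ∀ z w : ℂ, z ∈ VX X → w ∈ VX X → z ∈ segment ℝ x y → w ∈ segment ℝ x y →
      (VX X ∩ segment ℝ z w).ncard = n → Relation.ReflTransGen (AX X) z w := by
    intro n
    induction n using Nat.strong_induction_on with
    | _ n ih =>
    intro z w hz hw hzs hws hn
    by_cases hzw : z = w
    · subst hzw
      exact Relation.ReflTransGen.refl
    have hsub : segment ℝ z w ⊆ segment ℝ x y := (convex_segment x y).segment_subset hzs hws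
    have hfin : (VX X ∩ segment ℝ z w).Finite := hF.subset (inter_subset_inter_right _ hsub)
    by_cases hex : ∃ v ∈ VX X, v ∈ segment ℝ z w ∧ v ≠ z ∧ v ≠ w
    · obtain ⟨v, hv, hvs, hvz, hvw⟩ := hex
      have s1 : segment ℝ z v ⊆ segment ℝ z w :=
        (convex_segment z w).segment_subset (left_mem_segment ℝ z w) hvs
      have s2 : segment ℝ v w ⊆ segment ℝ z w :=
        (convex_segment z w).segment_subset hvs (right_mem_segment ℝ z w)
      have n1 : (VX X ∩ segment ℝ z v).ncard < n := by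
        rw [← hn]
        apply Set.ncard_lt_ncard _ hfin
        refine ⟨inter_subset_inter_right _ s1, ?_⟩
        intro hcon
        have h1 : w ∈ VX X ∩ segment ℝ z v := hcon ⟨hw, right_mem_segment ℝ z w⟩
        exact hvw (VSC_right hvs h1.2)
      have n2 : (VX X ∩ segment ℝ v w).ncard < n := by
        rw [← hn]
        apply Set.ncard_lt_ncard _ hfin
        refine ⟨inter_subset_inter_right _ s2, ?_⟩
        intro hcon
        have h1 : z ∈ VX X ∩ segment ℝ v w := hcon ⟨hz, left_mem_segment ℝ z w⟩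
        exact hvz (VSC_left hvs h1.2).symm
      exact (ih _ n1 z v hz hv hzs (hsub hvs) rfl).trans (ih _ n2 v w hv hw (hsub hvs) hws rfl)
    · push Not at hex
      apply Relation.ReflTransGen.single
      refine ⟨hz, hw, hzw, ⟨x, y, hxy, hzs, hws⟩, ?_⟩
      intro v hv hvs
      by_cases hvz : v = z
      · exact Or.inl hvz
      · exact Or.inr (hex v hv hvs hvz)
  exact key _ z w hz hw hzs hws rfl

end Pool.TZ
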