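import Pool.Agent.Work.MP_ae1ff6_tz.InterfaceX

/-! Block XAL (helper23): the algebra of the crossing lemma. -/

open Topology Filter Set
open scoped ComplexConjugate

set_option autoImplicit false

namespace Pool.TZ

open Pool.CG Pool.AR Pool.SH

/-- two vectors orthogonal to a nonzero vector are parallel -/
theorem XAL_par (d1 d2 e1 e2 f1 f2 : ℝ) (hd : ¬ (d1 = 0 ∧ d2 = 0)) (he : d1 * e1 + d2 * e2 = 0)
    (hf : d1 * f1 + d2 * f2 = 0) : e1 * f2 = e2 * f1 := by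
  by_cases h1 : d1 = 0
  · have h2 : d2 ≠ 0 := fun h2 => hd ⟨h1, h2⟩
    have h3 : d2 * (e1 * f2 - e2 * f1) = 0 := by linear_combination e1 * hf - f1 * he
    rcases mul_eq_zero.1 h3 with h4 | h4
    · exact absurd h4 h2
    · linarith
  · have h3 : d1 * (e1 * f2 - e2 * f1) = 0 := by linear_combination f2 * he - e2 * hf
    rcases mul_eq_zero.1 h3 with h4 | h4
    · exact absurd h4 h1
    · linarith

theorem XAL_f (a1 a2 b1 b2 mu : ℝ) (ha : a1 ^ 2 + a2 ^ 2 = 1) (hb : b1 ^ 2 + b2 ^ 2 = 1)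
    (h1 : (1 - mu) * a1 - mu * b1 = 0) (h2 : (1 - mu) * a2 - mu * b2 = 0) : a1 = b1 ∧ a2 = b2 := by
  have h3 : (1 - mu) ^ 2 = mu ^ 2 := by
    have h4 : (1 - mu) * a1 = mu * b1 := by linarith
    have h5 : (1 - mu) * a2 = mu * b2 := by linarith
    calc (1 - mu) ^ 2 = ((1 - mu) * a1) ^ 2 + ((1 - mu) * a2) ^ 2 := by
          linear_combination -(1 - mu) ^ 2 * ha
      _ = mu ^ 2 := by
          rw [h4, h5]
          linear_combination mu ^ 2 * hb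
  have h4 : mu = 1 / 2 := by linarith [h3, sq_nonneg mu]
  rw [h4] at h1 h2
  constructor
  · linarith
  · linarith

theorem XAL_real (p1 p2 q1 q2 a1 a2 b1 b2 lam mu z1 z2 y1 y2 : ℝ) (ha : a1 ^ 2 + a2 ^ 2 = 1)
    (hb : b1 ^ 2 + b2 ^ 2 = 1)
    (hS : ((b1 - a1) * (p2 - a2) - (b2 - a2) * (p1 - a1)) *
      ((b1 - a1) * (q2 - a2) - (b2 - a2) * (q1 - a1)) < 0) (l0 : 0 ≤ lam) (l1 : lam ≤ 1)
    (h1 : (1 - lam) * (1 - (z1 * p1 + z2 * p2)) = lam * (1 - (z1 * q1 + z2 * q2)))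
    (h2 : (1 - lam) * (1 - (y1 * p1 + y2 * p2)) = lam * (1 - (y1 * q1 + y2 * q2)))
    (h3 : (1 - mu) * (1 - (z1 * a1 + z2 * a2)) = mu * (1 - (z1 * b1 + z2 * b2)))
    (h4 : (1 - mu) * (1 - (y1 * a1 + y2 * a2)) = mu * (1 - (y1 * b1 + y2 * b2))) :
    z1 - y1 = 0 ∧ z2 - y2 = 0 := by
  by_contra hd
  obtain ⟨e1, he1⟩ : ∃ e1, e1 = (1 - lam) * p1 - lam * q1 := ⟨_, rfl⟩
  obtain ⟨e2, he2⟩ : ∃ e2, e2 = (1 - lam) * p2 - lam * q2 := ⟨_, rfl⟩
  obtain ⟨f1, hf1⟩ : ∃ f1, f1 = (1 - mu) * a1 - mu * b1 := ⟨_, rfl⟩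
  obtain ⟨f2, hf2⟩ : ∃ f2, f2 = (1 - mu) * a2 - mu * b2 := ⟨_, rfl⟩
  have hde : (z1 - y1) * e1 + (z2 - y2) * e2 = 0 := by
    rw [he1, he2]
    linear_combination h2 - h1
  have hdf : (z1 - y1) * f1 + (z2 - y2) * f2 = 0 := by
    rw [hf1, hf2]
    linear_combination h4 - h3
  have hpar := XAL_par _ _ _ _ _ _ hd hde hdf
  have hze : z1 * e1 + z2 * e2 = (1 - lam) - lam := by
    rw [he1, he2]
    linear_combination -h1
  have hzf : z1 * f1 + z2 * f2 = (1 - mu) - mu := by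
    rw [hf1, hf2]
    linear_combination -h3
  obtain ⟨X, hX⟩ : ∃ X, X = (b1 - a1) * (e2 - ((1 - lam) - lam) * a2) - (b2 - a2) * (e1 - ((1 - lam) - lam) * a1) :=
    ⟨_, rfl⟩
  have hS0 : (b1 - a1) * (f2 - ((1 - mu) - mu) * a2) - (b2 - a2) * (f1 - ((1 - mu) - mu) * a1) = 0 := by
    rw [hf1, hf2]
    ring
  have hX1 : f1 * X = 0 := by
    rw [hX, ← hze]
    rw [← hzf] at hS0
    linear_combination e1 * hS0 + (-(b1 - a1) + ((b1 - a1) * a2 - (b2 - a2) * a1) * z2) * hpar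
  have hX2 : f2 * X = 0 := by
    rw [hX, ← hze]
    rw [← hzf] at hS0
    linear_combination e2 * hS0 + (-(b2 - a2) - ((b1 - a1) * a2 - (b2 - a2) * a1) * z1) * hpar
  have hX0 : X = 0 := by
    rcases mul_eq_zero.1 hX1 with h5 | h5
    · rcases mul_eq_zero.1 hX2 with h6 | h6
      · exfalso
        obtain ⟨h7, h8⟩ := XAL_f a1 a2 b1 b2 mu ha hb (hf1 ▸ h5) (hf2 ▸ h6)
        rw [h7, h8] at hS
        simp at hS
      · exact h6
    · exact h5
  obtain ⟨A, hA⟩ : ∃ A, A = (b1 - a1) * (p2 - a2) - (b2 - a2) * (p1 - a1) := ⟨_, rfl⟩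
  obtain ⟨B, hB⟩ : ∃ B, B = (b1 - a1) * (q2 - a2) - (b2 - a2) * (q1 - a1) := ⟨_, rfl⟩
  have hAB : (1 - lam) * A = lam * B := by
    rw [hA, hB]
    rw [hX0, he1, he2] at hX
    linear_combination -hX
  rw [← hA, ← hB] at hS
  have hA0 : A ≠ 0 := by
    rintro rfl
    simp at hS
  have hB0 : B ≠ 0 := by
    rintro rfl
    simp at hS
  have h5 : (1 - lam) * A ^ 2 ≤ 0 := by
    have h6 : (1 - lam) * A ^ 2 = lam * (A * B) := by linear_combination A * hAB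
    rw [h6]
    exact mul_nonpos_of_nonneg_of_nonpos l0 hS.le
  have h7 : 0 < A ^ 2 := by positivity
  have h8 : 1 - lam = 0 := by
    by_contra h9
    have h10 : 0 < 1 - lam := lt_of_le_of_ne (by linarith) (Ne.symm h9)
    have := mul_pos h10 h7
    linarith
  rw [h8, zero_mul] at hAB
  rcases mul_eq_zero.1 hAB.symm with h9 | h9
  · linarith
  · exact hB0 h9

theorem XAL_norm (p : Circle) : (p : ℂ).re ^ 2 + (p : ℂ).im ^ 2 = 1 := by
  have h1 : ‖(p : ℂ)‖ = 1 := Circle.norm_coe p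
  have h2 := Complex.sq_norm (p : ℂ)
  rw [h1, Complex.normSq_apply] at h2
  linarith

theorem p_XAL : Stmt_XAL := by
  intro p q p' q' lam mu z z' hS l0 l1 hw
  obtain ⟨h1, h3⟩ := hw z (Or.inl rfl)
  obtain ⟨h2, h4⟩ := hw z' (Or.inr rfl)
  unfold sd at hS
  simp only [Complex.mul_re, Complex.mul_im, Complex.conj_re, Complex.conj_im, Complex.sub_re, Complex.sub_im] at *
  have h5 := XAL_real (p : ℂ).re (p : ℂ).im (q : ℂ).re (q : ℂ).im (p' : ℂ).re (p' : ℂ).im (q' : ℂ).re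
    (q' : ℂ).im lam mu z.re z.im z'.re z'.im (XAL_norm p') (XAL_norm q')
    (lt_of_eq_of_lt (by ring) hS) l0 l1 (by linear_combination h1) (by linear_combination h2)
    (by linear_combination h3) (by linear_combination h4)
  apply Complex.ext
  · linarith [h5.1]
  · linarith [h5.2]

end Pool.TZ
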