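import Pool.Agent.Work.MP_ae1ff6_tz.InterfaceE

/-!
# XFI: a ray crosses an axis only finitely often
-/

open Topology Filter Set
open scoped ComplexConjugate

set_option autoImplicit false

namespace Pool.TZ

open Pool.CG Pool.AR Pool.SH

theorem p_XFI (h1 : Stmt_SDX) (h2 : Stmt_ITR) (h3 : Stmt_FCR) : Stmt_XFI := by
  intro Γ V A π hS γ hγ p q hax v hv
  obtain ⟨F, hFf, hFV, hF⟩ := h3 Γ V A π hS γ hγ p q hax
  obtain ⟨hI1, -, -⟩ := h2 Γ V A π hS
  obtain ⟨-, -, -, -, -, -, h7⟩ := h1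
  have hKfin : {k : ℕ | ∃ u ∈ segment ℝ (π^[k] v) (π^[k + 1] v), sd p q u = 0}.Finite := by
    refine Set.Finite.subset (hFf.biUnion (fun w hw => hS.fo.leave v hv w (hFV hw))) ?_
    rintro k ⟨u, hu, hsd⟩
    obtain ⟨n, w, hw, w', hw', -, hx, -⟩ := hF _ _ u (hI1 v hv k).2 hu hsd
    exact Set.mem_biUnion hw ⟨γ ^ n, Γ.zpow_mem hγ n, hx⟩
  obtain ⟨N, hN⟩ := hKfin.bddAbove
  have hstep : ∀ k : ℕ, N + 1 ≤ k → 0 < sd p q (π^[k] v) * sd p q (π^[k + 1] v) := by
    intro k hk
    by_contra hcon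
    have h8 := hN (h7 p q _ _ (not_lt.1 hcon))
    omega
  rcases lt_trichotomy (sd p q (π^[N + 1] v)) 0 with hneg | hzero | hpos
  · right
    refine Filter.eventually_atTop.2 ⟨N + 1, fun k hk => ?_⟩
    induction k, hk using Nat.le_induction with
    | base => exact hneg
    | succ k hk ih =>
      have h8 := hstep k hk
      by_contra hcon
      have h9 := mul_nonpos_of_nonpos_of_nonneg ih.le (not_lt.1 hcon)
      linarith
  · have h8 := hstep (N + 1) le_rfl
    rw [hzero, zero_mul] at h8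
    exact absurd h8 (lt_irrefl _)
  · left
    refine Filter.eventually_atTop.2 ⟨N + 1, fun k hk => ?_⟩
    induction k, hk using Nat.le_induction with
    | base => exact hpos
    | succ k hk ih =>
      have h8 := hstep k hk
      exact (mul_pos_iff_of_pos_left ih).1 h8

end Pool.TZ
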