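import Pool.Agent.Work.MP_ae1ff6_tz.InterfaceE

/-! Block XIQ: the ends of the rays are invariant. -/

open Topology Filter Set
open scoped ComplexConjugate

set_option autoImplicit false

namespace Pool.TZ

open Pool.CG Pool.AR Pool.SH

theorem p_XIQ (h1 : Stmt_ACT) (h2 : Stmt_ITR) : Stmt_XIQ := by
  intro Γ V A π ξ hSt hE
  obtain ⟨hI1, hI2, -⟩ := h2 Γ V A π hSt
  obtain ⟨a1, -, -, -, a5, -⟩ := h1
  refine ⟨fun v hv m => ?_, fun γ hγ v hv => ?_⟩
  · have hm : π^[m] v ∈ V := (hI1 v hv m).1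
    have t3 : Tendsto (fun k : ℕ => π^[k] (π^[m] v)) atTop (𝓝 ((ξ v : Circle) : ℂ)) := by
      refine ((hE v hv).comp (tendsto_add_atTop_nat m)).congr fun k => ?_
      simp [Function.iterate_add_apply]
    exact Circle.ext (tendsto_nhds_unique (hE _ hm) t3)
  · have hM : IsMob γ := hSt.fk.mob γ hγ
    have hv' : act γ v ∈ V := hSt.gr.invV γ hγ v hv
    have t3 : Tendsto (fun k : ℕ => π^[k] (act γ v)) atTop (𝓝 ((γ (ξ v) : Circle) : ℂ)) := by
      have hb : ∀ k, π^[k] v ∈ Metric.closedBall (0 : ℂ) 1 := fun k => by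
        have := hSt.gr.sub _ (hI1 v hv k).1
        simpa using this.le
      have hx : ((ξ v : Circle) : ℂ) ∈ Metric.closedBall (0 : ℂ) 1 := by
        simpa using (Circle.norm_coe (ξ v)).le
      have hc := a5 γ hM _ hx
      have t := hc.tendsto.comp
        (tendsto_nhdsWithin_iff.2 ⟨hE v hv, Eventually.of_forall hb⟩)
      rw [a1 γ hM] at t
      refine t.congr fun k => ?_
      simp [hI2 γ hγ v hv k]
    exact Circle.ext (tendsto_nhds_unique (hE _ hv') t3)

end Pool.TZ
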