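import Pool.Agent.Work.MP_ae1ff6_tz.InterfaceX

open Topology Filter Set
open scoped ComplexConjugate

set_option autoImplicit false

namespace Pool.TZ

open Pool.CG Pool.AR Pool.SH

theorem p_XMG : Stmt_XMG := by
  intro V π ξ hE v hv w hw k l hkl
  have h1 : Tendsto (fun j : ℕ => π^[j + k] v) atTop (𝓝 ((ξ v : Circle) : ℂ)) :=
    (tendsto_add_atTop_iff_nat (f := fun n : ℕ => π^[n] v) k).2 (hE v hv)
  have h2 : Tendsto (fun j : ℕ => π^[j + l] w) atTop (𝓝 ((ξ w : Circle) : ℂ)) :=
    (tendsto_add_atTop_iff_nat (f := fun n : ℕ => π^[n] w) l).2 (hE w hw)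
  have h3 : (fun j : ℕ => π^[j + k] v) = fun j : ℕ => π^[j + l] w := by
    funext j
    rw [Function.iterate_add_apply, Function.iterate_add_apply, hkl]
  rw [h3] at h1
  exact Circle.ext (tendsto_nhds_unique h1 h2)

end Pool.TZ
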