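import Pool.Agent.Work.MP_ae1ff6_tz.InterfaceX

/-!
# MP_ae1ff6_gt, THEOREM TZ, block XNG: the lines of the edges do not cross (helper16)
-/

open Topology Filter Set
open scoped ComplexConjugate

set_option autoImplicit false

namespace Pool.TZ

open Pool.CG Pool.AR Pool.SH

/-- the forward orbits stay in `V` -/
theorem XNG_iter {Γ : Subgroup H} {V : Set ℂ} {A : ℂ → ℂ → Prop} {π : ℂ → ℂ} (hG : Gr Γ V A)
    (hF : Fo Γ V A π) (v : ℂ) (hv : v ∈ V) (k : ℕ) : π^[k] v ∈ V := by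
  induction k with
  | zero => exact hv
  | succ k ih =>
    rw [Function.iterate_succ_apply']
    exact (hG.adj _ _ (hF.adj _ ih)).2.1

/-- `a` is on the ray of `x` or on the ray of `y` -/
def XNG_from (π : ℂ → ℂ) (x y a : ℂ) : Prop := ∃ k : ℕ, a = π^[k] x ∨ a = π^[k] y

/-- each point of the curve is on an edge with vertices on the two rays -/
theorem XNG_edge {Γ : Subgroup H} {V : Set ℂ} {A : ℂ → ℂ → Prop} {π : ℂ → ℂ} (hG : Gr Γ V A)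
    (hF : Fo Γ V A π) (x y u : ℂ) (hxy : A x y)
    (hu : u ∈ segment ℝ x y ∪ Ray π x ∪ Ray π y) :
    ∃ a b : ℂ, A a b ∧ u ∈ segment ℝ a b ∧ XNG_from π x y a ∧ XNG_from π x y b := by
  obtain ⟨hx, hy, -⟩ := hG.adj _ _ hxy
  rcases hu with (hu | hu) | hu
  · exact ⟨x, y, hxy, hu, ⟨0, Or.inl rfl⟩, ⟨0, Or.inr rfl⟩⟩
  · obtain ⟨k, hk⟩ := mem_iUnion.1 hu
    refine ⟨π^[k] x, π^[k + 1] x, ?_, hk, ⟨k, Or.inl rfl⟩, ⟨k + 1, Or.inl rfl⟩⟩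
    rw [Function.iterate_succ_apply']
    exact hF.adj _ (XNG_iter hG hF x hx k)
  · obtain ⟨k, hk⟩ := mem_iUnion.1 hu
    refine ⟨π^[k] y, π^[k + 1] y, ?_, hk, ⟨k, Or.inr rfl⟩, ⟨k + 1, Or.inr rfl⟩⟩
    rw [Function.iterate_succ_apply']
    exact hF.adj _ (XNG_iter hG hF y hy k)

/-- the curve stays away from the other points of the circle -/
theorem XNG_far (h2 : Stmt_XDS) {Γ : Subgroup H} {V : Set ℂ} {A : ℂ → ℂ → Prop} {π : ℂ → ℂ}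
    {ξ : ℂ → Circle} (hG : Gr Γ V A) (hF : Fo Γ V A π) (hE : Ends V π ξ) (x y : ℂ) (hxy : A x y)
    (z : Circle) (hzx : z ≠ ξ x) (hzy : z ≠ ξ y) :
    ∃ ε : ℝ, 0 < ε ∧ ∀ u ∈ segment ℝ x y ∪ Ray π x ∪ Ray π y, ε ≤ dist u (z : ℂ) := by
  obtain ⟨hx, hy, -⟩ := hG.adj _ _ hxy
  obtain ⟨e1, he1, k1⟩ := h2 Γ V A π ξ hG hF hE x hx z hzx
  obtain ⟨e2, he2, k2⟩ := h2 Γ V A π ξ hG hF hE y hy z hzy
  have hx1 := hG.sub x hx
  have hy1 := hG.sub y hy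
  have e0 : ∀ u ∈ segment ℝ x y, 1 - max ‖x‖ ‖y‖ ≤ dist u (z : ℂ) := by
    intro u hu
    have hc : Convex ℝ (Metric.closedBall (0 : ℂ) (max ‖x‖ ‖y‖)) := convex_closedBall _ _
    have hu' : u ∈ Metric.closedBall (0 : ℂ) (max ‖x‖ ‖y‖) :=
      hc.segment_subset (by simp) (by simp) hu
    rw [mem_closedBall_zero_iff] at hu'
    have hz : ‖(z : ℂ)‖ = 1 := Circle.norm_coe z
    have := norm_sub_norm_le (z : ℂ) u
    rw [dist_comm, dist_eq_norm]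
    linarith
  have hm : 0 < 1 - max ‖x‖ ‖y‖ := by
    have := max_lt hx1 hy1
    linarith
  refine ⟨min (1 - max ‖x‖ ‖y‖) (min e1 e2), lt_min hm (lt_min he1 he2), ?_⟩
  rintro u ((hu | hu) | hu)
  · exact (min_le_left _ _).trans (e0 u hu)
  · exact ((min_le_right _ _).trans (min_le_left _ _)).trans (k1 u hu)
  · exact ((min_le_right _ _).trans (min_le_right _ _)).trans (k2 u hu)

/-- a common vertex gives a common end -/
theorem XNG_meet (h4 : Stmt_XMG) {V : Set ℂ} {π : ℂ → ℂ} {ξ : ℂ → Circle} (hE : Ends V π ξ)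
    (x y x' y' a : ℂ) (hx : x ∈ V) (hy : y ∈ V) (hx' : x' ∈ V) (hy' : y' ∈ V)
    (n1 : ξ x' ≠ ξ x) (n2 : ξ x' ≠ ξ y) (n3 : ξ y' ≠ ξ x) (n4 : ξ y' ≠ ξ y)
    (ha : XNG_from π x y a) (ha' : XNG_from π x' y' a) : False := by
  obtain ⟨k, hk⟩ := ha
  obtain ⟨l, hl⟩ := ha'
  rcases hk with hk | hk <;> rcases hl with hl | hl
  · exact n1 (h4 V π ξ hE x hx x' hx' k l (hk.symm.trans hl)).symm
  · exact n3 (h4 V π ξ hE x hx y' hy' k l (hk.symm.trans hl)).symm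
  · exact n2 (h4 V π ξ hE y hy x' hx' k l (hk.symm.trans hl)).symm
  · exact n4 (h4 V π ξ hE y hy y' hy' k l (hk.symm.trans hl)).symm

theorem p_XNG (h1 : Stmt_XSQ) (h2 : Stmt_XDS) (h3 : Stmt_XWY) (h4 : Stmt_XMG) : Stmt_XNG := by
  intro Γ V A π ξ hG hF hE x y x' y' hxy hxy' hL
  obtain ⟨⟨n1, n2⟩, ⟨n3, n4⟩, -⟩ := id hL
  obtain ⟨hx, hy, -⟩ := hG.adj _ _ hxy
  obtain ⟨hx', hy', -⟩ := hG.adj _ _ hxy'
  obtain ⟨a1, ha1, f1⟩ := XNG_far h2 hG hF hE x y hxy (ξ x') n1 n2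
  obtain ⟨a2, ha2, f2⟩ := XNG_far h2 hG hF hE x y hxy (ξ y') n3 n4
  obtain ⟨a3, ha3, f3⟩ := XNG_far h2 hG hF hE x' y' hxy' (ξ x) n1.symm n3.symm
  obtain ⟨a4, ha4, f4⟩ := XNG_far h2 hG hF hE x' y' hxy' (ξ y) n2.symm n4.symm
  have hd : ∀ {p q : Circle}, p ≠ q → 0 < dist (p : ℂ) (q : ℂ) / 2 := by
    intro p q hpq
    have : 0 < dist (p : ℂ) (q : ℂ) := dist_pos.2 fun h => hpq (Circle.ext h)
    linarith
  obtain ⟨ε, hε, c1, c2, c3, c4, c5, c6, c7, c8⟩ : ∃ ε : ℝ, 0 < ε ∧ ε ≤ a1 ∧ ε ≤ a2 ∧ ε ≤ a3 ∧ ε ≤ a4 ∧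
      ε ≤ dist (ξ x : ℂ) (ξ x' : ℂ) / 2 ∧ ε ≤ dist (ξ x : ℂ) (ξ y' : ℂ) / 2 ∧
      ε ≤ dist (ξ y : ℂ) (ξ x' : ℂ) / 2 ∧ ε ≤ dist (ξ y : ℂ) (ξ y' : ℂ) / 2 := by
    refine ⟨min (min (min a1 a2) (min a3 a4))
      (min (min (dist (ξ x : ℂ) (ξ x' : ℂ) / 2) (dist (ξ x : ℂ) (ξ y' : ℂ) / 2))
        (min (dist (ξ y : ℂ) (ξ x' : ℂ) / 2) (dist (ξ y : ℂ) (ξ y' : ℂ) / 2))), ?_, ?_⟩
    · exact lt_min (lt_min (lt_min ha1 ha2) (lt_min ha3 ha4))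
        (lt_min (lt_min (hd n1.symm) (hd n3.symm)) (lt_min (hd n2.symm) (hd n4.symm)))
    · refine ⟨?_, ?_, ?_, ?_, ?_, ?_, ?_, ?_⟩ <;> simp
  obtain ⟨γ, cγ, g0, g1, gn, gs⟩ := h3 Γ V A π ξ hG hF hE x y hxy ε hε
  obtain ⟨δ, cδ, d0, d1, dn, ds⟩ := h3 Γ V A π ξ hG hF hE x' y' hxy' ε hε
  obtain ⟨s, hs, t, ht, hst⟩ := h1 (ξ x) (ξ y) (ξ x') (ξ y') γ δ hL cγ.continuousOn cδ.continuousOn
    gn dn g0 g1 d0 d1
  have key := gs s hs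
  have key' := ds t ht
  rw [← hst] at key'
  generalize γ s = u at key key'
  have tri : ∀ {p q : ℂ}, dist u p < ε → dist u q < ε → ε ≤ dist p q / 2 → False := by
    intro p q hp hq he
    have := dist_triangle_left p q u
    linarith
  rcases key with hR | hp | hq
  · rcases key' with hR' | hp' | hq'
    · obtain ⟨a, b, hab, huab, fa, fb⟩ := XNG_edge hG hF x y u hxy hR
      obtain ⟨a', b', hab', huab', fa', fb'⟩ := XNG_edge hG hF x' y' u hxy' hR'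
      rcases hG.planar a b a' b' u hab hab' huab huab' with h | h | h | h
      · exact XNG_meet h4 hE x y x' y' a hx hy hx' hy' n1 n2 n3 n4 fa (h ▸ fa')
      · exact XNG_meet h4 hE x y x' y' a hx hy hx' hy' n1 n2 n3 n4 fa (h ▸ fb')
      · exact XNG_meet h4 hE x y x' y' b hx hy hx' hy' n1 n2 n3 n4 fb (h ▸ fa')
      · exact XNG_meet h4 hE x y x' y' b hx hy hx' hy' n1 n2 n3 n4 fb (h ▸ fb')
    · have := f1 u hR
      linarith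
    · have := f2 u hR
      linarith
  · rcases key' with hR' | hp' | hq'
    · have := f3 u hR'
      linarith
    · exact tri hp hp' c5
    · exact tri hp hq' c6
  · rcases key' with hR' | hp' | hq'
    · have := f4 u hR'
      linarith
    · exact tri hq hp' c7
    · exact tri hq hq' c8

end Pool.TZ
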