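import Pool.Agent.Work.MP_ae1ff6_tz.InterfaceX

/-! # Part E: block XPT (a polygon is a path) -/

open Topology Filter Set
open scoped ComplexConjugate

set_option autoImplicit false

namespace Pool.TZ

open Pool.CG Pool.AR Pool.SH

/-- the straight path -/
noncomputable def XPT_line (a b : ℂ) : Path a b where
  toFun t := AffineMap.lineMap a b (t : ℝ)
  continuous_toFun := by
    have h : Continuous fun t : unitInterval => AffineMap.lineMap a b (t : ℝ) :=
      AffineMap.lineMap_continuous.comp continuous_subtype_val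
    exact h
  source' := by simp
  target' := by simp

lemma XPT_line_mem (a b : ℂ) (t : unitInterval) : XPT_line a b t ∈ segment ℝ a b := by
  rw [segment_eq_image_lineMap]
  exact ⟨t, t.2, rfl⟩

lemma XPT_path (v : ℕ → ℂ) (n : ℕ) : ∃ γ : Path (v 0) (v n),
    ∀ s : unitInterval, γ s = v 0 ∨ ∃ i < n, γ s ∈ segment ℝ (v i) (v (i + 1)) := by
  induction n with
  | zero => exact ⟨Path.refl _, fun s => Or.inl rfl⟩
  | succ n ih =>
    obtain ⟨γ, hγ⟩ := ih
    refine ⟨γ.trans (XPT_line (v n) (v (n + 1))), fun s => ?_⟩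
    have hs : (γ.trans (XPT_line (v n) (v (n + 1)))) s ∈
        Set.range γ ∪ Set.range (XPT_line (v n) (v (n + 1))) := by
      rw [← Path.trans_range]
      exact Set.mem_range_self s
    rcases hs with ⟨t, ht⟩ | ⟨t, ht⟩
    · rw [← ht]
      rcases hγ t with h | ⟨i, hi, h⟩
      · exact Or.inl h
      · exact Or.inr ⟨i, hi.trans (Nat.lt_succ_self n), h⟩
    · rw [← ht]
      exact Or.inr ⟨n, Nat.lt_succ_self n, XPT_line_mem _ _ t⟩

theorem p_XPT : Stmt_XPT := by
  intro v n hn
  obtain ⟨γ, hγ⟩ := XPT_path v n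
  refine ⟨γ.extend, γ.continuous_extend, γ.extend_zero, γ.extend_one, fun s hs => ?_⟩
  rw [Path.extend_apply γ hs]
  rcases hγ ⟨s, hs⟩ with h | h
  · refine ⟨0, hn, ?_⟩
    rw [h]
    exact left_mem_segment ℝ _ _
  · exact h

end Pool.TZ
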