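import Pool.Agent.Work.MP_ae1ff6_tz.InterfaceX

open Topology Filter Set
open scoped ComplexConjugate

set_option autoImplicit false

namespace Pool.TZ

open Pool.CG Pool.AR Pool.SH

/-- the function `F` -/
noncomputable def XSQ_F (a : Circle) (z : ℂ) : ℝ := 1 - (z * conj (a : ℂ)).re

/-- the quotient `φ` -/
noncomputable def XSQ_phi (a b : Circle) (z : ℂ) : ℝ := XSQ_F a z / (XSQ_F a z + XSQ_F b z)

theorem XSQ_key (a : Circle) {z : ℂ} (hz : ‖z‖ ≤ 1) : Complex.normSq (z - a) ≤ 2 * XSQ_F a z := by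
  have h1 := Complex.normSq_sub z (a : ℂ)
  have h2 : Complex.normSq (a : ℂ) = 1 := Circle.normSq_coe a
  have h3 : Complex.normSq z ≤ 1 := by
    rw [Complex.normSq_eq_norm_sq]
    nlinarith [norm_nonneg z]
  unfold XSQ_F
  linarith

theorem XSQ_nonneg (a : Circle) {z : ℂ} (hz : ‖z‖ ≤ 1) : 0 ≤ XSQ_F a z := by
  have h1 := XSQ_key a hz
  have h2 := Complex.normSq_nonneg (z - (a : ℂ))
  linarith

theorem XSQ_zero (a : Circle) {z : ℂ} (hz : ‖z‖ ≤ 1) (h : XSQ_F a z = 0) : z = (a : ℂ) := by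
  have h1 := XSQ_key a hz
  have h2 := Complex.normSq_nonneg (z - (a : ℂ))
  have h3 : Complex.normSq (z - (a : ℂ)) = 0 := le_antisymm (by linarith) h2
  exact sub_eq_zero.1 (Complex.normSq_eq_zero.1 h3)

theorem XSQ_self (a : Circle) : XSQ_F a (a : ℂ) = 0 := by
  unfold XSQ_F
  rw [Complex.mul_conj, Complex.ofReal_re, Circle.normSq_coe]
  norm_num

theorem XSQ_gt (a : Circle) {z : ℂ} (hz : ‖z‖ ≤ 1) (h : z ≠ (a : ℂ)) : 0 < XSQ_F a z :=
  lt_of_le_of_ne (XSQ_nonneg a hz) fun h1 => h (XSQ_zero a hz h1.symm)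

theorem XSQ_pos {a b : Circle} (hab : a ≠ b) {z : ℂ} (hz : ‖z‖ ≤ 1) :
    0 < XSQ_F a z + XSQ_F b z := by
  by_cases h : z = (a : ℂ)
  · have h1 : z ≠ (b : ℂ) := by
      intro h2
      exact hab (Circle.ext (h.symm.trans h2))
    have h2 := XSQ_gt b hz h1
    have h3 := XSQ_nonneg a hz
    linarith
  · have h2 := XSQ_gt a hz h
    have h3 := XSQ_nonneg b hz
    linarith

theorem XSQ_left (a b : Circle) : XSQ_phi a b (a : ℂ) = 0 := by
  unfold XSQ_phi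
  rw [XSQ_self, zero_div]

theorem XSQ_norm (a : Circle) : ‖(a : ℂ)‖ ≤ 1 := (Circle.norm_coe a).le

theorem XSQ_right {a b : Circle} (hab : a ≠ b) : XSQ_phi a b (b : ℂ) = 1 := by
  have h := XSQ_pos hab (XSQ_norm b)
  unfold XSQ_phi
  rw [XSQ_self, add_zero] at *
  exact div_self h.ne'

theorem XSQ_phi_pos {a b : Circle} (hab : a ≠ b) {z : ℂ} (hz : ‖z‖ ≤ 1) (h : z ≠ (a : ℂ)) :
    0 < XSQ_phi a b z :=
  div_pos (XSQ_gt a hz h) (XSQ_pos hab hz)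

theorem XSQ_phi_lt {a b : Circle} (hab : a ≠ b) {z : ℂ} (hz : ‖z‖ ≤ 1) (h : z ≠ (b : ℂ)) :
    XSQ_phi a b z < 1 := by
  unfold XSQ_phi
  rw [div_lt_one (XSQ_pos hab hz)]
  have := XSQ_gt b hz h
  linarith

theorem XSQ_phi_nonneg {a b : Circle} (hab : a ≠ b) {z : ℂ} (hz : ‖z‖ ≤ 1) :
    0 ≤ XSQ_phi a b z :=
  div_nonneg (XSQ_nonneg a hz) (XSQ_pos hab hz).le

theorem XSQ_phi_le {a b : Circle} (hab : a ≠ b) {z : ℂ} (hz : ‖z‖ ≤ 1) :
    XSQ_phi a b z ≤ 1 := by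
  unfold XSQ_phi
  rw [div_le_one (XSQ_pos hab hz)]
  have := XSQ_nonneg b hz
  linarith

theorem XSQ_id {a b : Circle} (hab : a ≠ b) {z : ℂ} (hz : ‖z‖ ≤ 1) :
    (1 - XSQ_phi a b z) * XSQ_F a z = XSQ_phi a b z * XSQ_F b z := by
  have h := (XSQ_pos hab hz).ne'
  unfold XSQ_phi
  field_simp
  ring

theorem XSQ_contF (a : Circle) : Continuous (XSQ_F a) := by
  unfold XSQ_F
  fun_prop

theorem XSQ_cont {a b : Circle} (hab : a ≠ b) {γ : ℝ → ℂ} (hγ : ContinuousOn γ (Icc 0 1))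
    (hn : ∀ s ∈ Icc (0 : ℝ) 1, ‖γ s‖ ≤ 1) :
    ContinuousOn (fun s => XSQ_phi a b (γ s)) (Icc 0 1) := by
  have h1 : ContinuousOn (fun s => XSQ_F a (γ s)) (Icc 0 1) := (XSQ_contF a).comp_continuousOn hγ
  have h2 : ContinuousOn (fun s => XSQ_F b (γ s)) (Icc 0 1) := (XSQ_contF b).comp_continuousOn hγ
  exact h1.div (h1.add h2) fun s hs => (XSQ_pos hab (hn s hs)).ne'

theorem XSQ_sd1 {p q r : Circle} (h : Ccw p r q) : sd p q (r : ℂ) < 0 := by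
  have h1 : sd p q (r : ℂ) = - area p r q := by
    unfold sd area
    simp only [Complex.mul_im, Complex.sub_re, Complex.sub_im, Complex.conj_re, Complex.conj_im,
      map_sub]
    ring
  have h2 : 0 < area p r q := h
  rw [h1]
  linarith

theorem XSQ_sd2 {p q r : Circle} (h : Ccw q r p) : 0 < sd p q (r : ℂ) := by
  have h1 : Ccw p q r := q_CYO.1 _ _ _ (q_CYO.1 _ _ _ h)
  exact h1

theorem p_XSQ (h1 : Stmt_XAL) : Stmt_XSQ := by
  intro p q p' q' γ δ hL hγ hδ hγn hδn hγ0 hγ1 hδ0 hδ1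
  by_contra hcon
  push Not at hcon
  have hL' : Link p' q' p q := (Pool.GC.q_SYM _ _ _ _ hL).1
  have hcy := q_CYO.2.1
  have hpq : p ≠ q := by
    rcases (q_LKC _ _ _ _).1 hL with h | h
    · exact (hcy _ _ _ h.1).2.2.2
    · exact (hcy _ _ _ h.1).2.2.2
  have hpq' : p' ≠ q' := by
    rcases (q_LKC _ _ _ _).1 hL' with h | h
    · exact (hcy _ _ _ h.1).2.2.2
    · exact (hcy _ _ _ h.1).2.2.2
  have hsign : sd p' q' p * sd p' q' q < 0 := by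
    rcases (q_LKC _ _ _ _).1 hL' with h | h
    · exact mul_neg_of_neg_of_pos (XSQ_sd1 h.1) (XSQ_sd2 h.2)
    · exact mul_neg_of_pos_of_neg (XSQ_sd2 h.2) (XSQ_sd1 h.1)
  have m0 : (0 : ℝ) ∈ Icc (0 : ℝ) 1 := ⟨le_rfl, zero_le_one⟩
  have m1 : (1 : ℝ) ∈ Icc (0 : ℝ) 1 := ⟨zero_le_one, le_rfl⟩
  have c1 : ContinuousOn (fun x : ℝ × ℝ => XSQ_phi p q (δ x.2) - XSQ_phi p q (γ x.1))
      (Icc 0 1 ×ˢ Icc 0 1) :=
    ((XSQ_cont hpq hδ hδn).comp continuousOn_snd fun x hx => hx.2).sub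
      ((XSQ_cont hpq hγ hγn).comp continuousOn_fst fun x hx => hx.1)
  have c2 : ContinuousOn (fun x : ℝ × ℝ => XSQ_phi p' q' (γ x.1) - XSQ_phi p' q' (δ x.2))
      (Icc 0 1 ×ˢ Icc 0 1) :=
    ((XSQ_cont hpq' hγ hγn).comp continuousOn_fst fun x hx => hx.1).sub
      ((XSQ_cont hpq' hδ hδn).comp continuousOn_snd fun x hx => hx.2)
  obtain ⟨s, hs, t, ht, e1, e2⟩ := Pool.MP_7ec17a_gt.M.miranda c1 c2
    (by
      intro t ht
      have h2 : δ t ≠ (p : ℂ) := fun h => hcon 0 m0 t ht (hγ0.trans h.symm)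
      have h3 := XSQ_phi_pos hpq (hδn t ht) h2
      simp only [hγ0, XSQ_left]
      linarith)
    (by
      intro t ht
      have h2 : δ t ≠ (q : ℂ) := fun h => hcon 1 m1 t ht (hγ1.trans h.symm)
      have h3 := XSQ_phi_lt hpq (hδn t ht) h2
      simp only [hγ1, XSQ_right hpq]
      linarith)
    (by
      intro s hs
      have h2 : γ s ≠ (p' : ℂ) := fun h => hcon s hs 0 m0 (h.trans hδ0.symm)
      have h3 := XSQ_phi_pos hpq' (hγn s hs) h2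
      simp only [hδ0, XSQ_left]
      linarith)
    (by
      intro s hs
      have h2 : γ s ≠ (q' : ℂ) := fun h => hcon s hs 1 m1 (h.trans hδ1.symm)
      have h3 := XSQ_phi_lt hpq' (hγn s hs) h2
      simp only [hδ1, XSQ_right hpq']
      linarith)
  have e1' : XSQ_phi p q (δ t) = XSQ_phi p q (γ s) := sub_eq_zero.1 e1
  have e2' : XSQ_phi p' q' (γ s) = XSQ_phi p' q' (δ t) := sub_eq_zero.1 e2
  refine hcon s hs t ht (h1 p q p' q' (XSQ_phi p q (γ s)) (XSQ_phi p' q' (γ s)) (γ s) (δ t) hsign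
    (XSQ_phi_nonneg hpq (hγn s hs)) (XSQ_phi_le hpq (hγn s hs)) ?_)
  rintro w (rfl | rfl)
  · exact ⟨XSQ_id hpq (hγn s hs), XSQ_id hpq' (hγn s hs)⟩
  · rw [← e1', e2']
    exact ⟨XSQ_id hpq (hδn t ht), XSQ_id hpq' (hδn t ht)⟩

end Pool.TZ
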