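import Pool.Agent.Work.MP_ae1ff6_tz.InterfaceX

/-! Block XWY. -/

open Topology Filter Set
open scoped ComplexConjugate

set_option autoImplicit false

namespace Pool.TZ

open Pool.CG Pool.AR Pool.SH

theorem p_XWY (hXPT : Stmt_XPT) : Stmt_XWY := by
  intro Γ V A π ξ hG hF hE x y hxy ε hε
  obtain ⟨hx, hy, -⟩ := hG.adj x y hxy
  have hiter : ∀ k : ℕ, ∀ w ∈ V, π^[k] w ∈ V := by
    intro k
    induction k with
    | zero => intro w hw; exact hw
    | succ k ih =>
      intro w hw
      rw [Function.iterate_succ_apply']
      exact (hG.adj _ _ (hF.adj _ (ih w hw))).2.1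
  obtain ⟨n, hn⟩ := Metric.tendsto_atTop.1 (hE x hx) ε hε
  obtain ⟨m, hm⟩ := Metric.tendsto_atTop.1 (hE y hy) ε hε
  let v : ℕ → ℂ := fun i => if i = 0 then (ξ x : ℂ) else if i ≤ n + 1 then π^[n + 1 - i] x else
    if i ≤ n + m + 2 then π^[i - n - 2] y else (ξ y : ℂ)
  have v0 : v 0 = (ξ x : ℂ) := if_pos rfl
  have v1 : ∀ i, i ≠ 0 → i ≤ n + 1 → v i = π^[n + 1 - i] x := by
    intro i h1 h2
    simp only [v]
    rw [if_neg h1, if_pos h2]
  have v2 : ∀ i, n + 2 ≤ i → i ≤ n + m + 2 → v i = π^[i - n - 2] y := by
    intro i h1 h2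
    simp only [v]
    rw [if_neg (by omega), if_neg (by omega), if_pos h2]
  have v3 : v (n + m + 3) = (ξ y : ℂ) := by
    simp only [v]
    rw [if_neg (by omega), if_neg (by omega), if_neg (by omega)]
  have hnorm : ∀ i, ‖v i‖ ≤ 1 := by
    intro i
    simp only [v]
    split_ifs
    · exact (Circle.norm_coe _).le
    · exact (hG.sub _ (hiter _ x hx)).le
    · exact (hG.sub _ (hiter _ y hy)).le
    · exact (Circle.norm_coe _).le
  obtain ⟨γ, hγ, g0, g1, hg⟩ := hXPT v (n + m + 3) (by omega)
  refine ⟨γ, hγ, g0.trans v0, g1.trans v3, ?_, ?_⟩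
  · intro s hs
    obtain ⟨i, -, hi⟩ := hg s hs
    have h1 : v i ∈ Metric.closedBall (0 : ℂ) 1 := by simpa using hnorm i
    have h2 : v (i + 1) ∈ Metric.closedBall (0 : ℂ) 1 := by simpa using hnorm (i + 1)
    have h3 := (convex_closedBall (0 : ℂ) 1).segment_subset h1 h2 hi
    simpa using h3
  · intro s hs
    obtain ⟨i, hiN, hi⟩ := hg s hs
    by_cases c0 : i = 0
    · subst c0
      right
      left
      have e1 : v (0 + 1) = π^[n] x := by
        rw [v1 (0 + 1) (by omega) (by omega)]
        rfl
      rw [v0, e1] at hi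
      have h1 : (ξ x : ℂ) ∈ Metric.ball (ξ x : ℂ) ε := Metric.mem_ball_self hε
      have h2 : π^[n] x ∈ Metric.ball (ξ x : ℂ) ε := hn n le_rfl
      exact (convex_ball (ξ x : ℂ) ε).segment_subset h1 h2 hi
    · by_cases c1 : i ≤ n
      · left
        left
        right
        obtain ⟨k, hk⟩ : ∃ k, n = i + k := ⟨n - i, by omega⟩
        have e1 : v i = π^[k + 1] x := by
          rw [v1 i c0 (by omega), show n + 1 - i = k + 1 by omega]
        have e2 : v (i + 1) = π^[k] x := by
          rw [v1 (i + 1) (by omega) (by omega), show n + 1 - (i + 1) = k by omega]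
        rw [e1, e2, segment_symm] at hi
        exact Set.mem_iUnion.2 ⟨k, hi⟩
      · by_cases c2 : i = n + 1
        · left
          left
          left
          have e1 : v i = x := by
            rw [v1 i c0 (by omega), show n + 1 - i = 0 by omega]
            rfl
          have e2 : v (i + 1) = y := by
            rw [v2 (i + 1) (by omega) (by omega), show i + 1 - n - 2 = 0 by omega]
            rfl
          rw [e1, e2] at hi
          exact hi
        · by_cases c3 : i ≤ n + m + 1
          · left
            right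
            have e1 : v i = π^[i - n - 2] y := v2 i (by omega) (by omega)
            have e2 : v (i + 1) = π^[i - n - 2 + 1] y := by
              rw [v2 (i + 1) (by omega) (by omega), show i + 1 - n - 2 = i - n - 2 + 1 by omega]
            rw [e1, e2] at hi
            exact Set.mem_iUnion.2 ⟨i - n - 2, hi⟩
          · right
            right
            have c4 : i = n + m + 2 := by omega
            have e1 : v i = π^[m] y := by
              rw [v2 i (by omega) (by omega), show i - n - 2 = m by omega]
            have e2 : v (i + 1) = (ξ y : ℂ) := by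
              rw [c4]
              exact v3
            rw [e1, e2] at hi
            have h1 : (ξ y : ℂ) ∈ Metric.ball (ξ y : ℂ) ε := Metric.mem_ball_self hε
            have h2 : π^[m] y ∈ Metric.ball (ξ y : ℂ) ε := hm m le_rfl
            exact (convex_ball (ξ y : ℂ) ε).segment_subset h2 h1 hi

end Pool.TZ
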