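import Pool.Agent.Work.MP_ae1ff6_tz.B_ABS
import Pool.Agent.Work.MP_ae1ff6_tz.B_AC1
import Pool.Agent.Work.MP_ae1ff6_tz.B_AC2
import Pool.Agent.Work.MP_ae1ff6_tz.B_AC3
import Pool.Agent.Work.MP_ae1ff6_tz.B_AC4
import Pool.Agent.Work.MP_ae1ff6_tz.B_AC5
import Pool.Agent.Work.MP_ae1ff6_tz.B_AC6
import Pool.Agent.Work.MP_ae1ff6_tz.B_ACW
import Pool.Agent.Work.MP_ae1ff6_tz.B_AXC
import Pool.Agent.Work.MP_ae1ff6_tz.B_AXS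
import Pool.Agent.Work.MP_ae1ff6_tz.B_BIS
import Pool.Agent.Work.MP_ae1ff6_tz.B_CED
import Pool.Agent.Work.MP_ae1ff6_tz.B_CH1
import Pool.Agent.Work.MP_ae1ff6_tz.B_CH2
import Pool.Agent.Work.MP_ae1ff6_tz.B_CH3
import Pool.Agent.Work.MP_ae1ff6_tz.B_CH4
import Pool.Agent.Work.MP_ae1ff6_tz.B_CLS
import Pool.Agent.Work.MP_ae1ff6_tz.B_COL
import Pool.Agent.Work.MP_ae1ff6_tz.B_CPL
import Pool.Agent.Work.MP_ae1ff6_tz.B_CTS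
import Pool.Agent.Work.MP_ae1ff6_tz.B_CU1
import Pool.Agent.Work.MP_ae1ff6_tz.B_CU2
import Pool.Agent.Work.MP_ae1ff6_tz.B_CU3
import Pool.Agent.Work.MP_ae1ff6_tz.B_CU4
import Pool.Agent.Work.MP_ae1ff6_tz.B_CUS
import Pool.Agent.Work.MP_ae1ff6_tz.B_DXI
import Pool.Agent.Work.MP_ae1ff6_tz.B_DYN
import Pool.Agent.Work.MP_ae1ff6_tz.B_EQF
import Pool.Agent.Work.MP_ae1ff6_tz.B_EXH
import Pool.Agent.Work.MP_ae1ff6_tz.B_FCR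
import Pool.Agent.Work.MP_ae1ff6_tz.B_FGN
import Pool.Agent.Work.MP_ae1ff6_tz.B_FOR
import Pool.Agent.Work.MP_ae1ff6_tz.B_FRE
import Pool.Agent.Work.MP_ae1ff6_tz.B_FRF
import Pool.Agent.Work.MP_ae1ff6_tz.B_HYD
import Pool.Agent.Work.MP_ae1ff6_tz.B_ITR
import Pool.Agent.Work.MP_ae1ff6_tz.B_IVD
import Pool.Agent.Work.MP_ae1ff6_tz.B_IVL
import Pool.Agent.Work.MP_ae1ff6_tz.B_KPA
import Pool.Agent.Work.MP_ae1ff6_tz.B_KPB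
import Pool.Agent.Work.MP_ae1ff6_tz.B_KPC
import Pool.Agent.Work.MP_ae1ff6_tz.B_KPP
import Pool.Agent.Work.MP_ae1ff6_tz.B_LAM
import Pool.Agent.Work.MP_ae1ff6_tz.B_LF1
import Pool.Agent.Work.MP_ae1ff6_tz.B_LFE
import Pool.Agent.Work.MP_ae1ff6_tz.B_NFX
import Pool.Agent.Work.MP_ae1ff6_tz.B_NRX
import Pool.Agent.Work.MP_ae1ff6_tz.B_NTF
import Pool.Agent.Work.MP_ae1ff6_tz.B_NTZ
import Pool.Agent.Work.MP_ae1ff6_tz.B_PAR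
import Pool.Agent.Work.MP_ae1ff6_tz.B_PRD
import Pool.Agent.Work.MP_ae1ff6_tz.B_QUO
import Pool.Agent.Work.MP_ae1ff6_tz.B_RAY
import Pool.Agent.Work.MP_ae1ff6_tz.B_RFD
import Pool.Agent.Work.MP_ae1ff6_tz.B_SDX
import Pool.Agent.Work.MP_ae1ff6_tz.B_STH
import Pool.Agent.Work.MP_ae1ff6_tz.B_STP
import Pool.Agent.Work.MP_ae1ff6_tz.B_TRA
import Pool.Agent.Work.MP_ae1ff6_tz.B_TRI
import Pool.Agent.Work.MP_ae1ff6_tz.B_TRK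
import Pool.Agent.Work.MP_ae1ff6_tz.B_UNK
import Pool.Agent.Work.MP_ae1ff6_tz.B_VBA
import Pool.Agent.Work.MP_ae1ff6_tz.B_VCH
import Pool.Agent.Work.MP_ae1ff6_tz.B_VCN
import Pool.Agent.Work.MP_ae1ff6_tz.B_VFI
import Pool.Agent.Work.MP_ae1ff6_tz.B_VIN
import Pool.Agent.Work.MP_ae1ff6_tz.B_VPL
import Pool.Agent.Work.MP_ae1ff6_tz.B_VSC
import Pool.Agent.Work.MP_ae1ff6_tz.B_XAL
import Pool.Agent.Work.MP_ae1ff6_tz.B_XDS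
import Pool.Agent.Work.MP_ae1ff6_tz.B_XFI
import Pool.Agent.Work.MP_ae1ff6_tz.B_XIQ
import Pool.Agent.Work.MP_ae1ff6_tz.B_XMG
import Pool.Agent.Work.MP_ae1ff6_tz.B_XNG
import Pool.Agent.Work.MP_ae1ff6_tz.B_XPT
import Pool.Agent.Work.MP_ae1ff6_tz.B_XSQ
import Pool.Agent.Work.MP_ae1ff6_tz.B_XWY
import Pool.Agent.Work.MP_ae1ff6_sh.AllS

/-!
# Invariant ideal triangulations (MP_ae1ff6_gt): all blocks and THEOREM TZ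
-/

set_option autoImplicit false

namespace Pool.TZ

open Pool.CG Pool.AR Pool.SH

theorem q_ELL : Pool.CG.Stmt_ELL := Pool.CG.blk_ELL Pool.GC.mb1 Pool.GC.mb2

theorem q_ACW : Stmt_ACW := p_ACW
theorem q_KPP : Stmt_KPP := p_KPP
theorem q_KPA : Stmt_KPA := p_KPA
theorem q_AC1 : Stmt_AC1 := p_AC1 q_ACW q_KPP q_KPA
theorem q_KPC : Stmt_KPC := p_KPC
theorem q_AC2 : Stmt_AC2 := p_AC2 q_ACW q_KPP q_KPC
theorem q_AC3 : Stmt_AC3 := p_AC3 q_ACW q_KPP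
theorem q_AC4 : Stmt_AC4 := p_AC4 q_ACW q_KPP q_KPA q_AC1 q_AC2
theorem q_KPB : Stmt_KPB := p_KPB
theorem q_AC5 : Stmt_AC5 := p_AC5 q_ACW q_KPP q_KPB
theorem q_AC6 : Stmt_AC6 := p_AC6 q_ACW q_KPP q_KPB q_AC1
theorem q_ACT : Stmt_ACT := act_assemble q_AC1 q_AC2 q_AC3 q_AC4 q_AC5 q_AC6
theorem q_CH1 : Stmt_CH1 := p_CH1
theorem q_CH2 : Stmt_CH2 := p_CH2
theorem q_CH3 : Stmt_CH3 := p_CH3
theorem q_CH4 : Stmt_CH4 := p_CH4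
theorem q_CHF : Stmt_CHF := chf_assemble q_CH1 q_CH2 q_CH3 q_CH4
theorem q_NTZ : Stmt_NTZ := p_NTZ q_ACT q_CHF
theorem q_PRD : Stmt_PRD := p_PRD q_ACW q_KPP
theorem q_NTF : Stmt_NTF := p_NTF q_CHF q_PRD
theorem q_VBA : Stmt_VBA := p_VBA q_CHF
theorem q_VIN : Stmt_VIN := p_VIN q_ACT q_VBA
theorem q_VFI : Stmt_VFI := p_VFI q_CHF q_VBA
theorem q_COL : Stmt_COL := p_COL
theorem q_VPL : Stmt_VPL := p_VPL q_COL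
theorem q_VSC : Stmt_VSC := p_VSC q_VFI
theorem q_VCH : Stmt_VCH := p_VCH q_CHF
theorem q_VCN : Stmt_VCN := p_VCN q_VBA q_VSC q_VCH
theorem q_GRA : Stmt_GRA := gra_assemble q_NTZ q_NTF q_VBA q_VIN q_VFI q_VPL q_VCN
theorem q_FRE : Stmt_FRE := p_FRE q_ACT q_PRD
theorem q_EXH : Stmt_EXH := p_EXH
theorem q_PAR : Stmt_PAR := p_PAR q_EXH
theorem q_FGN : Stmt_FGN := p_FGN
theorem q_QUO : Stmt_QUO := p_QUO
theorem q_ABS : Stmt_ABS := p_ABS q_PAR q_FGN q_QUO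
theorem q_FOR : Stmt_FOR := p_FOR q_ACT q_FRE q_ABS
theorem q_SDX : Stmt_SDX := p_SDX
theorem q_AXS : Stmt_AXS := p_AXS
theorem q_ITR : Stmt_ITR := p_ITR q_ACT
theorem q_FRF : Stmt_FRF := p_FRF
theorem q_LAM : Stmt_LAM := p_LAM q_ACT q_ACW q_KPP q_KPB q_FRE q_FRF
theorem q_HYD : Stmt_HYD := p_HYD q_ACT q_FRF q_LAM
theorem q_FCR : Stmt_FCR := p_FCR q_ACT q_HYD
theorem q_XFI : Stmt_XFI := p_XFI q_SDX q_ITR q_FCR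
theorem q_RAY : Stmt_RAY := p_RAY q_SDX q_AXS q_ITR q_XFI
theorem q_XIQ : Stmt_XIQ := p_XIQ q_ACT q_ITR
theorem q_XAL : Stmt_XAL := p_XAL
theorem q_XSQ : Stmt_XSQ := p_XSQ q_XAL
theorem q_XDS : Stmt_XDS := p_XDS
theorem q_XPT : Stmt_XPT := p_XPT
theorem q_XWY : Stmt_XWY := p_XWY q_XPT
theorem q_XMG : Stmt_XMG := p_XMG
theorem q_XNG : Stmt_XNG := p_XNG q_XSQ q_XDS q_XWY q_XMG
theorem q_DYN : Stmt_DYN := p_DYN q_ACT q_FRF q_LAM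
theorem q_LF1 : Stmt_LF1 := p_LF1 q_ACT q_SDX q_AXS q_DYN q_FCR q_ITR
theorem q_LFE : Stmt_LFE := p_LFE q_LF1
theorem q_NFX : Stmt_NFX := p_NFX q_ACT q_SDX q_AXS q_DYN q_FCR q_ITR
theorem q_DXI : Stmt_DXI := p_DXI q_XIQ
theorem q_AXC : Stmt_AXC := p_AXC q_SDX q_NFX q_DXI
theorem q_CLS : Stmt_CLS := p_CLS q_ELL
theorem q_CU1 : Stmt_CU1 := p_CU1
theorem q_CU2 : Stmt_CU2 := p_CU2 q_ACW q_KPP q_KPB q_CU1
theorem q_CU4 : Stmt_CU4 := p_CU4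
theorem q_CU3 : Stmt_CU3 := p_CU3 q_ACT q_CU2 q_CU4
theorem q_CUS : Stmt_CUS := p_CUS q_CHF q_CU2 q_CU3 q_CU4
theorem q_CED : Stmt_CED := p_CED q_CUS q_DXI
theorem q_STH : Stmt_STH := p_STH q_ACT q_SDX q_DYN
theorem q_STP : Stmt_STP := p_STP q_SDX q_CU1
theorem q_CTS : Stmt_CTS := p_CTS q_RAY q_XIQ q_XNG q_LFE q_AXS q_AXC q_CLS q_CED q_STH q_STP
theorem q_NRX : Stmt_NRX := p_NRX
theorem q_IVL : Stmt_IVL := p_IVL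
theorem q_IVD : Stmt_IVD := p_IVD
theorem q_BIS : Stmt_BIS := p_BIS q_NRX q_IVL q_IVD
theorem q_TRA : Stmt_TRA := p_TRA
theorem q_TRK : Stmt_TRK := p_TRK q_BIS q_TRA
theorem q_TRI : Stmt_TRI := p_TRI
theorem q_EQF : Stmt_EQF := p_EQF Pool.SH.q_RCL Pool.SH.q_REQ q_TRK q_TRI
theorem q_RFD : Stmt_RFD := p_RFD Pool.SH.q_ARX Pool.SH.q_RSP Pool.SH.q_RCH
theorem q_UNK : Stmt_UNK := p_UNK Pool.SH.q_ARL
theorem q_CPL : Stmt_CPL := p_CPL Pool.SH.q_ARX Pool.SH.q_RGA Pool.SH.q_RSD Pool.SH.q_RSP Pool.SH.q_REQ q_EQF q_RFD q_UNK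
theorem q_TZ : Stmt_TZ := tz_assemble q_GRA q_FOR q_CTS q_CPL

end Pool.TZ
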