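import Pool.Agent.Work.MP_ae1ff6_tz.InterfaceD

/-!
# Block ABS: an equivariant one-ended forest for free actions
-/

open Topology Filter Set
open scoped ComplexConjugate

set_option autoImplicit false

namespace Pool.TZ

open Pool.CG Pool.AR Pool.SH

/-- the orbit of a vertex -/
abbrev ABS_q (G : Type) {V : Type} [Group G] [MulAction G V] (v : V) :
    MulAction.orbitRel.Quotient G V := Quotient.mk'' v

theorem ABS_q_eq {G V : Type} [Group G] [MulAction G V] {v w : V} :
    ABS_q G v = ABS_q G w ↔ ∃ g : G, g • w = v := by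
  unfold ABS_q
  rw [Quotient.eq'', MulAction.orbitRel_apply, MulAction.mem_orbit_iff]

theorem ABS_q_smul {G V : Type} [Group G] [MulAction G V] (g : G) (v : V) :
    ABS_q G (g • v) = ABS_q G v := ABS_q_eq.2 ⟨g, rfl⟩

theorem ABS_free {G V : Type} [Group G] [MulAction G V]
    (hfree : ∀ (g : G) (x : V), g • x = x → g = 1) {g h : G} {x : V} (hx : g • x = h • x) : g = h := by
  have h1 : (h⁻¹ * g) • x = x := by
    rw [mul_smul, hx, inv_smul_smul]
  have h2 := hfree _ _ h1
  have h3 : g = h * (h⁻¹ * g) := by group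
  rw [h3, h2, mul_one]

theorem p_ABS (h1 : Stmt_PAR) (h2 : Stmt_FGN) (h3 : Stmt_QUO) : Stmt_ABS := by
  intro G V _ _ A hne hsymm hinv hfin hconn hfree hfg
  have hinf := h2 G V A hne hsymm hinv hfin hconn hfree hfg
  obtain ⟨q1, q2, q3, q4⟩ := h3 G V A hsymm hinv hfin hconn
  obtain ⟨p, hp1, hp2, hp3⟩ := h1 (MulAction.orbitRel.Quotient G V) (QA A) q1 q2 q3 hinf
  -- representatives
  have hx : ∀ a : MulAction.orbitRel.Quotient G V, ∃ x : V, ABS_q G x = a := fun a =>
    ⟨a.out, Quotient.out_eq' a⟩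
  choose x hx using hx
  have hy : ∀ a : MulAction.orbitRel.Quotient G V, ∃ y : V, A (x a) y ∧ ABS_q G y = p a := by
    intro a
    have := hp1 a
    rw [← hx a] at this
    obtain ⟨y, hy1, hy2⟩ := q4 (x a) _ this
    refine ⟨y, hy1, ?_⟩
    change ABS_q G y = p (ABS_q G (x a)) at hy2
    rwa [hx a] at hy2
  choose y hy1 hy2 using hy
  have hc : ∀ v : V, ∃ g : G, g • x (ABS_q G v) = v := by
    intro v
    exact ABS_q_eq.1 (hx (ABS_q G v)).symm
  choose c hc using hc
  have hcsmul : ∀ (g : G) (v : V), c (g • v) = g * c v := by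
    intro g v
    apply ABS_free hfree (x := x (ABS_q G v))
    have e1 := hc (g • v)
    rw [ABS_q_smul] at e1
    rw [e1, mul_smul, hc v]
  set π : V → V := fun v => c v • y (ABS_q G v) with hπ
  have hπA : ∀ v, A v (π v) := by
    intro v
    have := hinv (c v) _ _ (hy1 (ABS_q G v))
    rwa [hc v] at this
  have hπs : ∀ (g : G) v, π (g • v) = g • π v := by
    intro g v
    simp only [hπ]
    rw [hcsmul, ABS_q_smul, mul_smul]
  have hπq : ∀ v, ABS_q G (π v) = p (ABS_q G v) := by
    intro v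
    simp only [hπ]
    rw [ABS_q_smul, hy2]
  have hπqk : ∀ (k : ℕ) v, ABS_q G (π^[k] v) = p^[k] (ABS_q G v) := by
    intro k
    induction k with
    | zero => intro v; rfl
    | succ k ih =>
      intro v
      rw [Function.iterate_succ_apply', Function.iterate_succ_apply', hπq, ih]
  have hπsk : ∀ (k : ℕ) (g : G) v, π^[k] (g • v) = g • π^[k] v := by
    intro k
    induction k with
    | zero => intro g v; rfl
    | succ k ih =>
      intro g v
      rw [Function.iterate_succ_apply', Function.iterate_succ_apply', ih, hπs]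
  refine ⟨π, hπA, hπs, ?_, ?_⟩
  · intro w
    have hN : {a | ∃ k : ℕ, p^[k] a = ABS_q G w}.Finite := hp2 (ABS_q G w)
    have hfinU : (⋃ a ∈ {a | ∃ k : ℕ, p^[k] a = ABS_q G w},
        ⋃ k ∈ {k : ℕ | p^[k] a = ABS_q G w}, {v | ABS_q G v = a ∧ π^[k] v = w}).Finite := by
      apply hN.biUnion
      intro a _
      apply (hp3 a (ABS_q G w)).biUnion
      intro k _
      apply Set.Subsingleton.finite
      rintro v ⟨hv1, hv2⟩ v' ⟨hv1', hv2'⟩
      obtain ⟨g, hg⟩ := ABS_q_eq.1 (hv1.trans hv1'.symm)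
      rw [← hg, hπsk, hv2'] at hv2
      rw [hfree _ _ hv2, one_smul] at hg
      exact hg.symm
    refine hfinU.subset ?_
    rintro v ⟨k, hk⟩
    have hk' : p^[k] (ABS_q G v) = ABS_q G w := by rw [← hπqk, hk]
    simp only [mem_iUnion, mem_setOf_eq]
    exact ⟨ABS_q G v, ⟨k, hk'⟩, k, hk', rfl, hk⟩
  · intro v w
    refine (hp3 (ABS_q G v) (ABS_q G w)).subset ?_
    rintro k ⟨g, hg⟩
    show p^[k] (ABS_q G v) = ABS_q G w
    rw [← hπqk, hg, ABS_q_smul]

end Pool.TZ
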