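import Pool.Agent.Work.MP_ae1ff6_tz.InterfaceE

/-! # Block AXS: an axis which separates two points -/

open Topology Filter Set
open scoped ComplexConjugate

set_option autoImplicit false

namespace Pool.TZ

open Pool.CG Pool.AR Pool.SH

theorem AXS_open (a b : Circle) : IsOpen {z : Circle | Ccw a z b} := by
  have hc : Continuous fun z : Circle => area a z b := by
    unfold area
    refine Complex.continuous_im.comp ?_
    refine Continuous.mul ?_ continuous_const
    exact Complex.continuous_conj.comp (continuous_subtype_val.sub continuous_const)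
  exact isOpen_lt continuous_const hc

theorem p_AXS : Stmt_AXS := by
  intro Γ hΓ a b hab
  obtain ⟨s, t, hst, hts, rfl, rfl⟩ := q_ANG.2.2.1 a b hab
  have hper : Circle.exp (s + 2 * Real.pi) = Circle.exp s := Circle.exp_eq_exp.2 ⟨1, by simp⟩
  have h1 : (Circle.exp ((s + t) / 2)) ∈ {z : Circle | Ccw (Circle.exp s) z (Circle.exp t)} :=
    q_ANG.1 s ((s + t) / 2) t (by linarith) (by linarith) hts
  have h2 : (Circle.exp ((t + (s + 2 * Real.pi)) / 2)) ∈ {z : Circle | Ccw (Circle.exp t) z (Circle.exp s)} := by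
    have h := q_ANG.1 t ((t + (s + 2 * Real.pi)) / 2) (s + 2 * Real.pi) (by linarith) (by linarith) (by linarith)
    rw [hper] at h
    exact h
  obtain ⟨γ, hγ, p, hp, q, hq, hax⟩ := Pool.GC.dns Γ hΓ _ _ (AXS_open (Circle.exp s) (Circle.exp t)) ⟨_, h1⟩
    (AXS_open (Circle.exp t) (Circle.exp s)) ⟨_, h2⟩
  exact ⟨γ, hγ, p, q, hax, (Pool.GC.q_SYM _ _ _ _ ((q_LKC _ _ _ _).2 (Or.inl ⟨hp, hq⟩))).1⟩

end Pool.TZ
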