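import Pool.Agent.Work.MP_ae1ff6_tz.InterfaceA

open Topology Filter Set
open scoped ComplexConjugate

set_option autoImplicit false

namespace Pool.TZ

open Pool.CG Pool.AR Pool.SH

theorem clo_norm_sub (a b : ℂ) : ‖a - b‖ ^ 2 = ‖a‖ ^ 2 + ‖b‖ ^ 2 - 2 * (a * conj b).re := by
  rw [← Complex.normSq_eq_norm_sq, Complex.normSq_sub, Complex.normSq_eq_norm_sq,
    Complex.normSq_eq_norm_sq]

theorem clo_bound (a b : ℂ) (C : ℝ) (hC : 0 ≤ C) (ha : ‖a‖ < 1) (hb : ‖b‖ < 1) (h : ch a b ≤ C) :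
    ‖a - b‖ ^ 2 ≤ 2 * (C * √(1 - ‖a‖ ^ 2)) := by
  have ha0 := norm_nonneg a
  have hb0 := norm_nonneg b
  have ha2 : 0 < 1 - ‖a‖ ^ 2 := by nlinarith
  have hb2 : 0 < 1 - ‖b‖ ^ 2 := by nlinarith
  have hs : 0 < √((1 - ‖a‖ ^ 2) * (1 - ‖b‖ ^ 2)) := Real.sqrt_pos.2 (mul_pos ha2 hb2)
  rw [ch, div_le_iff₀ hs] at h
  have h1 : √((1 - ‖a‖ ^ 2) * (1 - ‖b‖ ^ 2)) ≤ √(1 - ‖a‖ ^ 2) := by
    apply Real.sqrt_le_sqrt
    nlinarith [mul_nonneg ha2.le (sq_nonneg ‖b‖)]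
  have h2 := mul_le_mul_of_nonneg_left h1 hC
  rw [clo_norm_sub]
  nlinarith

theorem p_CLO : Stmt_CLO := by
  intro ι l a b C z hab hC ha
  have h1 : Tendsto (fun i => ‖a i‖) l (𝓝 1) := by
    have := ha.norm
    simpa using this
  have h2 : Tendsto (fun i => 2 * (max C 0 * √(1 - ‖a i‖ ^ 2))) l (𝓝 0) := by
    have h3 : Tendsto (fun i => 2 * (max C 0 * √(1 - ‖a i‖ ^ 2))) l
        (𝓝 (2 * (max C 0 * √(1 - 1 ^ 2)))) :=
      ((((h1.pow 2).const_sub 1).sqrt).const_mul _).const_mul _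
    simpa using h3
  have h4 : Tendsto (fun i => ‖a i - b i‖ ^ 2) l (𝓝 0) := by
    refine tendsto_of_tendsto_of_tendsto_of_le_of_le' tendsto_const_nhds h2
      (Eventually.of_forall fun i => sq_nonneg _) ?_
    filter_upwards [hab, hC] with i hi hCi
    exact clo_bound _ _ _ (le_max_right _ _) hi.1 hi.2 (hCi.trans (le_max_left _ _))
  have h5 : Tendsto (fun i => ‖a i - b i‖) l (𝓝 0) := by
    have h6 := h4.sqrt
    simpa [Real.sqrt_sq (norm_nonneg _)] using h6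
  have h7 : Tendsto (fun i => a i - b i) l (𝓝 0) := tendsto_zero_iff_norm_tendsto_zero.2 h5
  have h8 := ha.sub h7
  simpa using h8

end Pool.TZ
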