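import Pool.Agent.Work.MP_ae1ff6_tz.InterfaceE

/-! Block CTS. -/

open Topology Filter Set
open scoped ComplexConjugate

set_option autoImplicit false

namespace Pool.TZ

open Pool.CG Pool.AR Pool.SH

theorem p_CTS (hRAY : Stmt_RAY) (hXIQ : Stmt_XIQ) (hXNG : Stmt_XNG) (hLFE : Stmt_LFE)
    (hAXS : Stmt_AXS) (hAXC : Stmt_AXC) (hCLS : Stmt_CLS) (hCED : Stmt_CED) (hSTH : Stmt_STH)
    (hSTP : Stmt_STP) : Stmt_CTS := by
  intro Γ V A π hfk htf hgr hfo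
  have hSt : St Γ V A π := ⟨hfk, htf, hgr, hfo⟩
  obtain ⟨ξ, hξ⟩ := hRAY Γ V A π hSt
  refine ⟨EE A ξ, ?_, ?_, ?_, ?_, ?_, ?_, ?_⟩
  · rintro p q ⟨hne, x, y, hA, hx, hy⟩
    exact ⟨fun h => hne h.symm, y, x, hgr.symm x y hA, hy, hx⟩
  · rintro p q ⟨hne, -⟩
    exact hne
  · rintro x y z w ⟨-, a, b, hab, ha, hb⟩ ⟨-, c, d, hcd, hc, hd⟩ hL
    simp only at ha hb hc hd
    rw [← ha, ← hb, ← hc, ← hd] at hL
    exact hXNG Γ V A π ξ hgr hfo hξ a b c d hab hcd hL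
  · exact hLFE Γ V A π ξ hSt hξ
  · have hab : Circle.exp Real.pi ≠ 1 := by
      intro h
      have h1 := congrArg (fun z : Circle => (z : ℂ)) h
      simp only [Circle.coe_exp, Complex.exp_pi_mul_I, Circle.coe_one] at h1
      norm_num at h1
    obtain ⟨γ, hγ, p, q, hax, -⟩ := hAXS Γ hfk _ _ hab
    obtain ⟨c, d, hcd, -⟩ := hAXC Γ V A π ξ hSt hξ γ hγ p q hax
    exact ⟨(c, d), hcd⟩
  · rintro γ hγ x y ⟨hne, a, b, hab, ha, hb⟩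
    obtain ⟨haV, hbV, -⟩ := hgr.adj a b hab
    refine ⟨fun h => hne (γ.injective h), act γ a, act γ b, hgr.invA γ hγ a b hab, ?_, ?_⟩
    · rw [(hXIQ Γ V A π ξ hSt hξ).2 γ hγ a haV, ha]
    · rw [(hXIQ Γ V A π ξ hSt hξ).2 γ hγ b hbV, hb]
  · intro K hK γ hγ hKK
    by_contra hne
    rcases hCLS Γ hfk htf γ hγ hne with ⟨u, hu⟩ | ⟨p, q, hax⟩
    · obtain ⟨b, hb⟩ := hCED Γ V A π ξ hSt hξ γ hγ u hu
      exact hSTP (EE A ξ) K γ (hfk.mob γ hγ) hK hKK u b hu (fun h => hb.1 h.symm) hb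
    · obtain ⟨a, b, hab, hL⟩ := hAXC Γ V A π ξ hSt hξ γ hγ p q hax
      exact hSTH Γ (EE A ξ) K hfk htf hK γ hγ hKK p q a b hax hab hL

end Pool.TZ
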