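import Pool.Agent.Work.MP_ae1ff6_tz.InterfaceE

/-!
# Block FCR of THEOREM TZ: up to powers of `γ` only finitely many edges meet the axis
-/

open Topology Filter Set
open scoped ComplexConjugate

set_option autoImplicit false

namespace Pool.TZ

open Pool.CG Pool.AR Pool.SH

theorem p_FCR (hACT : Stmt_ACT) (hHYD : Stmt_HYD) : Stmt_FCR := by
  intro Γ V A π hSt γ hγ p q hax
  obtain ⟨-, -, hA3, hA4, -, hA6, -, -⟩ := hACT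
  obtain ⟨r, hr, hH⟩ := hHYD Γ hSt.fk hSt.tf γ hγ p q hax
  have hE : {e : ℂ × ℂ | A e.1 e.2 ∧ ∃ u ∈ segment ℝ e.1 e.2, ‖u‖ ≤ r}.Finite := hSt.gr.finA r hr
  refine ⟨Prod.fst '' {e : ℂ × ℂ | A e.1 e.2 ∧ ∃ u ∈ segment ℝ e.1 e.2, ‖u‖ ≤ r} ∪
    Prod.snd '' {e : ℂ × ℂ | A e.1 e.2 ∧ ∃ u ∈ segment ℝ e.1 e.2, ‖u‖ ≤ r},
    (hE.image _).union (hE.image _), ?_, ?_⟩
  · rintro w (⟨e, he, rfl⟩ | ⟨e, he, rfl⟩)
    · exact (hSt.gr.adj _ _ he.1).1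
    · exact (hSt.gr.adj _ _ he.1).2.1
  · intro x y u hxy hu hs
    have hx := hSt.gr.sub x (hSt.gr.adj _ _ hxy).1
    have hy := hSt.gr.sub y (hSt.gr.adj _ _ hxy).2.1
    have hu1 : ‖u‖ < 1 := by
      have h1 := (convex_ball (0 : ℂ) 1).segment_subset (mem_ball_zero_iff.2 hx)
        (mem_ball_zero_iff.2 hy) hu
      exact mem_ball_zero_iff.1 h1
    obtain ⟨m, hm⟩ := hH u hu1 hs
    have hγm : γ ^ m ∈ Γ := Γ.zpow_mem hγ m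
    have hγm' : γ ^ (-m) ∈ Γ := Γ.zpow_mem hγ (-m)
    have hmob : IsMob (γ ^ m) := hSt.fk.mob _ hγm
    have hmob' : IsMob (γ ^ (-m)) := hSt.fk.mob _ hγm'
    have hw : A (act (γ ^ m) x) (act (γ ^ m) y) := hSt.gr.invA _ hγm _ _ hxy
    have hseg : act (γ ^ m) u ∈ segment ℝ (act (γ ^ m) x) (act (γ ^ m) y) := by
      rw [← hA6 _ hmob x y hx.le hy.le]
      exact ⟨u, hu, rfl⟩
    have hback : ∀ z : ℂ, ‖z‖ ≤ 1 → z = act (γ ^ (-m)) (act (γ ^ m) z) := by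
      intro z hz
      rw [← hA3 _ _ hmob' hmob z hz, ← zpow_add, neg_add_cancel, zpow_zero, hA4 z hz]
    exact ⟨-m, _, Or.inl ⟨(act (γ ^ m) x, act (γ ^ m) y), ⟨hw, _, hseg, hm⟩, rfl⟩,
      _, Or.inr ⟨(act (γ ^ m) x, act (γ ^ m) y), ⟨hw, _, hseg, hm⟩, rfl⟩, hw,
      hback x hx.le, hback y hy.le⟩

end Pool.TZ
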