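import Pool.Agent.Work.MP_ae1ff6_tz.InterfaceA

/-! Block KPB (helper58): a bilinear identity and a determinant identity. -/

open Topology Filter Set
open scoped ComplexConjugate

set_option autoImplicit false

namespace Pool.TZ

open Pool.CG Pool.AR Pool.SH

theorem KPB_re (α β k : ℂ) : (kN α β k).re =
    (α.re ^ 2 - α.im ^ 2) * k.re - 2 * α.re * α.im * k.im + (β.re ^ 2 - β.im ^ 2) * k.re +
      2 * β.re * β.im * k.im + 2 * (α.re * β.re - α.im * β.im) := by
  simp only [kN, pow_two, Complex.add_re, Complex.mul_re, Complex.mul_im, Complex.conj_re,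
    Complex.conj_im, Complex.re_ofNat, Complex.im_ofNat]
  ring

theorem KPB_im (α β k : ℂ) : (kN α β k).im =
    (α.re ^ 2 - α.im ^ 2) * k.im + 2 * α.re * α.im * k.re - (β.re ^ 2 - β.im ^ 2) * k.im +
      2 * β.re * β.im * k.re + 2 * (α.re * β.im + α.im * β.re) := by
  simp only [kN, pow_two, Complex.add_im, Complex.mul_re, Complex.mul_im, Complex.conj_re,
    Complex.conj_im, Complex.re_ofNat, Complex.im_ofNat]
  ring

theorem KPB_d (α β k : ℂ) : kD α β k =
    (α.re ^ 2 + α.im ^ 2) + (β.re ^ 2 + β.im ^ 2) + 2 * ((α.re * β.re + α.im * β.im) * k.re -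
      (α.im * β.re - α.re * β.im) * k.im) := by
  simp only [kD, Complex.sq_norm, Complex.normSq_apply, Complex.mul_re, Complex.mul_im,
    Complex.conj_re, Complex.conj_im]
  ring

theorem p_KPB : Stmt_KPB := by
  intro α β h
  rw [Complex.sq_norm, Complex.sq_norm, Complex.normSq_apply, Complex.normSq_apply] at h
  refine ⟨fun k l => ?_, fun p q k => ?_⟩
  · have e1 : (kN α β k * conj (kN α β l)).re =
        (kN α β k).re * (kN α β l).re + (kN α β k).im * (kN α β l).im := by
      rw [Complex.mul_re, Complex.conj_re, Complex.conj_im]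
      ring
    have e2 : (k * conj l).re = k.re * l.re + k.im * l.im := by
      rw [Complex.mul_re, Complex.conj_re, Complex.conj_im]
      ring
    rw [e1, e2, KPB_re, KPB_re, KPB_im, KPB_im, KPB_d, KPB_d]
    generalize α.re = a at *
    generalize α.im = b at *
    generalize β.re = c at *
    generalize β.im = d at *
    linear_combination ((a * a + b * b - (c * c + d * d) + 1) *
      (1 - (k.re * l.re + k.im * l.im))) * h
  · have e1 : ∀ z w : ℂ, (conj z * w).im = z.re * w.im - z.im * w.re := fun z w => by
      rw [Complex.mul_im, Complex.conj_re, Complex.conj_im]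
      ring
    rw [e1, e1, e1, e1, Complex.sub_re, Complex.sub_im, Complex.sub_re, Complex.sub_im]
    simp only [KPB_re, KPB_im, KPB_d]
    generalize α.re = a at *
    generalize α.im = b at *
    generalize β.re = c at *
    generalize β.im = d at *
    generalize p.re = x at *
    generalize p.im = y at *
    generalize q.re = u at *
    generalize q.im = v at *
    generalize k.re = s at *
    generalize k.im = t at *
    linear_combination ((a * a + b * b - (c * c + d * d)) ^ 2 +
      (a * a + b * b - (c * c + d * d)) + 1) * ((u - x) * (t - y) - (v - y) * (s - x)) * h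

end Pool.TZ
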