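import Pool.Agent.Work.MP_ae1ff6_tz.InterfaceD

open Topology Filter Set
open scoped ComplexConjugate

set_option autoImplicit false

namespace Pool.TZ

open Pool.CG Pool.AR Pool.SH

/-- one can leave `B m` in `k` steps which avoid `B (m - 1)` -/
def PAR_Rch {Q : Type} (R : Q → Q → Prop) (B : ℕ → Set Q) (m : ℕ) : ℕ → Q → Prop
  | 0, q => q ∉ B m
  | k + 1, q => ∃ r, R q r ∧ r ∉ B (m - 1) ∧ PAR_Rch R B m k r

theorem p_PAR (h1 : Stmt_EXH) : Stmt_PAR := by
  classical
  intro Q R hsym hfin hconn hinf
  obtain ⟨B, hB0, hmono, hBfin, hBcov, hesc⟩ := h1 Q R hsym hfin hconn hinf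
  let n : Q → ℕ := fun q => Nat.find (hBcov q)
  have hn_mem : ∀ q, q ∈ B (n q) := fun q => Nat.find_spec (hBcov q)
  have hn_iff : ∀ q m, q ∈ B m ↔ n q ≤ m := fun q m =>
    ⟨fun h => Nat.find_min' _ h, fun h => hmono _ _ h (hn_mem q)⟩
  have hn_pos : ∀ q, 0 < n q := by
    intro q
    by_contra h
    have h0 : n q = 0 := by omega
    have h2 := hn_mem q
    rw [h0, hB0] at h2
    exact h2
  have hreach : ∀ q, ∃ k, PAR_Rch R B (n q) k q := by
    intro q
    have hq : q ∉ B (n q - 1) := by
      rw [hn_iff]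
      have := hn_pos q
      omega
    obtain ⟨r, hr, hch⟩ := hesc (n q - 1) q hq (B (n q)) (hBfin _)
    have key : ∀ x, Relation.ReflTransGen (Away R (B (n q - 1))) x r →
        ∃ k, PAR_Rch R B (n q) k x := by
      intro x hx
      induction hx using Relation.ReflTransGen.head_induction_on with
      | refl => exact ⟨0, hr⟩
      | head hab _ ih =>
        obtain ⟨k, hk⟩ := ih
        exact ⟨k + 1, _, hab.1, hab.2, hk⟩
    exact key q hch
  let d : Q → ℕ := fun q => Nat.find (hreach q)
  have hd_spec : ∀ q, PAR_Rch R B (n q) (d q) q := fun q => Nat.find_spec (hreach q)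
  have hd_ne : ∀ q, d q ≠ 0 := by
    intro q h0
    have h2 := hd_spec q
    rw [h0] at h2
    exact h2 (hn_mem q)
  have hstep : ∀ q, ∃ r, R q r ∧ r ∉ B (n q - 1) ∧ PAR_Rch R B (n q) (d q - 1) r := by
    intro q
    obtain ⟨k, hk⟩ : ∃ k, d q = k + 1 := ⟨d q - 1, by have := hd_ne q; omega⟩
    have h2 := hd_spec q
    rw [hk] at h2
    obtain ⟨r, hr1, hr2, hr3⟩ := h2
    exact ⟨r, hr1, hr2, by rw [hk]; exact hr3⟩
  choose p hp1 hp2 hp3 using hstep
  have hL : ∀ q, n q < n (p q) ∨ (n (p q) = n q ∧ d (p q) < d q) := by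
    intro q
    by_cases hmem : p q ∈ B (n q)
    · right
      have h2 : n (p q) ≤ n q := (hn_iff _ _).1 hmem
      have h3 : ¬ n (p q) ≤ n q - 1 := fun h => hp2 q ((hn_iff _ _).2 h)
      have h4 : n (p q) = n q := by
        have := hn_pos q
        omega
      refine ⟨h4, ?_⟩
      have h5 : PAR_Rch R B (n (p q)) (d q - 1) (p q) := by
        rw [h4]
        exact hp3 q
      have h6 : d (p q) ≤ d q - 1 := Nat.find_min' (hreach (p q)) h5
      have := hd_ne q
      omega
    · left
      have h2 : ¬ n (p q) ≤ n q := fun h => hmem ((hn_iff _ _).2 h)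
      omega
  have hit : ∀ (k : ℕ) (q : Q),
      n q < n (p^[k + 1] q) ∨ (n (p^[k + 1] q) = n q ∧ d (p^[k + 1] q) < d q) := by
    intro k
    induction k with
    | zero => intro q; exact hL q
    | succ k ih =>
      intro q
      rw [Function.iterate_succ_apply']
      have h2 := ih q
      have h3 := hL (p^[k + 1] q)
      omega
  refine ⟨p, hp1, ?_, ?_⟩
  · intro w
    refine (hBfin (n w)).subset ?_
    rintro v ⟨k, hk⟩
    rw [hn_iff]
    cases k with
    | zero =>
      have : v = w := hk
      rw [this]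
    | succ k =>
      have h2 := hit k v
      rw [hk] at h2
      omega
  · intro v w
    have hne : ∀ j k : ℕ, j < k → p^[j] v = w → p^[k] v = w → False := by
      intro j k hjk hj hk
      obtain ⟨i, rfl⟩ : ∃ i, k = (i + 1) + j := ⟨k - j - 1, by omega⟩
      rw [Function.iterate_add_apply, hj] at hk
      have h2 := hit i w
      rw [hk] at h2
      omega
    refine Set.Subsingleton.finite ?_
    intro j hj k hk
    rcases lt_trichotomy j k with h | h | h
    · exact (hne j k h hj hk).elim
    · exact h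
    · exact (hne k j h hk hj).elim

end Pool.TZ
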