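import Pool.Agent.Work.MP_ae1ff6_tz.InterfaceFF

open Topology Filter Set
open scoped ComplexConjugate

set_option autoImplicit false

namespace Pool.TZ

open Pool.CG Pool.AR Pool.SH

/-- the edges of the subdivision `I` -/
def TRK_T (s : ℝ) (I : Set (ℝ × ℝ)) : Set (Circle × Circle) :=
  {e | ∃ u v, (u, v) ∈ I ∧ (u, v) ≠ (s, s + 2 * Real.pi) ∧
    (e = (Circle.exp u, Circle.exp v) ∨ e = (Circle.exp v, Circle.exp u))}

theorem TRK_rng {C : Set ℝ} {s : ℝ} {I : Set (ℝ × ℝ)} (hI : Bis C s (s + 2 * Real.pi) I)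
    (hC : ∀ k ∈ C, s ≤ k ∧ k ≤ s + 2 * Real.pi) {u v : ℝ} (h : (u, v) ∈ I)
    (hr : (u, v) ≠ (s, s + 2 * Real.pi)) :
    s ≤ u ∧ u < v ∧ v ≤ s + 2 * Real.pi ∧ v < u + 2 * Real.pi ∧ u ∈ C ∧ v ∈ C := by
  obtain ⟨h1, h2, h3⟩ := hI.sub u v h
  have hu := hC u h2
  have hv := hC v h3
  refine ⟨hu.1, h1, hv.2, ?_, h2, h3⟩
  by_contra hn
  push Not at hn
  apply hr
  have e1 : u = s := by linarith [hu.1, hv.2]
  have e2 : v = s + 2 * Real.pi := by linarith [hu.1, hv.2]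
  rw [e1, e2]

theorem TRK_unl (h2 : Stmt_TRA) {C : Set ℝ} {s : ℝ} {I : Set (ℝ × ℝ)}
    (hI : Bis C s (s + 2 * Real.pi) I) (hC : ∀ k ∈ C, s ≤ k ∧ k ≤ s + 2 * Real.pi) {u v u' v' : ℝ}
    (h : (u, v) ∈ I) (hr : (u, v) ≠ (s, s + 2 * Real.pi)) (h' : (u', v') ∈ I)
    (hr' : (u', v') ≠ (s, s + 2 * Real.pi)) :
    ¬ Link (Circle.exp u) (Circle.exp v) (Circle.exp u') (Circle.exp v') := by
  obtain ⟨a1, a2, a3, a4, a5, a6⟩ := TRK_rng hI hC h hr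
  obtain ⟨b1, b2, b3, b4, b5, b6⟩ := TRK_rng hI hC h' hr'
  have cu := hC u' b5
  have cv := hC v' b6
  intro hL
  rcases (q_LKC _ _ _ _).1 hL with ⟨l1, l2⟩ | ⟨l1, l2⟩
  · have e1 := (h2.1 s u v u' a1 a2 a3 a4 cu.1 cu.2).1 l1
    rcases h2.2.1 s u v v' a1 a2 a3 a4 cv.1 cv.2 l2 with e2 | e2
    · linarith [e1.1]
    · exact hI.lam u v u' v' h h' ⟨e1.1, e1.2, e2⟩
  · have e1 := (h2.1 s u v v' a1 a2 a3 a4 cv.1 cv.2).1 l1
    rcases h2.2.1 s u v u' a1 a2 a3 a4 cu.1 cu.2 l2 with e2 | e2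
    · exact hI.lam u' v' u v h' h ⟨e2, e1.1, e1.2⟩
    · linarith [e1.2]

theorem TRK_A (h2 : Stmt_TRA) {C : Set ℝ} {s : ℝ} {I : Set (ℝ × ℝ)}
    (hI : Bis C s (s + 2 * Real.pi) I) (hC : ∀ k ∈ C, s ≤ k ∧ k ≤ s + 2 * Real.pi) {u v κ : ℝ}
    (h : (u, v) ∈ I) (hr : (u, v) ≠ (s, s + 2 * Real.pi)) (hκ : κ ∈ C)
    (hc : Ccw (Circle.exp u) (Circle.exp κ) (Circle.exp v)) :
    ∃ z, Ccw (Circle.exp u) z (Circle.exp v) ∧ (Circle.exp u, z) ∈ TRK_T s I ∧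
      (z, Circle.exp v) ∈ TRK_T s I := by
  obtain ⟨a1, a2, a3, a4, a5, a6⟩ := TRK_rng hI hC h hr
  have ck := hC κ hκ
  obtain ⟨k1, k2⟩ := (h2.1 s u v κ a1 a2 a3 a4 ck.1 ck.2).1 hc
  obtain ⟨c, hcC, c1, c2, c3, c4⟩ := hI.split u v κ h hκ k1 k2
  have cc := hC c hcC
  refine ⟨Circle.exp c, (h2.1 s u v c a1 a2 a3 a4 cc.1 cc.2).2 ⟨c1, c2⟩, ⟨u, c, c3, ?_, Or.inl rfl⟩,
    ⟨c, v, c4, ?_, Or.inl rfl⟩⟩
  · intro e
    have e1 := congrArg Prod.fst e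
    have e2 := congrArg Prod.snd e
    simp only at e1 e2
    linarith
  · intro e
    have e1 := congrArg Prod.fst e
    have e2 := congrArg Prod.snd e
    simp only at e1 e2
    linarith

theorem TRK_B (h2 : Stmt_TRA) {C : Set ℝ} {s : ℝ} {I : Set (ℝ × ℝ)}
    (hI : Bis C s (s + 2 * Real.pi) I) (hC : ∀ k ∈ C, s ≤ k ∧ k ≤ s + 2 * Real.pi) {u v κ : ℝ}
    (h : (u, v) ∈ I) (hr : (u, v) ≠ (s, s + 2 * Real.pi)) (hκ : κ ∈ C)
    (hc : Ccw (Circle.exp v) (Circle.exp κ) (Circle.exp u)) :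
    ∃ z, Ccw (Circle.exp v) z (Circle.exp u) ∧ (Circle.exp v, z) ∈ TRK_T s I ∧
      (z, Circle.exp u) ∈ TRK_T s I := by
  obtain ⟨a1, a2, a3, a4, a5, a6⟩ := TRK_rng hI hC h hr
  have hper : Circle.exp (s + 2 * Real.pi) = Circle.exp s := by
    rw [Circle.exp_add, Circle.exp_two_pi, mul_one]
  obtain ⟨w, ⟨w1, w2, w3⟩ | ⟨w1, w2, w3⟩⟩ := hI.parent u v h hr
  · have hnr : (w, u) ≠ (s, s + 2 * Real.pi) := by
      intro e
      have e2 := congrArg Prod.snd e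
      simp only at e2
      linarith
    by_cases hroot : (w, v) = (s, s + 2 * Real.pi)
    · have e1 : w = s := congrArg Prod.fst hroot
      have e2 : v = s + 2 * Real.pi := congrArg Prod.snd hroot
      have e3 : Circle.exp v = Circle.exp w := by rw [e1, e2, hper]
      rw [e3] at hc ⊢
      exact TRK_A h2 hI hC w2 hnr hκ hc
    · obtain ⟨b1, b2, b3, b4, b5, b6⟩ := TRK_rng hI hC w3 hroot
      have cw := hC w b5
      exact ⟨Circle.exp w, h2.2.2.1 s u v w a1 a2 a3 a4 cw.1 cw.2 (Or.inl ⟨w1, b4⟩),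
        ⟨w, v, w3, hroot, Or.inr rfl⟩, ⟨w, u, w2, hnr, Or.inl rfl⟩⟩
  · have hnr : (v, w) ≠ (s, s + 2 * Real.pi) := by
      intro e
      have e1 := congrArg Prod.fst e
      simp only at e1
      linarith
    by_cases hroot : (u, w) = (s, s + 2 * Real.pi)
    · have e1 : u = s := congrArg Prod.fst hroot
      have e2 : w = s + 2 * Real.pi := congrArg Prod.snd hroot
      have e3 : Circle.exp u = Circle.exp w := by rw [e1, e2, hper]
      rw [e3] at hc ⊢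
      exact TRK_A h2 hI hC w3 hnr hκ hc
    · obtain ⟨b1, b2, b3, b4, b5, b6⟩ := TRK_rng hI hC w2 hroot
      have cw := hC w b6
      exact ⟨Circle.exp w, h2.2.2.1 s u v w a1 a2 a3 a4 cw.1 cw.2 (Or.inr ⟨w1, b4⟩),
        ⟨v, w, w3, hnr, Or.inl rfl⟩, ⟨u, w, w2, hroot, Or.inr rfl⟩⟩

theorem TRK_lks {a b c d : Circle} (h : Link a b c d) :
    Link b a c d ∧ Link a b d c ∧ Link b a d c := by
  have h' := (q_LKC _ _ _ _).1 h
  refine ⟨(q_LKC _ _ _ _).2 ?_, (q_LKC _ _ _ _).2 ?_, (q_LKC _ _ _ _).2 ?_⟩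
  · rcases h' with ⟨x, y⟩ | ⟨x, y⟩
    · exact Or.inr ⟨y, x⟩
    · exact Or.inl ⟨y, x⟩
  · rcases h' with ⟨x, y⟩ | ⟨x, y⟩
    · exact Or.inr ⟨x, y⟩
    · exact Or.inl ⟨x, y⟩
  · rcases h' with ⟨x, y⟩ | ⟨x, y⟩
    · exact Or.inl ⟨y, x⟩
    · exact Or.inr ⟨y, x⟩

theorem p_TRK (h1 : Stmt_BIS) (h2 : Stmt_TRA) : Stmt_TRK := by
  intro K hK hne
  obtain ⟨x₀, hx₀⟩ := hne
  obtain ⟨θ₀, hθ₀, -, -⟩ := q_CUT 0
  set s : ℝ := θ₀ x₀ with hs
  have hs0 : Circle.exp s = x₀ := (hθ₀ x₀).2.2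
  have hper : ∀ t : ℝ, Circle.exp (t + 2 * Real.pi) = Circle.exp t := by
    intro t
    rw [Circle.exp_add, Circle.exp_two_pi, mul_one]
  have hpi := Real.pi_pos
  set C : Set ℝ := {t | s ≤ t ∧ t ≤ s + 2 * Real.pi ∧ Circle.exp t ∈ K} with hCdef
  have hCc : IsClosed C := by
    have e : C = Set.Icc s (s + 2 * Real.pi) ∩ Circle.exp ⁻¹' K := by
      ext t
      simp only [hCdef, Set.mem_ofPred_eq, Set.mem_inter_iff, Set.mem_Icc, Set.mem_preimage]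
      tauto
    rw [e]
    exact isClosed_Icc.inter (hK.preimage Circle.exp.continuous)
  have hsC : s ∈ C := ⟨le_refl _, by linarith, by rw [hs0]; exact hx₀⟩
  have hsC' : s + 2 * Real.pi ∈ C := ⟨by linarith, le_refl _, by rw [hper, hs0]; exact hx₀⟩
  have hC : ∀ k ∈ C, s ≤ k ∧ k ≤ s + 2 * Real.pi := fun k hk => ⟨hk.1, hk.2.1⟩
  obtain ⟨I, hI⟩ := h1 C s (s + 2 * Real.pi) hCc hsC hsC' (by linarith) hC
  obtain ⟨θ, hθ1, hθ2, hθ3⟩ := q_CUT s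
  -- each point of `K` has a coordinate in `C`
  have hcoord : ∀ k ∈ K, ∃ κ ∈ C, Circle.exp κ = k := by
    intro k hk
    exact ⟨θ k, ⟨(hθ1 k).1, (hθ1 k).2.1.le, by rw [(hθ1 k).2.2]; exact hk⟩, (hθ1 k).2.2⟩
  refine ⟨TRK_T s I, ?_, ?_, ?_, ?_, ?_, ?_, ?_⟩
  · rintro x y ⟨u, v, h, hr, e⟩
    refine ⟨u, v, h, hr, ?_⟩
    rcases e with e | e
    · right
      rw [Prod.mk.injEq] at e
      rw [e.1, e.2]
    · left
      rw [Prod.mk.injEq] at e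
      rw [e.1, e.2]
  · rintro x y ⟨u, v, h, hr, e⟩
    obtain ⟨a1, a2, a3, a4, a5, a6⟩ := TRK_rng hI hC h hr
    have hne := h2.2.2.2.2 u v a2 a4
    rcases e with e | e
    · rw [Prod.mk.injEq] at e
      rw [e.1, e.2]
      exact hne
    · rw [Prod.mk.injEq] at e
      rw [e.1, e.2]
      exact hne.symm
  · rintro x y ⟨u, v, h, hr, e⟩
    obtain ⟨a1, a2, a3, a4, a5, a6⟩ := TRK_rng hI hC h hr
    rcases e with e | e
    · rw [Prod.mk.injEq] at e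
      rw [e.1, e.2]
      exact ⟨a5.2.2, a6.2.2⟩
    · rw [Prod.mk.injEq] at e
      rw [e.1, e.2]
      exact ⟨a6.2.2, a5.2.2⟩
  · rintro x y z w ⟨u, v, h, hr, e⟩ ⟨u', v', h', hr', e'⟩ hL
    have key := TRK_unl h2 hI hC h hr h' hr'
    have hs := TRK_lks hL
    rcases e with e | e <;> rcases e' with e' | e' <;> rw [Prod.mk.injEq] at e e' <;>
      rw [e.1, e.2, e'.1, e'.2] at hL hs
    · exact key hL
    · exact key hs.2.1
    · exact key hs.1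
    · exact key hs.2.2
  · rintro x y k ⟨u, v, h, hr, e⟩ hk hc
    obtain ⟨κ, hκ, rfl⟩ := hcoord k hk
    rcases e with e | e
    · rw [Prod.mk.injEq] at e
      rw [e.1, e.2] at hc ⊢
      exact TRK_A h2 hI hC h hr hκ hc
    · rw [Prod.mk.injEq] at e
      rw [e.1, e.2] at hc ⊢
      exact TRK_B h2 hI hC h hr hκ hc
  · rintro p q ⟨hp, hq, hpq, hg⟩
    -- coordinates
    obtain ⟨u, hu1, hu2, hu3, hu4⟩ : ∃ u, s ≤ u ∧ u < s + 2 * Real.pi ∧ Circle.exp u = p ∧ u ∈ C :=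
      ⟨θ p, (hθ1 p).1, (hθ1 p).2.1, (hθ1 p).2.2,
        ⟨(hθ1 p).1, (hθ1 p).2.1.le, by rw [(hθ1 p).2.2]; exact hp⟩⟩
    obtain ⟨v, hv1, hv2, hv3, hv4⟩ : ∃ v, s < v ∧ v ≤ s + 2 * Real.pi ∧ Circle.exp v = q ∧ v ∈ C := by
      rcases eq_or_lt_of_le (hθ1 q).1 with e | e
      · refine ⟨s + 2 * Real.pi, by linarith, le_refl _, ?_, hsC'⟩
        rw [hper]
        conv_rhs => rw [← (hθ1 q).2.2, ← e]
      · exact ⟨θ q, e, (hθ1 q).2.1.le, (hθ1 q).2.2,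
          ⟨(hθ1 q).1, (hθ1 q).2.1.le, by rw [(hθ1 q).2.2]; exact hq⟩⟩
    have huv : u < v := by
      by_contra hn
      push Not at hn
      have hne : v ≠ u := by
        intro e
        rw [e, hu3] at hv3
        exact hpq hv3
      have hlt : v < u := lt_of_le_of_ne hn hne
      have := q_ANG.1 u (s + 2 * Real.pi) (v + 2 * Real.pi) hu2 (by linarith) (by linarith)
      rw [hper, hper, hu3, hv3, hs0] at this
      exact hg x₀ hx₀ this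
    have hr : (u, v) ≠ (s, s + 2 * Real.pi) := by
      intro e
      have e1 : u = s := congrArg Prod.fst e
      have e2 : v = s + 2 * Real.pi := congrArg Prod.snd e
      apply hpq
      rw [← hu3, ← hv3, e1, e2, hper]
    have hI' : (u, v) ∈ I := by
      apply hI.gap u v hu4 hv4 huv
      rintro k hk ⟨k1, k2⟩
      have hlt : v < u + 2 * Real.pi := by
        by_contra hn
        push Not at hn
        apply hr
        have e1 : u = s := by linarith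
        have e2 : v = s + 2 * Real.pi := by linarith
        rw [e1, e2]
      have := (h2.1 s u v k hu1 huv hv2 hlt hk.1 hk.2.1).2 ⟨k1, k2⟩
      rw [hu3, hv3] at this
      exact hg _ hk.2.2 this
    exact ⟨u, v, hI', hr, Or.inl (by rw [hu3, hv3])⟩
  · intro ε hε
    have hfin := hI.fin ε hε
    refine ((hfin.image (fun e : ℝ × ℝ => (Circle.exp e.1, Circle.exp e.2))).union
      (hfin.image (fun e : ℝ × ℝ => (Circle.exp e.2, Circle.exp e.1)))).subset ?_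
    rintro ⟨x, y⟩ ⟨⟨u, v, h, hr, e⟩, hd⟩
    obtain ⟨a1, a2, a3, a4, a5, a6⟩ := TRK_rng hI hC h hr
    have hdist := h2.2.2.2.1 u v a2.le
    rcases e with e | e
    · left
      rw [Prod.mk.injEq] at e
      simp only [e.1, e.2] at hd ⊢
      exact ⟨(u, v), ⟨h, by simpa using hd.trans hdist⟩, rfl⟩
    · right
      rw [Prod.mk.injEq] at e
      simp only [e.1, e.2] at hd ⊢
      rw [dist_comm] at hd
      exact ⟨(u, v), ⟨h, by simpa using hd.trans hdist⟩, rfl⟩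

end Pool.TZ
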