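import Pool.Agent.Work.MP_ae1ff6_tz.InterfaceX

open Topology Filter Set
open scoped ComplexConjugate

set_option autoImplicit false

namespace Pool.TZ

open Pool.CG Pool.AR Pool.SH

/-- the distance of a segment in the open disc from a point of the circle -/
theorem XDS_seg (a b : ℂ) (ha : ‖a‖ < 1) (hb : ‖b‖ < 1) (z : Circle) :
    ∃ ε : ℝ, 0 < ε ∧ ∀ u ∈ segment ℝ a b, ε ≤ dist u (z : ℂ) := by
  refine ⟨1 - max ‖a‖ ‖b‖, by have := max_lt ha hb; linarith, ?_⟩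
  intro u hu
  have h1 : segment ℝ a b ⊆ Metric.closedBall (0 : ℂ) (max ‖a‖ ‖b‖) := by
    refine (convex_closedBall (0 : ℂ) (max ‖a‖ ‖b‖)).segment_subset ?_ ?_
    · rw [mem_closedBall_zero_iff]; exact le_max_left _ _
    · rw [mem_closedBall_zero_iff]; exact le_max_right _ _
  have h2 := h1 hu
  rw [mem_closedBall_zero_iff] at h2
  have h3 : ‖(z : ℂ)‖ - ‖u‖ ≤ ‖(z : ℂ) - u‖ := norm_sub_norm_le _ _
  rw [Circle.norm_coe] at h3
  rw [dist_comm, dist_eq_norm]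
  linarith

theorem p_XDS : Stmt_XDS := by
  intro Γ V A π ξ hG hF hE v hv z hz
  have hV : ∀ k : ℕ, π^[k] v ∈ V := by
    intro k
    induction k with
    | zero => exact hv
    | succ k ih =>
      rw [Function.iterate_succ_apply']
      exact (hG.adj _ _ (hF.adj _ ih)).2.1
  have hne : (z : ℂ) ≠ (ξ v : ℂ) := fun h => hz (Circle.ext h)
  have hr : 0 < dist (z : ℂ) (ξ v : ℂ) := dist_pos.2 hne
  have hlim := (Metric.tendsto_atTop.1 (hE v hv)) (dist (z : ℂ) (ξ v : ℂ) / 2) (by linarith)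
  obtain ⟨N, hN⟩ := hlim
  have hsmall : ∀ n : ℕ, ∃ ε : ℝ, 0 < ε ∧ ∀ k < n, ∀ u ∈ segment ℝ (π^[k] v) (π^[k + 1] v),
      ε ≤ dist u (z : ℂ) := by
    intro n
    induction n with
    | zero => exact ⟨1, one_pos, fun k hk => absurd hk (Nat.not_lt_zero k)⟩
    | succ n ih =>
      obtain ⟨ε, hε, h⟩ := ih
      obtain ⟨δ, hδ, h'⟩ := XDS_seg (π^[n] v) (π^[n + 1] v) (hG.sub _ (hV n)) (hG.sub _ (hV (n + 1))) z
      refine ⟨min ε δ, lt_min hε hδ, ?_⟩
      intro k hk u hu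
      rcases Nat.lt_succ_iff_lt_or_eq.1 hk with hk | rfl
      · exact le_trans (min_le_left _ _) (h k hk u hu)
      · exact le_trans (min_le_right _ _) (h' u hu)
  obtain ⟨ε, hε, h⟩ := hsmall N
  refine ⟨min ε (dist (z : ℂ) (ξ v : ℂ) / 2), lt_min hε (by linarith), ?_⟩
  intro u hu
  obtain ⟨k, hk⟩ := Set.mem_iUnion.1 hu
  rcases lt_or_ge k N with hkN | hkN
  · exact le_trans (min_le_left _ _) (h k hkN u hk)
  · have h1 : segment ℝ (π^[k] v) (π^[k + 1] v) ⊆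
        Metric.ball (ξ v : ℂ) (dist (z : ℂ) (ξ v : ℂ) / 2) := by
      refine (convex_ball _ _).segment_subset ?_ ?_
      · exact hN k hkN
      · exact hN (k + 1) (by omega)
    have h2 : dist u (ξ v : ℂ) < dist (z : ℂ) (ξ v : ℂ) / 2 := h1 hk
    have h3 : dist (z : ℂ) (ξ v : ℂ) ≤ dist (z : ℂ) u + dist u (ξ v : ℂ) := dist_triangle _ _ _
    rw [dist_comm (z : ℂ) u] at h3
    refine le_trans (min_le_right _ _) ?_
    linarith

end Pool.TZ
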