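import Pool.Agent.Work.MP_ae1ff6_sh.InterfaceZ

/-!
# Invariant ideal triangulations (MP_ae1ff6_gt): definitions

Aim (THEOREM TZ): each torsion free Fuchsian group `Γ` of the first kind which is not finitely generated
preserves an ideal triangulation of the disc. The Klein disc is the unit disc `{k : ℂ | ‖k‖ < 1}` with
straight lines as geodesics; `Γ` acts on the closed unit disc by `act`. `Ccw a b c`: `a`, `b`, `c` are
different points of the circle in counterclockwise order.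
-/

open Topology Filter Set
open scoped ComplexConjugate

set_option autoImplicit false

namespace Pool.TZ

open Pool.CG Pool.AR Pool.SH

/-! ### The Klein disc -/

/-- numerator of the action of the Möbius map with the parameters `α`, `β` on the Klein disc -/
noncomputable def kN (α β k : ℂ) : ℂ := α ^ 2 * k + β ^ 2 * conj k + 2 * α * β

/-- denominator of the action -/
noncomputable def kD (α β k : ℂ) : ℝ := ‖α‖ ^ 2 + ‖β‖ ^ 2 + 2 * (α * conj β * k).re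

open Classical in
/-- the action of a Möbius map `g` on the closed Klein disc (the identity if `g` is not Möbius) -/
noncomputable def act (g : H) (k : ℂ) : ℂ :=
  if h : ∃ x : ℂ × ℂ, Par g x.1 x.2 then kN h.choose.1 h.choose.2 k / (kD h.choose.1 h.choose.2 k : ℂ)
  else k

/-- the hyperbolic cosine of the hyperbolic distance of two points of the Klein disc -/
noncomputable def ch (k l : ℂ) : ℝ := (1 - (k * conj l).re) / √((1 - ‖k‖ ^ 2) * (1 - ‖l‖ ^ 2))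

/-- the side of `k` with respect to the line from `p` to `q`; for `k` on the circle it is positive if and
only if `Ccw p q k`, it is zero on the line -/
noncomputable def sd (p q : Circle) (k : ℂ) : ℝ := (conj ((q : ℂ) - (p : ℂ)) * (k - (p : ℂ))).im

/-! ### The net (parts A, B) -/

/-- a `Γ`-invariant, locally finite, dense set of points of the disc -/
structure Net0 (Γ : Subgroup H) (X : Set ℂ) : Prop where
  sub : ∀ x ∈ X, ‖x‖ < 1
  inv : ∀ γ ∈ Γ, ∀ x ∈ X, act γ x ∈ X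
  fin : ∀ r : ℝ, r < 1 → {x : ℂ | x ∈ X ∧ ‖x‖ ≤ r}.Finite
  dense : ∀ z : ℂ, ‖z‖ < 1 → ∃ x ∈ X, ch z x < 3 / 2

/-! ### The graph (part C) -/

/-- a `Γ`-invariant locally finite connected planar graph with straight edges in the disc, with the set of
vertices `V` and the adjacency relation `A` -/
structure Gr (Γ : Subgroup H) (V : Set ℂ) (A : ℂ → ℂ → Prop) : Prop where
  sub : ∀ v ∈ V, ‖v‖ < 1
  adj : ∀ x y, A x y → x ∈ V ∧ y ∈ V ∧ x ≠ y
  symm : ∀ x y, A x y → A y x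
  invV : ∀ γ ∈ Γ, ∀ v ∈ V, act γ v ∈ V
  invA : ∀ γ ∈ Γ, ∀ x y, A x y → A (act γ x) (act γ y)
  finV : ∀ r : ℝ, r < 1 → {v : ℂ | v ∈ V ∧ ‖v‖ ≤ r}.Finite
  finA : ∀ r : ℝ, r < 1 → {e : ℂ × ℂ | A e.1 e.2 ∧ ∃ u ∈ segment ℝ e.1 e.2, ‖u‖ ≤ r}.Finite
  planar : ∀ x y x' y' u, A x y → A x' y' → u ∈ segment ℝ x y → u ∈ segment ℝ x' y' →
    x = x' ∨ x = y' ∨ y = x' ∨ y = y'
  conn : ∀ x ∈ V, ∀ y ∈ V, Relation.ReflTransGen A x y
  deep : ∀ z : ℂ, ‖z‖ < 1 → ∃ v ∈ V, ch z v < 3 / 2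

/-! ### The forest (part D) -/

/-- an equivariant map `π` from the vertices to adjacent vertices with finitely many ancestors for each
vertex, such that the forward orbits leave each finite set of vertices of `V / Γ` -/
structure Fo (Γ : Subgroup H) (V : Set ℂ) (A : ℂ → ℂ → Prop) (π : ℂ → ℂ) : Prop where
  adj : ∀ v ∈ V, A v (π v)
  equiv : ∀ γ ∈ Γ, ∀ v ∈ V, π (act γ v) = act γ (π v)
  anc : ∀ w ∈ V, {v : ℂ | v ∈ V ∧ ∃ k : ℕ, π^[k] v = w}.Finite
  leave : ∀ v ∈ V, ∀ w ∈ V, {k : ℕ | ∃ γ ∈ Γ, π^[k] v = act γ w}.Finite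

/-! ### The ends of the rays (part E) -/

/-- `ξ v` is the limit of the forward orbit of `v` -/
def Ends (V : Set ℂ) (π : ℂ → ℂ) (ξ : ℂ → Circle) : Prop :=
  ∀ v ∈ V, Tendsto (fun k : ℕ => π^[k] v) atTop (𝓝 ((ξ v : Circle) : ℂ))

/-- the pairs of different ends of adjacent vertices -/
def EE (A : ℂ → ℂ → Prop) (ξ : ℂ → Circle) : Set (Circle × Circle) :=
  {e | e.1 ≠ e.2 ∧ ∃ x y, A x y ∧ ξ x = e.1 ∧ ξ y = e.2}

/-- a `Γ`-invariant locally finite set `E` of lines which do not cross, with the property that the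
regions have trivial stabilizers in `Γ` -/
structure CutS (Γ : Subgroup H) (E : Set (Circle × Circle)) : Prop where
  symm : ∀ p q, (p, q) ∈ E → (q, p) ∈ E
  ne : ∀ p q, (p, q) ∈ E → p ≠ q
  unlinked : ∀ x y z w, (x, y) ∈ E → (z, w) ∈ E → ¬ Link x y z w
  fin : LocFin E
  nonempty : E.Nonempty
  keep : Keeps Γ E
  triv : ∀ K, Reg E K → ∀ γ ∈ Γ, (γ : H) '' K = K → γ = 1

/-! ### The main statements between the parts -/

/-- part A, B, C: the graph -/
def Stmt_GRA : Prop :=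
  ∀ Γ : Subgroup H, FirstKind Γ → (∀ γ ∈ Γ, ∀ n : ℕ, 0 < n → γ ^ n = 1 → γ = 1) →
    ∃ (V : Set ℂ) (A : ℂ → ℂ → Prop), Gr Γ V A

/-- part D: the forest -/
def Stmt_FOR : Prop :=
  ∀ (Γ : Subgroup H) (V : Set ℂ) (A : ℂ → ℂ → Prop), FirstKind Γ →
    (∀ γ ∈ Γ, ∀ n : ℕ, 0 < n → γ ^ n = 1 → γ = 1) → ¬ Group.FG Γ → Gr Γ V A →
    ∃ π : ℂ → ℂ, Fo Γ V A π

/-- part E: the cut system -/
def Stmt_CTS : Prop :=
  ∀ (Γ : Subgroup H) (V : Set ℂ) (A : ℂ → ℂ → Prop) (π : ℂ → ℂ), FirstKind Γ →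
    (∀ γ ∈ Γ, ∀ n : ℕ, 0 < n → γ ^ n = 1 → γ = 1) → Gr Γ V A → Fo Γ V A π →
    ∃ E : Set (Circle × Circle), CutS Γ E

/-- part F: completion to an ideal triangulation -/
def Stmt_CPL : Prop :=
  ∀ (Γ : Subgroup H) (E : Set (Circle × Circle)), FirstKind Γ → CutS Γ E →
    ∃ T₀ : Set (Circle × Circle), Tri T₀ ∧ Keeps Γ T₀

/-- THEOREM TZ -/
def Stmt_TZ : Prop :=
  ∀ Γ : Subgroup H, FirstKind Γ → (∀ γ ∈ Γ, ∀ n : ℕ, 0 < n → γ ^ n = 1 → γ = 1) → ¬ Group.FG Γ →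
    ∃ T₀ : Set (Circle × Circle), Tri T₀ ∧ Keeps Γ T₀

theorem tz_assemble (h1 : Stmt_GRA) (h2 : Stmt_FOR) (h3 : Stmt_CTS) (h4 : Stmt_CPL) : Stmt_TZ := by
  intro Γ hΓ ht hf
  obtain ⟨V, A, hG⟩ := h1 Γ hΓ ht
  obtain ⟨π, hF⟩ := h2 Γ V A hΓ ht hf hG
  obtain ⟨E, hE⟩ := h3 Γ V A π hΓ ht hG hF
  exact h4 Γ E hΓ hE

end Pool.TZ
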