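import Pool.Agent.Work.MP_ae1ff6_fo.AllF
import Pool.Agent.Work.MP_ae1ff6_tz.AllT

/-!
# Mapping classes realized by hyperbolic isometries (MP_ae1ff6_gt): surfaces of infinite type

`S = 𝔻 / Γ`, `Γ` a torsion free Fuchsian group of the first kind which is not finitely generated. By
`q_TZ` the group `Γ` preserves an ideal triangulation of the disc, so the theorem `Pool.FOX.main` applies.
-/

set_option autoImplicit false

namespace Pool.TZ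

open Pool.CG Pool.AR Pool.SH

/-- the theorem for all surfaces of infinite type -/
theorem final :
    ∀ (Γ : Subgroup H) (f : H), FirstKind Γ →
      (∀ γ ∈ Γ, ∀ n : ℕ, 0 < n → γ ^ n = 1 → γ = 1) → ¬ Group.FG Γ → Ori f →
      (∀ γ, γ ∈ Γ ↔ f * γ * f⁻¹ ∈ Γ) →
      (RealizedM (Γ ⊔ Subgroup.zpowers f) ↔ (∃ n : ℕ, 0 < n ∧ f ^ n ∈ Γ) ∨
        ∀ γ ∈ Γ, ∀ p q : Circle, Axis γ p q →
          {n : ℤ | ∃ κ ∈ Γ, Link ((κ * f ^ n) p) ((κ * f ^ n) q) p q}.Finite) ∧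
      (RealizedW (Γ ⊔ Subgroup.zpowers f) ↔ (∃ n : ℕ, 0 < n ∧ f ^ n ∈ Γ) ∨
        ∀ γ ∈ Γ, ∀ p q : Circle, Axis γ p q →
          {n : ℤ | ∃ κ ∈ Γ, Link ((κ * f ^ n) p) ((κ * f ^ n) q) p q}.Finite) := by
  intro Γ f hΓ ht hfg hf hn
  obtain ⟨T₀, hT, hK⟩ := q_TZ Γ hΓ ht hfg
  exact Pool.FOX.main Γ f T₀ hΓ ht hT hK hf hn

end Pool.TZ
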