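import Pool.Agent.Work.MP_ae1ff6_tz.InterfaceS

/-!
# Invariant ideal triangulations (MP_ae1ff6_gt): parts A, B, C (Klein disc, net, graph)

Block `X`: file `Pool/Agent/Work/MP_ae1ff6_tz/B_X.lean`, `import Pool.Agent.Work.MP_ae1ff6_tz.InterfaceA`,
`namespace Pool.TZ`, the `open` lines of this file, `theorem p_X (h1 : Stmt_Y) .. : Stmt_X` with exactly the
blocks of the column `uses`, in this order, as hypotheses; auxiliary lemmas with the prefix `X_`. Proved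
facts: `Pool.GC.mb1 : Stmt_MB1` (`mb1.1 g : IsMob g ↔ ∃ α β, Par g α β`), `Pool.GC.mb2 : Stmt_MB2` (products,
inverses, the identity), `Pool.GC.pig : Stmt_PIG`. `H = Circle ≃ₜ Circle` is a group, `(g * h) z = g (h z)`
by `rfl`.
-/

open Topology Filter Set
open scoped ComplexConjugate

set_option autoImplicit false

namespace Pool.TZ

open Pool.CG Pool.AR Pool.SH

/-! ### Part A: the action on the Klein disc -/

/-- KPP (40 lines). With `a = ‖α‖`, `b = ‖β‖`: `kD ≥ a ^ 2 + b ^ 2 - 2 a b = (a - b) ^ 2 > 0` (`a > b`, as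
`a ^ 2 - b ^ 2 = 1`; `|(α conj β k).re| ≤ ‖α‖ ‖β‖ ‖k‖`). The second formula: write everything as complex numbers
(`(‖z‖ ^ 2 : ℂ) = z * conj z`, `2 re z = z + conj z`): `kD ^ 2 - kN conj kN
= (α conj α - β conj β) ^ 2 (1 - k conj k)` is a polynomial identity (`ring`); or with real and imaginary
parts. -/
def Stmt_KPP : Prop :=
  ∀ α β k : ℂ, ‖α‖ ^ 2 - ‖β‖ ^ 2 = 1 → (‖k‖ ≤ 1 → 0 < kD α β k) ∧
    kD α β k ^ 2 - ‖kN α β k‖ ^ 2 = 1 - ‖k‖ ^ 2

/-- KPB (40 lines): polynomial identities as in KPP, with real and imaginary parts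
(`α = a + b i`, .., `nlinarith` is not needed: the difference of the two sides is a multiple of
`‖α‖ ^ 2 - ‖β‖ ^ 2 - 1`; first prove the identity with the factor `(‖α‖ ^ 2 - ‖β‖ ^ 2) ^ 2` resp.
`(‖α‖ ^ 2 - ‖β‖ ^ 2) ^ 3` on the right side by `ring`, then rewrite). The left side of the second identity is
the determinant of the three vectors `(kD, re kN, im kN)`, the right side of `(1, re, im)`:
`det (d, n) = Im (conj (dp nq - dq np) (dp nk - dk np)) / dp` for `dp ≠ 0`; so it is stated without division: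
`Im (conj nq nk) dp + Im (conj nk np) dq + Im (conj np nq) dk`. -/
def Stmt_KPB : Prop :=
  ∀ α β : ℂ, ‖α‖ ^ 2 - ‖β‖ ^ 2 = 1 →
    (∀ k l : ℂ, kD α β k * kD α β l - (kN α β k * conj (kN α β l)).re = 1 - (k * conj l).re) ∧
    ∀ p q k : ℂ, (conj (kN α β q) * kN α β k).im * kD α β p + (conj (kN α β k) * kN α β p).im * kD α β q +
      (conj (kN α β p) * kN α β q).im * kD α β k = (conj (q - p) * (k - p)).im

/-- KPC (50 lines): composition. For the real number `d = kD α' β' k ≠ 0` and `n = kN α' β' k`: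
`d * kN α β (n / d) = α ^ 2 n + β ^ 2 conj n + 2 α β d` and `d * kD α β (n / d) = (‖α‖ ^ 2 + ‖β‖ ^ 2) d +
2 re (α conj β n)` (`conj (n / d) = conj n / d`), and these are the polynomials
`kN (α α' + β conj β') (α β' + β conj α') k` and `kD ..`: complex `ring` after
`(‖α‖ ^ 2 : ℂ) = α * conj α` and `(2 re z : ℂ) = z + conj z`. -/
def Stmt_KPC : Prop :=
  ∀ α β α' β' k : ℂ, kD α' β' k ≠ 0 →
    (kD α' β' k : ℂ) * kN α β (kN α' β' k / (kD α' β' k : ℂ)) =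
      kN (α * α' + β * conj β') (α * β' + β * conj α') k ∧
    kD α' β' k * kD α β (kN α' β' k / (kD α' β' k : ℂ)) =
      kD (α * α' + β * conj β') (α * β' + β * conj α') k

/-- KPA (30 lines): `kN α β` and `kD α β` are affine over `ℝ` (expand); on the circle (`k conj k = 1`)
`kN k (conj β k + conj α) = (α k + β) kD k`: `kN k = conj k (α k + β) ^ 2`, and
`kD k = conj k (α k + β) (conj α + conj β k)` as a complex number. -/
def Stmt_KPA : Prop :=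
  (∀ (α β k l : ℂ) (s t : ℝ), s + t = 1 →
    kN α β (s • k + t • l) = s • kN α β k + t • kN α β l ∧
    kD α β (s • k + t • l) = s * kD α β k + t * kD α β l) ∧
  ∀ α β k : ℂ, ‖k‖ = 1 → kN α β k * (conj β * k + conj α) = (α * k + β) * (kD α β k : ℂ)

/-- ACW (70 lines): `act` does not depend on the choice of the parameters. Proof. Let `Par g α β` and
`Par g α' β'`. `mb2`: `Par (g⁻¹ * g') a b` with `g' = g`, `a = conj α α' - β conj β'`,
`b = conj α β' - β conj α'`, so `Par 1 a b`. Then `conj b z ^ 2 + (conj a - a) z - b = 0` for all `z` on the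
circle; for `z = 1, -1, i`: `conj b - b + (conj a - a) = 0`, `conj b - b - (conj a - a) = 0`,
`- conj b - b + i (conj a - a) = 0`, so `conj a = a`, `conj b = b` and `b = 0`; `‖a‖ ^ 2 = 1`, `a` real:
`a = 1` or `a = -1`. And `α' = α a + β conj b = a α`, `β' = α b + β conj a = a β` (use
`α conj α - β conj β = 1`). `kN` and `kD` do not change if `(α, β)` is replaced by `(-α, -β)`. -/
def Stmt_ACW : Prop :=
  ∀ (g : H) (α β : ℂ), Par g α β → ∀ k : ℂ, act g k = kN α β k / (kD α β k : ℂ)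

/-- AC1 (30 lines; uses ACW KPP KPA): (1) from the last formula of KPA: `act g z = kN z / kD z
= (α z + β) / (conj β z + conj α) = g z` (`Par`; denominators are not zero by `mb1.2` and KPP). (2)
`‖act g k‖ ^ 2 = ‖kN‖ ^ 2 / kD ^ 2 = 1 - (1 - ‖k‖ ^ 2) / kD ^ 2`. -/
def Stmt_AC1 : Prop :=
  (∀ g : H, IsMob g → ∀ z : Circle, act g (z : ℂ) = ((g z : Circle) : ℂ)) ∧
  ∀ g : H, IsMob g → ∀ k : ℂ, (‖k‖ < 1 → ‖act g k‖ < 1) ∧ (‖k‖ ≤ 1 → ‖act g k‖ ≤ 1)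

/-- AC2 (30 lines; uses ACW KPP KPC): `mb2.1` gives the parameters of `g * g'`; KPC:
`kN'' / kD'' = kN α β (act g' k) / kD α β (act g' k)` (`kD' k > 0`; cancel it). `act 1 k = k`:
`Par 1 1 0`, `kN 1 0 k = k`, `kD 1 0 k = 1`. -/
def Stmt_AC2 : Prop :=
  (∀ g g' : H, IsMob g → IsMob g' → ∀ k : ℂ, ‖k‖ ≤ 1 → act (g * g') k = act g (act g' k)) ∧
  ∀ k : ℂ, ‖k‖ ≤ 1 → act 1 k = k

/-- AC3 (20 lines; uses ACW KPP): continuity: quotient of continuous functions, `kD ≠ 0` on the closed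
disc. -/
def Stmt_AC3 : Prop := ∀ g : H, IsMob g → ContinuousOn (act g) (Metric.closedBall 0 1)

/-- AC4 (60 lines; uses ACW KPP KPA AC1 AC2). `⊆`: let `u = s k + t l`, `s, t ≥ 0`, `s + t = 1`, `D = kD u =
s kD k + t kD l > 0`; `act g u = (s kN k + t kN l) / D = (s kD k / D) act g k + (t kD l / D) act g l`, a convex
combination. `⊇`: let `v ∈ segment (act g k) (act g l)`; by `⊆` for `g⁻¹` (Möbius by `mb2.2.1`) and the two points
`act g k`, `act g l` (in the closed disc, AC1), `act g⁻¹ v ∈ segment k l` (`act g⁻¹ (act g k) = act 1 k = k`,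
AC2), and `act g (act g⁻¹ v) = v` (`‖v‖ ≤ 1`: the closed disc is convex). -/
def Stmt_AC4 : Prop :=
  ∀ g : H, IsMob g → ∀ k l : ℂ, ‖k‖ ≤ 1 → ‖l‖ ≤ 1 →
    act g '' segment ℝ k l = segment ℝ (act g k) (act g l)

/-- AC5 (50 lines; uses ACW KPP KPB). `1 - re (act g k conj (act g l)) = (1 - re (k conj l)) / (kD k kD l)` by the
first formula of KPB, and `1 - ‖act g k‖ ^ 2 = (1 - ‖k‖ ^ 2) / kD k ^ 2` by KPP; so the square root in `ch` is
divided by `kD k kD l > 0` too (`Real.sqrt_div`, `Real.sqrt_sq`; or compare `√(x / c ^ 2) = √x / c`). -/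
def Stmt_AC5 : Prop :=
  ∀ g : H, IsMob g → ∀ k l : ℂ, ‖k‖ < 1 → ‖l‖ < 1 → ch (act g k) (act g l) = ch k l

/-- AC6 (50 lines; uses ACW KPP KPB AC1). `(g p : ℂ) = act g p = kN p / kD p`. `c = 1 / (kD p kD q kD k)`; the
second formula of KPB: with `P = kN p / kD p` and so on,
`Im (conj (Q - P) (K - P)) = Im (conj Q K) + Im (conj K P) + Im (conj P Q)` (as `Im (conj P P) = 0`), and
`Im (conj Q K) = Im (conj (kN q) (kN k)) / (kD q kD k)` and so on. -/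
def Stmt_AC6 : Prop :=
  ∀ g : H, IsMob g → ∀ (p q : Circle) (k : ℂ), ‖k‖ ≤ 1 →
    ∃ c : ℝ, 0 < c ∧ sd (g p) (g q) (act g k) = c * sd p q k

/-! ### Part A: the function `ch` -/

/-- CH1 (40 lines). Symmetry: `(k * conj l).re = (l * conj k).re`. With `a = ‖k‖`, `b = ‖l‖ < 1`:
`(1 - re (k conj l)) ≥ 1 - a b > 0` and `(1 - a b) ^ 2 - (1 - a ^ 2) (1 - b ^ 2) = (a - b) ^ 2 ≥ 0`, so
`√((1 - a ^ 2) (1 - b ^ 2)) ≤ 1 - a b` (`Real.sqrt_le_iff`) and the square root is positive. `ch k k`: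
`√(x ^ 2) = x` for `x = 1 - ‖k‖ ^ 2`. Last claim (equality only for `k = l`): if `ch k l = 1` then
`1 - re (k conj l) = √.. ≤ 1 - a b ≤ 1 - re (k conj l)`: so `(a - b) ^ 2 = 0` and `re (k conj l) = a b = a ^ 2`,
`‖k - l‖ ^ 2 = a ^ 2 + b ^ 2 - 2 re (k conj l) = 0`. -/
def Stmt_CH1 : Prop :=
  (∀ k l : ℂ, ch k l = ch l k) ∧
  (∀ k l : ℂ, ‖k‖ < 1 → ‖l‖ < 1 → 1 ≤ ch k l) ∧
  (∀ k : ℂ, ‖k‖ < 1 → ch k k = 1) ∧
  ∀ k l : ℂ, ‖k‖ < 1 → ‖l‖ < 1 → ch k l = 1 → k = l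

/-- CH2 (60 lines). Let `K = 1 - ‖k‖ ^ 2`, `L = 1 - ‖l‖ ^ 2`, `M = 1 - ‖m‖ ^ 2` (all positive),
`a = ‖k - m‖`, `b = ‖l - m‖`. Claim: `M (1 - re (k conj l)) ≤ 2 (1 - re (k conj m)) (1 - re (m conj l))`; then
divide by `M √(K L) = √(K M) √(M L)`. Proof of the claim: `2 (1 - re (k conj m)) = a ^ 2 + M + K`,
`2 (1 - re (m conj l)) = b ^ 2 + M + L`, `2 (1 - re (k conj l)) = ‖k - l‖ ^ 2 + K + L ≤ (a + b) ^ 2 + K + L`,
and `(a ^ 2 + M + K) (b ^ 2 + M + L) = (a ^ 2 + M) (b ^ 2 + M) + K (b ^ 2 + M) + L (a ^ 2 + M) + K L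
≥ (a + b) ^ 2 M + K M + L M`, as `(a ^ 2 + M) (b ^ 2 + M) - (a + b) ^ 2 M = (a b - M) ^ 2`. -/
def Stmt_CH2 : Prop :=
  ∀ k l m : ℂ, ‖k‖ < 1 → ‖l‖ < 1 → ‖m‖ < 1 → ch k l ≤ 2 * ch k m * ch m l

/-- CH3 (70 lines). Let `m = s k + t l`, `s, t ≥ 0`, `s + t = 1`, `p = 1 - ‖k‖ ^ 2`, `q = 1 - ‖l‖ ^ 2`,
`w = 1 - re (k conj l) > 0`; `w ^ 2 ≥ p q` (proof of CH1). Then `1 - re (k conj m) = s p + t w` and
`1 - ‖m‖ ^ 2 = s ^ 2 p + t ^ 2 q + 2 s t w`. The claim `(s p + t w) / √(p (1 - ‖m‖ ^ 2)) ≤ w / √(p q)` is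
`(s p + t w) ^ 2 q ≤ w ^ 2 (s ^ 2 p + t ^ 2 q + 2 s t w)`, and the difference of the two sides is
`s ^ 2 p (w ^ 2 - p q) + 2 s t w (w ^ 2 - p q) ≥ 0`. -/
def Stmt_CH3 : Prop :=
  ∀ k l m : ℂ, ‖k‖ < 1 → ‖l‖ < 1 → m ∈ segment ℝ k l → ch k m ≤ ch k l

/-- CH4 (60 lines). Continuity: numerator and denominator are continuous, the denominator is not zero.
Properness: `1 - re (k conj l) ≥ 1 - r` and `√((1 - ‖k‖ ^ 2) (1 - ‖l‖ ^ 2)) ≤ √(1 - ‖l‖ ^ 2)` (`r ≥ 0` may be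
assumed, otherwise there is no `k`), so `1 - r ≤ R √(1 - ‖l‖ ^ 2)`, in particular `R > 0` (or there are no
such `k`, `l`), and `1 - ‖l‖ ^ 2 ≥ ((1 - r) / R) ^ 2`: `r' = √(1 - ((1 - r) / R) ^ 2)` (`Real.sqrt` of a number
`< 1` is `< 1`; it is `0` if the number is negative). If `R ≤ 0` take `r' = 0`. -/
def Stmt_CH4 : Prop :=
  (ContinuousOn (fun x : ℂ × ℂ => ch x.1 x.2) (Metric.ball 0 1 ×ˢ Metric.ball 0 1)) ∧
  ∀ r R : ℝ, r < 1 → ∃ r' : ℝ, r' < 1 ∧ ∀ k l : ℂ, ‖k‖ ≤ r → ‖l‖ < 1 → ch k l ≤ R → ‖l‖ ≤ r'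

-- CLO (30 lines; uses nothing; the statement is in `InterfaceS.lean`). Proof. For `a = a i`, `b = b i`:
-- `1 - re (a conj b) = ch a b √((1 - ‖a‖ ^ 2) (1 - ‖b‖ ^ 2)) ≤ C √(1 - ‖a‖ ^ 2) → 0` (`‖a‖ → 1`; `C ≥ 0` may be
-- assumed, replace `C` by `max C 0`), and `‖a - b‖ ^ 2 = ‖a‖ ^ 2 + ‖b‖ ^ 2 - 2 re (a conj b) ≤
-- 2 (1 - re (a conj b)) → 0`. So `b → z`.

-- PRD (70 lines; uses ACW KPP; the statement is in `InterfaceS.lean`). Proof. We may assume `0 ≤ r` (otherwise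
-- the set is empty). Let `g ∈ Γ`, `Par g α β` (`Pool.GC.mb1.1`), `‖k‖ ≤ r`, `‖act g k‖ ≤ r`. Then
-- `D = kD α β k ≥ (‖α‖ ^ 2 + ‖β‖ ^ 2) - 2 ‖α‖ ‖β‖ r ≥ (1 - r) (‖α‖ ^ 2 + ‖β‖ ^ 2) ≥ (1 - r) ‖β‖ ^ 2`
-- (`2 ‖α‖ ‖β‖ ≤ ‖α‖ ^ 2 + ‖β‖ ^ 2`), and `1 - r ^ 2 ≤ 1 - ‖act g k‖ ^ 2 = (1 - ‖k‖ ^ 2) / D ^ 2 ≤ 1 / D ^ 2` (ACW,
-- KPP), so `D ^ 2 (1 - r ^ 2) ≤ 1`, hence `‖β‖ ≤ R` with `R` depending only on `r`. The set of the `g ∈ Γ` which
-- have parameters with `‖β‖ ≤ R` is finite: `Pool.GC.pig` and `FirstKind.discrete` (copy `hfin` of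
-- `Pool/Agent/Work/MP_ae1ff6_gc/B_NCL.lean`).

-- FRE (30 lines; uses ACT PRD; the statement is in `InterfaceS.lean`). Proof. By induction `act (g ^ n) k = k`
-- for all `n : ℕ` (ACT 3, 4), so all `g ^ n` are in the finite set of PRD for `r = ‖k‖`. So `n ↦ g ^ n` is not
-- injective: `g ^ m = g ^ n`, `m < n`, so `g ^ (n - m) = 1` and `g = 1`.

/-! ### Part B: the net -/

/-- NTZ (100 lines; uses ACT CHF): a maximal set. Proof. `P X`: `X` is contained in the open disc, `X` is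
`Γ`-invariant, and `∀ x ∈ X, ∀ y ∈ X, ch x y < 3 / 2 → ∃ γ ∈ Γ, y = act γ x`. Zorn (`zorn_subset`): the union of
a chain satisfies `P`; so there is a maximal `X`. Density: let `‖z‖ < 1` and suppose `3 / 2 ≤ ch z x` for all
`x ∈ X`. Then `X ∪ {act γ z | γ ∈ Γ}` satisfies `P`: `ch (act γ z) x = ch z (act γ⁻¹ x) ≥ 3 / 2` (ACT 7, 3, 4),
two points of the orbit are `act γ z` and `act (γ' γ⁻¹) (act γ z) = act γ' z`. By maximality `z = act 1 z ∈ X`,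
but `ch z z = 1`. -/
def Stmt_NTZ : Prop :=
  ∀ Γ : Subgroup H, FirstKind Γ → ∃ X : Set ℂ, (∀ x ∈ X, ‖x‖ < 1) ∧ (∀ γ ∈ Γ, ∀ x ∈ X, act γ x ∈ X) ∧
    (∀ x ∈ X, ∀ y ∈ X, ch x y < 3 / 2 → ∃ γ ∈ Γ, y = act γ x) ∧
    ∀ z : ℂ, ‖z‖ < 1 → ∃ x ∈ X, ch z x < 3 / 2

/-- NTF (80 lines; uses CHF PRD): local finiteness. Proof. Let `K` be the closed ball with radius `r` (compact,
`ProperSpace ℂ`), `r ≥ 0`. Each `z ∈ K` has a neighbourhood `U` such that `X ∩ U ∩ K` is finite: by continuity of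
`ch` at `(z, z)` (CHF; `ch z z = 1 < 3 / 2`) there is an open `U ∋ z` with `ch x y < 3 / 2` for `x, y ∈ U` (in
the open disc); if `X ∩ U ∩ K` has a point `x₀`, then each of its points is `act γ x₀` with `γ ∈ Γ`,
`‖x₀‖ ≤ r`, `‖act γ x₀‖ ≤ r`, so `γ` is in the finite set of PRD. `IsCompact.elim_nhds_subcover` (or
`IsCompact.induction_on`): `X ∩ K` is finite. -/
def Stmt_NTF : Prop :=
  ∀ (Γ : Subgroup H) (X : Set ℂ), FirstKind Γ → (∀ x ∈ X, ‖x‖ < 1) →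
    (∀ x ∈ X, ∀ y ∈ X, ch x y < 3 / 2 → ∃ γ ∈ Γ, y = act γ x) →
    ∀ r : ℝ, r < 1 → {x : ℂ | x ∈ X ∧ ‖x‖ ≤ r}.Finite

/-! ### Part C: the graph -/

/-- the segments of the net: `x`, `y ∈ X` with `ch x y ≤ 9 / 2` -/
def Sg (X : Set ℂ) (x y : ℂ) : Prop := x ∈ X ∧ y ∈ X ∧ ch x y ≤ 9 / 2

/-- the vertices: the points which are the only common point of two segments (`x = y` is allowed, so the
points of `X` are vertices) -/
def VX (X : Set ℂ) : Set ℂ :=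
  {z | ∃ x y x' y' : ℂ, Sg X x y ∧ Sg X x' y' ∧ segment ℝ x y ∩ segment ℝ x' y' = {z}}

/-- adjacent vertices: on one segment, no other vertices between them -/
def AX (X : Set ℂ) (z w : ℂ) : Prop :=
  z ∈ VX X ∧ w ∈ VX X ∧ z ≠ w ∧ (∃ x y : ℂ, Sg X x y ∧ z ∈ segment ℝ x y ∧ w ∈ segment ℝ x y) ∧
    ∀ v ∈ VX X, v ∈ segment ℝ z w → v = z ∨ v = w

/-- VBA (40 lines; uses CHF): easy facts. `X ⊆ VX X`: `segment x x ∩ segment x x = {x}`, `ch x x = 1`. `VX X` is in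
the open disc: the open ball is convex. `AX` is symmetric (`segment_symm`). -/
def Stmt_VBA : Prop :=
  ∀ (Γ : Subgroup H) (X : Set ℂ), Net0 Γ X → X ⊆ VX X ∧ (∀ v ∈ VX X, ‖v‖ < 1) ∧
    (∀ z w, AX X z w → AX X w z) ∧ ∀ z : ℂ, ‖z‖ < 1 → ∃ v ∈ VX X, ch z v < 3 / 2

/-- VIN (80 lines; uses ACT VBA): invariance. `act γ` maps `Sg`-pairs to `Sg`-pairs (ACT 7), segments in the open
disc to segments (ACT 6), and it is injective on the closed disc (`act γ⁻¹ (act γ k) = k`, ACT 3, 4), so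
`act γ '' (S ∩ S') = act γ '' S ∩ act γ '' S'` (`Set.InjOn.image_inter`). `AX`: a vertex `v` on
`segment (act γ z) (act γ w)` is `act γ u` with `u ∈ segment z w` and `u = act γ⁻¹ v ∈ VX X`, so `u = z` or
`u = w`. (`IsMob γ⁻¹`: `γ⁻¹ ∈ Γ`, `FirstKind.mob`.) -/
def Stmt_VIN : Prop :=
  ∀ (Γ : Subgroup H) (X : Set ℂ), FirstKind Γ → Net0 Γ X → ∀ γ ∈ Γ,
    (∀ v ∈ VX X, act γ v ∈ VX X) ∧ ∀ z w, AX X z w → AX X (act γ z) (act γ w)

/-- VFI (90 lines; uses CHF VBA): local finiteness. Proof. Properness (CHF, last part) for `r` and `R = 9 / 2`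
gives `r'`. If `v ∈ segment x y`, `Sg X x y`, `‖v‖ ≤ r`, then `ch x v ≤ ch x y ≤ 9 / 2` and
`ch y v ≤ ch y x ≤ 9 / 2` (CHF, monotonicity on segments, symmetry), so `‖x‖, ‖y‖ ≤ r'`. So each `v ∈ VX X`
with `‖v‖ ≤ r` comes from a quadruple of points of the finite set `{x ∈ X | ‖x‖ ≤ r'}`, and the quadruple
determines `v`: the set is finite (the image of a finite set under a choice function, or
`Set.Finite.subset` of a finite union of `Set.Subsingleton`s). Second claim: if `AX X z w`, on the segment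
of `x, y`, and `u ∈ segment z w ⊆ segment x y` with `‖u‖ ≤ r`, then `‖x‖ ≤ r'`, and `ch x z ≤ ch x y ≤ 9 / 2`
gives `‖z‖ ≤ r''` (properness for `r'`), in the same way `‖w‖ ≤ r''`: finitely many pairs. -/
def Stmt_VFI : Prop :=
  ∀ (Γ : Subgroup H) (X : Set ℂ), Net0 Γ X → ∀ r : ℝ, r < 1 →
    {v : ℂ | v ∈ VX X ∧ ‖v‖ ≤ r}.Finite ∧
    {e : ℂ × ℂ | AX X e.1 e.2 ∧ ∃ u ∈ segment ℝ e.1 e.2, ‖u‖ ≤ r}.Finite

/-- COL (50 lines): two segments with two different common points `u`, `v` are on one line. Proof. Let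
`u = x + s (y - x)`, `v = x + t (y - x)`, `s ≠ t`; so `y - x = (v - u) / (t - s)` and each point of the segment
is `u + c (v - u)` with `c` real. The same for the other segment. -/
def Stmt_COL : Prop :=
  ∀ x y x' y' u v : ℂ, u ≠ v → u ∈ segment ℝ x y → v ∈ segment ℝ x y → u ∈ segment ℝ x' y' →
    v ∈ segment ℝ x' y' → (∀ z ∈ segment ℝ x y, ∃ c : ℝ, z = u + (c : ℂ) * (v - u)) ∧
    ∀ z ∈ segment ℝ x' y', ∃ c : ℝ, z = u + (c : ℂ) * (v - u)

/-- VPL (100 lines; uses COL): planarity. Proof. Let `AX X z w` on the segment of `x, y` and `AX X z' w'` on the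
segment of `x', y'` and let `u` be on both of the segments `[z, w]`, `[z', w']`. Case 1: the segments `[x, y]`,
`[x', y']` have only the common point `u`: then `u ∈ VX X`, so `u ∈ {z, w}` and `u ∈ {z', w'}` by the
last condition of `AX`. Case 2: there is a second common point `v ≠ u`. COL: all points of both segments are
`u + c (v - u)` with real numbers `c`; let `a, b, a', b'` be the numbers of `z, w, z', w'`
(`a ≠ b`, `a' ≠ b'`); a point with the number `c` is on `[z, w]` if `c` is between `a` and `b` (`c = a + t (b - a)`,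
`t = (c - a) / (b - a) ∈ [0, 1]`), and `u` has the number `0`, so `0` is between `a` and `b` and between
`a'` and `b'` (for this direction use that `c ↦ u + c (v - u)` is injective). By symmetry `a < b`,
`a' < b'`. If no two of the points are equal: `a' ∉ [a, b]`, `b' ∉ [a, b]` (the vertices `z'`, `w'` on `[z, w]`
are `z` or `w`), and `a' ≤ 0 ≤ b'`, `a ≤ 0 ≤ b`, so `a' < a` and `b < b'`: then `a ∈ [a', b']`, so `z` is `z'` or
`w'`. -/
def Stmt_VPL : Prop :=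
  ∀ (X : Set ℂ) (z w z' w' u : ℂ), AX X z w → AX X z' w' → u ∈ segment ℝ z w →
    u ∈ segment ℝ z' w' → z = z' ∨ z = w' ∨ w = z' ∨ w = w'

/-- VSC (100 lines; uses VFI): vertices on one segment are connected. Proof. Let `F` be the set of the vertices
on `segment x y`; it is finite (VFI with `r = max ‖x‖ ‖y‖ < 1`; a ball is convex). For `z, w ∈ F` let
`n (z, w)` be the number of elements of `F ∩ segment z w` (`Set.ncard`). Induction over `n (z, w)`: if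
`z = w` nothing is to be shown; if `F ∩ segment z w ⊆ {z, w}` then `AX X z w` (`segment z w ⊆ segment x y`, so the
vertices on `segment z w` are in `F`); otherwise there is `v ∈ F ∩ segment z w`, `v ≠ z, w`, and
`segment z v ⊆ segment z w` does not contain `w` (`v = z + s (w - z)`, `s < 1`), so `n (z, v) < n (z, w)`, and in
the same way `n (v, w) < n (z, w)`. -/
def Stmt_VSC : Prop :=
  ∀ (Γ : Subgroup H) (X : Set ℂ), Net0 Γ X → ∀ x y : ℂ, Sg X x y → ∀ z ∈ VX X, ∀ w ∈ VX X,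
    z ∈ segment ℝ x y → w ∈ segment ℝ x y → Relation.ReflTransGen (AX X) z w

/-- VCH (80 lines; uses CHF): chains in the net. Proof. Fix `x ∈ X`, let `R` be the set of the `y ∈ X` with
`ReflTransGen (Sg X) x y`. `U = {z | ‖z‖ < 1 ∧ ∃ y ∈ R, ch z y < 3 / 2}` and
`W = {z | ‖z‖ < 1 ∧ ∃ y ∈ X \ R, ch z y < 3 / 2}` are open (for fixed `y` the function `z ↦ ch z y` is continuous on
the open disc), they cover the open disc (density) and they are disjoint: `ch z y, ch z y' < 3 / 2` give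
`ch y y' ≤ 2 (3 / 2) (3 / 2) = 9 / 2` (CHF 4, 1), so `Sg X y y'`. `x ∈ U` (`ch x x = 1`). The open disc is convex,
so preconnected: `W` is empty. Each `y ∈ X \ R` would be in `W`. -/
def Stmt_VCH : Prop :=
  ∀ (Γ : Subgroup H) (X : Set ℂ), Net0 Γ X → ∀ x ∈ X, ∀ y ∈ X, Relation.ReflTransGen (Sg X) x y

/-- VCN (50 lines; uses VBA VSC VCH): connectedness. Proof. (1) If `Sg X x y` then `x, y ∈ VX X` and VSC for
`z = x`, `w = y`. (2) For `x, y ∈ X`: induction over the chain of VCH. (3) A vertex `z` is on a segment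
`[x, y]` with `Sg X x y`; VSC connects it with `x ∈ X`, in both directions. -/
def Stmt_VCN : Prop :=
  ∀ (Γ : Subgroup H) (X : Set ℂ), Net0 Γ X → ∀ z ∈ VX X, ∀ w ∈ VX X, Relation.ReflTransGen (AX X) z w

/-! ### Assembly -/

theorem act_assemble (h1 : Stmt_AC1) (h2 : Stmt_AC2) (h3 : Stmt_AC3) (h4 : Stmt_AC4) (h5 : Stmt_AC5)
    (h6 : Stmt_AC6) : Stmt_ACT :=
  ⟨h1.1, h1.2, h2.1, h2.2, h3, h4, h5, h6⟩

theorem chf_assemble (h1 : Stmt_CH1) (h2 : Stmt_CH2) (h3 : Stmt_CH3) (h4 : Stmt_CH4) : Stmt_CHF :=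
  ⟨h1.1, h1.2.1, h1.2.2.1, h2, h3, h4.1, h4.2⟩

theorem gra_assemble (h1 : Stmt_NTZ) (h2 : Stmt_NTF) (h3 : Stmt_VBA) (h4 : Stmt_VIN) (h5 : Stmt_VFI)
    (h6 : Stmt_VPL) (h7 : Stmt_VCN) : Stmt_GRA := by
  intro Γ hΓ _
  obtain ⟨X, hs, hi, ho, hd⟩ := h1 Γ hΓ
  have hX : Net0 Γ X := ⟨hs, hi, h2 Γ X hΓ hs ho, hd⟩
  obtain ⟨b1, b2, b3, b4⟩ := h3 Γ X hX
  refine ⟨VX X, AX X, ⟨b2, fun x y h => ⟨h.1, h.2.1, h.2.2.1⟩, b3, fun γ hγ => (h4 Γ X hΓ hX γ hγ).1,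
    fun γ hγ => (h4 Γ X hΓ hX γ hγ).2, fun r hr => (h5 Γ X hX r hr).1, fun r hr => (h5 Γ X hX r hr).2,
    fun x y x' y' u ha ha' hu hu' => h6 X x y x' y' u ha ha' hu hu', ?_, b4⟩⟩
  intro x hx y hy
  exact h7 Γ X hX x hx y hy

end Pool.TZ
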