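import Pool.Agent.Work.MP_ae1ff6_tz.InterfaceS

/-!
# Invariant ideal triangulations (MP_ae1ff6_gt), part D: the forest

`Stmt_ABS` is a statement about free actions of groups on connected locally finite graphs; `Stmt_FOR` follows.
`Away R B` is the relation of adjacency with the second vertex outside of `B`.
-/

open Topology Filter Set
open scoped ComplexConjugate

set_option autoImplicit false

namespace Pool.TZ

open Pool.CG Pool.AR Pool.SH

/-- adjacency, with the second vertex outside of `B` -/
def Away {Q : Type} (R : Q → Q → Prop) (B : Set Q) (x y : Q) : Prop := R x y ∧ y ∉ B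

/-- EXH (110 lines; uses nothing): an infinite connected locally finite graph has an exhaustion by finite
sets `B m` such that from each vertex outside of `B m` one can leave each finite set without meeting `B m`.
Proof. For a set `S` let `C S q = {r | ReflTransGen (Away R S) q r}` and
`Hu S = S ∪ {q | q ∉ S ∧ (C S q).Finite}`.
(a) `S ⊆ S'` implies `C S' q ⊆ C S q` (`Relation.ReflTransGen.mono`), hence `Hu S ⊆ Hu S'`.
(b) `S` finite implies `Hu S` finite. If `S = ∅`, then `C S q = univ` is infinite for all `q` (connected), so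
`Hu ∅ = ∅`. If `S ≠ ∅`, `q ∉ S` and `C S q` is finite, take `s ∈ S`; by induction on the chain from `q` to `s`
(`Relation.ReflTransGen.head_induction_on`, or: the last vertex of the chain before the first vertex in `S`)
there are `r ∉ S`, `t ∈ S` with `r ∈ C S q`, `R r t`, so `R t r`. The relation `Away R S` is symmetric on the
complement of `S`, so `q ∈ C S r` and `C S r ⊆ C S q` is finite. Hence `Hu S` is contained in
`S ∪ ⋃ t ∈ S, ⋃ r ∈ {r | R t r ∧ (C S r).Finite}, C S r`, a finite union of finite sets.
(c) Let `o : Q` (`Q` is infinite, so nonempty), `S 0 = ∅`, `S (m + 1) = {o} ∪ S m ∪ {r | ∃ t ∈ S m, R t r}`: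
finite by induction, monotone, and each vertex lies in some `S m` (induction on the chain from `o`). Put
`B m = Hu (S m)`.
(d) Let `q ∉ B m`. Then `q ∉ S m` and `C (S m) q` is infinite. For `r ∈ C (S m) q` we have `r ∉ S m`, and
`C (S m) r = C (S m) q` is infinite (symmetry), so `r ∉ B m`; so the chain from `q` to `r` is a chain for
`Away R (B m)` (induction on the chain). As `C (S m) q` is infinite, it contains some `r ∉ F`. -/
def Stmt_EXH : Prop :=
  ∀ (Q : Type) (R : Q → Q → Prop), (∀ x y, R x y → R y x) → (∀ x, {y | R x y}.Finite) →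
    (∀ x y, Relation.ReflTransGen R x y) → Infinite Q →
    ∃ B : ℕ → Set Q, B 0 = ∅ ∧ (∀ m m', m ≤ m' → B m ⊆ B m') ∧ (∀ m, (B m).Finite) ∧
      (∀ q, ∃ m, q ∈ B m) ∧
      ∀ m, ∀ q ∉ B m, ∀ F : Set Q, F.Finite → ∃ r ∉ F, Relation.ReflTransGen (Away R (B m)) q r

/-- PAR (80 lines; uses EXH): an infinite connected locally finite graph has a one-ended spanning forest. Proof.
`B` from EXH. `n q = Nat.find (∃ m, q ∈ B m)`; it is positive as `B 0 = ∅`. `q ∈ B m ↔ n q ≤ m`. Let
`Rch m k q` be defined by recursion: `Rch m 0 q ↔ q ∉ B m`, `Rch m (k + 1) q ↔ ∃ r, R q r ∧ r ∉ B (m - 1) ∧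
Rch m k r`. For `n q = m` there is `k` with `Rch m k q`: `q ∉ B (m - 1)`, EXH with `F = B m` gives a chain
for `Away R (B (m - 1))` from `q` to some `r ∉ B m`; induction on the chain
(`Relation.ReflTransGen.head_induction_on`). Let `d q` be the least such `k` (for `m = n q`); `d q ≠ 0` as
`q ∈ B m`. So there is `r` with `R q r`, `r ∉ B (m - 1)`, `Rch m (d q - 1) r`: this is `p q`
(`Classical.choose`). If `p q ∉ B m` then `n q < n (p q)`; otherwise `n (p q) = m = n q` and
`d (p q) < d q`. So (`L`) `n q < n (p q) ∨ (n (p q) = n q ∧ d (p q) < d q)`. Consequences: `n` does not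
decrease along orbits of `p`, so the ancestors of `w` lie in `B (n w)`, a finite set; and
`k ↦ toLex (n (p^[k] v), - d (p^[k] v))` is strictly increasing (or: for `j < k`,
`n (p^[j] v) < n (p^[k] v) ∨ (n .. = n .. ∧ d (p^[k] v) < d (p^[j] v))` by induction on `k`), so
`p^[j] v ≠ p^[k] v` for `j ≠ k`, and `{k | p^[k] v = w}` has at most one element. -/
def Stmt_PAR : Prop :=
  ∀ (Q : Type) (R : Q → Q → Prop), (∀ x y, R x y → R y x) → (∀ x, {y | R x y}.Finite) →
    (∀ x y, Relation.ReflTransGen R x y) → Infinite Q →
    ∃ p : Q → Q, (∀ q, R q (p q)) ∧ (∀ w, {v | ∃ k : ℕ, p^[k] v = w}.Finite) ∧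
      ∀ v w, {k : ℕ | p^[k] v = w}.Finite

/-- adjacency of orbits -/
def QA {G V : Type} [Group G] [MulAction G V] (A : V → V → Prop)
    (a b : MulAction.orbitRel.Quotient G V) : Prop :=
  ∃ x y : V, A x y ∧ (Quotient.mk'' x : MulAction.orbitRel.Quotient G V) = a ∧
    (Quotient.mk'' y : MulAction.orbitRel.Quotient G V) = b

/-- FGN (70 lines; uses nothing): a group which acts freely on a connected locally finite graph with
finitely many orbits of vertices is finitely generated. Proof. Suppose that the type of orbits is finite. For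
an orbit `a` let `x a = a.out` (a vertex in `a`). Let `S = {g : G | ∃ a b, A (x a) (g • x b)}`. It is finite:
for `a`, `b` the map `g ↦ g • x b` is injective (free action) and maps `{g | A (x a) (g • x b)}` into the
finite set of the neighbours of `x a`. Let `K = Subgroup.closure S`. CLAIM: each vertex `v` is of the form
`g • x b` with `g ∈ K`. Fix `v₀ = x a₀` (`V` is nonempty) and use induction on a chain from `v₀` to `v`: if
`v = g • x a`, `g ∈ K` and `A v w`, `w = h • x b`, then `A (x a) ((g⁻¹ * h) • x b)` by invariance, so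
`g⁻¹ * h ∈ S`, `h ∈ K`. Now let `g : G`; the vertex `g • x a₀` is `h • x b` with `h ∈ K`; it lies in the orbits
`a₀` and `b`, so `b = a₀`, and `h⁻¹ * g` fixes `x a₀`, so `g = h ∈ K`. So `K = ⊤` and `G` is finitely
generated (`Group.fg_iff`). -/
def Stmt_FGN : Prop :=
  ∀ (G V : Type) [Group G] [MulAction G V] (A : V → V → Prop), Nonempty V → (∀ x y, A x y → A y x) →
    (∀ (g : G) x y, A x y → A (g • x) (g • y)) → (∀ x, {y | A x y}.Finite) →
    (∀ x y, Relation.ReflTransGen A x y) → (∀ (g : G) (x : V), g • x = x → g = 1) → ¬ Group.FG G →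
    Infinite (MulAction.orbitRel.Quotient G V)

/-- QUO (50 lines; uses nothing): the graph of orbits. Proof. Write `[x]` for the orbit of `x`; `[x] = [y]` iff
`∃ g, g • y = x` (`Quotient.eq''`, `MulAction.orbitRel_apply`, `MulAction.mem_orbit_iff`). (1) Symmetry: clear.
(2) For `a = [x]`: if `A x' y'`, `[x'] = a`, then `x' = g • x` and `A x (g⁻¹ • y')`, `[g⁻¹ • y'] = [y']`, so
`{b | QA A a b}` is contained in the image of `{y | A x y}`. (3) Connected: the map `x ↦ [x]` maps chains to
chains (`Relation.ReflTransGen.lift`). (4) if `QA A [x] b` then there is `y` with `A x y`, `[y] = b` (see (2)). -/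
def Stmt_QUO : Prop :=
  ∀ (G V : Type) [Group G] [MulAction G V] (A : V → V → Prop), (∀ x y, A x y → A y x) →
    (∀ (g : G) x y, A x y → A (g • x) (g • y)) → (∀ x, {y | A x y}.Finite) →
    (∀ x y, Relation.ReflTransGen A x y) →
    (∀ a b : MulAction.orbitRel.Quotient G V, QA A a b → QA A b a) ∧
    (∀ a : MulAction.orbitRel.Quotient G V, {b | QA A a b}.Finite) ∧
    (∀ a b : MulAction.orbitRel.Quotient G V, Relation.ReflTransGen (QA A) a b) ∧
    ∀ (x : V) (b : MulAction.orbitRel.Quotient G V), QA A (Quotient.mk'' x) b →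
      ∃ y, A x y ∧ (Quotient.mk'' y : MulAction.orbitRel.Quotient G V) = b

/-- ABS (110 lines; uses PAR, FGN, QUO): an equivariant one-ended forest. Proof. `Q` = the type of orbits,
infinite by FGN; `p : Q → Q` from PAR (with `R = QA A`, by QUO). For `a : Q` let `x a = a.out`, and (QUO (4)) let
`y a` be a neighbour of `x a` with `[y a] = p a`. For a vertex `v` let `c v : G` be the element with
`v = c v • x [v]` (it exists, and it is unique because the action is free). Put `π v = c v • y [v]`. Then
`A v (π v)`; `c (g • v) = g * c v` by uniqueness (`[g • v] = [v]`), so `π (g • v) = g • π v`; `[π v] = p [v]`,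
so `[π^[k] v] = p^[k] [v]`; and `π^[k] (g • v) = g • π^[k] v`. Ancestors of `w`: if `π^[k] v = w` then `[v]` lies in
the finite set `N` of ancestors of `[w]` for `p` and `k` lies in the finite set `M [v] = {k | p^[k] [v] = [w]}`; for
given `a` and `k` there is at most one `v` with `[v] = a` and `π^[k] v = w` (if `v' = g • v` has the same
properties then `g • w = w`, `g = 1`). So the set of ancestors is contained in
`⋃ a ∈ N, ⋃ k ∈ M a, {v | [v] = a ∧ π^[k] v = w}` with subsingletons: finite. Last claim: `π^[k] v = g • w` implies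
`p^[k] [v] = [w]`. -/
def Stmt_ABS : Prop :=
  ∀ (G V : Type) [Group G] [MulAction G V] (A : V → V → Prop), Nonempty V → (∀ x y, A x y → A y x) →
    (∀ (g : G) x y, A x y → A (g • x) (g • y)) → (∀ x, {y | A x y}.Finite) →
    (∀ x y, Relation.ReflTransGen A x y) → (∀ (g : G) (x : V), g • x = x → g = 1) → ¬ Group.FG G →
    ∃ π : V → V, (∀ v, A v (π v)) ∧ (∀ (g : G) v, π (g • v) = g • π v) ∧
      (∀ w, {v | ∃ k : ℕ, π^[k] v = w}.Finite) ∧ ∀ v w, {k : ℕ | ∃ g : G, π^[k] v = g • w}.Finite

/- Block FOR (90 lines; uses ACT, FRE, ABS): `theorem p_FOR (h1 : Stmt_ACT) (h2 : Stmt_FRE) (h3 : Stmt_ABS) :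
Stmt_FOR`. Proof. `Γ` acts on the subtype `V` by `g • v = act g v` (a `MulAction Γ V` by ACT (3), (4); the elements
of `Γ` are Möbius maps by `FirstKind.mob`, the points of `V` have norm `< 1`). Apply ABS with the relation
`A' x y ↔ A x y` on the subtype. Locally finite: `{y | A x y}` maps injectively into the finite set of `Gr.finA`
with `r = ‖x‖` (`x ∈ segment ℝ x y`). Connected: the chain from `x` to `y` in `Gr.conn` stays in `V` (`Gr.adj`;
induction on the chain, generalising over the membership proofs). Free: FRE. `V` is nonempty: `Gr.deep` with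
`z = 0`. Let `π₀` be the map of ABS and `π v = π₀ ⟨v, _⟩` for `v ∈ V`, `π v = v` otherwise. Then
`π^[k] v = π₀^[k] ⟨v, _⟩` for `v ∈ V` (induction on `k`, `Function.iterate_succ_apply'`), and the four properties
of `Fo` follow; in `anc` the set is contained in the image of the finite set of ABS under the coercion. -/

end Pool.TZ
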