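import Pool.Agent.Work.MP_ae1ff6_tz.InterfaceS
import Pool.Agent.Work.MP_7ec17a_gt_M.Miranda

/-!
# Invariant ideal triangulations (MP_ae1ff6_gt): the crossing lemma of part E

Block `X`: file `Pool/Agent/Work/MP_ae1ff6_tz/B_X.lean`, `import Pool.Agent.Work.MP_ae1ff6_tz.InterfaceX`,
`namespace Pool.TZ`, the `open` lines of this file, `theorem p_X (h1 : Stmt_Y) .. : Stmt_X` with exactly the
blocks of the column `uses`, in this order, as hypotheses; auxiliary lemmas with the prefix `X_`. Proved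
facts: `Pool.AR.q_LKC : Stmt_LKC` (`Link a b c d ↔ (Ccw a c b ∧ Ccw b d a) ∨ (Ccw a d b ∧ Ccw b c a)`),
`Pool.AR.q_CYO : Stmt_CYO` (cyclic order), `Pool.GC.q_SYM` (symmetries of `Link`),
`Pool.MP_7ec17a_gt.M.miranda` (Poincare, Miranda: the unit square, strict inequalities on the four sides).
`Ccw a b c` is `0 < area a b c`, `area a b c = (conj (b - a) * (c - a)).im = sd a b c`.
-/

open Topology Filter Set
open scoped ComplexConjugate

set_option autoImplicit false

namespace Pool.TZ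

open Pool.CG Pool.AR Pool.SH

/-- XAL (60 lines): the algebra of the crossing lemma. Notation: `F z a = 1 - re (z conj a)`. Proof. Suppose
`d = z - z' ≠ 0`. Let `e₀ = (1 - lam) - lam`, `e = (1 - lam) p - lam q`, `f₀ = (1 - mu) - mu`,
`f = (1 - mu) p' - mu q'`. The hypotheses say `e₀ = re (z conj e) = re (z' conj e)` and
`f₀ = re (z conj f) = re (z' conj f)`. So `re (d conj e) = 0`, hence `e = a i d` with the real number
`a = im (conj d e) / ‖d‖ ^ 2`, and `e₀ = re (z conj e) = a im (z conj d)`; in the same way `f = b i d`,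
`f₀ = b im (z conj d)`. `b ≠ 0`: otherwise `f = 0`, `(1 - mu) p' = mu q'`, the norms give `1 - mu = mu` and
`p' = q'`, impossible as then `sd p' q' _ = 0`. For `S (t, k) = im (conj (q' - p') (k - t p'))` (linear over `ℝ`
in `(t, k)`): `S (f₀, f) = (1 - mu) S (1, p') - mu S (1, q') = 0`, so `S (e₀, e) = (a / b) S (f₀, f) = 0`, and
`S (e₀, e) = (1 - lam) sd p' q' p - lam sd p' q' q`. The two numbers `sd p' q' p`, `sd p' q' q` have opposite
signs and `0 ≤ lam ≤ 1`: so `1 - lam = 0` and `lam = 0`, a contradiction. -/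
def Stmt_XAL : Prop :=
  ∀ (p q p' q' : Circle) (lam mu : ℝ) (z z' : ℂ), sd p' q' p * sd p' q' q < 0 →
    0 ≤ lam → lam ≤ 1 →
    (∀ w : ℂ, w = z ∨ w = z' →
      (1 - lam) * (1 - (w * conj (p : ℂ)).re) = lam * (1 - (w * conj (q : ℂ)).re) ∧
      (1 - mu) * (1 - (w * conj (p' : ℂ)).re) = mu * (1 - (w * conj (q' : ℂ)).re)) → z = z'

/-- XSQ (110 lines; uses XAL): two paths in the closed disc with linked ends cross. Proof. Suppose not:
`γ s ≠ δ t` for all `s, t ∈ [0, 1]`. `F z a = 1 - re (z conj a) ≥ 0` for `‖z‖ ≤ 1`, `‖a‖ = 1`, with equality only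
for `z = a` (`‖z - a‖ ^ 2 = ‖z‖ ^ 2 + 1 - 2 re (z conj a) ≤ 2 F z a`). As `p ≠ q` (`Link`), `F z p + F z q > 0`; let
`φ z = F z p / (F z p + F z q)`, `ψ z = F z p' / (F z p' + F z q')`: continuous functions from the closed disc to
`[0, 1]`; `φ z = 0` only for `z = p`, `φ z = 1` only for `z = q`, `ψ z = 0` only for `z = p'`, `ψ z = 1` only for
`z = q'`. Miranda for `(s, t) ↦ φ (δ t) - φ (γ s)` (positive for `s = 0`: `φ (γ 0) = φ p = 0` and `δ t ≠ γ 0 = p`;
negative for `s = 1`) and `(s, t) ↦ ψ (γ s) - ψ (δ t)` (positive for `t = 0`, negative for `t = 1`): there are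
`s`, `t` with `φ (γ s) = φ (δ t) = lam`, `ψ (γ s) = ψ (δ t) = mu`. XAL for `z = γ s`, `z' = δ t`: `z = z'`, a
contradiction. (`(1 - φ z) F z p = φ z F z q`.) Signs: by `q_LKC` for `Link p' q' p q` (`q_SYM`)
`Ccw p' p q' ∧ Ccw q' q p'` or the same with `p`, `q` exchanged; `sd p' q' x = area p' q' x`,
`area p' q' x = - area p' x q'` and `area q' x p' = area p' q' x` (`ring` on real and imaginary parts, or
`q_CYO`). -/
def Stmt_XSQ : Prop :=
  ∀ (p q p' q' : Circle) (γ δ : ℝ → ℂ), Link p q p' q' → ContinuousOn γ (Icc 0 1) →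
    ContinuousOn δ (Icc 0 1) → (∀ s ∈ Icc (0 : ℝ) 1, ‖γ s‖ ≤ 1) → (∀ s ∈ Icc (0 : ℝ) 1, ‖δ s‖ ≤ 1) →
    γ 0 = (p : ℂ) → γ 1 = (q : ℂ) → δ 0 = (p' : ℂ) → δ 1 = (q' : ℂ) →
    ∃ s ∈ Icc (0 : ℝ) 1, ∃ t ∈ Icc (0 : ℝ) 1, γ s = δ t

/-- XPT (60 lines): a polygon is a path. Proof. Induction over `n`: it is enough to show that for each `n` there
is `γ : Path (v 0) (v n)` (Mathlib) with `range γ ⊆ {v 0} ∪ ⋃ i < n, segment (v i) (v (i + 1))`; for the step use
`Path.trans` with the segment from `v n` to `v (n + 1)` (for example the path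
`⟨⟨fun t => AffineMap.lineMap (v n) (v (n + 1)) (t : ℝ), _⟩, _, _⟩`) and `Path.trans_range`. Then
`γ' s = γ.extend s` (`Path.extend`; continuous, `extend_zero`, `extend_one`). For `n ≥ 1` the point `v 0` is on
`segment (v 0) (v 1)`. -/
def Stmt_XPT : Prop :=
  ∀ (v : ℕ → ℂ) (n : ℕ), 0 < n → ∃ γ : ℝ → ℂ, Continuous γ ∧ γ 0 = v 0 ∧ γ 1 = v n ∧
    ∀ s ∈ Icc (0 : ℝ) 1, ∃ i < n, γ s ∈ segment ℝ (v i) (v (i + 1))

/-- the segments of the ray from `v` -/
def Ray (π : ℂ → ℂ) (v : ℂ) : Set ℂ := ⋃ k : ℕ, segment ℝ (π^[k] v) (π^[k + 1] v)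

/-- XDS (60 lines): the ray from `v` stays away from the other points of the circle. Proof. Let `z₀ ≠ ξ v`, and
`r = dist z₀ (ξ v) > 0`. For all large `k` the points `π^[k] v` are in the ball with centre `ξ v` and radius
`r / 2` (`Ends`), which is convex: so the segments with large `k` have distance `≥ r / 2` from `z₀`. Each of the
finitely many other segments is compact and does not contain `z₀` (it is in the open disc, as `π^[k] v ∈ V`:
`Fo.adj`, `Gr.adj`, `Gr.sub`), so it has a positive distance from `z₀` (`IsCompact.exists_infDist_eq_dist`, or: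
the complement of the segment is open). Take the minimum (induction over the number of segments). -/
def Stmt_XDS : Prop :=
  ∀ (Γ : Subgroup H) (V : Set ℂ) (A : ℂ → ℂ → Prop) (π : ℂ → ℂ) (ξ : ℂ → Circle), Gr Γ V A →
    Fo Γ V A π → Ends V π ξ → ∀ v ∈ V, ∀ z : Circle, z ≠ ξ v →
    ∃ ε : ℝ, 0 < ε ∧ ∀ u ∈ Ray π v, ε ≤ dist u (z : ℂ)

/-- XWY (90 lines; uses XPT): the path of an edge. For an edge `x`, `y` with different ends `p = ξ x`,
`q = ξ y` and each `ε > 0` there is a path from `p` to `q` in the closed disc, each point of which is on the edge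
`x y`, on an edge of the ray of `x` or of `y`, or in the ball of radius `ε` around `p` or around `q`. Proof. Choose
`n` with `dist (π^[n] x) p < ε` and `m` with `dist (π^[m] y) q < ε`. XPT for the sequence of the `n + m + 4`
points `p, π^[n] x, .., π x, x, y, π y, .., π^[m] y, q`, that is `v 0 = p`, `v i = π^[n + 1 - i] x` for
`1 ≤ i ≤ n + 1`, `v i = π^[i - n - 2] y` for `n + 2 ≤ i ≤ n + m + 2`, `v (n + m + 3) = q` (and the number of
segments is `n + m + 3`). The first segment is in the ball around `p` (convex; it contains `p` and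
`π^[n] x`), the last one in the ball around `q`, the segment from `v (n + 1) = x` to `v (n + 2) = y` is the edge.
All points `v i` are in the closed disc, which is convex. -/
def Stmt_XWY : Prop :=
  ∀ (Γ : Subgroup H) (V : Set ℂ) (A : ℂ → ℂ → Prop) (π : ℂ → ℂ) (ξ : ℂ → Circle), Gr Γ V A →
    Fo Γ V A π → Ends V π ξ → ∀ x y : ℂ, A x y → ∀ ε : ℝ, 0 < ε →
    ∃ γ : ℝ → ℂ, Continuous γ ∧ γ 0 = (ξ x : ℂ) ∧ γ 1 = (ξ y : ℂ) ∧
      (∀ s ∈ Icc (0 : ℝ) 1, ‖γ s‖ ≤ 1) ∧
      ∀ s ∈ Icc (0 : ℝ) 1, γ s ∈ segment ℝ x y ∪ Ray π x ∪ Ray π y ∨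
        dist (γ s) (ξ x : ℂ) < ε ∨ dist (γ s) (ξ y : ℂ) < ε

/-- XMG (40 lines): rays which share a vertex have the same end. Proof. `π^[k] v = π^[l] w` implies
`π^[k + j] v = π^[l + j] w` for all `j` (`Function.iterate_add_apply`), and the two sequences converge to `ξ v` and
`ξ w` (`tendsto_add_atTop_iff_nat`); uniqueness of limits; `Circle.ext`. -/
def Stmt_XMG : Prop :=
  ∀ (V : Set ℂ) (π : ℂ → ℂ) (ξ : ℂ → Circle), Ends V π ξ → ∀ v ∈ V, ∀ w ∈ V, ∀ k l : ℕ,
    π^[k] v = π^[l] w → ξ v = ξ w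

/-- XNG (120 lines; uses XSQ XDS XWY XMG): the lines `(ξ x, ξ y)` do not cross. Proof. Let `p = ξ x`, `q = ξ y`,
`p' = ξ x'`, `q' = ξ y'` be linked; four different points (`Link`, and `p ≠ q`, `p' ≠ q'`: `q_LKC`; `Ccw` implies
different). (1) Each point of `R = segment x y ∪ Ray x ∪ Ray y` has distance `≥ ε₁` from `p'` and `q'`, with
`ε₁ > 0` (XDS four times; the edge `x y` is a compact set in the open disc: or use
that `dist u p' ≥ 1 - ‖u‖ ≥ 1 - max ‖x‖ ‖y‖ > 0` on the edge), and in the same way each point of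
`R' = segment x' y' ∪ Ray x' ∪ Ray y'` has distance `≥ ε₂` from `p` and `q`. Let `ε` be at most `ε₁`, `ε₂` and half of
the distances `dist p p'`, `dist p q'`, `dist q p'`, `dist q q'`. (2) XWY for both edges and `ε`, XSQ: there is a
common point `u` of the two paths. By (1) it is in none of the four balls: if `u` is in the ball around `p` then
it is not in `R'`, so in the ball around `p'` or `q'`, impossible by the choice of `ε`. So `u ∈ R ∩ R'`: `u` is on
an edge `a b` of `R` and on an edge `a' b'` of `R'` (edges of a ray: `A (π^[k] x) (π^[k + 1] x)`, by `Fo.adj`,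
`Function.iterate_succ_apply'`), so by `Gr.planar` they share a vertex, which is `π^[k] x` or `π^[k] y` for some `k`
and `π^[l] x'` or `π^[l] y'` for some `l`. By XMG one of `p`, `q` is equal to one of `p'`, `q'`. -/
def Stmt_XNG : Prop :=
  ∀ (Γ : Subgroup H) (V : Set ℂ) (A : ℂ → ℂ → Prop) (π : ℂ → ℂ) (ξ : ℂ → Circle), Gr Γ V A →
    Fo Γ V A π → Ends V π ξ → ∀ x y x' y' : ℂ, A x y → A x' y' → ¬ Link (ξ x) (ξ y) (ξ x') (ξ y')

end Pool.TZ
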