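import Pool.Agent.Work.MP_ae1ff6_tz.InterfaceE2
import Pool.Agent.Work.MP_ae1ff6_tz.InterfaceX

/-!
# Invariant ideal triangulations (MP_ae1ff6_gt): part E (the ends of the rays and the cut system)

Block `X`: file `Pool/Agent/Work/MP_ae1ff6_tz/B_X.lean`, `import Pool.Agent.Work.MP_ae1ff6_tz.InterfaceE`,
`namespace Pool.TZ`, the `open` lines of this file, `theorem p_X (h1 : Stmt_Y) .. : Stmt_X` with exactly the
blocks of the column `uses`, in this order, as hypotheses; auxiliary lemmas with the prefix `X_`. The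
statements ACT, CHF, FRE, CLO are in `InterfaceS.lean`, the statements ACW, KPP, KPB in `InterfaceA.lean`, CLS, CU1
and CUS in `InterfaceE2.lean`, XNG in `InterfaceX.lean`.
ACT 1 is the first conjunct of `Stmt_ACT` and so on: ACT 1: `act g z = g z` on the circle; ACT 2: `act g` maps the
open and the closed disc to itself; ACT 3: `act (g * g') k = act g (act g' k)`; ACT 4: `act 1 k = k`; ACT 5:
continuity; ACT 6: segments; ACT 7: `ch`; ACT 8: `sd`. Proved facts (theorems without hypotheses):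
`Pool.GC.q_SYM` (`Link a b c d → Link c d a b ∧ Link b a c d ∧ Link a b d c`), `Pool.AR.q_CYO : Stmt_CYO` (the
cyclic order), `Pool.AR.q_LKC` (`Link a b c d ↔ (Ccw a c b ∧ Ccw b d a) ∨ (Ccw a d b ∧ Ccw b c a)`),
`Pool.AR.q_ANG`, `Pool.AR.q_MOR` (`IsMob g → Ori g`), `Pool.GC.dns`, `Pool.GC.mb1`, `Pool.GC.mb2`,
`Pool.GC.mb3` (a Möbius map with three fixed points is `1`). `Ccw a b c` is by definition `0 < area a b c`, and
`area a b c = sd a b c` by definition. `IsMob γ` for `γ ∈ Γ`: `FirstKind.mob`; `γ ^ n ∈ Γ`: `Γ.zpow_mem`.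
-/

open Topology Filter Set
open scoped ComplexConjugate

set_option autoImplicit false

namespace Pool.TZ

open Pool.CG Pool.AR Pool.SH

/-- the setting of part E -/
structure St (Γ : Subgroup H) (V : Set ℂ) (A : ℂ → ℂ → Prop) (π : ℂ → ℂ) : Prop where
  fk : FirstKind Γ
  tf : ∀ γ ∈ Γ, ∀ n : ℕ, 0 < n → γ ^ n = 1 → γ = 1
  gr : Gr Γ V A
  fo : Fo Γ V A π

/-- the Lorentz product of the points `k` and `z` -/
noncomputable def fr (k z : ℂ) : ℝ := 1 - (k * conj z).re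

/-- a chain with different ends has a step where the property `P` changes -/
theorem rtg_change {A : ℂ → ℂ → Prop} {P : ℂ → Prop} {v w : ℂ} (h : Relation.ReflTransGen A v w)
    (hv : P v) (hw : ¬ P w) : ∃ x y, A x y ∧ P x ∧ ¬ P y := by
  induction h with
  | refl => exact absurd hv hw
  | @tail b c _ hbc ih =>
    by_cases hb : P b
    · exact ⟨b, c, hbc, hb, hw⟩
    · exact ih hb

/-! ### E1: lines and dynamics -/

/-- SDX (100 lines; uses nothing): the function `sd`. Proofs. (1) definition. (2) expand. (3) `sd` is affine: expand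
(`s + t = 1`). (4) continuous. (5) `Pool.AR.q_LKC`: `Link p q c d` iff (`Ccw p c q` and `Ccw q d p`) or
(`Ccw p d q` and `Ccw q c p`); by rotation (`q_CYO`) and (1), (2): `Ccw p c q` iff `Ccw q p c` iff `sd p q c < 0`,
and `Ccw q d p` iff `Ccw p q d` iff `0 < sd p q d`. (6) `sd p q p = sd p q q = 0`; if `z ≠ p, q` then `Ccw p q z` or
`Ccw p z q` (`q_CYO` 3), so `sd p q z > 0` or `sd p q z < 0`. (7) If `sd p q k = 0` take `u = k`. Otherwise, with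
`a = sd p q k`, `b = sd p q l`, `a b ≤ 0`, `a ≠ 0`: `a - b ≠ 0` and `t = a / (a - b) ∈ [0, 1]`,
`u = (1 - t) k + t l`, (3). -/
def Stmt_SDX : Prop :=
  (∀ p q z : Circle, 0 < sd p q (z : ℂ) ↔ Ccw p q z) ∧
  (∀ (p q : Circle) (k : ℂ), sd q p k = - sd p q k) ∧
  (∀ (p q : Circle) (k l : ℂ) (s t : ℝ), s + t = 1 →
    sd p q (s • k + t • l) = s * sd p q k + t * sd p q l) ∧
  (∀ p q : Circle, Continuous (sd p q)) ∧
  (∀ p q c d : Circle, Link p q c d ↔ sd p q (c : ℂ) * sd p q (d : ℂ) < 0) ∧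
  (∀ p q z : Circle, p ≠ q → (sd p q (z : ℂ) = 0 ↔ z = p ∨ z = q)) ∧
  ∀ (p q : Circle) (k l : ℂ), sd p q k * sd p q l ≤ 0 → ∃ u ∈ segment ℝ k l, sd p q u = 0

/-- FRF (90 lines; uses nothing): the function `fr`. Proofs. (1) `|re (k conj z)| ≤ ‖k‖ ‖z‖ ≤ 1`, and
`‖k - z‖ ^ 2 = ‖k‖ ^ 2 + ‖z‖ ^ 2 - 2 re (k conj z) ≤ 2 fr k z`. (2) `re (k conj z) ≤ ‖k‖ < 1`. (3) `0 ≤ fr` by (1), and
`fr k z = 0` implies `k = z` by (1). (4) continuous. (5) `p ≠ q`, `sd p q k = 0`: `conj (q - p) (k - p)` is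
real, so `k - p = t (q - p)` with the real number `t = conj (q - p) (k - p) / ‖q - p‖ ^ 2`; now
`fr k p = 1 - re (((1 - t) p + t q) conj p) = 1 - (1 - t) - t re (q conj p) = t fr q p`, `fr q p = fr p q`, in the
same way `fr k q = (1 - t) fr p q`, and `‖k‖ ^ 2 = (1 - t) ^ 2 + t ^ 2 + 2 t (1 - t) re (p conj q)
= 1 - 2 t (1 - t) fr p q`. -/
def Stmt_FRF : Prop :=
  (∀ k z : ℂ, ‖k‖ ≤ 1 → ‖z‖ ≤ 1 → 0 ≤ fr k z ∧ fr k z ≤ 2 ∧ ‖k - z‖ ^ 2 ≤ 2 * fr k z) ∧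
  (∀ k z : ℂ, ‖k‖ < 1 → ‖z‖ ≤ 1 → 0 < fr k z) ∧
  (∀ k z : ℂ, ‖k‖ ≤ 1 → ‖z‖ ≤ 1 → k ≠ z → 0 < fr k z) ∧
  (∀ z : ℂ, Continuous fun k => fr k z) ∧
  ∀ (p q : Circle) (k : ℂ), p ≠ q → sd p q k = 0 → ∃ t : ℝ, k = (1 - t) • (p : ℂ) + t • (q : ℂ) ∧
    fr k p = t * fr p q ∧ fr k q = (1 - t) * fr p q ∧ 1 - ‖k‖ ^ 2 = 2 * (t * (1 - t)) * fr p q

/-- AXS (60 lines; uses nothing): an axis which separates `a` and `b`. Proof. The sets `U` of the `z` with
`Ccw a z b` and `U'` of the `z` with `Ccw b z a` are open (`area` is continuous) and not empty (`q_ANG` 3, 1: the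
midpoint of the arc). `Pool.GC.dns`: `γ ∈ Γ`, `p ∈ U`, `q ∈ U'` with `Axis γ p q`; `q_LKC`: `Link a b p q`,
`q_SYM`. -/
def Stmt_AXS : Prop :=
  ∀ Γ : Subgroup H, FirstKind Γ → ∀ a b : Circle, a ≠ b → ∃ γ ∈ Γ, ∃ p q : Circle, Axis γ p q ∧ Link p q a b

/-- LAM (120 lines; uses ACT ACW KPP KPB FRE FRF): the multiplier of a hyperbolic element. Proof. (a) For
`Par g α β` and points `k`, `l` of the closed disc: `fr (act g k) (act g l) * (kD α β k * kD α β l) = fr k l` (ACW and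
the first formula of KPB, `kD > 0` by KPP). So if the Möbius map `g` fixes `p` and `q` (`act g p = p`, ACT 1) then for
`L = kD α β q / kD α β p > 0`: `fr (act g k) p * fr k q = L * (fr k p * fr (act g k) q)` for all `k` in the closed
disc (both sides are `fr k p fr k q / (kD k kD p)`). For `k = 0` (`fr 0 z = 1`): `L = fr (act g 0) p / fr (act g 0) q`
is determined by `g`: call it `L g`. (b) `L (g * g') = L g * L g'` for two such maps: evaluate the three formulas at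
`k = 0`, `k' = act g' 0` (all `fr` are positive, FRF 2). So `L (γ ^ n) = L γ ^ n` for `n : ℤ` (`Int.induction_on`, or
the two cases `n`, `-n` with `n : ℕ`). (c) `Λ = L γ ≠ 1`: let `u = (1 / 2) p + (1 / 2) q`, `sd p q u = 0`, `‖u‖ < 1`
(FRF 5: `t = 1 / 2`). `act γ u ∈ segment (act γ p) (act γ q) = segment p q` (ACT 6), so `act γ u = (1 - t) p + t q`
and (FRF 5; or directly) `fr (act γ u) p = t c`, `fr (act γ u) q = (1 - t) c`, `fr u p = fr u q = c / 2` with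
`c = fr p q > 0`. If `Λ = 1` the formula gives `t = 1 - t`, `act γ u = u`, so `γ = 1` (FRE): a contradiction to
`Axis γ p q` (the circle has a third point). -/
def Stmt_LAM : Prop :=
  ∀ Γ : Subgroup H, FirstKind Γ → (∀ γ ∈ Γ, ∀ n : ℕ, 0 < n → γ ^ n = 1 → γ = 1) → ∀ γ ∈ Γ,
    ∀ p q : Circle, Axis γ p q → ∃ L : ℝ, 0 < L ∧ L ≠ 1 ∧ ∀ (n : ℤ) (k : ℂ), ‖k‖ ≤ 1 →
      fr (act (γ ^ n) k) p * fr k q = L ^ n * (fr k p * fr (act (γ ^ n) k) q)

/-- HYD (70 lines; uses ACT FRF LAM): a hyperbolic element acts cocompactly on its axis. Proof. `L` from LAM,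
`M = max L L⁻¹ > 1`, `c = fr p q > 0`, `r = √(1 - c / (M + 1))` (`r < 1`; if `1 - ‖u‖ ^ 2 ≥ c / (M + 1)` then
`‖u‖ ≤ r`). Let `‖u‖ < 1`, `sd p q u = 0`; FRF 5: `u = (1 - t) p + t q`, and `0 < t < 1` (as
`0 < 1 - ‖u‖ ^ 2 = 2 t (1 - t) c`). Let `R = t / (1 - t) > 0`. There is `n : ℤ` with `1 ≤ L ^ n R ≤ M`
(`exists_mem_Ico_zpow` for `M`; `M` is `L` or `L⁻¹`). `u' = act (γ ^ n) u` satisfies `sd p q u' = 0` (ACT 8;
`γ ^ n` fixes `p` and `q`), `‖u'‖ < 1`, so `u' = (1 - t') p + t' q` with `0 < t' < 1`, and LAM says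
`t' (1 - t) = L ^ n t (1 - t')`, that is `t' = ρ (1 - t')` with `ρ = L ^ n R ∈ [1, M]`. So `t' ≥ 1 / 2`,
`1 = (1 + ρ) (1 - t')`, `1 - t' ≥ 1 / (M + 1)` and `1 - ‖u'‖ ^ 2 = 2 t' (1 - t') c ≥ c / (M + 1)`. -/
def Stmt_HYD : Prop :=
  ∀ Γ : Subgroup H, FirstKind Γ → (∀ γ ∈ Γ, ∀ n : ℕ, 0 < n → γ ^ n = 1 → γ = 1) → ∀ γ ∈ Γ,
    ∀ p q : Circle, Axis γ p q → ∃ r : ℝ, r < 1 ∧ ∀ u : ℂ, ‖u‖ < 1 → sd p q u = 0 →
      ∃ n : ℤ, ‖act (γ ^ n) u‖ ≤ r

/-- `q` is the attracting and `p` the repelling fixed point of `γ` in the closed disc -/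
def NS (γ : H) (p q : Circle) : Prop :=
  ∀ k : ℂ, ‖k‖ ≤ 1 → k ≠ p → k ≠ q →
    Tendsto (fun n : ℤ => act (γ ^ n) k) atTop (𝓝 (q : ℂ)) ∧
    Tendsto (fun n : ℤ => act (γ ^ n) k) atBot (𝓝 (p : ℂ))

/-- DYN (80 lines; uses ACT FRF LAM): dynamics of a hyperbolic element. Proof. `L` from LAM. Let `k ≠ p, q`,
`a = fr k p > 0`, `b = fr k q > 0` (FRF 3), `k n = act (γ ^ n) k` (in the closed disc). LAM:
`fr (k n) p * b = L ^ n * (a * fr (k n) q)`, and both `fr (k n) p`, `fr (k n) q` are in `[0, 2]`. If `1 < L`: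
`fr (k n) q ≤ 2 b / (a L ^ n) → 0` for `n → ∞`, so `‖k n - q‖ ^ 2 ≤ 2 fr (k n) q → 0`; and
`fr (k n) p ≤ 2 (a / b) L ^ n → 0` for `n → -∞`. So `NS γ p q`. If `L < 1`: in the same way `NS γ q p`. -/
def Stmt_DYN : Prop :=
  ∀ Γ : Subgroup H, FirstKind Γ → (∀ γ ∈ Γ, ∀ n : ℕ, 0 < n → γ ^ n = 1 → γ = 1) → ∀ γ ∈ Γ,
    ∀ p q : Circle, Axis γ p q → NS γ p q ∨ NS γ q p

/-! ### E2: the rays -/

/-- ITR (60 lines; uses ACT): iterates. Proofs. (1), (2): induction (`Function.iterate_succ_apply'`;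
`Fo.adj`, `Gr.adj`, `Fo.equiv`). (3) The set of the `w ∈ V` with `‖w‖ ≤ r` is finite (`Gr.finV`), and for each of
them the set of the `k` with `π^[k] v = w` is finite (`Fo.leave v w` with `γ = 1`, `act 1 w = w` by ACT 4). So the set
of the `k` with `‖π^[k] v‖ ≤ r` is finite (`Set.Finite.biUnion`; `Nat.cofinite_eq_atTop`). -/
def Stmt_ITR : Prop :=
  ∀ (Γ : Subgroup H) (V : Set ℂ) (A : ℂ → ℂ → Prop) (π : ℂ → ℂ), St Γ V A π →
    (∀ v ∈ V, ∀ k : ℕ, π^[k] v ∈ V ∧ A (π^[k] v) (π^[k + 1] v)) ∧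
    (∀ γ ∈ Γ, ∀ v ∈ V, ∀ k : ℕ, π^[k] (act γ v) = act γ (π^[k] v)) ∧
    ∀ v ∈ V, ∀ r : ℝ, r < 1 → ∀ᶠ k in atTop, r < ‖π^[k] v‖

/-- FCR (80 lines; uses ACT HYD): up to powers of `γ` only finitely many edges meet the axis. Proof. `r` from HYD; let
`E` be the set of the `e` with `A e.1 e.2` such that some `u ∈ segment e.1 e.2` has `‖u‖ ≤ r` (finite, `Gr.finA`),
`F` the set of all `e.1`, `e.2` with `e ∈ E`. Let `A x y`, `u ∈ segment x y`, `sd p q u = 0`; `‖u‖ < 1` (the open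
ball is convex). HYD: `‖act (γ ^ m) u‖ ≤ r`. Let `w = act (γ ^ m) x`, `w' = act (γ ^ m) y`: `A w w'` (`Gr.invA`) and
`act (γ ^ m) u ∈ segment w w'` (ACT 6), so `(w, w') ∈ E`. With `n = - m`: `act (γ ^ n) w = x` (ACT 3, 4). -/
def Stmt_FCR : Prop :=
  ∀ (Γ : Subgroup H) (V : Set ℂ) (A : ℂ → ℂ → Prop) (π : ℂ → ℂ), St Γ V A π → ∀ γ ∈ Γ,
    ∀ p q : Circle, Axis γ p q → ∃ F : Set ℂ, F.Finite ∧ F ⊆ V ∧ ∀ x y u : ℂ, A x y →
      u ∈ segment ℝ x y → sd p q u = 0 → ∃ n : ℤ, ∃ w ∈ F, ∃ w' ∈ F, A w w' ∧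
        x = act (γ ^ n) w ∧ y = act (γ ^ n) w'

/-- XFI (70 lines; uses SDX ITR FCR): a ray crosses an axis only finitely often. Proof. `F` from FCR. Let `K` be the
set of the `k` such that some `u ∈ segment (π^[k] v) (π^[k + 1] v)` has `sd p q u = 0`. For `k ∈ K`, by FCR,
`π^[k] v = act (γ ^ n) w` with `w ∈ F`, so `K` is contained in the union over `w ∈ F` of the finite sets of
`Fo.leave v w`: it is finite. Let `N` be larger than all elements of `K`. For `k ≥ N`: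
`0 < sd p q (π^[k] v) * sd p q (π^[k + 1] v)` (SDX 7). By induction all `sd p q (π^[k] v)`, `k ≥ N`, have the
same sign. -/
def Stmt_XFI : Prop :=
  ∀ (Γ : Subgroup H) (V : Set ℂ) (A : ℂ → ℂ → Prop) (π : ℂ → ℂ), St Γ V A π → ∀ γ ∈ Γ,
    ∀ p q : Circle, Axis γ p q → ∀ v ∈ V,
      (∀ᶠ k in atTop, 0 < sd p q (π^[k] v)) ∨ ∀ᶠ k in atTop, sd p q (π^[k] v) < 0

/-- RAY (100 lines; uses SDX AXS ITR XFI): the rays converge. Proof. Let `v ∈ V`, `f k = π^[k] v` (in the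
closed unit ball, which is compact). Each ultrafilter `l ≤ atTop` has a limit `x` of `f` along `l`, `‖x‖ ≤ 1`
(`IsCompact.ultrafilter_le_nhds`), and `‖x‖ ≥ r` for all `r < 1` (ITR 3), so `‖x‖ = 1`. Two such limits (for `l`,
`l'`) are equal: if `x ≠ x'`, AXS gives an axis `(p, q)` with `Link p q x x'`, so
`sd p q x * sd p q x' < 0` (SDX 5), but by XFI (and continuity, SDX 4) both numbers are `≥ 0` or both are `≤ 0`.
So `f` converges (`tendsto_iff_ultrafilter`, or `IsCompact.tendsto_nhds_of_unique_mapClusterPt`); choose `ξ v`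
(for `v ∉ V` let `ξ v = 1`). -/
def Stmt_RAY : Prop :=
  ∀ (Γ : Subgroup H) (V : Set ℂ) (A : ℂ → ℂ → Prop) (π : ℂ → ℂ), St Γ V A π →
    ∃ ξ : ℂ → Circle, Ends V π ξ

/-- XIQ (50 lines; uses ACT ITR): invariance. Proofs. (1) `π^[k] (π^[m] v) = π^[k + m] v` has the same limit;
limits are unique, the coercion `Circle → ℂ` is injective. (2) `π^[k] (act γ v) = act γ (π^[k] v)` (ITR 2); all
`π^[k] v` and `ξ v` are in the closed ball, on which `act γ` is continuous (ACT 5): the limit is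
`act γ (ξ v) = γ (ξ v)` (ACT 1). -/
def Stmt_XIQ : Prop :=
  ∀ (Γ : Subgroup H) (V : Set ℂ) (A : ℂ → ℂ → Prop) (π : ℂ → ℂ) (ξ : ℂ → Circle), St Γ V A π →
    Ends V π ξ → (∀ v ∈ V, ∀ m : ℕ, ξ (π^[m] v) = ξ v) ∧ ∀ γ ∈ Γ, ∀ v ∈ V, ξ (act γ v) = γ (ξ v)

/-- NFX (150 lines; uses ACT SDX AXS DYN FCR ITR): `ξ v` is not an end of an axis. Proof. By symmetry
(`Axis γ q p`) it is enough to show `ξ v ≠ p`. Suppose `ξ v = p`. By DYN there are `g j ∈ Γ`, `j : ℕ` (`g j = γ ^ j` or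
`γ ^ (-j)`), which fix `p` and `q` such that `act (g j)⁻¹ k → q` (`j → ∞`) for all `k` of the open disc. AXS for
`p ≠ q`: `δ ∈ Γ`, `Axis δ r s`, `Link r s p q`. Let `σ = sd r s q`; `σ ≠ 0` and `sd r s p * σ < 0` (SDX 5). Let
`S j k = sd (g j r) (g j s) k`. (a) ACT 8 for `g j` and `k' = act (g j)⁻¹ k` (`act (g j) k' = k`):
`S j k = c * sd r s k'` with `c > 0`. So for each `k` of the open disc `0 < S j k * σ` for all large `j`
(`k' → q`, `sd r s` is continuous), and `S j p * σ < 0` for all `j` (`(g j)⁻¹ p = p`). (b) FCR for `δ`, `r`, `s`: `F`. Let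
`K` be the set of the `k : ℕ` such that `π^[k] v = act γ' w` for some `γ' ∈ Γ`, `w ∈ F`: finite (`Fo.leave`). Choose `j`
such that `0 < S j (π^[k] v) * σ` for `k = 0` and for all `k`, `k + 1` with `k ∈ K`. (c) Claim:
`0 < S j (π^[k] v) * σ` for all `k`. Induction; let it be true for `k`. If `k ∈ K` then it is true for `k + 1` by the
choice of `j`. If `k ∉ K`: otherwise SDX 7 gives `u` on the segment from `x = π^[k] v` to `y = π^[k + 1] v` with
`S j u = 0`, so by (a) `sd r s (act (g j)⁻¹ u) = 0`, and `act (g j)⁻¹ u` is on the segment (ACT 6) between the adjacent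
vertices `act (g j)⁻¹ x`, `act (g j)⁻¹ y` (`Gr.invA`), so by FCR `act (g j)⁻¹ x = act (δ ^ n) w`, `w ∈ F`, and
`x = act (g j * δ ^ n) w`: `k ∈ K`, a contradiction. (d) Limit `k → ∞`: `0 ≤ S j (ξ v) * σ = S j p * σ < 0`. -/
def Stmt_NFX : Prop :=
  ∀ (Γ : Subgroup H) (V : Set ℂ) (A : ℂ → ℂ → Prop) (π : ℂ → ℂ) (ξ : ℂ → Circle), St Γ V A π →
    Ends V π ξ → ∀ γ ∈ Γ, ∀ p q : Circle, Axis γ p q → ∀ v ∈ V, ξ v ≠ p ∧ ξ v ≠ q

/-- DXI (50 lines; uses XIQ): density of the ends. Proof. `V` is not empty (`Gr.deep` for `z = 0`); let `v ∈ V`. The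
orbit of `ξ v` is dense (`FirstKind.dense`) and consists of ends: `γ (ξ v) = ξ (act γ v)`, `act γ v ∈ V`. -/
def Stmt_DXI : Prop :=
  ∀ (Γ : Subgroup H) (V : Set ℂ) (A : ℂ → ℂ → Prop) (π : ℂ → ℂ) (ξ : ℂ → Circle), St Γ V A π →
    Ends V π ξ → ∀ U : Set Circle, IsOpen U → U.Nonempty → ∃ v ∈ V, ξ v ∈ U

/-- AXC (80 lines; uses SDX NFX DXI): each axis is crossed by a line of `EE A ξ`. Proof. The sets of the `z` with
`0 < sd p q z` and with `sd p q z < 0` are open (SDX 4) and not empty (`q_ANG`, SDX 1, 2: there are points with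
`Ccw p q z` and with `Ccw q p z`). DXI: `v, v' ∈ V` with `0 < sd p q (ξ v)`, `sd p q (ξ v') < 0`. `Gr.conn` and
`rtg_change` (`P x : 0 < sd p q (ξ x)`): `A x y` with `0 < sd p q (ξ x)` and `sd p q (ξ y) ≤ 0`. By NFX and SDX 6
`sd p q (ξ y) ≠ 0`. So `Link p q (ξ x) (ξ y)` (SDX 5), and `ξ x ≠ ξ y`. -/
def Stmt_AXC : Prop :=
  ∀ (Γ : Subgroup H) (V : Set ℂ) (A : ℂ → ℂ → Prop) (π : ℂ → ℂ) (ξ : ℂ → Circle), St Γ V A π →
    Ends V π ξ → ∀ γ ∈ Γ, ∀ p q : Circle, Axis γ p q → ∃ a b : Circle, (a, b) ∈ EE A ξ ∧ Link p q a b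

/-! ### E3: local finiteness -/

/-- LF1 (150 lines; uses ACT SDX AXS DYN FCR ITR): vertices near a point `ζ` of the circle whose ends converge.
Proof. Suppose `p' ≠ ζ`. AXS: `δ ∈ Γ`, `Axis δ r s`, `Link r s ζ p'`; `σ = sd r s ζ ≠ 0`, `sd r s p' * σ < 0` (SDX 5).
`F` from FCR for `δ`, `r`, `s`; let `W` be the set of the `v ∈ V` such that `π^[k] v ∈ F` for some `k` (finite:
`Fo.anc`). (a) For `l`-almost all `i`: `w i ∈ V`, `0 < sd r s (w i) * σ` and `sd r s (ξ (w i)) * σ < 0` (SDX 4). For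
such `i` there is `k` with `0 < sd r s (π^[k] (w i)) * σ` and `sd r s (π^[k + 1] (w i)) * σ ≤ 0` (otherwise
`0 < sd r s (π^[k] (w i)) * σ` for all `k` by induction, and in the limit `0 ≤ sd r s (ξ (w i)) * σ`). SDX 7: the edge
meets the line, so by FCR `π^[k] (w i) = act (δ ^ n) u` with `u ∈ F`. Then (ITR 2, ACT 3, 4)
`π^[k] (act (δ ^ (-n)) (w i)) = u`, so `act (δ ^ (-n)) (w i) ∈ W`: `w i = act (δ ^ n) w'` with `w' ∈ W`. (b) As `W` is
finite and `l` is an ultrafilter there is one `w' ∈ W` such that for `l`-almost all `i` there is `n i : ℤ` with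
`w i = act (δ ^ n i) w'` (`Ultrafilter.eventually_exists_mem_iff`, or
`Ultrafilter.finite_biUnion_mem_iff`). The ultrafilter `l.map n` on `ℤ` is `pure m` or `≤ cofinite`
(`Ultrafilter.le_cofinite_or_eq_pure`). First case: `w i = act (δ ^ m) w'` for almost all `i`, so
`ζ = act (δ ^ m) w'`, but `‖act (δ ^ m) w'‖ < 1` (ACT 2). Second case: `l.map n ≤ atTop` or `≤ atBot`
(`Int.cofinite_eq`, `Ultrafilter.le_sup_iff`), and DYN: `w i = act (δ ^ n i) w'` converges to `r` or `s`, so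
`ζ = r` or `ζ = s`: a contradiction to `Link r s ζ p'`. -/
def Stmt_LF1 : Prop :=
  ∀ (Γ : Subgroup H) (V : Set ℂ) (A : ℂ → ℂ → Prop) (π : ℂ → ℂ) (ξ : ℂ → Circle), St Γ V A π →
    Ends V π ξ → ∀ (ι : Type) (l : Ultrafilter ι) (w : ι → ℂ) (ζ p' : Circle), (∀ᶠ i in l, w i ∈ V) →
      Tendsto w l (𝓝 (ζ : ℂ)) → Tendsto (fun i => ξ (w i)) l (𝓝 p') → p' = ζ

/-- LFE (120 lines; uses LF1): `EE A ξ` is locally finite. Proof. Let `ε > 0` and let the set `S` of the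
`e ∈ EE A ξ` with `ε ≤ dist e.1 e.2` be infinite. There is an ultrafilter `l ≤ cofinite` on `Circle × Circle` with
`S ∈ l` (`Filter.NeBot (cofinite ⊓ 𝓟 S)`, `Ultrafilter.of`). Choose `x e`, `y e` for `e ∈ S` with
`A (x e) (y e)`, `ξ (x e) = e.1`, `ξ (y e) = e.2`. The map `e ↦ (x e, y e)` is injective on `S`, so by `Gr.finA` for each
`r < 1` for `l`-almost all `e` all points of the segment from `x e` to `y e`, in particular `x e`, `y e` and the
midpoint, have norm `> r`. Along `l`: `x e → X`, `y e → Y` (closed ball), `‖X‖ = ‖Y‖ = 1` and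
`‖(X + Y) / 2‖ ≥ 1`, so `X = Y` (`‖X - Y‖ ^ 2 = 2 ‖X‖ ^ 2 + 2 ‖Y‖ ^ 2 - ‖X + Y‖ ^ 2`). Let `e.1 → p'`, `e.2 → q'`
along `l` (the circle is compact). LF1 (with `ζ = X`): `p' = X` and `q' = Y = X`. So `dist e.1 e.2 → 0` along `l`: a
contradiction to `S ∈ l`. -/
def Stmt_LFE : Prop :=
  ∀ (Γ : Subgroup H) (V : Set ℂ) (A : ℂ → ℂ → Prop) (π : ℂ → ℂ) (ξ : ℂ → Circle), St Γ V A π →
    Ends V π ξ → LocFin (EE A ξ)

/-! ### E4: stabilizers -/

/-- CED (40 lines; uses CUS DXI): each cusp is an end of a line of `EE A ξ`. Proof. CUS: `ξ v = u`. DXI for the open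
set `{u}ᶜ` (not empty): `ξ v' ≠ u`. `Gr.conn` and `rtg_change` (`P x : ξ x = u`): `A x y`, `ξ x = u`, `ξ y ≠ u`;
`b = ξ y`. -/
def Stmt_CED : Prop :=
  ∀ (Γ : Subgroup H) (V : Set ℂ) (A : ℂ → ℂ → Prop) (π : ℂ → ℂ) (ξ : ℂ → Circle), St Γ V A π →
    Ends V π ξ → ∀ γ ∈ Γ, ∀ u : Circle, (∀ z, γ z = z ↔ z = u) → ∃ b : Circle, (u, b) ∈ EE A ξ

/-- STH (80 lines; uses ACT SDX DYN): a hyperbolic element preserves no set of three points such that no line of `E`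
separates two of them, if a line of `E` crosses the axis. Proof. `Link a b p q` (`q_SYM`), so
`sd a b p * sd a b q < 0` (SDX 5). Choose `k ∈ K`, `k ≠ p, q`. `(γ ^ n) k ∈ K` for all `n : ℤ` (`γ k' ∈ K` for
`k' ∈ K` and `γ⁻¹ k' ∈ K`), and `((γ ^ n) k : ℂ) = act (γ ^ n) k` (ACT 1). By DYN and SDX 4 for large `n` the numbers
`sd a b ((γ ^ n) k)` and `sd a b ((γ ^ (-n)) k)` have the signs of `sd a b q` and `sd a b p` (or the other way
round), so `Link a b ((γ ^ n) k) ((γ ^ (-n)) k)` (SDX 5): a contradiction to `Reg`. -/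
def Stmt_STH : Prop :=
  ∀ (Γ : Subgroup H) (E : Set (Circle × Circle)) (K : Set Circle), FirstKind Γ →
    (∀ γ ∈ Γ, ∀ n : ℕ, 0 < n → γ ^ n = 1 → γ = 1) → Reg E K → ∀ γ ∈ Γ, (γ : H) '' K = K →
    ∀ p q a b : Circle, Axis γ p q → (a, b) ∈ E → Link p q a b → False

/-- STP (100 lines; uses SDX CU1): the same for parabolic elements. Proof. CU1: `τ ≠ 0`,
`Par γ (1 + i τ) (- i τ u)`. For `z ≠ u` on the circle let `κ = z conj u ≠ 1` and `W z = 1 / (1 - κ)`;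
`re (W z) = 1 / 2` (`|κ| = 1`). (1) `W (γ z) = W z - i τ`: with `κ' = (γ z) conj u` the definition of `Par` gives
`κ' (i τ κ + 1 - i τ) = (1 + i τ) κ - i τ`, so `1 - κ' = (1 - κ) / (1 - i τ (1 - κ))` (`γ z ≠ u`). So
`W ((γ ^ n) z) = W z - i n τ` for `n : ℤ` (induction; for `γ⁻¹` apply (1) to `γ⁻¹ z`). (2) For `a, b ≠ u` on the circle
`a - u = - u / W a`, so `sd u a b = im (1 / (conj (W a) * W b)) = im (W a * conj (W b)) / ‖W a * W b‖ ^ 2
= (im (W a) - im (W b)) / (2 ‖W a * W b‖ ^ 2)`. (3) Choose `k ∈ K`, `k ≠ u` (`Reg`: three points). `(γ ^ n) k ∈ K` for all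
`n : ℤ` (as in STH), and `sd u c ((γ ^ n) k)` has the sign of `im (W c) - im (W k) + n τ`: positive for some `n`,
negative for some `m`. So `Link u c ((γ ^ n) k) ((γ ^ m) k)` (SDX 5): a contradiction to `Reg`. -/
def Stmt_STP : Prop :=
  ∀ (E : Set (Circle × Circle)) (K : Set Circle) (γ : H), IsMob γ → Reg E K → (γ : H) '' K = K →
    ∀ u c : Circle, (∀ z, γ z = z ↔ z = u) → c ≠ u → (u, c) ∈ E → False

-- CTS (80 lines; uses RAY XIQ XNG LFE AXS AXC CLS CED STH STP; the statement is in `Defs.lean`). Proof. `ξ` from RAY,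
-- `E = EE A ξ`. `symm`: `Gr.symm`. `ne`: definition. `unlinked`: XNG. `fin`: LFE. `nonempty`: AXS for two different
-- points gives an axis, AXC. `keep`: `Gr.invA` and XIQ 2 (`Gr.adj`: `x, y ∈ V`; `γ` is injective). `triv`: let
-- `γ ≠ 1`. CLS: if `Axis γ p q`, AXC and STH. If `γ` has exactly one fixed point `u`: CED and STP (`c ≠ u` by the
-- definition of `EE`).

end Pool.TZ
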