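import Pool.Agent.Work.MP_ae1ff6_tz.InterfaceA

/-!
# Invariant ideal triangulations (MP_ae1ff6_gt): part E2, cusps (helper96)

Block `X`: file `Pool/Agent/Work/MP_ae1ff6_tz/B_X.lean`, `import Pool.Agent.Work.MP_ae1ff6_tz.InterfaceE2`,
`namespace Pool.TZ`, the `open` lines of this file, `theorem p_X (h1 : Stmt_Y) .. : Stmt_X` with exactly the
blocks of the column `uses`, in this order, as hypotheses; auxiliary lemmas with the prefix `X_`. Proved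
facts (imported): `Pool.GC.mb1 : Stmt_MB1`, `mb2 : Stmt_MB2`, `mb3 : Stmt_MB3`, `pig : Stmt_PIG` (statements in
`Pool/Agent/Work/MP_ae1ff6_cg/Interface.lean`, namespace `Pool.CG`). `Par g α β`: `g` is the Möbius map with the
parameters `α`, `β`. The hypotheses `Stmt_ACW`, `Stmt_KPP`, `Stmt_KPB` are in `InterfaceA.lean`, `Stmt_ACT` and
`Stmt_CHF` in `InterfaceS.lean`.
-/

open Topology Filter Set
open scoped ComplexConjugate

set_option autoImplicit false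

namespace Pool.TZ

open Pool.CG Pool.AR Pool.SH

/-- the horofunction at the point `c` of the circle: `bu c k < t` is a horoball -/
noncomputable def bu (c : Circle) (k : ℂ) : ℝ := (1 - (k * conj (c : ℂ)).re) / √(1 - ‖k‖ ^ 2)

/-- CLS (50 lines; uses ELL, that is `Pool.CG.Stmt_ELL`): the elements of `Γ` have one or two fixed points. Proof. Suppose that `γ` has no
fixed point. By ELL all powers `γ ^ n`, `n : ℕ`, have parameters with `‖β‖ ≤ R`. They are different: `γ ^ m = γ ^ n`,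
`m < n`, gives `γ ^ (n - m) = 1`, so `γ = 1`. So the set `T` of the `γ ^ n` is infinite, and
`Pool.GC.pig` for `T`, `R` and `η = ε` from `FirstKind.discrete` gives `g ≠ g'` in `T` with
`dist ((g⁻¹ * g') z) z < ε` for all `z`, so `g⁻¹ * g' = 1`: a contradiction. So there is a fixed point `p`. If
there is a second one `q ≠ p`, then there is no third one (`mb3`, `γ ≠ 1`): `Axis γ p q`. -/
def Stmt_CLS : Prop :=
  ∀ Γ : Subgroup H, FirstKind Γ → (∀ γ ∈ Γ, ∀ n : ℕ, 0 < n → γ ^ n = 1 → γ = 1) →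
    ∀ γ ∈ Γ, γ ≠ 1 → (∃ c : Circle, ∀ z, γ z = z ↔ z = c) ∨ ∃ p q : Circle, Axis γ p q

/-- CU1 (70 lines): parameters of parabolic maps. Proof. Let `Par g α β`. A point `z` of the circle is fixed iff
`conj β z ^ 2 + (conj α - α) z - β = 0`. `β ≠ 0`: otherwise this is `(conj α - α) z = 0`, it holds for `z = c`,
so for all `z`: but `-c ≠ c` is not fixed. The point `w = - β / (conj β c)` has norm one and
`conj β z ^ 2 + (conj α - α) z - β = conj β (z - c) (z - w)` (the equation for `z = c`); so `w` is fixed and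
`w = c`: `conj β c ^ 2 = - β`, and the equation for `c` gives `2 conj β c = α - conj α = 2 i τ`, `τ = im α`. So
`conj β c = i τ`, `β = - i τ c`, `τ ≠ 0`, `‖β‖ ^ 2 = τ ^ 2` and `1 = ‖α‖ ^ 2 - ‖β‖ ^ 2 = (re α) ^ 2`. If
`re α = 1`: `α = 1 + τ i`. If `re α = - 1` take `- α`, `- β`, `- τ` (`Par g (-α) (-β)`). -/
def Stmt_CU1 : Prop :=
  ∀ (g : H) (c : Circle), IsMob g → (∀ z, g z = z ↔ z = c) →
    ∃ τ : ℝ, τ ≠ 0 ∧ Par g (1 + (τ : ℂ) * Complex.I) (-((τ : ℂ) * Complex.I * (c : ℂ)))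

/-- CU2 (100 lines; uses ACW KPP KPB CU1): the action of a parabolic map. Proof. (0) Let `τ` be from CU1. By
`mb2` (products, inverses) and induction `Par (g ^ n) (1 + n τ i) (- n τ i c)` for all `n : ℤ`: the parameters for
`τ` and `τ'` give those for `τ + τ'`, the inverse those for `- τ`. With `α = 1 + s i`, `β = - s i c`
(`s` real) and `k conj c = x + y i`: `kD α β k = 1 - 2 s y + 2 s ^ 2 (1 - x)`, so `kD α β c = 1`; and
`kN α β c = c` (`α c + β = c` and `conj β c + conj α = 1`; or expand `kN`). (1) KPB (first formula) for `k` and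
`l = c`: `kD k - re (kN k conj c) = 1 - re (k conj c)`, that is
`kD k (1 - re (act g k conj c)) = 1 - re (k conj c)` (ACW), and `√(1 - ‖act g k‖ ^ 2) = √(1 - ‖k‖ ^ 2) / kD k`
(KPP, `kD k > 0`). (2) Let `S = 1 - ‖k‖ ^ 2 > 0`, `P = 1 - x > 0`, `P = t √S` (`bu c k = t`); `S = 2 P - P ^ 2 - y ^ 2`
(`‖k‖ ^ 2 = x ^ 2 + y ^ 2`). Let `n` be the integer nearest to `y / (2 P τ)` (`round`), `δ = n τ - y / (2 P)`,
`|δ| ≤ |τ|`. For `s = n τ`: `kD k = 1 - y ^ 2 / (2 P) + 2 P δ ^ 2`, and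
`1 - y ^ 2 / (2 P) = (S + P ^ 2) / (2 P) = √S (1 + t ^ 2) / (2 t)`, `2 P δ ^ 2 ≤ 2 t √S τ ^ 2`. So `kD k ≤ C √S`,
`C = (1 + t ^ 2) / (2 t) + 2 t τ ^ 2`, and `1 - ‖act (g ^ n) k‖ ^ 2 = S / kD ^ 2 ≥ 1 / C ^ 2` (KPP):
`r = √(1 - 1 / C ^ 2)`. -/
def Stmt_CU2 : Prop :=
  ∀ (g : H) (c : Circle), IsMob g → (∀ z, g z = z ↔ z = c) →
    (∀ (n : ℤ) (k : ℂ), ‖k‖ < 1 → bu c (act (g ^ n) k) = bu c k) ∧
    ∀ t : ℝ, 0 < t → ∃ r : ℝ, r < 1 ∧ ∀ k : ℂ, ‖k‖ < 1 → bu c k = t → ∃ n : ℤ, ‖act (g ^ n) k‖ ≤ r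

/-- CU4 (90 lines): the function `bu`. Proofs. (1) `re (k conj c) ≤ ‖k‖ < 1`. (2) quotient of continuous
functions. (3) as CH2: let `K = 1 - ‖k‖ ^ 2`, `M = 1 - ‖m‖ ^ 2`, `a = ‖k - m‖`, `b = ‖c - m‖`. Then
`2 (1 - re (k conj m)) = a ^ 2 + M + K`, `2 (1 - re (m conj c)) = b ^ 2 + M`,
`2 (1 - re (k conj c)) = ‖k - c‖ ^ 2 + K ≤ (a + b) ^ 2 + K`, and
`(a ^ 2 + M + K) (b ^ 2 + M) = (a ^ 2 + M) (b ^ 2 + M) + K (b ^ 2 + M) ≥ (a + b) ^ 2 M + K M`. So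
`M (1 - re (k conj c)) ≤ 2 (1 - re (k conj m)) (1 - re (m conj c))`; divide by `M √K = √(K M) √M`. (4)
`z = (1 - δ) c`: `bu c z = δ / √(2 δ - δ ^ 2) ≤ √δ` for `0 < δ < 1`. (5) If `k j → z`, `‖k j‖ < 1`, `bu c (k j) < t`, then
`1 - re (k j conj c) ≤ t √(1 - ‖k j‖ ^ 2)`; the limits give `1 - re (z conj c) ≤ 0`, and
`‖z - c‖ ^ 2 = 2 (1 - re (z conj c))`. -/
def Stmt_CU4 : Prop :=
  ∀ c : Circle, (∀ k : ℂ, ‖k‖ < 1 → 0 < bu c k) ∧
    ContinuousOn (bu c) (Metric.ball 0 1) ∧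
    (∀ k m : ℂ, ‖k‖ < 1 → ‖m‖ < 1 → bu c k ≤ 2 * ch k m * bu c m) ∧
    (∀ ε : ℝ, 0 < ε → ∃ z : ℂ, ‖z‖ < 1 ∧ bu c z < ε) ∧
    ∀ (k : ℕ → ℂ) (z : Circle) (t : ℝ), (∀ j, ‖k j‖ < 1 ∧ bu c (k j) < t) →
      Tendsto k atTop (𝓝 (z : ℂ)) → z = c

/-- CU3 (70 lines; uses ACT CU2 CU4): the edges which cross a horocycle. Proof. `r` from CU2 for `t`;
`F = {x | ∃ y, A x y ∧ ∃ u ∈ segment x y, ‖u‖ ≤ r}` is finite (`Gr.finA`, image under `Prod.fst`) and contained in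
`V`. Let `A x y`, `bu c x < t ≤ bu c y`. The segment from `x` to `y` is in the open disc (convexity) and
preconnected, so there is `u` on it with `bu c u = t` (`IsPreconnected.intermediate_value`, CU4). CU2:
`‖act (γ ^ n) u‖ ≤ r`. `γ ^ n ∈ Γ`, so `A (act (γ ^ n) x) (act (γ ^ n) y)`, and `act (γ ^ n) u` is on the segment
between them (ACT 6). So `act (γ ^ n) x ∈ F`. -/
def Stmt_CU3 : Prop :=
  ∀ (Γ : Subgroup H) (V : Set ℂ) (A : ℂ → ℂ → Prop), FirstKind Γ → Gr Γ V A → ∀ γ ∈ Γ, ∀ c : Circle,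
    (∀ z, γ z = z ↔ z = c) → ∀ t : ℝ, 0 < t → ∃ F : Set ℂ, F.Finite ∧ F ⊆ V ∧
      ∀ x y, A x y → bu c x < t → t ≤ bu c y → ∃ n : ℤ, act (γ ^ n) x ∈ F

/-- CUS (100 lines; uses CHF CU2 CU3 CU4): each cusp is the end of a ray. Proof. `t = 1`, `F` from CU3. The set `W`
of the ancestors of the elements of `F` (`{v ∈ V | ∃ k, π^[k] v ∈ F}`, a finite union of the sets of `Fo.anc`) is
finite; let `m > 0` be less than `1` and all `bu c v`, `v ∈ W` (CU4 1). By CU4 (4) and `Gr.deep` there are `z` with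
`bu c z < m / 3` and `x ∈ V` with `ch z x < 3 / 2`, so `bu c x ≤ 2 ch x z bu c z < m` (CU4 3; CHF 1:
`ch x z = ch z x`). Claim: `bu c (π^[j] x) < 1` for all `j`. Otherwise let `j + 1` be the
first index with `1 ≤ bu c (π^[j+1] x)` (`Nat.find`; `j = 0` has `bu c x < 1`), `w = π^[j] x`: `A w (π w)`
(`Fo.adj`; all `π^[i] x ∈ V`), so CU3 gives `n` with `act (γ ^ n) w ∈ F`. `Fo.equiv` (induction on `j`):
`act (γ ^ n) w = π^[j] (act (γ ^ n) x)`, so `act (γ ^ n) x ∈ W`, and `bu c (act (γ ^ n) x) = bu c x < m` (CU2 1): a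
contradiction to the choice of `m`. So the claim holds, and CU4 (5) for the ray of `x` gives `ξ x = c`. -/
def Stmt_CUS : Prop :=
  ∀ (Γ : Subgroup H) (V : Set ℂ) (A : ℂ → ℂ → Prop) (π : ℂ → ℂ) (ξ : ℂ → Circle), FirstKind Γ →
    Gr Γ V A → Fo Γ V A π → Ends V π ξ → ∀ γ ∈ Γ, ∀ c : Circle, (∀ z, γ z = z ↔ z = c) →
    ∃ x ∈ V, ξ x = c

end Pool.TZ
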