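import Pool.Agent.Work.MP_ae1ff6_tz.Defs
import Pool.Agent.Work.MP_ae1ff6_sh.InterfaceR
import Pool.Agent.Work.MP_ae1ff6_sh.InterfaceT

/-!
# Invariant ideal triangulations (MP_ae1ff6_gt): part F, completion of a cut system (helper96)

Block `X`: file `Pool/Agent/Work/MP_ae1ff6_tz/B_X.lean`, `import Pool.Agent.Work.MP_ae1ff6_tz.InterfaceFF`,
`namespace Pool.TZ`, the `open` lines of this file, `theorem p_X (h1 : Stmt_Y) .. : Stmt_X` with exactly the
blocks of the column `uses`, in this order, as hypotheses; auxiliary lemmas with the prefix `X_`.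

Proved facts (not hypotheses; they are imported): `Pool.AR.q_CUT`, `q_CYO`, `q_LKC`, `q_ANG`, `q_MOR`
(statements in `Pool/Agent/Work/MP_ae1ff6_ar/Interface.lean`). The statements `Stmt_RCL`, `Stmt_RGA`,
`Stmt_RSD`, `Stmt_RSP`, `Stmt_RCH`, `Stmt_REQ` (`InterfaceR.lean` in `MP_ae1ff6_sh`), `Stmt_ARL`, `Stmt_ARX`
(`InterfaceG.lean`) are proved; they are hypotheses of the blocks which use them.

Picture: a closed subset `C` of an interval `[a, b]` with `a, b ∈ C` is subdivided: an interval `(u, v)`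
which contains points of `C` is cut at the point of `C` nearest to its midpoint. On the circle this gives an
ideal triangulation of each region of `E`, and these triangulations are glued along the lines of `E`.
-/

open Topology Filter Set
open scoped ComplexConjugate

set_option autoImplicit false

namespace Pool.TZ

open Pool.CG Pool.AR Pool.SH

/-! ### Subdivision of an interval -/

/-- `c` is a point of `C` strictly between `u` and `v` which is nearest to the midpoint -/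
def Nr (C : Set ℝ) (u v c : ℝ) : Prop :=
  c ∈ C ∧ u < c ∧ c < v ∧ ∀ k ∈ C, u < k → k < v → |2 * c - u - v| ≤ |2 * k - u - v|

open Classical in
/-- the chosen nearest point -/
noncomputable def sp (C : Set ℝ) (u v : ℝ) : ℝ := if h : ∃ c, Nr C u v c then h.choose else u

/-- `(u, v)` is an interval of level `n` of the subdivision of `(a, b)` -/
inductive Iv (C : Set ℝ) (a b : ℝ) : ℕ → ℝ → ℝ → Prop
  | root : Iv C a b 0 a b
  | left (n : ℕ) (u v : ℝ) : Iv C a b n u v → Nr C u v (sp C u v) → Iv C a b (n + 1) u (sp C u v)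
  | right (n : ℕ) (u v : ℝ) : Iv C a b n u v → Nr C u v (sp C u v) → Iv C a b (n + 1) (sp C u v) v

/-- `I` is a subdivision of the interval from `a` to `b` with the points of `C` -/
structure Bis (C : Set ℝ) (a b : ℝ) (I : Set (ℝ × ℝ)) : Prop where
  root : (a, b) ∈ I
  sub : ∀ u v, (u, v) ∈ I → u < v ∧ u ∈ C ∧ v ∈ C
  lam : ∀ u v u' v', (u, v) ∈ I → (u', v') ∈ I → ¬ (u < u' ∧ u' < v ∧ v < v')
  split : ∀ u v k, (u, v) ∈ I → k ∈ C → u < k → k < v →
    ∃ c, c ∈ C ∧ u < c ∧ c < v ∧ (u, c) ∈ I ∧ (c, v) ∈ I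
  parent : ∀ u v, (u, v) ∈ I → (u, v) ≠ (a, b) →
    ∃ w, (w < u ∧ (w, u) ∈ I ∧ (w, v) ∈ I) ∨ (v < w ∧ (u, w) ∈ I ∧ (v, w) ∈ I)
  gap : ∀ p q, p ∈ C → q ∈ C → p < q → (∀ k ∈ C, ¬ (p < k ∧ k < q)) → (p, q) ∈ I
  fin : ∀ ε : ℝ, 0 < ε → {e : ℝ × ℝ | e ∈ I ∧ ε ≤ e.2 - e.1}.Finite

/-- NRX (60 lines): nearest points exist. Proof. (1) Let `d = |2 * k - u - v| < v - u`. The set
`C ∩ [(u + v - d) / 2, (u + v + d) / 2]` is compact and contains `k`; the continuous function
`x ↦ |2 * x - u - v|` has a minimum on it at a point `c` (`IsCompact.exists_isMinOn`). `u < c < v` since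
`d < v - u`. A point `k' ∈ C ∩ (u, v)` outside of this interval has `|2 * k' - u - v| > d ≥ |2 * c - u - v|`.
(2) `dif_pos` and `Exists.choose_spec`. -/
def Stmt_NRX : Prop :=
  (∀ (C : Set ℝ) (u v k : ℝ), IsClosed C → k ∈ C → u < k → k < v → ∃ c, Nr C u v c) ∧
  ∀ (C : Set ℝ) (u v : ℝ), (∃ c, Nr C u v c) → Nr C u v (sp C u v)

/-- IVL (120 lines): the intervals are nested or disjoint. Proofs. (1) Induction. (2) Induction on `n`: the
parents `(U, V)`, `(U', V')` (of level `n`) are equal, and then the children are `(U, c)` or `(c, V)` with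
`c = sp C U V`, or `V ≤ U'` or `V' ≤ U`; a child of `(U, V)` is contained in `[U, V]`. (3) Induction on `k`.
(4) Induction on `n`: the intervals of level `n + 1` are the images of those of level `n` under
`(u, v) ↦ (u, sp C u v)` and `(u, v) ↦ (sp C u v, v)`. -/
def Stmt_IVL : Prop :=
  ∀ (C : Set ℝ) (a b : ℝ), a ∈ C → b ∈ C → a < b →
    (∀ n u v, Iv C a b n u v → u < v ∧ u ∈ C ∧ v ∈ C ∧ a ≤ u ∧ v ≤ b) ∧
    (∀ n u v u' v', Iv C a b n u v → Iv C a b n u' v' → (u = u' ∧ v = v') ∨ v ≤ u' ∨ v' ≤ u) ∧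
    (∀ n k u v, Iv C a b (n + k) u v → ∃ U V, Iv C a b n U V ∧ U ≤ u ∧ v ≤ V) ∧
    ∀ n, {e : ℝ × ℝ | Iv C a b n e.1 e.2}.Finite

/-- IVD (120 lines): the intervals with points of `C` become short. Proof. (1) `(u, v)` is a child of `(u₁, v₁)`
and this is a child of `(U, V)`, which is cut at `c`. Let `L = V - U`. If `|2 * c - U - V| ≤ L / 2` then
`v₁ - u₁ ≤ 3 / 4 * L`. If `2 * c - U - V < - L / 2` (`c < U + L / 4`) and `(u₁, v₁) = (U, c)` then
`v₁ - u₁ < L / 4`. If `(u₁, v₁) = (c, V)`, cut at `c'`: each `k ∈ C` with `c < k < V` satisfies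
`|2 * c - U - V| ≤ |2 * k - U - V|`, so `k ≥ U + V - c` (`2 * k - U - V > 2 * c - U - V = - |2 * c - U - V|`). If
`(u, v) = (c', V)` then `v - u ≤ c - U < L / 4`. If `(u, v) = (c, c')` let `k ∈ C`, `c < k < c'`: then
`0 < 2 * k - c - V` (`k ≥ U + V - c` and `3 * c < 2 * U + V`), so `|2 * k - c - V| < |2 * c' - c - V|`, against
`Nr C c V c'`. The case `2 * c - U - V > L / 2` is symmetric: each `k ∈ C`, `U < k < c` satisfies
`k ≤ U + V - c`. (2) By (1) and induction on `k`: an interval of level `2 * k` or `2 * k + 1` which contains a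
point of `C` has length at most `(3 / 4) ^ k * (b - a)` (an interval of level 1 or 0: at most `b - a`, IVL 1);
`(3 / 4) ^ k → 0`. -/
def Stmt_IVD : Prop :=
  ∀ (C : Set ℝ) (a b : ℝ), a < b →
    (∀ n u v, Iv C a b (n + 2) u v → (∃ k ∈ C, u < k ∧ k < v) →
      ∃ U V, Iv C a b n U V ∧ (∃ k ∈ C, U < k ∧ k < V) ∧ v - u ≤ 3 / 4 * (V - U)) ∧
    ∀ ε : ℝ, 0 < ε → ∃ N : ℕ, ∀ n u v, N ≤ n → Iv C a b n u v → (∃ k ∈ C, u < k ∧ k < v) → v - u < ε

/-- BIS (120 lines; uses NRX IVL IVD): the subdivision. Proof. `I = {e | ∃ n, Iv C a b n e.1 e.2}`. `root`,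
`sub`: clear (IVL 1). `lam`: for levels `n ≤ m` the second interval is contained in an interval of level `n`
(IVL 3), which is equal to the first one or disjoint from it (IVL 2); the same with exchanged roles for
`m < n`. `split`: NRX gives `Nr C u v (sp C u v)`; `Iv.left`, `Iv.right`. `parent`: cases on `Iv`: for
`Iv.left` the interval is `(u, c)`, `w = v` is the end of the parent, and `(c, v)` is `Iv.right`; for
`Iv.right` symmetric. `gap`: by induction on `n`: `(p, q) ∈ I`, or there is `(u, v)` of level `n` with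
`u ≤ p`, `q ≤ v` and a point of `C` strictly between `u` and `v`. (`n = 0`: `a ≤ p`, `q ≤ b`; if there is
no point of `C` between `a` and `b` then `p = a`, `q = b`. Step: cut at `c ∈ C`; `c ≤ p` or `q ≤ c`. If
`c ≤ p`: the child `(c, v)`; if there is no point of `C` between `c` and `v` then `p = c`, `q = v`. The same
for `q ≤ c`.) For `n = N` of IVD (2) for `ε = q - p` the second case is impossible. `fin`: let `N` be from
IVD (2). If `(u, v)` has level `n > N` and `ε ≤ v - u`, then its parent has level `n - 1 ≥ N`, contains the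
cut point, and has length at least `ε`: impossible. So the set is contained in the union of the levels
`n ≤ N`, which are finite (IVL 4). -/
def Stmt_BIS : Prop :=
  ∀ (C : Set ℝ) (a b : ℝ), IsClosed C → a ∈ C → b ∈ C → a < b → (∀ k ∈ C, a ≤ k ∧ k ≤ b) →
    ∃ I, Bis C a b I

/-! ### The triangulation of a closed set -/

/-- TRA (80 lines): real coordinates of points between the ends of an interval. Proof. (1) `→`: if `t = u` or
`t = v` (or `exp t = exp u`, `exp t = exp v`) the left side is false (`q_CYO` 2). `q_ANG` (2) for `u < v < u + 2π`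
gives `exp t = exp r` with `u < r < v`; `r` and `t` are in `[s, s + 2π]`, so `r = t`, or `|r - t| = 2π`, and
then one of them is `s` and the other `s + 2π`: impossible since `s ≤ u < r < v ≤ s + 2π`. `←`: `q_ANG` (1).
(2) The points `exp u ≠ exp v`, so `Ccw (exp v) (exp t) (exp u)` excludes `Ccw (exp u) (exp t) (exp v)`, that
is `u < t < v` (1), and `t ≠ u, v`. (3) `q_ANG` (1) for `v < t < u + 2π`, or for `v < t + 2π < u + 2π`. (4) the
distance of `exp u` and `exp v` is at most `v - u` (`‖exp (i v) - exp (i u)‖ = 2 |sin ((v - u) / 2)|`; compare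
`B_RCH.lean` in `MP_ae1ff6_sh`). (5) The points `exp u`, `exp v` are different: `0 < v - u < 2π`. -/
def Stmt_TRA : Prop :=
  (∀ s u v t : ℝ, s ≤ u → u < v → v ≤ s + 2 * Real.pi → v < u + 2 * Real.pi → s ≤ t →
    t ≤ s + 2 * Real.pi → (Ccw (Circle.exp u) (Circle.exp t) (Circle.exp v) ↔ u < t ∧ t < v)) ∧
  (∀ s u v t : ℝ, s ≤ u → u < v → v ≤ s + 2 * Real.pi → v < u + 2 * Real.pi → s ≤ t →
    t ≤ s + 2 * Real.pi → Ccw (Circle.exp v) (Circle.exp t) (Circle.exp u) → t < u ∨ v < t) ∧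
  (∀ s u v t : ℝ, s ≤ u → u < v → v ≤ s + 2 * Real.pi → v < u + 2 * Real.pi → s ≤ t →
    t ≤ s + 2 * Real.pi → (t < u ∧ v < t + 2 * Real.pi) ∨ (v < t ∧ t < u + 2 * Real.pi) →
    Ccw (Circle.exp v) (Circle.exp t) (Circle.exp u)) ∧
  (∀ u v : ℝ, u ≤ v → dist (Circle.exp u) (Circle.exp v) ≤ v - u) ∧
  ∀ u v : ℝ, u < v → v < u + 2 * Real.pi → Circle.exp u ≠ Circle.exp v

/-- `T` is an ideal triangulation of the convex hull of the closed set `K` -/
structure TrK (K : Set Circle) (T : Set (Circle × Circle)) : Prop where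
  symm : ∀ x y, (x, y) ∈ T → (y, x) ∈ T
  ne : ∀ x y, (x, y) ∈ T → x ≠ y
  sub : ∀ x y, (x, y) ∈ T → x ∈ K ∧ y ∈ K
  unlinked : ∀ x y z w, (x, y) ∈ T → (z, w) ∈ T → ¬ Link x y z w
  third : ∀ x y k, (x, y) ∈ T → k ∈ K → Ccw x k y → ∃ z, Ccw x z y ∧ (x, z) ∈ T ∧ (z, y) ∈ T
  gap : ∀ p q, Gap K p q → (p, q) ∈ T
  fin : ∀ ε : ℝ, 0 < ε → {a : Circle × Circle | a ∈ T ∧ ε ≤ dist a.1 a.2}.Finite

/-- TRK (200 lines; uses BIS TRA): closed sets have triangulations. Proof. Let `x₀ ∈ K`, `x₀ = exp s`,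
`C = {t | s ≤ t ∧ t ≤ s + 2π ∧ exp t ∈ K}`: closed, contains `s` and `s + 2π`. Let `I` be from BIS for `C`,
`s`, `s + 2π`, and `T` the set of the pairs `(exp u, exp v)`, `(exp v, exp u)` with `(u, v) ∈ I`,
`(u, v) ≠ (s, s + 2π)`; then `s ≤ u < v ≤ s + 2π`, `v < u + 2π`. `symm`, `sub` clear, `ne`: TRA (5).
`unlinked`: by the symmetries of `Link` (`q_LKC`) it is enough that `(exp u, exp v)` and `(exp u', exp v')` are
not linked. By `q_LKC` and TRA (1), (2) one of `u'`, `v'` is in `(u, v)` and the other one is less than `u` or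
greater than `v`: `u < u' < v < v'` or `u' < u < v' < v` (`u' < v'`), against `Bis.lam`. `third`: `k = exp κ`,
`κ ∈ C`. (A) `(x, y) = (exp u, exp v)`: TRA (1): `u < κ < v`; `Bis.split` gives `c`; `(u, c)`, `(c, v)` are not
the root because `v - u < 2π`; `Ccw` by TRA (1). (B) `(x, y) = (exp v, exp u)`: `Bis.parent` gives `w`. Case
`w < u`, `(w, u), (w, v) ∈ I`: if `(w, v) ≠ (s, s + 2π)`: the point `exp w` (TRA 3). If `w = s`,
`v = s + 2π`: `exp v = exp w`, so `(x, y) = (exp w, exp u)` with `(w, u) ∈ I` not the root (`u < v`): case (A).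
Case `v < w` symmetric. `gap`: `p = exp u`, `s ≤ u < s + 2π`, `q = exp v`, `s < v ≤ s + 2π` (`q_CUT`; if
`q = exp s` take `v = s + 2π`); `u, v ∈ C`. If `v ≤ u`: `v < u` (as `p ≠ q`) and `Ccw p x₀ q` (`q_ANG` 1 for
`u < s + 2π < v + 2π`), against `Gap`. So `u < v`, not the root (`p ≠ q`), and no `k ∈ C` is between `u` and `v`
(TRA 1): `Bis.gap`. `fin`: TRA (4): the set is contained in the image of the finite set
`{e ∈ I | ε ≤ e.2 - e.1}` under the two maps. -/
def Stmt_TRK : Prop :=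
  ∀ K : Set Circle, IsClosed K → K.Nonempty → ∃ T, TrK K T

/-- TRI (80 lines): the image of a triangulation under a homeomorphism. Proof. `Ccw (g⁻¹ a) (g⁻¹ b) (g⁻¹ c)` iff
`Ccw a b c` (`Ori g`, `Ori g⁻¹`: `q_MOR` 2); `Link`: `Pool.GC.lhi`, or `q_LKC`. `fin`: `g⁻¹` is uniformly
continuous; compare `B_TRS.lean` in `MP_ae1ff6_sh` (there for powers of `f`). -/
def Stmt_TRI : Prop :=
  ∀ (K : Set Circle) (T : Set (Circle × Circle)) (g : H), Ori g → TrK K T →
    TrK ((g : H) '' K) {e | (g⁻¹ e.1, g⁻¹ e.2) ∈ T}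

/-- EQF (100 lines; uses RCL REQ TRK TRI): an equivariant choice of the triangulations. Proof. `Γ` preserves
the orientation (`q_MOR`). The relation `∃ γ ∈ Γ, γ '' K = K'` is an equivalence relation on the sets; let `r K`
be the representative of the class of `K` (`Quotient.out`) and `h K ∈ Γ` with `h K '' r K = K`. For regions `K`
the set `r K = (h K)⁻¹ '' K` is a region (REQ), closed (RCL) and not empty; let `t (r K)` be from TRK and
`T K = {e | ((h K)⁻¹ e.1, (h K)⁻¹ e.2) ∈ t (r K)}`: `TrK K (T K)` by TRI. Let `γ ∈ Γ`, `K` a region: `r (γ K) = r K`,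
and `(h K)⁻¹ * γ⁻¹ * h (γ K) ∈ Γ` preserves the region `r K`, so it is `1` (`triv`) and `h (γ K) = γ * h K`. So
`e ∈ T K` implies `γ e ∈ T (γ K)`. -/
def Stmt_EQF : Prop :=
  ∀ (Γ : Subgroup H) (E : Set (Circle × Circle)), FirstKind Γ → CutS Γ E →
    ∃ T : Set Circle → Set (Circle × Circle), (∀ K, Reg E K → TrK K (T K)) ∧
      ∀ γ ∈ Γ, ∀ K, Reg E K → ∀ x y, (x, y) ∈ T K → (γ x, γ y) ∈ T ((γ : H) '' K)

/-- RFD (80 lines; uses ARX RSP RCH): only finitely many regions are large. Proof. Let `F` be the finite set of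
the lines `e ∈ E` with `ε ≤ dist e.1 e.2` (`Lmt.fin`). The map `K ↦ {e ∈ F | K ⊆ Arc e.1 e.2}` from the set of
the large regions to the subsets of `F` is injective: let `K ≠ K'`; RSP gives `(p, q) ∈ E` with `p, q ∈ K`,
`K ⊆ Arc p q`, `K' ⊆ Arc q p`; RCH: `ε ≤ dist p q`, so `(p, q) ∈ F`; it is in the set of `K` and not in the one
of `K'` (otherwise the three different points of `K'` are in `Arc p q ∩ Arc q p`, ARX 2).
`Set.Finite.of_finite_image`. -/
def Stmt_RFD : Prop :=
  ∀ E : Set (Circle × Circle), Lmt E → ∀ ε : ℝ, 0 < ε →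
    {K : Set Circle | Reg E K ∧ ∃ x ∈ K, ∃ y ∈ K, ε ≤ dist x y}.Finite

/-- UNK (60 lines; uses ARL): pairs on different sides of a line are not linked. Proof. ARL for the point `p`:
`θ p` is the minimum. `θ p < θ q`, `x, y ∈ Arc p q`: `θ x, θ y ≤ θ q`; `z, w ∈ Arc q p`: `θ z = θ p` or
`θ q ≤ θ z` (the same for `w`; `θ` is injective). By `q_LKC` one of `z`, `w` satisfies `Ccw x _ y` and the other
one `Ccw y _ x`; so if `θ x < θ y` one of them is strictly between `θ x` and `θ y`, impossible; the same if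
`θ y < θ x` (`x ≠ y`). -/
def Stmt_UNK : Prop :=
  ∀ p q x y z w : Circle, p ≠ q → x ∈ Arc p q → y ∈ Arc p q → z ∈ Arc q p → w ∈ Arc q p →
    ¬ Link x y z w

/-- CPL (150 lines; uses ARX RGA RSD RSP REQ EQF RFD UNK): the triangulation `T₀ = {e | ∃ K, Reg E K ∧ e ∈ T K}`,
`T` from EQF. Proof. `Lmt E`. (a) If `Reg E K`, `x, y ∈ K`, `x ≠ y` and no `k ∈ K` satisfies `Ccw x k y`, then
`Gap K x y`. (b) If `(p, q) ∈ E` then RSD gives `K` with `p, q ∈ K ⊆ Arc p q`; `Gap K q p` (`k ∈ Arc p q`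
excludes `Ccw q k p`), so `(q, p) ∈ T K`, `(p, q) ∈ T K`; and there is `k ∈ K` with `Ccw p k q` (`K` has three
points). `symm`, `ne`: `TrK`. `unlinked`: if `(x, y) ∈ T K`, `(z, w) ∈ T K'`: `TrK.unlinked` if `K = K'`;
otherwise RSP and UNK (`TrK.sub`). `third`: let `(x, y) ∈ T K`. If some `k ∈ K` satisfies `Ccw x k y`:
`TrK.third`. Otherwise by (a) and RGA `(x, y) ∈ E`, and (b) and `TrK.third` for the region of (b). `fin`: an edge
`(x, y) ∈ T K` with `ε ≤ dist x y` has `x, y ∈ K`, so `K` is in the finite set of RFD, and each `T K` has only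
finitely many such edges (`Set.Finite.biUnion`). `nonempty`: `E` is not empty, (b). `Keeps`: EQF, REQ. -/
def Stmt_CPLF : Prop := Stmt_CPL

end Pool.TZ
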