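import Pool.Agent.Work.MP_ae1ff6_tz.Defs

/-!
# Invariant ideal triangulations (MP_ae1ff6_gt): statements about the Klein disc used in all parts

These statements are proved in part A (`InterfaceA.lean`).
-/

open Topology Filter Set
open scoped ComplexConjugate

set_option autoImplicit false

namespace Pool.TZ

open Pool.CG Pool.AR Pool.SH

/-- ACT: the action of Möbius maps on the closed Klein disc -/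
def Stmt_ACT : Prop :=
  (∀ g : H, IsMob g → ∀ z : Circle, act g (z : ℂ) = ((g z : Circle) : ℂ)) ∧
  (∀ g : H, IsMob g → ∀ k : ℂ, (‖k‖ < 1 → ‖act g k‖ < 1) ∧ (‖k‖ ≤ 1 → ‖act g k‖ ≤ 1)) ∧
  (∀ g g' : H, IsMob g → IsMob g' → ∀ k : ℂ, ‖k‖ ≤ 1 → act (g * g') k = act g (act g' k)) ∧
  (∀ k : ℂ, ‖k‖ ≤ 1 → act 1 k = k) ∧
  (∀ g : H, IsMob g → ContinuousOn (act g) (Metric.closedBall 0 1)) ∧
  (∀ g : H, IsMob g → ∀ k l : ℂ, ‖k‖ ≤ 1 → ‖l‖ ≤ 1 →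
    act g '' segment ℝ k l = segment ℝ (act g k) (act g l)) ∧
  (∀ g : H, IsMob g → ∀ k l : ℂ, ‖k‖ < 1 → ‖l‖ < 1 → ch (act g k) (act g l) = ch k l) ∧
  ∀ g : H, IsMob g → ∀ (p q : Circle) (k : ℂ), ‖k‖ ≤ 1 →
    ∃ c : ℝ, 0 < c ∧ sd (g p) (g q) (act g k) = c * sd p q k

/-- CHF: the function `ch` -/
def Stmt_CHF : Prop :=
  (∀ k l : ℂ, ch k l = ch l k) ∧
  (∀ k l : ℂ, ‖k‖ < 1 → ‖l‖ < 1 → 1 ≤ ch k l) ∧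
  (∀ k : ℂ, ‖k‖ < 1 → ch k k = 1) ∧
  (∀ k l m : ℂ, ‖k‖ < 1 → ‖l‖ < 1 → ‖m‖ < 1 → ch k l ≤ 2 * ch k m * ch m l) ∧
  (∀ k l m : ℂ, ‖k‖ < 1 → ‖l‖ < 1 → m ∈ segment ℝ k l → ch k m ≤ ch k l) ∧
  (ContinuousOn (fun x : ℂ × ℂ => ch x.1 x.2) (Metric.ball 0 1 ×ˢ Metric.ball 0 1)) ∧
  ∀ r R : ℝ, r < 1 → ∃ r' : ℝ, r' < 1 ∧ ∀ k l : ℂ, ‖k‖ ≤ r → ‖l‖ < 1 → ch k l ≤ R → ‖l‖ ≤ r'

/-- PRD: `Γ` acts properly discontinuously on the open disc -/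
def Stmt_PRD : Prop :=
  ∀ Γ : Subgroup H, FirstKind Γ → ∀ r : ℝ, r < 1 →
    {g : H | g ∈ Γ ∧ ∃ k : ℂ, ‖k‖ ≤ r ∧ ‖act g k‖ ≤ r}.Finite

/-- FRE: a torsion free Fuchsian group acts freely on the open disc -/
def Stmt_FRE : Prop :=
  ∀ Γ : Subgroup H, FirstKind Γ → (∀ γ ∈ Γ, ∀ n : ℕ, 0 < n → γ ^ n = 1 → γ = 1) →
    ∀ g ∈ Γ, ∀ k : ℂ, ‖k‖ < 1 → act g k = k → g = 1

/-- CLO: points of the disc which stay at bounded distance and converge to the circle have the same limit -/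
def Stmt_CLO : Prop :=
  ∀ (ι : Type) (l : Filter ι) (a b : ι → ℂ) (C : ℝ) (z : Circle), (∀ᶠ i in l, ‖a i‖ < 1 ∧ ‖b i‖ < 1) →
    (∀ᶠ i in l, ch (a i) (b i) ≤ C) → Tendsto a l (𝓝 (z : ℂ)) → Tendsto b l (𝓝 (z : ℂ))

end Pool.TZ
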